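import Mathlib
import Pool.Agent.W437.CY.Defs

/-!
# Hodge structures of weight three: endomorphisms and tensor type
-/

set_option linter.unusedSectionVars false

namespace Run7.h853.Cy

open Matrix Pool.Agent.W437.CY

variable {k N : ℕ}

/-- The rational matrix as a complex matrix. -/
abbrev cm (A : Matrix (Fin N) (Fin N) ℚ) : Matrix (Fin N) (Fin N) ℂ :=
  A.map fun t : ℚ => (t : ℂ)

/-- The only endomorphisms of the rational Hodge structure are the rational scalars. -/
def ScalarEnd (V : PolHS k N) : Prop :=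
  ∀ A : Matrix (Fin N) (Fin N) ℚ, (∀ p, ∀ x ∈ V.H p, cm A *ᵥ x ∈ V.H p) → ∃ t : ℚ, A = t • 1

/-- The complex endomorphisms of type `(r, -r)`: they map `H^{p, k - p}` to
`H^{p + r, k - p - r}`. -/
def shiftEnd (V : PolHS k N) (r : ℤ) : Submodule ℂ (Matrix (Fin N) (Fin N) ℂ) where
  carrier := {A | ∀ p, ∀ x ∈ V.H p, A *ᵥ x ∈ ⨆ (q : Fin (k + 1)) (_ : (q : ℤ) = p + r), V.H q}
  zero_mem' := fun p x _ => by
    rw [zero_mulVec]
    exact Submodule.zero_mem _
  add_mem' := fun hA hB p x hx => by
    rw [add_mulVec]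
    exact Submodule.add_mem _ (hA p x hx) (hB p x hx)
  smul_mem' := fun c A hA p x hx => by
    rw [smul_mulVec]
    exact Submodule.smul_mem _ _ (hA p x hx)

/-- The Hodge structure is of tensor type: the algebra of all the endomorphisms of the rational
vector space contains a quaternion algebra `⟨1, I, J, I J⟩`, with `I² = a`, `J² = b`, `J I = - I J`
and `a`, `b` nonzero rational numbers, such that the space spanned by `I`, `J`, `I J` is a sub-Hodge
structure of the Hodge structure of all the endomorphisms: its complexification is the sum of its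
intersections with the spaces of endomorphisms of type `(r, -r)`. -/
def TensorType (V : PolHS k N) : Prop :=
  ∃ (a b : ℚ) (I J : Matrix (Fin N) (Fin N) ℚ), a ≠ 0 ∧ b ≠ 0 ∧ I * I = a • 1 ∧ J * J = b • 1 ∧
    J * I = -(I * J) ∧
    Submodule.span ℂ {cm I, cm J, cm (I * J)} ≤
      ⨆ r : ℤ, Submodule.span ℂ {cm I, cm J, cm (I * J)} ⊓ shiftEnd V r

end Run7.h853.Cy
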