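import Mathlib
import Pool.Agent.Run7.h853.Cy.Defs

/-!
# Hodge structures of weight three: totally real multiplication and tensor type
-/

set_option linter.unusedSectionVars false

namespace Run7.h853.Cy

open Matrix Pool.Agent.W437.CY

variable {k N : ℕ}

/-- The endomorphisms of the rational Hodge structure. -/
def endHS (V : PolHS k N) : Submodule ℚ (Matrix (Fin N) (Fin N) ℚ) where
  carrier := {A | ∀ p, ∀ x ∈ V.H p, cm A *ᵥ x ∈ V.H p}
  zero_mem' := fun p x _ => by
    have h : cm (0 : Matrix (Fin N) (Fin N) ℚ) = 0 := by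
      ext i j
      simp [cm]
    rw [h, zero_mulVec]
    exact Submodule.zero_mem _
  add_mem' := fun {A B} hA hB p x hx => by
    have h : cm (A + B) = cm A + cm B := by
      ext i j
      simp [cm]
    rw [h, add_mulVec]
    exact Submodule.add_mem _ (hA p x hx) (hB p x hx)
  smul_mem' := fun c A hA p x hx => by
    have h : cm (c • A) = (c : ℂ) • cm A := by
      ext i j
      simp [cm]
    rw [h, smul_mulVec]
    exact Submodule.smul_mem _ _ (hA p x hx)

/-- All the endomorphisms of the Hodge structure are self-adjoint for the polarization (for a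
simple Hodge structure with a commutative ring of endomorphisms: the field of endomorphisms is
totally real). -/
def RealMult (V : PolHS k N) : Prop := ∀ A ∈ endHS V, Aᵀ * V.Q = V.Q * A

/-- The complexification of the space `E I + E J + E I J`, where `E` is the ring of
endomorphisms. -/
def quatSpan (V : PolHS k N) (I J : Matrix (Fin N) (Fin N) ℚ) :
    Submodule ℂ (Matrix (Fin N) (Fin N) ℂ) :=
  Submodule.span ℂ {B | ∃ A ∈ endHS V, B = cm (A * I) ∨ B = cm (A * J) ∨ B = cm (A * (I * J))}

/-- The Hodge structure is of tensor type over its ring of endomorphisms `E`: among the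
`E`-linear endomorphisms of the rational vector space there are `I` and `J` which generate a
quaternion algebra over `E` (`I²` and `J²` are nonzero elements of `E`, and `J I = - I J`), such
that `E I + E J + E I J` is a sub-Hodge structure of the Hodge structure of all the
endomorphisms of the rational vector space. -/
def TensorE (V : PolHS k N) : Prop :=
  ∃ I J : Matrix (Fin N) (Fin N) ℚ, (∀ A ∈ endHS V, A * I = I * A ∧ A * J = J * A) ∧
    I * I ∈ endHS V ∧ J * J ∈ endHS V ∧ I * I ≠ 0 ∧ J * J ≠ 0 ∧ J * I = -(I * J) ∧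
    quatSpan V I J ≤ ⨆ r : ℤ, quatSpan V I J ⊓ shiftEnd V r

/-- There are no nonzero Hodge classes in `Sym⁴ V`: a symmetric rational tensor in `V^{⊗ 4}`, with
coefficients `c`, which is a complex linear combination of products `x 0 ⊗ x 1 ⊗ x 2 ⊗ x 3` with
`x j` in `H^{p j, k - p j}` and `p 0 + p 1 + p 2 + p 3 = 2 k`, is zero. -/
def NoQuartic (V : PolHS k N) : Prop :=
  ∀ c : (Fin 4 → Fin N) → ℚ, (∀ (e : Equiv.Perm (Fin 4)) I, c (fun j => I (e j)) = c I) →
    (fun I => ((c I : ℚ) : ℂ)) ∈ Submodule.span ℂ {F | ∃ (x : Fin 4 → Fin N → ℂ)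
      (p : Fin 4 → Fin (k + 1)), (∀ j, x j ∈ V.H (p j)) ∧ ∑ j, (p j : ℕ) = 2 * k ∧
      F = fun I => ∏ j, x j (I j)} → c = 0

end Run7.h853.Cy
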