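import Mathlib
import Pool.Agent.Run7.h853.Cy.Defs2

/-!
# Hodge structures which are independent of a Hodge structure
-/

set_option linter.unusedSectionVars false

namespace Run7.h853.Cy

open Matrix Pool.Agent.W437.CY

variable {k N w e : ℕ}

/-- There are no nonzero Hodge classes in `Sym² V ⊗ W ⊗ W`: a rational tensor in `V ⊗ V ⊗ W ⊗ W`,
with coefficients `c`, symmetric in the first two factors, is zero if it is a complex linear
combination of products `x ⊗ y ⊗ z ⊗ u` with `x`, `y` in `H^{p, k - p}`, `H^{q, k - q}` of `V`,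
with `z`, `u` in `H^{r, w - r}`, `H^{s, w - s}` of `W` and with `p + q + r + s = k + w`. -/
def NoMixed (V : PolHS k N) (W : PolHS w e) : Prop :=
  ∀ c : Fin N → Fin N → Fin e → Fin e → ℚ, (∀ a b s t, c a b s t = c b a s t) →
    (fun a b s t => ((c a b s t : ℚ) : ℂ)) ∈ Submodule.span ℂ {F | ∃ (p q : Fin (k + 1))
      (r s : Fin (w + 1)) (x y : Fin N → ℂ) (z u : Fin e → ℂ), x ∈ V.H p ∧ y ∈ V.H q ∧
      z ∈ W.H r ∧ u ∈ W.H s ∧ (p : ℕ) + q + r + s = k + w ∧
      F = fun a b c d => x a * y b * z c * u d} → c = 0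

/-- The level of `W` is less than `m`: `H^{p, w - p}` is zero if `|p - (w - p)| ≥ m`. -/
def LevelLt (W : PolHS w e) (m : ℕ) : Prop :=
  ∀ p : Fin (w + 1), (m : ℤ) ≤ |2 * (p : ℤ) - w| → W.H p = ⊥

/-- `W` is independent of `V`: the level of `W` is less than the weight `k` of `V`, or the
dimension of `W` is less than the dimension of `V` over its ring of endomorphisms, or there are no
nonzero Hodge classes in `Sym² V ⊗ W ⊗ W`. -/
def Indep (V : PolHS k N) (W : PolHS w e) : Prop :=
  LevelLt W k ∨ e * Module.finrank ℚ (endHS V) < N ∨ NoMixed V W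

/-- `M` is the direct sum of the `W j`, up to Tate twists: there are rational linear maps `p j` from
`M` to `W j` which preserve the decompositions by `p - q` and which give together an isomorphism of
`M` and the direct sum. -/
def IsSum {d l : ℕ} (M : LowHS d l) {J : Type} [Fintype J] {w e : J → ℕ}
    (W : ∀ j, PolHS (w j) (e j)) : Prop :=
  ∃ p : ∀ j, Matrix (Fin (e j)) (Fin l) ℚ,
    (∀ x : Fin l → ℚ, (∀ j, p j *ᵥ x = 0) → x = 0) ∧ ∑ j, e j = l ∧
    ∀ j (a : Fin (2 * d + 1)), ∀ x ∈ M.H a, ((p j).map fun t : ℚ => (t : ℂ)) *ᵥ x ∈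
      ⨆ (b : Fin (w j + 1)) (_ : 2 * (b : ℤ) - w j = a - d), (W j).H b

end Run7.h853.Cy
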