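import Mathlib
import Pool.Agent.Run7.h853.Cy.Defs3

/-!
# The generic Hodge structures of Calabi-Yau type of odd weight
-/

set_option linter.unusedSectionVars false

namespace Run7.h853.Cy

open Matrix Pool.Agent.W437.CY

variable {k N : ℕ}

/-- The Hodge structure `V` of weight `k` is simple with `H^{k,0}` of dimension one, and

* there are no nonzero Hodge classes in `Sym⁴ V`; or
* the weight is three, the endomorphisms are self-adjoint (the field `E` of endomorphisms is
  totally real), `V` is not of tensor type over `E`, and the dimension of `V` over `E` is not 4, 8,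
  14, 20, 32, 56. -/
def CYGen (V : PolHS k N) : Prop :=
  V.IsSimple ∧ Module.finrank ℂ (V.H (Fin.last k)) = 1 ∧
    (NoQuartic V ∨ k = 3 ∧ RealMult V ∧ ¬TensorE V ∧
      ∀ m ∈ ({4, 8, 14, 20, 32, 56} : Finset ℕ), N ≠ m * Module.finrank ℚ (endHS V))

end Run7.h853.Cy
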