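import Mathlib
import Pool.Agent.W437.CY.Hs

/-!
# Hodge structures without endomorphisms are absolutely irreducible
-/

set_option linter.unusedSectionVars false

namespace Run7.h853.Cy

open Matrix ComplexOrder Pool.Agent.W437.HC Pool.Agent.W437.HD Pool.Agent.W437.HP
  Pool.Agent.W437.HR Pool.Agent.W437.CY

variable {B : Type*} [Fintype B] [DecidableEq B] {D : Matrix B B ℂ} {Om : Matrix B B ℚ}
  {S : Finset ℤ} {P : ℤ → Matrix B B ℂ} (d : Pol D Om S P)

/-- The endomorphisms are scalars. -/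
def EndQ (D : Matrix B B ℂ) : Prop :=
  ∀ M : Matrix B B ℚ, cK ℂ M * D = D * cK ℂ M → ∃ a : ℚ, M = a • (1 : Matrix B B ℚ)

/-- The complexification of a rational vector. -/
def cv (x : B → ℚ) : B → ℂ := fun i => ((x i : ℚ) : ℂ)

theorem cK_mulVec (M : Matrix B B ℚ) (x : B → ℚ) : cK ℂ M *ᵥ cv x = cv (M *ᵥ x) := by
  funext i
  simp [cK, cv, mulVec, dotProduct]

theorem cv_inj {x : B → ℚ} (h : cv x = 0) : x = 0 := by
  funext i
  have h1 := congrFun h i
  simpa [cv] using h1

theorem mem_cspan {U : Submodule ℚ (B → ℚ)} {x : B → ℚ} (hx : x ∈ U) : cv x ∈ cspan U :=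
  Submodule.subset_span ⟨x, hx, rfl⟩

/-- The rational subspaces stable under the rational Lie algebra have stable
complexifications. -/
theorem cspan_stable {U : Submodule ℚ (B → ℚ)} (hU : ∀ X ∈ lieM D ℚ, ∀ x ∈ U, X *ᵥ x ∈ U) :
    ∀ x ∈ cspan U, D *ᵥ x ∈ cspan U := by
  have h1 : ∀ X ∈ lieM D ℂ, ∀ x ∈ cspan U, X *ᵥ x ∈ cspan U := by
    intro X hX
    have h2 := mem_span_rat hX
    clear hX
    induction h2 using Submodule.span_induction with
    | mem Y hY =>
      obtain ⟨Y0, hY0, rfl⟩ := hY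
      intro x hx
      unfold cspan at hx
      induction hx using Submodule.span_induction with
      | mem x hx =>
        obtain ⟨u, hu, rfl⟩ := hx
        change cK ℂ Y0 *ᵥ cv u ∈ _
        rw [cK_mulVec]
        exact mem_cspan (hU Y0 hY0 u hu)
      | zero =>
        rw [mulVec_zero]
        exact Submodule.zero_mem _
      | add x y _ _ h1 h2 =>
        rw [mulVec_add]
        exact Submodule.add_mem _ h1 h2
      | smul a x _ h1 =>
        rw [mulVec_smul]
        exact Submodule.smul_mem _ _ h1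
    | zero =>
      intro x _
      rw [zero_mulVec]
      exact Submodule.zero_mem _
    | add X Y _ _ h1 h2 =>
      intro x hx
      rw [add_mulVec]
      exact Submodule.add_mem _ (h1 x hx) (h2 x hx)
    | smul a X _ h1 =>
      intro x hx
      rw [smul_mulVec]
      exact Submodule.smul_mem _ _ (h1 x hx)
  exact h1 D (D_mem D)

theorem cspan_cj {U : Submodule ℚ (B → ℚ)} {x : B → ℂ} (hx : x ∈ cspan U) : cj x ∈ cspan U := by
  unfold cspan at hx
  induction hx using Submodule.span_induction with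
  | mem x hx =>
    obtain ⟨u, hu, rfl⟩ := hx
    have h1 : cj (fun i => ((u i : ℚ) : ℂ)) = cv u := by
      funext i
      simp [cj, cv]
    rw [h1]
    exact mem_cspan hu
  | zero =>
    have h1 : cj (0 : B → ℂ) = 0 := by
      funext i
      simp [cj]
    rw [h1]
    exact Submodule.zero_mem _
  | add x y _ _ h1 h2 =>
    have h3 : cj (x + y) = cj x + cj y := by
      funext i
      simp [cj]
    rw [h3]
    exact Submodule.add_mem _ h1 h2
  | smul a x _ h1 =>
    rw [cj_smul]
    exact Submodule.smul_mem _ _ h1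

/-- A rational matrix which commutes with the rational Lie algebra commutes with the
operator. -/
theorem comm_of_rat {M : Matrix B B ℚ} (hM : ∀ X ∈ lieM D ℚ, X * M = M * X) :
    cK ℂ M * D = D * cK ℂ M := by
  have h1 : ∀ X ∈ lieM D ℂ, X * cK ℂ M = cK ℂ M * X := by
    intro X hX
    have h2 := mem_span_rat hX
    clear hX
    induction h2 using Submodule.span_induction with
    | mem Y hY =>
      obtain ⟨Y0, hY0, rfl⟩ := hY
      rw [← cK_mul, ← cK_mul, hM Y0 hY0]
    | zero => simp
    | add X Y _ _ h1 h2 => rw [add_mul, mul_add, h1, h2]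
    | smul a X _ h1 => rw [smul_mul_assoc, mul_smul_comm, h1]
  exact (h1 D (D_mem D)).symm

section pol

include d

theorem spQ {X : Matrix B B ℚ} (hX : X ∈ lieM D ℚ) : Xᵀ * Om + Om * X = 0 := by
  have h1 := lieM_bil _ (isH_bilc _ d.spD) hX
  change Xᵀ * cK ℚ Om + cK ℚ Om * X = 0 at h1
  rwa [cK_rat] at h1

theorem spC {X : Matrix B B ℂ} (hX : X ∈ lieM D ℂ) : Xᵀ * cK ℂ Om + cK ℂ Om * X = 0 :=
  lieM_bil _ (isH_bilc _ d.spD) hX

/-- Rational simplicity. -/
theorem simple_of_endQ (hE : EndQ D) (N : Submodule ℚ (B → ℚ))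
    (hN : ∀ X ∈ lieM D ℚ, ∀ x ∈ N, X *ᵥ x ∈ N) : N = ⊥ ∨ N = ⊤ := by
  classical
  obtain ⟨b, hb⟩ : ∃ b : LinearMap.BilinForm ℚ (B → ℚ), b = Matrix.toBilin' Om := ⟨_, rfl⟩
  have hbv : ∀ x y, b x y = x ⬝ᵥ (Om *ᵥ y) := fun x y => by rw [hb, Matrix.toBilin'_apply']
  have hanti : ∀ x y, b x y = -b y x := by
    intro x y
    rw [hbv, hbv, dotProduct_mulVec, ← mulVec_transpose, d.skew, neg_mulVec, neg_dotProduct,
      dotProduct_comm]
  have hrefl : b.IsRefl := by
    intro x y h
    rw [hanti, h, neg_zero]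
  have hsp : ∀ X ∈ lieM D ℚ, ∀ x y, b x (X *ᵥ y) = -b (X *ᵥ x) y := by
    intro X hX x y
    rw [hbv, hbv, mulVec_mulVec, eq_neg_of_add_eq_zero_right (spQ d hX), neg_mulVec,
      dotProduct_neg, ← mulVec_mulVec, dotProduct_mulVec x, vecMul_transpose]
  have hcb : ∀ x y : B → ℚ, ww (cK ℂ Om) (cv x) (cv y) = ((b x y : ℚ) : ℂ) := by
    intro x y
    unfold ww
    rw [cK_mulVec, hbv]
    simp [cv, dotProduct]
  have hst := cspan_stable hN
  have hdisj : Disjoint N (b.orthogonal N) := by
    rw [Submodule.disjoint_def]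
    intro x hx hx'
    apply cv_inj
    have h0 : ∀ z ∈ cspan N, ww (cK ℂ Om) (cv x) z = 0 := by
      intro z hz
      unfold cspan at hz
      induction hz using Submodule.span_induction with
      | mem z hz =>
        obtain ⟨u, hu, rfl⟩ := hz
        have h1 : ww (cK ℂ Om) (cv x) (cv u) = 0 := by
          have h2 : b u x = 0 := hx' u hu
          rw [hcb, hanti, h2]
          simp
        exact h1
      | zero => exact ww_zero_right _
      | add z z' _ _ h1 h2 => rw [ww_add_right, h1, h2, add_zero]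
      | smul a z _ h1 => rw [ww_smul_right, h1, mul_zero]
    rw [← d.prj.sum_vec (cv x)]
    refine Finset.sum_eq_zero fun a ha => ?_
    by_contra hne
    have h1 := d.pos a _ (d.P_eig a (cv x)) hne
    have h2 : ww (cK ℂ Om) (cv x) (cj (P a *ᵥ cv x)) = 0 :=
      h0 _ (cspan_cj (d.prj.stable hst a (mem_cspan hx)))
    have h3 : ww (cK ℂ Om) (cv x) (cj (P a *ᵥ cv x)) =
        ww (cK ℂ Om) (P a *ᵥ cv x) (cj (P a *ᵥ cv x)) := by
      have h4 : ww (cK ℂ Om) (∑ c ∈ S, P c *ᵥ cv x) (cj (P a *ᵥ cv x)) =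
          ww (cK ℂ Om) (P a *ᵥ cv x) (cj (P a *ᵥ cv x)) := by
        rw [← wwL_apply, map_sum, LinearMap.sum_apply, Finset.sum_eq_single a]
        · rfl
        · intro c _ hc
          exact d.ww_eig (d.P_eig c (cv x)) (d.cj_eig (d.P_eig a (cv x))) (by omega)
        · intro h
          exact absurd ha h
      rwa [d.prj.sum_vec] at h4
    rw [← h3, h2, mul_zero] at h1
    exact lt_irrefl _ h1
  have hc : IsCompl N (b.orthogonal N) :=
    (LinearMap.BilinForm.isCompl_orthogonal_iff_disjoint hrefl).2 hdisj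
  have hst' : ∀ X ∈ lieM D ℚ, ∀ x ∈ b.orthogonal N, X *ᵥ x ∈ b.orthogonal N := by
    intro X hX x hx n hn
    change b n (X *ᵥ x) = 0
    rw [hsp X hX]
    have h1 : b (X *ᵥ n) x = 0 := hx _ (hN X hX n hn)
    rw [h1, neg_zero]
  obtain ⟨p, hp⟩ : ∃ p : (B → ℚ) →ₗ[ℚ] (B → ℚ), p = N.projection _ hc := ⟨_, rfl⟩
  have hp1 : ∀ x ∈ N, p x = x := fun x hx => by
    rw [hp]
    exact Submodule.projection_apply_of_mem_left hc hx
  have hp2 : ∀ x ∈ b.orthogonal N, p x = 0 := fun x hx => by
    rw [hp]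
    exact (Submodule.projection_apply_eq_zero_iff hc).2 hx
  obtain ⟨M, hM⟩ : ∃ M, M = LinearMap.toMatrix' p := ⟨_, rfl⟩
  have hMv : ∀ x, M *ᵥ x = p x := fun x => by rw [hM, LinearMap.toMatrix'_mulVec]
  have hcom : ∀ X ∈ lieM D ℚ, X * M = M * X := by
    intro X hX
    apply Matrix.ext_of_mulVec_single
    intro i
    rw [← mulVec_mulVec, ← mulVec_mulVec, hMv, hMv]
    have hx : (Pi.single i 1 : B → ℚ) ∈ N ⊔ b.orthogonal N := by
      rw [hc.sup_eq_top]
      trivial
    obtain ⟨u, hu, u', hu', huu⟩ := Submodule.mem_sup.1 hx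
    rw [← huu, mulVec_add, map_add, map_add, hp1 u hu, hp2 u' hu', hp1 _ (hN X hX u hu),
      hp2 _ (hst' X hX u' hu'), add_zero, add_zero]
  obtain ⟨a, ha⟩ := hE M (comm_of_rat hcom)
  by_cases hN0 : N = ⊥
  · exact Or.inl hN0
  · right
    obtain ⟨n, hn, hn0⟩ := Submodule.exists_mem_ne_zero_of_ne_bot hN0
    have h1 := hMv n
    rw [hp1 n hn, ha, smul_mulVec, one_mulVec] at h1
    have h2 : a = 1 := by
      have h3 : (a - 1) • n = 0 := by rw [sub_smul, h1, one_smul, sub_self]
      exact sub_eq_zero.1 ((smul_eq_zero.1 h3).resolve_right hn0)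
    rw [eq_top_iff]
    intro x _
    have h3 := hMv x
    rw [ha, h2, one_smul, one_mulVec] at h3
    rw [h3, hp]
    exact Submodule.projection_apply_mem hc x

/-- Absolute irreducibility. -/
theorem irr_of_endQ [Nonempty B] (hE : EndQ D) (U : Submodule ℂ (B → ℂ))
    (hU : ∀ X ∈ lieM D ℂ, ∀ x ∈ U, X *ᵥ x ∈ U) : U = ⊥ ∨ U = ⊤ := by
  classical
  -- the rational matrices which preserve `U`
  let A : Subalgebra ℚ (Module.End ℚ (B → ℚ)) :=
    { carrier := {f | ∀ u ∈ U, cK ℂ (LinearMap.toMatrix' f) *ᵥ u ∈ U}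
      mul_mem' := by
        intro f g hf hg u hu
        have h1 : LinearMap.toMatrix' (f * g) = LinearMap.toMatrix' f * LinearMap.toMatrix' g :=
          LinearMap.toMatrix'_mul f g
        change cK ℂ (LinearMap.toMatrix' (f * g)) *ᵥ u ∈ U
        rw [h1, cK_mul, ← mulVec_mulVec]
        exact hf _ (hg u hu)
      add_mem' := by
        intro f g hf hg u hu
        have h1 : cK ℂ (LinearMap.toMatrix' (f + g)) =
            cK ℂ (LinearMap.toMatrix' f) + cK ℂ (LinearMap.toMatrix' g) := by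
          rw [map_add]
          ext i j
          simp [cK]
        change cK ℂ (LinearMap.toMatrix' (f + g)) *ᵥ u ∈ U
        rw [h1, add_mulVec]
        exact Submodule.add_mem _ (hf u hu) (hg u hu)
      algebraMap_mem' := by
        intro a u hu
        have h1 : cK ℂ (LinearMap.toMatrix' (algebraMap ℚ (Module.End ℚ (B → ℚ)) a)) =
            (a : ℂ) • (1 : Matrix B B ℂ) := by
          have h2 : algebraMap ℚ (Module.End ℚ (B → ℚ)) a = a • LinearMap.id := rfl
          rw [h2, map_smul, LinearMap.toMatrix'_id]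
          ext i j
          simp only [cK, Matrix.map_apply, Matrix.smul_apply, Matrix.one_apply, smul_eq_mul]
          split_ifs <;> simp
        change cK ℂ (LinearMap.toMatrix' (algebraMap ℚ (Module.End ℚ (B → ℚ)) a)) *ᵥ u ∈ U
        rw [h1, smul_mulVec, one_mulVec]
        exact Submodule.smul_mem _ _ hu }
  have hA : ∀ X ∈ lieM D ℚ, LinearMap.toMatrix'.symm X ∈ A := by
    intro X hX u hu
    rw [LinearEquiv.apply_symm_apply]
    exact hU _ (cast_mem D hX) u hu
  have hsm : ∀ (f : A) (v : B → ℚ), f • v = f.1 v := fun f v => rfl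
  have hsimple : IsSimpleModule A (B → ℚ) := by
    refine { exists_pair_ne := ⟨⊥, ⊤, bot_ne_top⟩, eq_bot_or_eq_top := fun N => ?_ }
    obtain ⟨N', hN'⟩ : ∃ N' : Submodule ℚ (B → ℚ), ∀ x, x ∈ N' ↔ x ∈ N := by
      refine ⟨{ carrier := {x | x ∈ N}
                zero_mem' := N.zero_mem
                add_mem' := fun h1 h2 => N.add_mem h1 h2
                smul_mem' := fun a x hx => ?_ }, fun x => Iff.rfl⟩
      have h1 := N.smul_mem (algebraMap ℚ A a) hx
      exact h1
    rcases simple_of_endQ d hE N' (fun X hX x hx => by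
      rw [hN'] at hx ⊢
      have h1 := N.smul_mem ⟨_, hA X hX⟩ hx
      rw [hsm] at h1
      have h2 : LinearMap.toMatrix'.symm X x = X *ᵥ x := rfl
      rw [← h2]
      exact h1) with h | h
    · left
      rw [Submodule.eq_bot_iff]
      intro x hx
      rw [← hN', h, Submodule.mem_bot] at hx
      exact hx
    · right
      rw [eq_top_iff]
      intro x _
      rw [← hN', h]
      trivial
  -- the endomorphisms are scalars
  have hend : ∀ f : Module.End A (B → ℚ), ∃ a : ℚ, ∀ v, f v = a • v := by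
    intro f
    let f' : (B → ℚ) →ₗ[ℚ] (B → ℚ) :=
      { toFun := f
        map_add' := f.map_add
        map_smul' := fun a v => f.map_smul (algebraMap ℚ A a) v }
    obtain ⟨a, ha⟩ := hE (LinearMap.toMatrix' f') (comm_of_rat fun X hX => by
      apply Matrix.ext_of_mulVec_single
      intro i
      rw [← mulVec_mulVec, ← mulVec_mulVec, LinearMap.toMatrix'_mulVec,
        LinearMap.toMatrix'_mulVec]
      have h1 := f.map_smul ⟨_, hA X hX⟩ (Pi.single i 1)
      rw [hsm, hsm] at h1
      exact h1.symm)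
    refine ⟨a, fun v => ?_⟩
    have h1 : f v = LinearMap.toMatrix' f' *ᵥ v := by
      rw [LinearMap.toMatrix'_mulVec]
      rfl
    rw [h1, ha, smul_mulVec, one_mulVec]
  -- all matrices preserve `U`
  have hall : ∀ g : Module.End ℚ (B → ℚ), g ∈ A := by
    intro g
    let F : Module.End (Module.End A (B → ℚ)) (B → ℚ) :=
      { toFun := g
        map_add' := g.map_add
        map_smul' := fun f v => by
          obtain ⟨a, ha⟩ := hend f
          change g (f v) = f (g v)
          rw [ha, ha, map_smul] }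
    obtain ⟨r, hr⟩ := jacobson_density (R := A) (M := B → ℚ) F
      (Finset.univ.image fun i => (Pi.single i 1 : B → ℚ))
    have h1 : g = r.1 := by
      refine LinearMap.pi_ext' fun i => LinearMap.ext_ring ?_
      exact hr _ (Finset.mem_image_of_mem _ (Finset.mem_univ i))
    rw [h1]
    exact r.2
  by_cases hU0 : U = ⊥
  · exact Or.inl hU0
  · right
    obtain ⟨u, hu, hu0⟩ := Submodule.exists_mem_ne_zero_of_ne_bot hU0
    obtain ⟨j, hj⟩ := Function.ne_iff.1 hu0
    have h1 : ∀ i, (Pi.single i 1 : B → ℂ) ∈ U := by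
      intro i
      have h2 := hall (LinearMap.toMatrix'.symm (Matrix.single i j (1 : ℚ))) u hu
      rw [LinearEquiv.apply_symm_apply] at h2
      have h3 : cK ℂ (Matrix.single i j (1 : ℚ)) *ᵥ u = u j • (Pi.single i 1 : B → ℂ) := by
        funext k
        rw [mulVec, dotProduct, Finset.sum_eq_single j]
        · by_cases hk : k = i
          · subst hk
            simp [cK]
          · simp [cK, hk, Ne.symm hk]
        · intro b _ hb
          simp [cK, Ne.symm hb]
        · intro h
          exact absurd (Finset.mem_univ _) h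
      rw [h3] at h2
      exact (Submodule.smul_mem_iff _ hj).1 h2
    rw [eq_top_iff]
    intro x _
    have h2 : x = ∑ i, x i • (Pi.single i 1 : B → ℂ) := by
      funext k
      simp [Finset.sum_apply, Pi.single_apply]
    rw [h2]
    exact Submodule.sum_mem _ fun i _ => Submodule.smul_mem _ _ (h1 i)

/-- The trace form is nondegenerate. -/
theorem tr_nondeg {X : Matrix B B ℂ} (hX : X ∈ lieM D ℂ)
    (h : ∀ Y ∈ lieM D ℂ, trace (X * Y) = 0) : X = 0 := by
  have key : ∀ X ∈ lieM D ℚ, (∀ Y ∈ lieM D ℚ, trace (X * Y) = 0) → X = 0 := by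
    intro X hX h
    refine d.aniso (spQ d hX) ?_
    have hY := d.prj.fun_mem (fun c => Complex.I ^ (-c)) (cast_mem (K := ℂ) D hX)
    change ∑ a ∈ S, ∑ c ∈ S, (Complex.I ^ (-(a - c))) • (P a * cK ℂ X * P c) ∈ _ at hY
    generalize ∑ a ∈ S, ∑ c ∈ S, (Complex.I ^ (-(a - c))) • (P a * cK ℂ X * P c) = Y at hY
    have h2 := mem_span_rat hY
    clear hY
    induction h2 using Submodule.span_induction with
    | mem Y hY =>
      obtain ⟨Y0, hY0, rfl⟩ := hY
      rw [← cK_mul]
      have h4 : trace (cK ℂ (X * Y0)) = ((trace (X * Y0) : ℚ) : ℂ) := by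
        simp [trace, cK]
      rw [h4, h Y0 hY0, Rat.cast_zero]
    | zero => rw [Matrix.mul_zero, trace_zero]
    | add x y _ _ h1 h2 => rw [Matrix.mul_add, trace_add, h1, h2, add_zero]
    | smul a x _ h1 => rw [Matrix.mul_smul, trace_smul, h1, smul_zero]
  have h1 : ∀ lam : ℂ →ₗ[ℚ] ℚ, X.map lam = 0 := by
    intro lam
    refine key _ (map_mem D hX lam) fun Y hY => ?_
    have h2 := h (cK ℂ Y) (cast_mem D hY)
    have h3 := congrArg lam h2
    rw [map_zero] at h3
    rw [← h3]
    simp only [trace, Matrix.diag_apply, Matrix.mul_apply, map_sum, Matrix.map_apply, cK]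
    refine Finset.sum_congr rfl fun i _ => Finset.sum_congr rfl fun j _ => ?_
    rw [mul_comm (X i j), ← Rat.smul_def, map_smul, smul_eq_mul, mul_comm]
  ext i j
  refine eq_zero_of_lam fun lam => ?_
  have h2 := congrFun (congrFun (h1 lam) i) j
  exact h2

omit d in
theorem tr_zero {Om X : Matrix B B ℂ} (hu : IsUnit Om) (hX : Xᵀ * Om + Om * X = 0) :
    trace X = 0 := by
  obtain ⟨u, rfl⟩ := hu
  have h1 : X = -((u⁻¹ : (Matrix B B ℂ)ˣ) : Matrix B B ℂ) * (Xᵀ * u) := by
    rw [eq_neg_of_add_eq_zero_left hX, neg_mul_neg, ← Matrix.mul_assoc, Units.inv_mul,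
      Matrix.one_mul]
  have h2 : trace X = -trace X := by
    conv_lhs => rw [h1]
    rw [Matrix.neg_mul, trace_neg, trace_mul_comm, Matrix.mul_assoc, Units.mul_inv,
      Matrix.mul_one, trace_transpose]
  have h3 : (2 : ℂ) * trace X = 0 := by linear_combination h2
  exact (mul_eq_zero.1 h3).resolve_left two_ne_zero

end pol

end Run7.h853.Cy
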