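import Mathlib

/-!
# Graded symplectic Lie algebras of Calabi-Yau type of weight three: the grading
-/

set_option linter.unusedSectionVars false

namespace Run7.h853.Cy

open Module

variable {K V : Type*} [Field K] [CharZero K] [AddCommGroup V] [Module K V]

/-- The data of a Lie algebra of Calabi-Yau type of weight three without elements of degree
three. -/
structure Dt (L : Submodule K (End K V)) (D : End K V) (P : ℤ → End K V)
    (w : V →ₗ[K] V →ₗ[K] K) (vp vm : V) : Prop where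
  br : ∀ X ∈ L, ∀ Y ∈ L, X * Y - Y * X ∈ L
  DL : D ∈ L
  gr : ∀ X ∈ L, ∃ Y : ℤ → End K V, (∀ a, Y a ∈ L ∧ D * Y a - Y a * D = (a : K) • Y a) ∧
    X = ∑ a ∈ Finset.Icc (-6) 6, Y a
  anti : ∀ x y, w x y = - w y x
  nd : ∀ x, (∀ y, w x y = 0) → x = 0
  sp : ∀ X ∈ L, ∀ x y, w (X x) y = - w x (X y)
  tot : P 3 + P 1 + P (-1) + P (-3) = 1
  Pl : ∀ a, D * P a = (a : K) • P a
  Pr : ∀ a, P a * D = (a : K) • P a
  ep : D vp = ((3 : ℤ) : K) • vp
  em : D vm = ((-3 : ℤ) : K) • vm
  tp : ∀ x, D x = ((3 : ℤ) : K) • x → ∃ c : K, x = c • vp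
  tm : ∀ x, D x = ((-3 : ℤ) : K) • x → ∃ c : K, x = c • vm
  nz : w vp vm ≠ 0
  irr : ∀ U : Submodule K V, (∀ X ∈ L, ∀ x ∈ U, X x ∈ U) → U = ⊥ ∨ U = ⊤
  tr : ∀ X ∈ L, (∀ Y ∈ L, LinearMap.trace K V (X * Y) = 0) → X = 0
  trz : ∀ X ∈ L, LinearMap.trace K V X = 0
  g3 : ∀ X ∈ L, w (X vm) vm = 0
  g3' : ∀ X ∈ L, w (X vp) vp = 0

/-- The eigenvectors. -/
def E (D : End K V) (a : ℤ) (x : V) : Prop := D x = (a : K) • x

/-- The homogeneous elements. -/
def G (L : Submodule K (End K V)) (D : End K V) (a : ℤ) (X : End K V) : Prop :=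
  X ∈ L ∧ D * X - X * D = (a : K) • X

variable {L : Submodule K (End K V)} {D : End K V} {P : ℤ → End K V}
    {w : V →ₗ[K] V →ₗ[K] K} {vp vm : V}

theorem Dt.flip (d : Dt L D P w vp vm) : Dt L (-D) (fun a => P (-a)) w vm vp where
  br := d.br
  DL := Submodule.neg_mem _ d.DL
  gr := by
    intro X hX
    obtain ⟨Y, hY, rfl⟩ := d.gr X hX
    refine ⟨fun a => Y (-a), fun a => ⟨(hY (-a)).1, ?_⟩, ?_⟩
    · have h1 := (hY (-a)).2
      have h2 : -D * Y (-a) - Y (-a) * -D = -(D * Y (-a) - Y (-a) * D) := by noncomm_ring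
      rw [h2, h1, Int.cast_neg, neg_smul, neg_neg]
    · refine Finset.sum_bij' (fun a _ => -a) (fun a _ => -a) ?_ ?_ ?_ ?_ ?_
      · intro a ha
        simp only [Finset.mem_Icc] at ha ⊢
        omega
      · intro a ha
        simp only [Finset.mem_Icc] at ha ⊢
        omega
      · intro a _
        exact neg_neg a
      · intro a _
        exact neg_neg a
      · intro a _
        simp
  anti := d.anti
  nd := d.nd
  sp := d.sp
  tot := by
    have h := d.tot
    simp only [neg_neg]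
    rw [← h]
    abel
  Pl := fun a => by
    rw [neg_mul, d.Pl, Int.cast_neg, neg_smul, neg_neg]
  Pr := fun a => by
    rw [mul_neg, d.Pr, Int.cast_neg, neg_smul, neg_neg]
  ep := by
    rw [LinearMap.neg_apply, d.em, ← neg_smul]
    norm_num
  em := by
    rw [LinearMap.neg_apply, d.ep, ← neg_smul]
    norm_num
  tp := fun x hx => d.tm x (by
    rw [LinearMap.neg_apply, neg_eq_iff_eq_neg] at hx
    rw [hx, ← neg_smul]
    norm_num)
  tm := fun x hx => d.tp x (by
    rw [LinearMap.neg_apply, neg_eq_iff_eq_neg] at hx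
    rw [hx, ← neg_smul]
    norm_num)
  nz := by
    rw [d.anti, neg_ne_zero]
    exact d.nz
  irr := d.irr
  tr := d.tr
  trz := d.trz
  g3 := d.g3'
  g3' := d.g3

theorem E.neg {a : ℤ} {x : V} (h : E D a x) : E (-D) (-a) x := by
  unfold E at *
  rw [LinearMap.neg_apply, h, Int.cast_neg, neg_smul]

theorem E.neg' {a : ℤ} {x : V} (h : E (-D) (-a) x) : E D a x := by
  have h2 := h.neg
  rwa [neg_neg, neg_neg] at h2

theorem G.neg {a : ℤ} {X : End K V} (h : G L D a X) : G L (-D) (-a) X := by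
  refine ⟨h.1, ?_⟩
  have h2 : -D * X - X * -D = -(D * X - X * D) := by noncomm_ring
  rw [h2, h.2, Int.cast_neg, neg_smul]

theorem G.neg' {a : ℤ} {X : End K V} (h : G L (-D) (-a) X) : G L D a X := by
  have h2 := h.neg
  rwa [neg_neg, neg_neg] at h2

theorem E.add {a : ℤ} {x y : V} (hx : E D a x) (hy : E D a y) : E D a (x + y) := by
  unfold E at *
  rw [map_add, hx, hy, smul_add]

theorem E.smul {a : ℤ} {x : V} (c : K) (hx : E D a x) : E D a (c • x) := by
  unfold E at *
  rw [map_smul, hx, smul_comm]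

theorem G.add {a : ℤ} {X Y : End K V} (hX : G L D a X) (hY : G L D a Y) : G L D a (X + Y) := by
  refine ⟨Submodule.add_mem _ hX.1 hY.1, ?_⟩
  rw [smul_add, ← hX.2, ← hY.2]
  noncomm_ring

theorem G.smul {a : ℤ} {X : End K V} (c : K) (hX : G L D a X) : G L D a (c • X) := by
  refine ⟨Submodule.smul_mem _ _ hX.1, ?_⟩
  rw [smul_comm, ← hX.2, mul_smul_comm, smul_mul_assoc, smul_sub]

theorem G.sub {a : ℤ} {X Y : End K V} (hX : G L D a X) (hY : G L D a Y) : G L D a (X - Y) := by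
  refine ⟨Submodule.sub_mem _ hX.1 hY.1, ?_⟩
  rw [smul_sub, ← hX.2, ← hY.2]
  noncomm_ring

theorem G.zero {a : ℤ} : G L D a 0 := ⟨Submodule.zero_mem _, by simp⟩

/-- The subspace of homogeneous elements. -/
def GS (L : Submodule K (End K V)) (D : End K V) (a : ℤ) : Submodule K (End K V) where
  carrier := {X | G L D a X}
  zero_mem' := G.zero
  add_mem' := fun h1 h2 => h1.add h2
  smul_mem' := fun c _ h => h.smul c

theorem mem_GS {a : ℤ} {X : End K V} : X ∈ GS L D a ↔ G L D a X := Iff.rfl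

theorem G.app {a b : ℤ} {X : End K V} {x : V} (hX : G L D a X) (hx : E D b x) :
    E D (a + b) (X x) := by
  unfold E at *
  have h1 := LinearMap.congr_fun hX.2 x
  simp only [LinearMap.sub_apply, Module.End.mul_apply, LinearMap.smul_apply, hx, map_smul] at h1
  rw [sub_eq_iff_eq_add] at h1
  rw [h1, Int.cast_add, add_smul]

theorem G.app' {a b c : ℤ} {X : End K V} {x : V} (hX : G L D a X) (hx : E D b x)
    (h : c = a + b) : E D c (X x) := by
  rw [h]
  exact hX.app hx

section data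

variable (d : Dt L D P w vp vm)
include d

theorem Dt.P_eig (a : ℤ) (x : V) : E D a (P a x) := by
  unfold E
  rw [← Module.End.mul_apply, d.Pl]
  rfl

theorem Dt.eig_P {a b : ℤ} {x : V} (hx : E D b x) (hab : b ≠ a) : P a x = 0 := by
  have h1 := LinearMap.congr_fun (d.Pr a) x
  rw [Module.End.mul_apply, hx, map_smul, LinearMap.smul_apply] at h1
  have h2 : ((b : K) - a) • P a x = 0 := by rw [sub_smul, h1, sub_self]
  exact (smul_eq_zero.1 h2).resolve_left (sub_ne_zero.2 (by exact_mod_cast hab))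

theorem Dt.sum_P (x : V) : P 3 x + P 1 x + P (-1) x + P (-3) x = x := by
  have h := LinearMap.congr_fun d.tot x
  simpa using h

theorem Dt.eig_zero {b : ℤ} {x : V} (hx : E D b x) (h3 : b ≠ 3) (h1 : b ≠ 1) (h1' : b ≠ -1)
    (h3' : b ≠ -3) : x = 0 := by
  rw [← d.sum_P x, d.eig_P hx h3, d.eig_P hx h1, d.eig_P hx h1', d.eig_P hx h3']
  simp

theorem Dt.P3 {x : V} (hx : E D 3 x) : P 3 x = x := by
  conv_rhs => rw [← d.sum_P x]
  rw [d.eig_P hx (show (3 : ℤ) ≠ 1 by decide), d.eig_P hx (show (3 : ℤ) ≠ -1 by decide),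
    d.eig_P hx (show (3 : ℤ) ≠ -3 by decide)]
  simp

theorem Dt.P1 {x : V} (hx : E D 1 x) : P 1 x = x := by
  conv_rhs => rw [← d.sum_P x]
  rw [d.eig_P hx (show (1 : ℤ) ≠ 3 by decide), d.eig_P hx (show (1 : ℤ) ≠ -1 by decide),
    d.eig_P hx (show (1 : ℤ) ≠ -3 by decide)]
  simp

theorem Dt.Pm1 {x : V} (hx : E D (-1) x) : P (-1) x = x := by
  conv_rhs => rw [← d.sum_P x]
  rw [d.eig_P hx (show (-1 : ℤ) ≠ 3 by decide), d.eig_P hx (show (-1 : ℤ) ≠ 1 by decide),
    d.eig_P hx (show (-1 : ℤ) ≠ -3 by decide)]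
  simp

theorem Dt.Pm3 {x : V} (hx : E D (-3) x) : P (-3) x = x := by
  conv_rhs => rw [← d.sum_P x]
  rw [d.eig_P hx (show (-3 : ℤ) ≠ 3 by decide), d.eig_P hx (show (-3 : ℤ) ≠ 1 by decide),
    d.eig_P hx (show (-3 : ℤ) ≠ -1 by decide)]
  simp

theorem Dt.w_eig {a b : ℤ} {x y : V} (hx : E D a x) (hy : E D b y) (hab : a + b ≠ 0) :
    w x y = 0 := by
  have h1 := d.sp D d.DL x y
  rw [hx, hy, map_smul, LinearMap.smul_apply, map_smul, smul_eq_mul, smul_eq_mul] at h1
  have h2 : ((a : K) + b) * w x y = 0 := by linear_combination h1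
  exact (mul_eq_zero.1 h2).resolve_left (by exact_mod_cast hab)

theorem Dt.sp' {X : End K V} (hX : X ∈ L) (x y : V) : w x (X y) = - w (X x) y := by
  rw [d.sp X hX, neg_neg]

/-- The eigenvectors are separated by the opposite eigenvectors. -/
theorem Dt.sep {a : ℤ} {x : V} (hx : E D a x) (h : ∀ y, E D (-a) y → w x y = 0) : x = 0 := by
  by_contra hx0
  have ha : a = 3 ∨ a = 1 ∨ a = -1 ∨ a = -3 := by
    by_contra h1
    push Not at h1
    exact hx0 (d.eig_zero hx h1.1 h1.2.1 h1.2.2.1 h1.2.2.2)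
  apply hx0
  refine d.nd x fun y => ?_
  rw [← d.sum_P y, map_add, map_add, map_add]
  have key : ∀ b : ℤ, w x (P b y) = 0 := by
    intro b
    by_cases hb : b = -a
    · subst hb
      exact h _ (d.P_eig _ _)
    · exact d.w_eig hx (d.P_eig b y) (by omega)
  rw [key, key, key, key]
  simp

theorem Dt.vp0 : vp ≠ 0 := by
  rintro rfl
  apply d.nz
  simp

theorem Dt.vm0 : vm ≠ 0 := by
  rintro rfl
  apply d.nz
  simp

theorem Dt.Ep : E D 3 vp := d.ep

theorem Dt.Em : E D (-3) vm := d.em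

theorem Dt.G_br {a b : ℤ} {X Y : End K V} (hX : G L D a X) (hY : G L D b Y) :
    G L D (a + b) (X * Y - Y * X) := by
  refine ⟨d.br _ hX.1 _ hY.1, ?_⟩
  have h1 : D * (X * Y - Y * X) - (X * Y - Y * X) * D =
      (D * X - X * D) * Y + X * (D * Y - Y * D) - ((D * Y - Y * D) * X + Y * (D * X - X * D)) := by
    noncomm_ring
  rw [h1, hX.2, hY.2, Int.cast_add]
  simp only [smul_mul_assoc, mul_smul_comm, add_smul, smul_sub]
  abel

theorem Dt.G_br' {a b c : ℤ} {X Y : End K V} (hX : G L D a X) (hY : G L D b Y)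
    (hc : c = a + b) : G L D c (X * Y - Y * X) := by
  rw [hc]
  exact d.G_br hX hY

theorem Dt.GD : G L D 0 D := ⟨d.DL, by simp⟩

/-- The largest subspace. -/
theorem Dt.top_of (U : Submodule K V) (hvm : vm ∈ U)
    (hst : ∀ a : ℤ, 0 < a → ∀ X, G L D a X → ∀ x ∈ U, X x ∈ U) : U = ⊤ := by
  let Q : Set (Submodule K V) := {U | vm ∈ U ∧
    ∀ a : ℤ, 0 < a → ∀ X, G L D a X → ∀ x ∈ U, X x ∈ U}
  let W : Submodule K V := sInf Q
  have hW1 : vm ∈ W := by
    rw [Submodule.mem_sInf]
    exact fun U hU => hU.1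
  have hW2 : ∀ a : ℤ, 0 < a → ∀ X, G L D a X → ∀ x ∈ W, X x ∈ W := by
    intro a ha X hX x hx
    rw [Submodule.mem_sInf] at hx ⊢
    exact fun U hU => hU.2 a ha X hX x (hx U hU)
  let U0 : Submodule K V :=
    { carrier := {u | u ∈ W ∧ ∀ Y ∈ L, Y u ∈ W}
      zero_mem' := ⟨Submodule.zero_mem _, fun Y _ => by
        rw [map_zero]
        exact Submodule.zero_mem _⟩
      add_mem' := fun h1 h2 => ⟨Submodule.add_mem _ h1.1 h2.1, fun Y hY => by
        rw [map_add]
        exact Submodule.add_mem _ (h1.2 Y hY) (h2.2 Y hY)⟩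
      smul_mem' := fun c _ h1 => ⟨Submodule.smul_mem _ _ h1.1, fun Y hY => by
        rw [map_smul]
        exact Submodule.smul_mem _ _ (h1.2 Y hY)⟩ }
  have hU0 : U0 ∈ Q := by
    constructor
    · refine ⟨hW1, fun Y hY => ?_⟩
      obtain ⟨Z, hZ, rfl⟩ := d.gr Y hY
      rw [LinearMap.sum_apply]
      refine Submodule.sum_mem _ fun a _ => ?_
      rcases lt_trichotomy a 0 with ha | ha | ha
      · have h1 : Z a vm = 0 := by
          have h2 : E D (a + -3) (Z a vm) := G.app (hZ a) d.Em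
          exact d.eig_zero h2 (by omega) (by omega) (by omega) (by omega)
        rw [h1]
        exact Submodule.zero_mem _
      · have h2 : E D (a + -3) (Z a vm) := G.app (hZ a) d.Em
        have h3 : E D (-3) (Z a vm) := by
          rw [ha] at h2 ⊢
          exact h2
        obtain ⟨c, hc⟩ := d.tm _ h3
        rw [hc]
        exact Submodule.smul_mem _ _ hW1
      · exact hW2 a ha _ (hZ a) _ hW1
    · intro a ha X hX x hx
      refine ⟨hW2 a ha X hX x hx.1, fun Y hY => ?_⟩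
      have h1 : Y (X x) = X (Y x) + (Y * X - X * Y) x := by
        rw [LinearMap.sub_apply, Module.End.mul_apply, Module.End.mul_apply]
        abel
      rw [h1]
      exact Submodule.add_mem _ (hW2 a ha X hX _ (hx.2 Y hY)) (hx.2 _ (d.br _ hY _ hX.1))
  have hle : W ≤ U0 := sInf_le hU0
  have hWt : W = ⊤ := by
    rcases d.irr W (fun X hX x hx => (hle hx).2 X hX) with h | h
    · exfalso
      rw [h, Submodule.mem_bot] at hW1
      exact d.vm0 hW1
    · exact h
  rw [eq_top_iff, ← hWt]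
  exact sInf_le ⟨hvm, hst⟩

/-- The vectors of weight minus one. -/
theorem Dt.Vm1 {y : V} (hy : E D (-1) y) : ∃ X, G L D 2 X ∧ y = X vm := by
  let U : Submodule K V :=
    { carrier := {x | ∃ X, G L D 2 X ∧ P (-1) x = X vm}
      zero_mem' := ⟨0, G.zero, by simp⟩
      add_mem' := by
        rintro x y ⟨X, hX, hx⟩ ⟨Y, hY, hy⟩
        exact ⟨X + Y, hX.add hY, by rw [map_add, hx, hy]; rfl⟩
      smul_mem' := by
        rintro c x ⟨X, hX, hx⟩
        exact ⟨c • X, hX.smul c, by rw [map_smul, hx]; rfl⟩ }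
  have hU : U = ⊤ := by
    refine d.top_of U ?_ ?_
    · refine ⟨0, G.zero, ?_⟩
      rw [d.eig_P d.Em (by decide)]
      rfl
    · intro a ha X hX x _
      by_cases ha2 : a = 2
      · subst ha2
        obtain ⟨c, hc⟩ := d.tm _ (d.P_eig (-3) x)
        refine ⟨c • X, hX.smul c, ?_⟩
        have h1 : X x = X (P 3 x) + X (P 1 x) + X (P (-1) x) + X (P (-3) x) := by
          conv_lhs => rw [← d.sum_P x]
          simp only [map_add]
        rw [h1, map_add, map_add, map_add, d.eig_P (hX.app (d.P_eig 3 x)) (by decide),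
          d.eig_P (hX.app (d.P_eig 1 x)) (by decide), d.eig_P (hX.app (d.P_eig (-1) x)) (by decide),
          hc, map_smul]
        have h2 : P (-1) (X vm) = X vm := d.Pm1 (hX.app d.Em)
        rw [map_smul, h2]
        simp
      · refine ⟨0, G.zero, ?_⟩
        have h1 : X x = X (P 3 x) + X (P 1 x) + X (P (-1) x) + X (P (-3) x) := by
          conv_lhs => rw [← d.sum_P x]
          simp only [map_add]
        rw [h1, map_add, map_add, map_add, d.eig_P (hX.app (d.P_eig 3 x)) (by omega),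
          d.eig_P (hX.app (d.P_eig 1 x)) (by omega), d.eig_P (hX.app (d.P_eig (-1) x)) (by omega),
          d.eig_P (hX.app (d.P_eig (-3) x)) (by omega)]
        simp
  have h1 : y ∈ U := by
    rw [hU]
    trivial
  obtain ⟨X, hX, h2⟩ := h1
  exact ⟨X, hX, by rw [← h2, d.Pm1 hy]⟩

/-- An element which kills all the eigenvectors is zero. -/
theorem Dt.ext0 {X : End K V} (h3 : ∀ x, E D 3 x → X x = 0) (h1 : ∀ x, E D 1 x → X x = 0)
    (h1' : ∀ x, E D (-1) x → X x = 0) (h3' : ∀ x, E D (-3) x → X x = 0) : X = 0 := by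
  refine LinearMap.ext fun x => ?_
  rw [← d.sum_P x, map_add, map_add, map_add, h3 _ (d.P_eig 3 x), h1 _ (d.P_eig 1 x),
    h1' _ (d.P_eig (-1) x), h3' _ (d.P_eig (-3) x)]
  simp

theorem Dt.G6 {X : End K V} (hX : G L D 6 X) : X = 0 := by
  refine d.ext0 ?_ ?_ ?_ ?_
  · intro x hx
    exact d.eig_zero (hX.app hx) (by decide) (by decide) (by decide) (by decide)
  · intro x hx
    exact d.eig_zero (hX.app hx) (by decide) (by decide) (by decide) (by decide)
  · intro x hx
    exact d.eig_zero (hX.app hx) (by decide) (by decide) (by decide) (by decide)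
  · intro x hx
    obtain ⟨c, rfl⟩ := d.tm x hx
    obtain ⟨c', hc'⟩ := d.tp _ (hX.app' d.Em (c := 3) (by decide))
    have h1 := d.g3 X hX.1
    rw [hc', map_smul, LinearMap.smul_apply, smul_eq_mul] at h1
    have h2 := (mul_eq_zero.1 h1).resolve_right d.nz
    rw [map_smul, hc', h2, zero_smul, smul_zero]

theorem Dt.G4 {X : End K V} (hX : G L D 4 X) : X = 0 := by
  have h0 : X vm = 0 := by
    refine d.sep (hX.app' d.Em (c := 1) (by decide)) ?_
    intro y hy
    obtain ⟨Y, hY, rfl⟩ := d.Vm1 hy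
    have h1 := d.G6 (d.G_br' hY hX (c := 6) (by decide))
    have h2 := LinearMap.congr_fun h1 vm
    simp only [LinearMap.sub_apply, Module.End.mul_apply, LinearMap.zero_apply] at h2
    have h3 : w (Y (X vm)) vm = w (X (Y vm)) vm := by rw [sub_eq_zero.1 h2]
    have h5 := d.sp Y hY.1 (X vm) vm
    have h6 := d.sp X hX.1 (Y vm) vm
    have h7 := d.anti (Y vm) (X vm)
    have h4 : (2 : K) * w (X vm) (Y vm) = 0 := by linear_combination h5 + h7 - h3 - h6
    exact (mul_eq_zero.1 h4).resolve_left two_ne_zero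
  refine d.ext0 ?_ ?_ ?_ ?_
  · intro x hx
    exact d.eig_zero (hX.app hx) (by decide) (by decide) (by decide) (by decide)
  · intro x hx
    exact d.eig_zero (hX.app hx) (by decide) (by decide) (by decide) (by decide)
  · intro x hx
    obtain ⟨c', hc'⟩ := d.tp _ (hX.app' hx (c := 3) (by decide))
    have h1 := d.sp X hX.1 x vm
    rw [hc', h0, map_smul, LinearMap.smul_apply, smul_eq_mul, map_zero, neg_zero] at h1
    have h2 := (mul_eq_zero.1 h1).resolve_right d.nz
    rw [hc', h2, zero_smul]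
  · intro x hx
    obtain ⟨c, rfl⟩ := d.tm x hx
    rw [map_smul, h0, smul_zero]

theorem Dt.Gm4 {X : End K V} (hX : G L D (-4) X) : X = 0 :=
  d.flip.G4 (by simpa using hX.neg)

theorem Dt.Gm6 {X : End K V} (hX : G L D (-6) X) : X = 0 :=
  d.flip.G6 (by simpa using hX.neg)

theorem Dt.G_zero {a : ℤ} (ha : a ≠ 2) (ha' : a ≠ 0) (ha2 : a ≠ -2) {X : End K V}
    (hX : G L D a X) : X = 0 := by
  by_cases h4 : a = 4
  · subst h4
    exact d.G4 hX
  by_cases h6 : a = 6
  · subst h6
    exact d.G6 hX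
  by_cases h4' : a = -4
  · subst h4'
    exact d.Gm4 hX
  by_cases h6' : a = -6
  · subst h6'
    exact d.Gm6 hX
  refine d.ext0 ?_ ?_ ?_ ?_
  all_goals
    intro x hx
    exact d.eig_zero (hX.app hx) (by omega) (by omega) (by omega) (by omega)

/-- The decomposition of the Lie algebra. -/
theorem Dt.dec {X : End K V} (hX : X ∈ L) : ∃ A B C, G L D 2 A ∧ G L D 0 B ∧ G L D (-2) C ∧
    X = A + B + C := by
  obtain ⟨Y, hY, rfl⟩ := d.gr X hX
  refine ⟨Y 2, Y 0, Y (-2), hY 2, hY 0, hY (-2), ?_⟩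
  have h1 : ∀ a ∈ Finset.Icc (-6 : ℤ) 6, a ∉ ({2, 0, -2} : Finset ℤ) → Y a = 0 := by
    intro a _ ha
    simp only [Finset.mem_insert, Finset.mem_singleton, not_or] at ha
    exact d.G_zero ha.1 ha.2.1 ha.2.2 (hY a)
  have h2 : ({2, 0, -2} : Finset ℤ) ⊆ Finset.Icc (-6) 6 := by decide
  rw [← Finset.sum_subset h2 h1, Finset.sum_insert (by decide), Finset.sum_insert (by decide),
    Finset.sum_singleton, add_assoc]

theorem Dt.comm {X Y : End K V} (hX : G L D 2 X) (hY : G L D 2 Y) : X * Y = Y * X :=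
  sub_eq_zero.1 (d.G4 (d.G_br' hX hY (by decide)))

theorem Dt.comm' {X Y : End K V} (hX : G L D (-2) X) (hY : G L D (-2) Y) : X * Y = Y * X :=
  sub_eq_zero.1 (d.Gm4 (d.G_br' hX hY (by decide)))

theorem Dt.inj {X : End K V} (hX : G L D 2 X) (h0 : X vm = 0) : X = 0 := by
  refine d.ext0 ?_ ?_ ?_ ?_
  · intro x hx
    exact d.eig_zero (hX.app hx) (by decide) (by decide) (by decide) (by decide)
  · intro x hx
    obtain ⟨c', hc'⟩ := d.tp _ (hX.app' hx (c := 3) (by decide))
    have h1 := d.sp X hX.1 x vm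
    rw [hc', h0, map_smul, LinearMap.smul_apply, smul_eq_mul, map_zero, neg_zero] at h1
    have h2 := (mul_eq_zero.1 h1).resolve_right d.nz
    rw [hc', h2, zero_smul]
  · intro x hx
    obtain ⟨Y, hY, rfl⟩ := d.Vm1 hx
    rw [← Module.End.mul_apply, d.comm hX hY, Module.End.mul_apply, h0, map_zero]
  · intro x hx
    obtain ⟨c, rfl⟩ := d.tm x hx
    rw [map_smul, h0, smul_zero]

theorem Dt.inj' {X : End K V} (hX : G L D (-2) X) (h0 : X vp = 0) : X = 0 :=
  d.flip.inj (by simpa using hX.neg) h0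

theorem Dt.V1' {y : V} (hy : E D 1 y) : ∃ X, G L D (-2) X ∧ y = X vp := by
  obtain ⟨X, hX, h⟩ := d.flip.Vm1 (y := y) (by simpa using hy.neg)
  refine ⟨X, ?_, h⟩
  have := hX.neg
  rwa [neg_neg] at this

/-- The vectors of weight one. -/
theorem Dt.V1 {y : V} (hy : E D 1 y) :
    y ∈ Submodule.span K {x | ∃ X Y, G L D 2 X ∧ G L D 2 Y ∧ x = X (Y vm)} := by
  obtain ⟨S, hS⟩ : ∃ S, S = Submodule.span K {x | ∃ X Y, G L D 2 X ∧ G L D 2 Y ∧ x = X (Y vm)} :=
    ⟨_, rfl⟩
  rw [← hS]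
  let U : Submodule K V := S.comap (P 1)
  have hU : U = ⊤ := by
    refine d.top_of U ?_ ?_
    · change P 1 vm ∈ S
      rw [d.eig_P d.Em (by decide)]
      exact Submodule.zero_mem _
    · intro a ha X hX x _
      change P 1 (X x) ∈ S
      by_cases ha2 : a = 2
      · subst ha2
        obtain ⟨Y, hY, hYx⟩ := d.Vm1 (d.P_eig (-1) x)
        have h1 : X x = X (P 3 x) + X (P 1 x) + X (P (-1) x) + X (P (-3) x) := by
          conv_lhs => rw [← d.sum_P x]
          simp only [map_add]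
        rw [h1, map_add, map_add, map_add, d.eig_P (hX.app (d.P_eig 3 x)) (by decide),
          d.eig_P (hX.app (d.P_eig 1 x)) (by decide), d.eig_P (hX.app (d.P_eig (-3) x)) (by decide),
          d.P1 (hX.app' (d.P_eig (-1) x) (c := 1) (by decide)), hYx]
        rw [zero_add, zero_add, add_zero, hS]
        exact Submodule.subset_span ⟨X, Y, hX, hY, rfl⟩
      · by_cases ha4 : a = 0
        · omega
        · rw [d.G_zero ha2 ha4 (by omega) hX, LinearMap.zero_apply, map_zero]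
          exact Submodule.zero_mem _
  have h1 : y ∈ U := by
    rw [hU]
    trivial
  change P 1 y ∈ S at h1
  rwa [d.P1 hy] at h1

end data

end Run7.h853.Cy
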