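import Mathlib
import Pool.Agent.Run7.h853.Cy.A

/-!
# The trace form, the character and the dimension formula
-/

set_option linter.unusedSectionVars false

namespace Run7.h853.Cy

open Module

variable {K V : Type*} [Field K] [CharZero K] [AddCommGroup V] [Module K V]
  [FiniteDimensional K V]

omit [CharZero K] [AddCommGroup V] [Module K V] [FiniteDimensional K V] in
theorem proj_sum {W : Type*} [AddCommGroup W] [Module K W] {n : Type*} [Fintype n]
    [DecidableEq n] (b : Basis n K W) (p : Submodule K W) (f : W →ₗ[K] W)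
    (hf : LinearMap.IsProj p f) : ∑ i, b.repr (f (b i)) i = (finrank K p : K) := by
  have := Module.Finite.of_basis b
  rw [← hf.trace, LinearMap.trace_eq_matrix_trace K b, Matrix.trace]
  refine Finset.sum_congr rfl fun i _ => ?_
  rw [Matrix.diag_apply, LinearMap.toMatrix_apply]

/-- The trace form. -/
noncomputable def tB (L : Submodule K (End K V)) : LinearMap.BilinForm K L :=
  LinearMap.mk₂ K (fun X Y => LinearMap.trace K V (X.1 * Y.1))
    (fun X X' Y => by
      rw [Submodule.coe_add, add_mul, map_add])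
    (fun c X Y => by
      rw [Submodule.coe_smul, smul_mul_assoc, map_smul])
    (fun X Y Y' => by
      rw [Submodule.coe_add, mul_add, map_add])
    (fun c X Y => by
      rw [Submodule.coe_smul, mul_smul_comm, map_smul])

theorem tB_apply {L : Submodule K (End K V)} (X Y : L) :
    tB L X Y = LinearMap.trace K V (X.1 * Y.1) := rfl

/-- The character. -/
noncomputable def chi (w : V →ₗ[K] V →ₗ[K] K) (vp vm : V) : End K V →ₗ[K] K where
  toFun Y := w (Y vp) vm / w vp vm
  map_add' X Y := by
    rw [LinearMap.add_apply, map_add, LinearMap.add_apply, add_div]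
  map_smul' c X := by
    rw [LinearMap.smul_apply, map_smul, LinearMap.smul_apply, smul_eq_mul, mul_div_assoc]
    rfl

theorem chi_apply (w : V →ₗ[K] V →ₗ[K] K) (vp vm : V) (Y : End K V) :
    chi w vp vm Y = w (Y vp) vm / w vp vm := rfl

/-- The subspace of eigenvectors. -/
def ES (D : End K V) (a : ℤ) : Submodule K V where
  carrier := {x | E D a x}
  zero_mem' := by
    change D 0 = _
    rw [map_zero, smul_zero]
  add_mem' := fun h1 h2 => h1.add h2
  smul_mem' := fun c _ h => h.smul c

/-- The homogeneous elements, as a subspace of the Lie algebra. -/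
def LG (L : Submodule K (End K V)) (D : End K V) (a : ℤ) : Submodule K L :=
  (GS L D a).comap L.subtype

theorem mem_ES {D : End K V} {a : ℤ} {x : V} : x ∈ ES D a ↔ E D a x := Iff.rfl

variable {L : Submodule K (End K V)} {D : End K V} {P : ℤ → End K V}
    {w : V →ₗ[K] V →ₗ[K] K} {vp vm : V} (d : Dt L D P w vp vm)

include d

theorem Dt.tB_nondeg : (tB L).Nondegenerate := by
  constructor
  · intro X hX
    apply Subtype.ext
    exact d.tr X.1 X.2 fun Y hY => hX ⟨Y, hY⟩
  · intro X hX
    apply Subtype.ext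
    refine d.tr X.1 X.2 fun Y hY => ?_
    rw [LinearMap.trace_mul_comm]
    exact hX ⟨Y, hY⟩

theorem Dt.chi_vp {Y : End K V} (hY : G L D 0 Y) : Y vp = chi w vp vm Y • vp := by
  obtain ⟨c, hc⟩ := d.tp _ (hY.app' d.Ep (c := 3) (by decide))
  rw [chi_apply, hc, map_smul, LinearMap.smul_apply, smul_eq_mul, mul_div_cancel_right₀ _ d.nz]

theorem Dt.chi_vm {Y : End K V} (hY : G L D 0 Y) : Y vm = -chi w vp vm Y • vm := by
  obtain ⟨c, hc⟩ := d.tm _ (hY.app' d.Em (c := -3) (by decide))
  have h1 := d.sp Y hY.1 vp vm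
  rw [d.chi_vp hY, hc, map_smul, map_smul, LinearMap.smul_apply, smul_eq_mul, smul_eq_mul] at h1
  have h2 : (chi w vp vm Y + c) * w vp vm = 0 := by linear_combination h1
  have h3 := (mul_eq_zero.1 h2).resolve_right d.nz
  rw [hc]
  congr 1
  linear_combination h3

theorem Dt.chi_D : chi w vp vm D = 3 := by
  rw [chi_apply, d.ep, map_smul, LinearMap.smul_apply, smul_eq_mul,
    mul_div_cancel_right₀ _ d.nz]
  norm_num

theorem Dt.chi_ne {a : ℤ} (ha : a ≠ 0) {X : End K V} (hX : G L D a X) : chi w vp vm X = 0 := by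
  rw [chi_apply, d.w_eig (hX.app d.Ep) d.Em (by omega), zero_div]

theorem Dt.tr_G {a b : ℤ} {X Y : End K V} (hX : G L D a X) (hY : G L D b Y) (hab : a + b ≠ 0) :
    LinearMap.trace K V (X * Y) = 0 := by
  have h1 : ((a : K) + b) * LinearMap.trace K V (X * Y) = 0 := by
    have h2 : ((a : K) + b) * LinearMap.trace K V (X * Y) =
        LinearMap.trace K V (((a : K) • X) * Y + X * ((b : K) • Y)) := by
      rw [smul_mul_assoc, mul_smul_comm, map_add, map_smul, map_smul, smul_eq_mul, smul_eq_mul]
      ring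
    rw [h2, ← hX.2, ← hY.2]
    have h3 : (D * X - X * D) * Y + X * (D * Y - Y * D) = D * (X * Y) - (X * Y) * D := by
      noncomm_ring
    rw [h3, map_sub, LinearMap.trace_mul_comm, sub_self]
  exact (mul_eq_zero.1 h1).resolve_left (by exact_mod_cast hab)

omit [CharZero K] d in
theorem tr_br (X Y Z : End K V) : LinearMap.trace K V ((X * Y - Y * X) * Z) =
    LinearMap.trace K V (X * (Y * Z - Z * Y)) := by
  have h1 : (X * Y - Y * X) * Z = X * (Y * Z) - Y * (X * Z) := by noncomm_ring
  have h2 : X * (Y * Z - Z * Y) = X * (Y * Z) - (X * Z) * Y := by noncomm_ring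
  rw [h1, h2, map_sub, map_sub, LinearMap.trace_mul_comm K Y]

/-- The element which represents the character. -/
theorem Dt.exists_z : ∃ z ∈ L, ∀ Y ∈ L, LinearMap.trace K V (z * Y) = chi w vp vm Y := by
  refine ⟨(((tB L).toDual d.tB_nondeg).symm ((chi w vp vm) ∘ₗ L.subtype)).1, Subtype.coe_prop _,
    fun Y hY => ?_⟩
  have h := LinearMap.BilinForm.apply_toDual_symm_apply (B := tB L) (hB := d.tB_nondeg)
    (f := (chi w vp vm) ∘ₗ L.subtype) (v := ⟨Y, hY⟩)
  exact h

/-- The center. -/
theorem Dt.z_prop {z : End K V} (hz : z ∈ L)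
    (hzY : ∀ Y ∈ L, LinearMap.trace K V (z * Y) = chi w vp vm Y) :
    G L D 0 z ∧ ∀ Y, G L D 0 Y → z * Y = Y * z := by
  have h0 : D * z - z * D = 0 := by
    refine d.tr _ (d.br _ d.DL _ hz) fun Y hY => ?_
    obtain ⟨A, B, C, hA, hB, hC, rfl⟩ := d.dec hY
    have h1 : LinearMap.trace K V ((D * z - z * D) * (A + B + C)) =
        -LinearMap.trace K V ((z * D - D * z) * (A + B + C)) := by
      rw [← map_neg]
      congr 1
      noncomm_ring
    rw [h1, tr_br, hzY _ (d.br _ d.DL _ hY)]
    have h2 : D * (A + B + C) - (A + B + C) * D = (D * A - A * D) + (D * B - B * D) +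
        (D * C - C * D) := by noncomm_ring
    rw [h2, hA.2, hB.2, hC.2, map_add, map_add, map_smul, map_smul, map_smul,
      d.chi_ne (by decide) hA, d.chi_ne (by decide) hC]
    simp
  have hz0 : G L D 0 z := ⟨hz, by rw [h0]; simp⟩
  refine ⟨hz0, fun Y hY => ?_⟩
  rw [← sub_eq_zero]
  refine d.tr _ (d.br _ hz _ hY.1) fun Z hZ => ?_
  rw [tr_br, hzY _ (d.br _ hY.1 _ hZ)]
  obtain ⟨A, B, C, hA, hB, hC, rfl⟩ := d.dec hZ
  have h2 : Y * (A + B + C) - (A + B + C) * Y = (Y * A - A * Y) + (Y * B - B * Y) +
      (Y * C - C * Y) := by noncomm_ring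
  rw [h2, map_add, map_add, d.chi_ne (a := 2) (by decide) (d.G_br' hY hA (by decide)),
    d.chi_ne (a := -2) (by decide) (d.G_br' hY hC (by decide)), zero_add, add_zero, chi_apply,
    LinearMap.sub_apply, Module.End.mul_apply, Module.End.mul_apply, d.chi_vp hY, d.chi_vp hB,
    map_smul, map_smul, d.chi_vp hY, d.chi_vp hB, smul_comm, sub_self, map_zero,
    LinearMap.zero_apply, zero_div]

/-- Schur's lemma. -/
theorem Dt.schur [IsAlgClosed K] {C : End K V} (hC : ∀ X ∈ L, X * C = C * X) :
    ∃ c : K, C = c • 1 := by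
  have hnt : Nontrivial V := ⟨⟨vp, 0, d.vp0⟩⟩
  obtain ⟨c, hc⟩ := Module.End.exists_eigenvalue C
  refine ⟨c, ?_⟩
  have hst : ∀ X ∈ L, ∀ x ∈ LinearMap.ker (C - c • (1 : End K V)),
      X x ∈ LinearMap.ker (C - c • (1 : End K V)) := by
    intro X hX x hx
    rw [LinearMap.mem_ker] at hx ⊢
    have h2 : (C - c • (1 : End K V)) (X x) = X ((C - c • (1 : End K V)) x) := by
      have h3 := LinearMap.congr_fun (hC X hX) x
      simp only [Module.End.mul_apply] at h3
      simp only [LinearMap.sub_apply, LinearMap.smul_apply, Module.End.one_apply, map_sub,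
        map_smul, h3]
    rw [h2, hx, map_zero]
  have h1 : LinearMap.ker (C - c • (1 : End K V)) = ⊤ := by
    rcases d.irr _ hst with h | h
    · exfalso
      obtain ⟨v, hv⟩ := hc.exists_hasEigenvector
      have h2 : v ∈ LinearMap.ker (C - c • (1 : End K V)) := by
        rw [LinearMap.mem_ker, LinearMap.sub_apply, LinearMap.smul_apply, Module.End.one_apply,
          hv.apply_eq_smul, sub_self]
      rw [h, Submodule.mem_bot] at h2
      exact hv.2 h2
    · exact h
  rw [LinearMap.ker_eq_top, sub_eq_zero] at h1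
  exact h1

/-- The projection to the elements of weight `-2`. -/
noncomputable def pr (D : End K V) (X : End K V) : End K V :=
  (8 : K)⁻¹ • ((D * (D * X - X * D) - (D * X - X * D) * D) - (2 : K) • (D * X - X * D))

theorem Dt.pr_eq {A B C : End K V} (hA : G L D 2 A) (hB : G L D 0 B) (hC : G L D (-2) C) :
    pr D (A + B + C) = C := by
  have h2 : D * (A + B + C) - (A + B + C) * D = (D * A - A * D) + (D * B - B * D) +
      (D * C - C * D) := by noncomm_ring
  have h3 : D * (A + B + C) - (A + B + C) * D = (2 : K) • A - (2 : K) • C := by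
    rw [h2, hA.2, hB.2, hC.2]
    push_cast
    module
  unfold pr
  rw [h3]
  have h4 : D * ((2 : K) • A - (2 : K) • C) - ((2 : K) • A - (2 : K) • C) * D =
      (2 : K) • (D * A - A * D) - (2 : K) • (D * C - C * D) := by
    simp only [mul_sub, sub_mul, mul_smul_comm, smul_mul_assoc, smul_sub]
    abel
  rw [h4, hA.2, hC.2]
  push_cast
  module

theorem Dt.pr_mem {X : End K V} (hX : X ∈ L) : G L D (-2) (pr D X) := by
  obtain ⟨A, B, C, hA, hB, hC, rfl⟩ := d.dec hX
  rw [d.pr_eq hA hB hC]
  exact hC

theorem Dt.pr_self {X : End K V} (hX : G L D (-2) X) : pr D X = X := by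
  have h := d.pr_eq (A := 0) (B := 0) G.zero G.zero hX
  simpa using h

/-- The matrix coefficients of the extreme vectors. -/
theorem Dt.coeff {s : K} (hs : ∀ Y ∈ L, chi w vp vm Y = s * LinearMap.trace K V (D * Y))
    {X Y : End K V} (hX : X ∈ L) (hY : Y ∈ L) :
    w (X vp) (Y vm) = -(w vp vm * s * (2 * LinearMap.trace K V (pr D X * Y) +
      chi w vp vm X * LinearMap.trace K V (D * Y))) := by
  obtain ⟨A, B, C, hA, hB, hC, rfl⟩ := d.dec hX
  obtain ⟨A', B', C', hA', hB', hC', rfl⟩ := d.dec hY
  have e1 : A vp = 0 := d.eig_zero (hA.app d.Ep) (by decide) (by decide) (by decide) (by decide)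
  have e2 : C' vm = 0 := d.eig_zero (hC'.app d.Em) (by decide) (by decide) (by decide) (by decide)
  have e3 : A' vp = 0 := d.eig_zero (hA'.app d.Ep) (by decide) (by decide) (by decide) (by decide)
  rw [d.pr_eq hA hB hC, map_add, map_add, d.chi_ne (by decide) hA, d.chi_ne (by decide) hC]
  simp only [LinearMap.add_apply, e1, e2, zero_add, add_zero, mul_add, map_add]
  rw [d.tr_G hC hB' (by decide), d.tr_G hC hC' (by decide), d.tr_G d.GD hA' (by decide),
    d.tr_G d.GD hC' (by decide), d.chi_vp hB, d.chi_vm hB']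
  have e4 : w (C vp) (A' vm) = -(w vp vm * s * (2 * LinearMap.trace K V (C * A'))) := by
    have f1 := d.sp' hA'.1 (C vp) vm
    have f2 : A' (C vp) = (A' * C - C * A') vp := by
      rw [LinearMap.sub_apply, Module.End.mul_apply, Module.End.mul_apply, e3, map_zero, sub_zero]
    have f3 : G L D 0 (A' * C - C * A') := d.G_br' hA' hC (by decide)
    rw [f1, f2, d.chi_vp f3, map_smul, LinearMap.smul_apply, smul_eq_mul, hs _ f3.1]
    have f4 : LinearMap.trace K V (D * (A' * C - C * A')) =
        2 * LinearMap.trace K V (C * A') := by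
      rw [← tr_br, hA'.2, smul_mul_assoc, map_smul, LinearMap.trace_mul_comm, smul_eq_mul]
      norm_num
    rw [f4]
    ring
  have e5 : chi w vp vm B' = s * LinearMap.trace K V (D * B') := hs _ hB'.1
  have e6 : w (C vp) (-chi w vp vm B' • vm) = 0 := by
    rw [map_smul, d.w_eig (hC.app d.Ep) d.Em (by decide), smul_zero]
  have e7 : w (chi w vp vm B • vp) (A' vm) = 0 := by
    rw [map_smul, LinearMap.smul_apply, d.w_eig d.Ep (hA'.app d.Em) (by decide), smul_zero]
  rw [e4, e6, e7, map_smul, map_smul, LinearMap.smul_apply, smul_eq_mul, smul_eq_mul]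
  simp only [mul_zero, add_zero, zero_add]
  rw [e5]
  ring

/-- The dimension formula. -/
theorem Dt.casimir [IsAlgClosed K] {s : K}
    (hs : ∀ Y ∈ L, chi w vp vm Y = s * LinearMap.trace K V (D * Y)) :
    (finrank K L : K) = (finrank K V : K) *
      (s * (2 * (finrank K (LG L D (-2)) : K) + 3)) := by
  classical
  obtain ⟨b, -⟩ : ∃ b : Basis (Fin (finrank K L)) K L, b = b := ⟨finBasis K L, rfl⟩
  obtain ⟨b', hb'⟩ : ∃ b', b' = (tB L).dualBasis d.tB_nondeg b := ⟨_, rfl⟩
  have hδ : ∀ i j, tB L (b' i) (b j) = if j = i then 1 else 0 := by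
    intro i j
    rw [hb']
    exact LinearMap.BilinForm.apply_dualBasis_left _ _ _ _
  have hsym : ∀ X Y, tB L X Y = tB L Y X := fun X Y => by
    rw [tB_apply, tB_apply, LinearMap.trace_mul_comm]
  have hr' : ∀ X i, b'.repr X i = tB L X (b i) := by
    intro X i
    rw [hb']
    exact LinearMap.BilinForm.dualBasis_repr_apply _ _ _ _
  have f1 : ∀ X : L, X = ∑ i, tB L X (b i) • b' i := by
    intro X
    conv_lhs => rw [← b'.sum_repr X]
    exact Finset.sum_congr rfl fun i _ => by rw [hr']
  have f2 : ∀ X : L, X = ∑ i, tB L (b' i) X • b i := by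
    intro X
    conv_lhs => rw [← b.sum_repr X]
    refine Finset.sum_congr rfl fun i _ => ?_
    congr 1
    conv_rhs => rw [← b.sum_repr X]
    rw [map_sum, Finset.sum_eq_single i]
    · rw [map_smul, hδ, if_pos rfl, smul_eq_mul, mul_one]
    · intro j _ hj
      rw [map_smul, hδ, if_neg hj, smul_zero]
    · intro h
      exact absurd (Finset.mem_univ _) h
  obtain ⟨C, hC⟩ : ∃ C : End K V, C = ∑ i, (b i).1 * (b' i).1 := ⟨_, rfl⟩
  -- the Casimir element commutes with the Lie algebra
  have hcomm : ∀ X ∈ L, X * C = C * X := by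
    intro X hX
    rw [← sub_eq_zero]
    have h1 : X * C - C * X = ∑ i, ((X * (b i).1 - (b i).1 * X) * (b' i).1) +
        ∑ i, ((b i).1 * (X * (b' i).1 - (b' i).1 * X)) := by
      rw [hC, Finset.mul_sum, Finset.sum_mul, ← Finset.sum_sub_distrib,
        ← Finset.sum_add_distrib]
      refine Finset.sum_congr rfl fun i _ => ?_
      noncomm_ring
    have h2 : ∀ i, X * (b i).1 - (b i).1 * X =
        ∑ j, LinearMap.trace K V ((b' j).1 * (X * (b i).1 - (b i).1 * X)) • (b j).1 := by
      intro i
      have h3 := congrArg Subtype.val (f2 ⟨_, d.br X hX _ (b i).2⟩)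
      rw [AddSubmonoidClass.coe_finsetSum] at h3
      exact h3
    have h3 : ∀ i, X * (b' i).1 - (b' i).1 * X =
        ∑ j, LinearMap.trace K V ((X * (b' i).1 - (b' i).1 * X) * (b j).1) • (b' j).1 := by
      intro i
      have h3 := congrArg Subtype.val (f1 ⟨_, d.br X hX _ (b' i).2⟩)
      rw [AddSubmonoidClass.coe_finsetSum] at h3
      exact h3
    have h4 : ∑ i, ((X * (b i).1 - (b i).1 * X) * (b' i).1) = ∑ i, ∑ j,
        LinearMap.trace K V ((b' j).1 * (X * (b i).1 - (b i).1 * X)) • ((b j).1 * (b' i).1) := by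
      refine Finset.sum_congr rfl fun i _ => ?_
      conv_lhs => rw [h2 i]
      rw [Finset.sum_mul]
      exact Finset.sum_congr rfl fun j _ => smul_mul_assoc _ _ _
    have h5 : ∑ i, ((b i).1 * (X * (b' i).1 - (b' i).1 * X)) = ∑ j, ∑ i,
        LinearMap.trace K V ((X * (b' j).1 - (b' j).1 * X) * (b i).1) • ((b j).1 * (b' i).1) := by
      refine Finset.sum_congr rfl fun i _ => ?_
      conv_lhs => rw [h3 i]
      rw [Finset.mul_sum]
      exact Finset.sum_congr rfl fun j _ => mul_smul_comm _ _ _
    rw [h1, h4, h5, Finset.sum_comm, ← Finset.sum_add_distrib]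
    refine Finset.sum_eq_zero fun i _ => ?_
    rw [← Finset.sum_add_distrib]
    refine Finset.sum_eq_zero fun j _ => ?_
    rw [← add_smul]
    have h6 : LinearMap.trace K V ((b' i).1 * (X * (b j).1 - (b j).1 * X)) +
        LinearMap.trace K V ((X * (b' i).1 - (b' i).1 * X) * (b j).1) = 0 := by
      have h7 : (b' i).1 * (X * (b j).1 - (b j).1 * X) =
          (b' i).1 * X * (b j).1 - ((b' i).1 * (b j).1) * X := by noncomm_ring
      have h8 : (X * (b' i).1 - (b' i).1 * X) * (b j).1 =
          X * ((b' i).1 * (b j).1) - (b' i).1 * X * (b j).1 := by noncomm_ring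
      rw [h7, h8, map_sub, map_sub, LinearMap.trace_mul_comm K X]
      ring
    rw [h6, zero_smul]
  obtain ⟨c, hc⟩ := d.schur hcomm
  -- the trace
  have htr : (finrank K L : K) = c * finrank K V := by
    have h1 : LinearMap.trace K V C = finrank K L := by
      rw [hC, map_sum]
      have h2 : ∀ i, LinearMap.trace K V ((b i).1 * (b' i).1) = 1 := by
        intro i
        have h3 := hδ i i
        rw [if_pos rfl, hsym, tB_apply] at h3
        exact h3
      rw [Finset.sum_congr rfl fun i _ => h2 i]
      simp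
    rw [← h1, hc, map_smul, LinearMap.trace_one, smul_eq_mul]
  -- the extreme vectors
  have hex : c * w vp vm = w vp vm *
      (s * (2 * (finrank K (LG L D (-2)) : K) + 3)) := by
    have h1 : w (C vp) vm = c * w vp vm := by
      rw [hc, LinearMap.smul_apply, Module.End.one_apply, map_smul, LinearMap.smul_apply,
        smul_eq_mul]
    rw [← h1, hC, LinearMap.sum_apply, map_sum, LinearMap.sum_apply]
    have h2 : ∀ i, w (((b i).1 * (b' i).1) vp) vm = w vp vm * s *
        (2 * LinearMap.trace K V (pr D (b' i).1 * (b i).1) +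
          chi w vp vm (b' i).1 * LinearMap.trace K V (D * (b i).1)) := by
      intro i
      rw [Module.End.mul_apply, d.sp _ (b i).2, d.coeff hs (b' i).2 (b i).2, neg_neg]
    rw [Finset.sum_congr rfl fun i _ => h2 i, ← Finset.mul_sum, Finset.sum_add_distrib,
      ← Finset.mul_sum]
    have h3 : ∑ i, chi w vp vm (b' i).1 * LinearMap.trace K V (D * (b i).1) = 3 := by
      rw [← d.chi_D]
      have h4 := congrArg Subtype.val (f1 ⟨D, d.DL⟩)
      rw [AddSubmonoidClass.coe_finsetSum] at h4
      have h5 : D = ∑ i, LinearMap.trace K V (D * (b i).1) • (b' i).1 := h4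
      conv_rhs => rw [h5]
      rw [map_sum]
      refine Finset.sum_congr rfl fun i _ => ?_
      rw [map_smul, smul_eq_mul, mul_comm]
    have h4 : ∑ i, LinearMap.trace K V (pr D (b' i).1 * (b i).1) =
        (finrank K (LG L D (-2)) : K) := by
      let f : L →ₗ[K] L :=
        { toFun := fun X => ⟨pr D X.1, (d.pr_mem X.2).1⟩
          map_add' := fun X Y => by
            apply Subtype.ext
            simp only [pr, Submodule.coe_add, mul_add, add_mul, mul_sub, sub_mul]
            module
          map_smul' := fun a X => by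
            apply Subtype.ext
            simp only [pr, Submodule.coe_smul, mul_smul_comm, smul_mul_assoc, RingHom.id_apply,
              mul_sub, sub_mul]
            module }
      have hf : LinearMap.IsProj (LG L D (-2)) f := by
        constructor
        · intro X
          exact d.pr_mem X.2
        · intro X hX
          apply Subtype.ext
          exact d.pr_self hX
      rw [← proj_sum b' _ f hf]
      refine Finset.sum_congr rfl fun i _ => ?_
      rw [hr']
      rfl
    rw [h3, h4]
    ring
  have hcw : c = s * (2 * (finrank K (LG L D (-2)) : K) + 3) := by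
    have h1 : (c - s * (2 * (finrank K (LG L D (-2)) : K) + 3)) *
        w vp vm = 0 := by linear_combination hex
    exact sub_eq_zero.1 ((mul_eq_zero.1 h1).resolve_right d.nz)
  rw [htr, ← hcw, mul_comm]

end Run7.h853.Cy
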