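import Mathlib
import Pool.Agent.Run7.h853.Cy.B

/-!
# Dimensions
-/

set_option linter.unusedSectionVars false

namespace Run7.h853.Cy

open Module

variable {K V : Type*} [Field K] [CharZero K] [AddCommGroup V] [Module K V]
  [FiniteDimensional K V]

variable {L : Submodule K (End K V)} {D : End K V} {P : ℤ → End K V}
    {w : V →ₗ[K] V →ₗ[K] K} {vp vm : V} (d : Dt L D P w vp vm)

include d

theorem Dt.fin3 : finrank K (ES D 3) = 1 := by
  have h : ES D 3 = Submodule.span K {vp} := by
    ext x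
    rw [Submodule.mem_span_singleton]
    constructor
    · intro hx
      obtain ⟨c, hc⟩ := d.tp x hx
      exact ⟨c, hc.symm⟩
    · rintro ⟨c, rfl⟩
      exact d.Ep.smul c
  rw [h]
  exact finrank_span_singleton d.vp0

theorem Dt.finm3 : finrank K (ES D (-3)) = 1 := by
  have h : ES D (-3) = Submodule.span K {vm} := by
    ext x
    rw [Submodule.mem_span_singleton]
    constructor
    · intro hx
      obtain ⟨c, hc⟩ := d.tm x hx
      exact ⟨c, hc.symm⟩
    · rintro ⟨c, rfl⟩
      exact d.Em.smul c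
  rw [h]
  exact finrank_span_singleton d.vm0

theorem Dt.trP {a : ℤ} (ha : ∀ x, E D a x → P a x = x) :
    LinearMap.trace K V (P a) = (finrank K (ES D a) : K) := by
  have h : LinearMap.IsProj (ES D a) (P a) := ⟨fun x => d.P_eig a x, fun x hx => ha x hx⟩
  exact h.trace

theorem Dt.dims : finrank K (ES D (-1)) = finrank K (ES D 1) ∧
    finrank K V = 2 * finrank K (ES D 1) + 2 ∧
    LinearMap.trace K V (D * D) = 2 * (finrank K (ES D 1) : K) + 18 := by
  have e3 := d.trP (a := 3) fun x hx => d.P3 hx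
  have e1 := d.trP (a := 1) fun x hx => d.P1 hx
  have e1' := d.trP (a := -1) fun x hx => d.Pm1 hx
  have e3' := d.trP (a := -3) fun x hx => d.Pm3 hx
  rw [d.fin3] at e3
  rw [d.finm3] at e3'
  have h1 : LinearMap.trace K V (P 3 + P 1 + P (-1) + P (-3)) = (finrank K V : K) := by
    rw [d.tot, LinearMap.trace_one]
  have h2 : LinearMap.trace K V (D * (P 3 + P 1 + P (-1) + P (-3))) = 0 := by
    rw [d.tot, mul_one]
    exact d.trz D d.DL
  have h3 : LinearMap.trace K V (D * (D * (P 3 + P 1 + P (-1) + P (-3)))) =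
      LinearMap.trace K V (D * D) := by
    rw [d.tot, mul_one]
  simp only [mul_add, d.Pl, mul_smul_comm, map_add, map_smul, smul_eq_mul, e3, e1, e1', e3']
    at h1 h2 h3
  push_cast at h1 h2 h3
  have h4 : (finrank K (ES D (-1)) : K) = (finrank K (ES D 1) : K) := by
    linear_combination -h2
  have h5 : finrank K (ES D (-1)) = finrank K (ES D 1) := by exact_mod_cast h4
  refine ⟨h5, ?_, ?_⟩
  · have h6 : (finrank K V : K) = ((2 * finrank K (ES D 1) + 2 : ℕ) : K) := by
      push_cast
      rw [h4] at h1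
      linear_combination -h1
    exact_mod_cast h6
  · rw [h4] at h3
    linear_combination -h3

theorem Dt.finLG : finrank K (LG L D (-2)) = finrank K (ES D 1) := by
  let f : LG L D (-2) →ₗ[K] ES D 1 :=
    { toFun := fun X => ⟨X.1.1 vp, G.app' X.2 d.Ep (by decide)⟩
      map_add' := fun X Y => rfl
      map_smul' := fun c X => rfl }
  have hf : Function.Bijective f := by
    constructor
    · intro X Y hXY
      have h1 : X.1.1 vp = Y.1.1 vp := congrArg Subtype.val hXY
      have h2 : G L D (-2) (X.1.1 - Y.1.1) := G.sub X.2 Y.2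
      have h3 := d.inj' h2 (by rw [LinearMap.sub_apply, h1, sub_self])
      apply Subtype.ext
      apply Subtype.ext
      exact sub_eq_zero.1 h3
    · intro y
      obtain ⟨X, hX, hXy⟩ := d.V1' y.2
      refine ⟨⟨⟨X, hX.1⟩, hX⟩, ?_⟩
      apply Subtype.ext
      exact hXy.symm
  exact (LinearEquiv.ofBijective f hf).finrank_eq

/-- The dimension of the Lie algebra. -/
theorem Dt.dim [IsAlgClosed K] {s : K}
    (hs : ∀ Y ∈ L, chi w vp vm Y = s * LinearMap.trace K V (D * Y)) :
    finrank K L * (finrank K (ES D 1) + 9) =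
      3 * (finrank K (ES D 1) + 1) * (2 * finrank K (ES D 1) + 3) := by
  have h1 := d.casimir hs
  rw [d.finLG, d.dims.2.1] at h1
  have h2 := hs D d.DL
  rw [d.chi_D, d.dims.2.2] at h2
  have h3 : ((finrank K L * (finrank K (ES D 1) + 9) : ℕ) : K) =
      ((3 * (finrank K (ES D 1) + 1) * (2 * finrank K (ES D 1) + 3) : ℕ) : K) := by
    push_cast at h1 ⊢
    linear_combination ((finrank K (ES D 1) : K) + 9) * h1 -
      ((finrank K (ES D 1) : K) + 1) * (2 * (finrank K (ES D 1) : K) + 3) * h2
  exact_mod_cast h3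

theorem Dt.dvd [IsAlgClosed K] {s : K}
    (hs : ∀ Y ∈ L, chi w vp vm Y = s * LinearMap.trace K V (D * Y)) :
    finrank K (ES D 1) + 9 ∣ 360 := by
  have h1 := d.dim hs
  obtain ⟨q, hq⟩ : ∃ q, q = finrank K (ES D 1) := ⟨_, rfl⟩
  rw [← hq] at h1 ⊢
  have h2 : ((q : ℤ) + 9) ∣ 360 := by
    refine ⟨(finrank K L : ℤ) - (6 * q - 39), ?_⟩
    have h3 : (finrank K L : ℤ) * (q + 9) = 3 * (q + 1) * (2 * q + 3) := by exact_mod_cast h1
    linear_combination -h3
  exact_mod_cast h2

end Run7.h853.Cy
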