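import Mathlib
import Pool.Agent.Run7.h853.Cy.C

/-!
# The splitting given by the center of the part of degree zero
-/

set_option linter.unusedSectionVars false

namespace Run7.h853.Cy

open Module

variable {K V : Type*} [Field K] [CharZero K] [AddCommGroup V] [Module K V]
  [FiniteDimensional K V]

/-- A splitting of the parts of degree `2` and `-2` into commuting pieces. -/
structure Split (L : Submodule K (End K V)) (D : End K V)
    (K1 R1 Km Rm : Submodule K (End K V)) : Prop where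
  K1le : ∀ X ∈ K1, G L D 2 X
  R1le : ∀ X ∈ R1, G L D 2 X
  Kmle : ∀ X ∈ Km, G L D (-2) X
  Rmle : ∀ X ∈ Rm, G L D (-2) X
  cov : ∀ X, G L D 2 X → ∃ A ∈ K1, ∃ B ∈ R1, X = A + B
  covm : ∀ X, G L D (-2) X → ∃ A ∈ Km, ∃ B ∈ Rm, X = A + B
  KR : ∀ X ∈ K1, ∀ Y ∈ Rm, X * Y = Y * X
  RK : ∀ X ∈ R1, ∀ Y ∈ Km, X * Y = Y * X
  K0 : K1 ≠ ⊥
  R0 : R1 ≠ ⊥
  Km0 : Km ≠ ⊥
  Rm0 : Rm ≠ ⊥
  sK1 : ∀ Y, G L D 0 Y → ∀ X ∈ K1, Y * X - X * Y ∈ K1
  sR1 : ∀ Y, G L D 0 Y → ∀ X ∈ R1, Y * X - X * Y ∈ R1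
  sKm : ∀ Y, G L D 0 Y → ∀ X ∈ Km, Y * X - X * Y ∈ Km
  sRm : ∀ Y, G L D 0 Y → ∀ X ∈ Rm, Y * X - X * Y ∈ Rm

theorem Split.symm {L : Submodule K (End K V)} {D : End K V}
    {K1 R1 Km Rm : Submodule K (End K V)} (h : Split L D K1 R1 Km Rm) :
    Split L D R1 K1 Rm Km where
  K1le := h.R1le
  R1le := h.K1le
  Kmle := h.Rmle
  Rmle := h.Kmle
  cov := fun X hX => by
    obtain ⟨A, hA, B, hB, h⟩ := h.cov X hX
    exact ⟨B, hB, A, hA, by rw [h, add_comm]⟩
  covm := fun X hX => by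
    obtain ⟨A, hA, B, hB, h⟩ := h.covm X hX
    exact ⟨B, hB, A, hA, by rw [h, add_comm]⟩
  KR := h.RK
  RK := h.KR
  K0 := h.R0
  R0 := h.K0
  Km0 := h.Rm0
  Rm0 := h.Km0
  sK1 := h.sR1
  sR1 := h.sK1
  sKm := h.sRm
  sRm := h.sKm

variable {L : Submodule K (End K V)} {D : End K V} {P : ℤ → End K V}
    {w : V →ₗ[K] V →ₗ[K] K} {vp vm : V} (d : Dt L D P w vp vm)

include d

/-- The cubic form is not zero. -/
theorem Dt.exists3 : ∃ X Y Z, G L D 2 X ∧ G L D 2 Y ∧ G L D 2 Z ∧ w (X (Y (Z vm))) vm ≠ 0 := by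
  by_contra hcon
  push Not at hcon
  have hU : LinearMap.ker (P 3) = ⊤ := by
    refine d.top_of _ ?_ ?_
    · rw [LinearMap.mem_ker, d.eig_P d.Em (by decide)]
    · intro a ha X hX x _
      rw [LinearMap.mem_ker]
      by_cases ha2 : a = 2
      · subst ha2
        have h1 : X x = X (P 3 x) + X (P 1 x) + X (P (-1) x) + X (P (-3) x) := by
          conv_lhs => rw [← d.sum_P x]
          simp only [map_add]
        rw [h1, map_add, map_add, map_add, d.eig_P (hX.app (d.P_eig 3 x)) (by decide),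
          d.eig_P (hX.app (d.P_eig (-1) x)) (by decide),
          d.eig_P (hX.app (d.P_eig (-3) x)) (by decide),
          d.P3 (hX.app' (d.P_eig 1 x) (c := 3) (by decide)), zero_add, add_zero, add_zero]
        have h2 := d.V1 (d.P_eig 1 x)
        have h3 : ∀ u ∈ Submodule.span K {x | ∃ X Y, G L D 2 X ∧ G L D 2 Y ∧ x = X (Y vm)},
            X u = 0 := by
          intro u hu
          induction hu using Submodule.span_induction with
          | mem u hu =>
            obtain ⟨Y, Z, hY, hZ, rfl⟩ := hu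
            have e1 : E D 3 (X (Y (Z vm))) :=
              hX.app' (hY.app' (hZ.app' d.Em (c := -1) (by decide)) (c := 1) (by decide))
                (by decide)
            obtain ⟨c, hc⟩ := d.tp _ e1
            have e2 := hcon X Y Z hX hY hZ
            rw [hc, map_smul, LinearMap.smul_apply, smul_eq_mul] at e2
            rw [hc, (mul_eq_zero.1 e2).resolve_right d.nz, zero_smul]
          | zero => exact map_zero _
          | add x y _ _ h1 h2 => rw [map_add, h1, h2, add_zero]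
          | smul a x _ h1 => rw [map_smul, h1, smul_zero]
        exact h3 _ h2
      · by_cases ha4 : a = 0
        · omega
        · rw [d.G_zero ha2 ha4 (by omega) hX, LinearMap.zero_apply, map_zero]
  have h1 : vp ∈ LinearMap.ker (P 3) := by
    rw [hU]
    trivial
  rw [LinearMap.mem_ker, d.P3 d.Ep] at h1
  exact d.vp0 h1

/-- Commuting elements of opposite degrees are orthogonal. -/
theorem Dt.tr_comm {X Y : End K V} (hX : G L D 2 X) (h : X * Y = Y * X) :
    LinearMap.trace K V (X * Y) = 0 := by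
  have h1 : LinearMap.trace K V ((D * X - X * D) * Y) = 0 := by
    rw [tr_br, h, sub_self, mul_zero, map_zero]
  rw [hX.2, smul_mul_assoc, map_smul, smul_eq_mul] at h1
  refine (mul_eq_zero.1 h1).resolve_left ?_
  norm_num

theorem Dt.sep2 {X : End K V} (hX : G L D 2 X)
    (h : ∀ Y, G L D (-2) Y → LinearMap.trace K V (X * Y) = 0) : X = 0 := by
  refine d.tr X hX.1 fun Y hY => ?_
  obtain ⟨A, B, C, hA, hB, hC, rfl⟩ := d.dec hY
  rw [mul_add, mul_add, map_add, map_add, d.tr_G hX hA (by decide), d.tr_G hX hB (by decide),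
    h C hC]
  simp

theorem Dt.sepm2 {X : End K V} (hX : G L D (-2) X)
    (h : ∀ Y, G L D 2 Y → LinearMap.trace K V (Y * X) = 0) : X = 0 := by
  refine d.flip.sep2 (by simpa using hX.neg) fun Y hY => ?_
  rw [LinearMap.trace_mul_comm]
  exact h Y (by
    have := hY.neg
    rwa [neg_neg, neg_neg] at this)

section adz

variable {z : End K V} (hz : G L D 0 z) (hzc : ∀ Y, G L D 0 Y → z * Y = Y * z)

include hz hzc

/-- The operator `ad z - l` on the elements of degree `a`. -/
noncomputable def fz (d : Dt L D P w vp vm) (hz : G L D 0 z) (a : ℤ) (l : K) :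
    End K (GS L D a) where
  toFun X := ⟨(z * X.1 - X.1 * z) - l • X.1, (d.G_br' hz X.2 (by omega)).sub (G.smul l X.2)⟩
  map_add' X Y := by
    apply Subtype.ext
    change (z * (X.1 + Y.1) - (X.1 + Y.1) * z) - l • (X.1 + Y.1) =
      ((z * X.1 - X.1 * z) - l • X.1) + ((z * Y.1 - Y.1 * z) - l • Y.1)
    rw [mul_add, add_mul, smul_add]
    abel
  map_smul' c X := by
    apply Subtype.ext
    change (z * (c • X.1) - (c • X.1) * z) - l • (c • X.1) =
      c • ((z * X.1 - X.1 * z) - l • X.1)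
    rw [mul_smul_comm, smul_mul_assoc]
    module

theorem Dt.fz_br {l : K} (X : GS L D 2) (Y : GS L D (-2)) :
    X.1 * (fz d hz (-2) (-l) Y).1 - (fz d hz (-2) (-l) Y).1 * X.1 =
      -((fz d hz 2 l X).1 * Y.1 - Y.1 * (fz d hz 2 l X).1) := by
  have h1 := hzc _ (d.G_br' X.2 Y.2 (c := 0) (by decide))
  change X.1 * ((z * Y.1 - Y.1 * z) - (-l) • Y.1) - ((z * Y.1 - Y.1 * z) - (-l) • Y.1) * X.1 =
    -(((z * X.1 - X.1 * z) - l • X.1) * Y.1 - Y.1 * ((z * X.1 - X.1 * z) - l • X.1))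
  simp only [mul_sub, sub_mul, mul_smul_comm, smul_mul_assoc] at h1 ⊢
  rw [sub_eq_sub_iff_add_eq_add] at h1
  have h2 : z * (X.1 * Y.1) + Y.1 * X.1 * z - (X.1 * Y.1 * z + z * (Y.1 * X.1)) = 0 := by
    rw [h1, sub_self]
  rw [← sub_eq_zero, ← h2]
  simp only [mul_assoc]
  module

theorem Dt.fz_pow_br {l : K} (n : ℕ) (X : GS L D 2) (Y : GS L D (-2)) :
    X.1 * ((fz d hz (-2) (-l) ^ n) Y).1 - ((fz d hz (-2) (-l) ^ n) Y).1 * X.1 =
      (-1 : K) ^ n • (((fz d hz 2 l ^ n) X).1 * Y.1 - Y.1 * ((fz d hz 2 l ^ n) X).1) := by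
  induction n generalizing X with
  | zero => simp
  | succ n ih =>
    rw [pow_succ' (fz d hz (-2) (-l)), Module.End.mul_apply, d.fz_br hz hzc, ih, ← smul_neg,
      pow_succ (fz d hz 2 l), Module.End.mul_apply, pow_succ (-1 : K)]
    rw [mul_smul, neg_one_smul]

theorem Dt.fz_comm {l : K} {a : ℤ} {Y : End K V} (hY : G L D 0 Y) (n : ℕ) (X : GS L D a) :
    ((fz d hz a l ^ n) ⟨Y * X.1 - X.1 * Y, d.G_br' hY X.2 (by omega)⟩).1 =
      Y * ((fz d hz a l ^ n) X).1 - ((fz d hz a l ^ n) X).1 * Y := by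
  induction n generalizing X with
  | zero => simp
  | succ n ih =>
    rw [pow_succ (fz d hz a l), Module.End.mul_apply, Module.End.mul_apply]
    have h1 : fz d hz a l ⟨Y * X.1 - X.1 * Y, d.G_br' hY X.2 (by omega)⟩ =
        ⟨Y * (fz d hz a l X).1 - (fz d hz a l X).1 * Y,
          d.G_br' hY (fz d hz a l X).2 (by omega)⟩ := by
      apply Subtype.ext
      change (z * (Y * X.1 - X.1 * Y) - (Y * X.1 - X.1 * Y) * z) - l • (Y * X.1 - X.1 * Y) =
        Y * ((z * X.1 - X.1 * z) - l • X.1) - ((z * X.1 - X.1 * z) - l • X.1) * Y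
      have h2 := hzc Y hY
      simp only [mul_sub, sub_mul, mul_smul_comm, smul_mul_assoc, smul_sub]
      have h3 : z * (Y * X.1) = Y * (z * X.1) := by rw [← mul_assoc, h2, mul_assoc]
      have h4 : X.1 * Y * z = X.1 * z * Y := by rw [mul_assoc, ← h2, mul_assoc]
      rw [h3, h4]
      simp only [mul_assoc]
      abel
    rw [h1, ih]

/-- If the central element has one eigenvalue then it is a multiple of the operator. -/
theorem Dt.eq_smul_of_nil {l : K} {n : ℕ} (h2 : fz d hz 2 l ^ n = 0) :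
    z = (l / 2) • D := by
  have hm2 : fz d hz (-2) (-l) ^ n = 0 := by
    refine LinearMap.ext fun Y => ?_
    apply Subtype.ext
    refine d.sepm2 ((fz d hz (-2) (-l) ^ n) Y).2 fun X hX => ?_
    refine d.tr_comm hX ?_
    rw [← sub_eq_zero]
    have h3 := d.fz_pow_br hz hzc (l := l) n ⟨X, hX⟩ Y
    rw [h3, h2]
    simp
  obtain ⟨z', hz'⟩ : ∃ z', z' = z - (l / 2) • D := ⟨_, rfl⟩
  have hz0 : G L D 0 z' := by
    rw [hz']
    exact hz.sub (d.GD.smul _)
  have hc0 : ∀ Y, G L D 0 Y → z' * Y = Y * z' := by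
    intro Y hY
    have h3 := hY.2
    rw [Int.cast_zero, zero_smul, sub_eq_zero] at h3
    rw [hz', sub_mul, mul_sub, hzc Y hY, smul_mul_assoc, mul_smul_comm, h3]
  have hf2 : ∀ X : GS L D 2, z' * X.1 - X.1 * z' = (fz d hz 2 l X).1 := by
    intro X
    change z' * X.1 - X.1 * z' = (z * X.1 - X.1 * z) - l • X.1
    have h3 := X.2.2
    rw [hz', sub_mul, mul_sub, smul_mul_assoc, mul_smul_comm]
    have h4 : z * X.1 - (l / 2) • (D * X.1) - (X.1 * z - (l / 2) • (X.1 * D)) =
        (z * X.1 - X.1 * z) - (l / 2) • (D * X.1 - X.1 * D) := by module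
    rw [h4, h3, smul_smul]
    congr 2
    push_cast
    ring
  have hfm2 : ∀ X : GS L D (-2), z' * X.1 - X.1 * z' = (fz d hz (-2) (-l) X).1 := by
    intro X
    change z' * X.1 - X.1 * z' = (z * X.1 - X.1 * z) - (-l) • X.1
    have h3 := X.2.2
    rw [hz', sub_mul, mul_sub, smul_mul_assoc, mul_smul_comm]
    have h4 : z * X.1 - (l / 2) • (D * X.1) - (X.1 * z - (l / 2) • (X.1 * D)) =
        (z * X.1 - X.1 * z) - (l / 2) • (D * X.1 - X.1 * D) := by module
    rw [h4, h3, smul_smul]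
    congr 2
    push_cast
    ring
  obtain ⟨mu, hmu⟩ : ∃ mu, mu = chi w vp vm z' := ⟨_, rfl⟩
  have hvp : z' vp = mu • vp := by rw [hmu]; exact d.chi_vp hz0
  have hvm : z' vm = -mu • vm := by rw [hmu]; exact d.chi_vm hz0
  -- on products of two elements
  have key : ∀ (i j : ℕ) (X Y : GS L D 2), (fz d hz 2 l ^ i) X = 0 → (fz d hz 2 l ^ j) Y = 0 →
      ((z' + mu • (1 : End K V)) ^ (i + j)) (X.1 (Y.1 vm)) = 0 := by
    intro i
    induction i with
    | zero =>
      intro j X Y hX _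
      rw [pow_zero, Module.End.one_apply] at hX
      rw [hX]
      exact map_zero _
    | succ i ihi =>
      intro j
      induction j with
      | zero =>
        intro X Y _ hY
        rw [pow_zero, Module.End.one_apply] at hY
        rw [hY]
        have h3 : X.1 ((0 : GS L D 2).1 vm) = 0 := map_zero _
        rw [h3, map_zero]
      | succ j ihj =>
        intro X Y hX hY
        have h3 : (z' + mu • (1 : End K V)) (X.1 (Y.1 vm)) =
            (fz d hz 2 l X).1 (Y.1 vm) + X.1 ((fz d hz 2 l Y).1 vm) := by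
          rw [← hf2, ← hf2]
          simp only [LinearMap.add_apply, LinearMap.smul_apply, Module.End.one_apply,
            LinearMap.sub_apply, Module.End.mul_apply, hvm, map_smul, map_sub]
          module
        rw [show i + 1 + (j + 1) = (i + 1 + j) + 1 by ring, pow_succ, Module.End.mul_apply, h3,
          map_add]
        have h4 : (fz d hz 2 l ^ i) (fz d hz 2 l X) = 0 := by
          rw [← Module.End.mul_apply, ← pow_succ, hX]
        have h5 : (fz d hz 2 l ^ j) (fz d hz 2 l Y) = 0 := by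
          rw [← Module.End.mul_apply, ← pow_succ, hY]
        have h6 := ihi (j + 1) _ _ h4 hY
        rw [show i + (j + 1) = i + 1 + j by ring] at h6
        rw [h6, ihj _ _ hX h5, add_zero]
  have hT : ∀ v, E D 1 v → ((z' + mu • (1 : End K V)) ^ (n + n)) v = 0 := by
    intro v hv
    have h3 := d.V1 hv
    clear hv
    induction h3 using Submodule.span_induction with
    | mem u hu =>
      obtain ⟨X, Y, hX, hY, rfl⟩ := hu
      exact key n n ⟨X, hX⟩ ⟨Y, hY⟩ (by rw [h2]; rfl) (by rw [h2]; rfl)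
    | zero => exact map_zero _
    | add x y _ _ h1 h2 => rw [map_add, h1, h2, add_zero]
    | smul a x _ h1 => rw [map_smul, h1, smul_zero]
  have hT' : ∀ (m : ℕ) (X : GS L D (-2)), ((z' - mu • (1 : End K V)) ^ m) (X.1 vp) =
      ((fz d hz (-2) (-l) ^ m) X).1 vp := by
    intro m
    induction m with
    | zero =>
      intro X
      rfl
    | succ m ih =>
      intro X
      rw [pow_succ, Module.End.mul_apply]
      have h3 : (z' - mu • (1 : End K V)) (X.1 vp) = (fz d hz (-2) (-l) X).1 vp := by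
        rw [← hfm2]
        simp only [LinearMap.smul_apply, Module.End.one_apply,
          LinearMap.sub_apply, Module.End.mul_apply, hvp, map_smul]
      rw [h3, ih, pow_succ (fz d hz (-2) (-l)), Module.End.mul_apply]
  have hT0 : ∀ v, E D 1 v → ((z' - mu • (1 : End K V)) ^ n) v = 0 := by
    intro v hv
    obtain ⟨X, hX, rfl⟩ := d.V1' hv
    have h3 := hT' n ⟨X, hX⟩
    rw [hm2] at h3
    exact h3
  -- the eigenvalue is zero
  have hmu0 : mu = 0 := by
    obtain ⟨X, Y, Z, hX, hY, hZ, hne⟩ := d.exists3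
    obtain ⟨v, hv⟩ : ∃ v, v = Y (Z vm) := ⟨_, rfl⟩
    have hv1 : E D 1 v := by
      rw [hv]
      exact hY.app' (hZ.app' d.Em (c := -1) (by decide)) (by decide)
    have hv0 : v ≠ 0 := by
      rintro rfl
      apply hne
      rw [← hv, map_zero, map_zero, LinearMap.zero_apply]
    classical
    have hex : ∃ k, ((z' - mu • (1 : End K V)) ^ k) v = 0 := ⟨n, hT0 v hv1⟩
    obtain ⟨k, hk, hkmin⟩ : ∃ k, ((z' - mu • (1 : End K V)) ^ k) v = 0 ∧
        ∀ j < k, ((z' - mu • (1 : End K V)) ^ j) v ≠ 0 :=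
      ⟨Nat.find hex, Nat.find_spec hex, fun j hj => Nat.find_min hex hj⟩
    rcases k with _ | k
    · exact absurd hk hv0
    obtain ⟨v', hv'⟩ : ∃ v', v' = ((z' - mu • (1 : End K V)) ^ k) v := ⟨_, rfl⟩
    have hv'0 : v' ≠ 0 := by
      rw [hv']
      exact hkmin k (Nat.lt_succ_self k)
    have hv'1 : E D 1 v' := by
      rw [hv']
      have h3 : ∀ (m : ℕ) (u : V), E D 1 u → E D 1 (((z' - mu • (1 : End K V)) ^ m) u) := by
        intro m
        induction m with
        | zero =>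
          intro u hu
          exact hu
        | succ m ih =>
          intro u hu
          rw [pow_succ, Module.End.mul_apply]
          refine ih _ ?_
          rw [LinearMap.sub_apply, sub_eq_add_neg]
          refine E.add (hz0.app' hu (by decide)) ?_
          rw [LinearMap.smul_apply, Module.End.one_apply, ← neg_smul]
          exact hu.smul _
      exact h3 k v hv1
    have hker : (z' - mu • (1 : End K V)) v' = 0 := by
      rw [hv', ← Module.End.mul_apply, ← pow_succ']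
      exact hk
    have hT2 : (z' + mu • (1 : End K V)) v' = (2 * mu) • v' := by
      rw [LinearMap.sub_apply, LinearMap.smul_apply, Module.End.one_apply, sub_eq_zero] at hker
      rw [LinearMap.add_apply, LinearMap.smul_apply, Module.End.one_apply, hker]
      module
    have hT3 : ∀ m : ℕ, ((z' + mu • (1 : End K V)) ^ m) v' = (2 * mu) ^ m • v' := by
      intro m
      induction m with
      | zero => simp
      | succ m ih => rw [pow_succ', Module.End.mul_apply, ih, map_smul, hT2, smul_smul, pow_succ]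
    have h3 := hT v' hv'1
    rw [hT3] at h3
    have h4 := (smul_eq_zero.1 h3).resolve_right hv'0
    by_contra hmu1
    exact pow_ne_zero _ (mul_ne_zero two_ne_zero hmu1) h4
  -- the element is nilpotent
  rw [hmu0, zero_smul, sub_zero] at hT' hT0
  have hT4 : ∀ (m : ℕ) (X : GS L D 2), (z' ^ m) (X.1 vm) = ((fz d hz 2 l ^ m) X).1 vm := by
    intro m
    induction m with
    | zero =>
      intro X
      rfl
    | succ m ih =>
      intro X
      rw [pow_succ, Module.End.mul_apply]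
      have h3 : z' (X.1 vm) = (fz d hz 2 l X).1 vm := by
        rw [← hf2]
        simp only [LinearMap.sub_apply, Module.End.mul_apply, hvm, hmu0]
        simp
      rw [h3, ih, pow_succ (fz d hz 2 l), Module.End.mul_apply]
  have hnil : z' ^ (n + 1) = 0 := by
    refine d.ext0 ?_ ?_ ?_ ?_
    · intro x hx
      obtain ⟨c, rfl⟩ := d.tp x hx
      rw [pow_succ, Module.End.mul_apply, map_smul, hvp, hmu0]
      simp
    · intro x hx
      rw [pow_succ', Module.End.mul_apply, hT0 x hx, map_zero]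
    · intro x hx
      obtain ⟨X, hX, rfl⟩ := d.Vm1 hx
      have h3 := hT4 n ⟨X, hX⟩
      rw [h2] at h3
      rw [pow_succ', Module.End.mul_apply, h3]
      exact map_zero _
    · intro x hx
      obtain ⟨c, rfl⟩ := d.tm x hx
      rw [pow_succ, Module.End.mul_apply, map_smul, hvm, hmu0]
      simp
  have hz'0 : z' = 0 := by
    refine d.tr z' hz0.1 fun Y hY => ?_
    obtain ⟨A, B, C, hA, hB, hC, rfl⟩ := d.dec hY
    rw [mul_add, mul_add, map_add, map_add, d.tr_G hz0 hA (by decide),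
      d.tr_G hz0 hC (by decide), zero_add, add_zero]
    have h3 : IsNilpotent (z' * B) :=
      ⟨n + 1, by rw [Commute.mul_pow (hc0 B hB), hnil, zero_mul]⟩
    exact (LinearMap.isNilpotent_trace_of_isNilpotent h3).eq_zero
  rw [hz', sub_eq_zero] at hz'0
  exact hz'0

/-- The splitting. -/
theorem Dt.exists_split [IsAlgClosed K] (hne : ∀ s : K, z ≠ s • D) :
    ∃ K1 R1 Km Rm, Split L D K1 R1 Km Rm := by
  have hnt : Nontrivial (GS L D 2) := by
    obtain ⟨X, Y, Z, hX, hY, hZ, h⟩ := d.exists3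
    refine ⟨⟨⟨X, hX⟩, 0, ?_⟩⟩
    intro h0
    apply h
    have h1 : X = 0 := congrArg Subtype.val h0
    rw [h1, LinearMap.zero_apply, map_zero, LinearMap.zero_apply]
  obtain ⟨l, hl⟩ := Module.End.exists_eigenvalue (fz d hz 2 0)
  obtain ⟨n1, hn1⟩ := Filter.eventually_atTop.1
    ((fz d hz 2 l).eventually_isCompl_ker_pow_range_pow)
  obtain ⟨n2, hn2⟩ := Filter.eventually_atTop.1
    ((fz d hz (-2) (-l)).eventually_isCompl_ker_pow_range_pow)
  obtain ⟨n, hn⟩ : ∃ n, n = n1 + n2 + 1 := ⟨_, rfl⟩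
  have c1 := hn1 n (by omega)
  have c2 := hn2 n (by omega)
  have hker : ∃ X : GS L D 2, X ≠ 0 ∧ (fz d hz 2 l ^ n) X = 0 := by
    obtain ⟨X, hX⟩ := hl.exists_hasEigenvector
    refine ⟨X, hX.2, ?_⟩
    have h1 : fz d hz 2 l X = 0 := by
      have h2 := hX.apply_eq_smul
      apply Subtype.ext
      have h3 : (z * X.1 - X.1 * z) - (0 : K) • X.1 = l • X.1 := congrArg Subtype.val h2
      change (z * X.1 - X.1 * z) - l • X.1 = 0
      rw [zero_smul, sub_zero] at h3
      rw [h3, sub_self]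
    rw [hn, pow_succ, Module.End.mul_apply, h1, map_zero]
  have hrange : fz d hz 2 l ^ n ≠ 0 := fun h => hne _ (d.eq_smul_of_nil hz hzc h)
  have hKR : ∀ X ∈ (LinearMap.ker (fz d hz 2 l ^ n)).map (GS L D 2).subtype,
      ∀ Y ∈ (LinearMap.range (fz d hz (-2) (-l) ^ n)).map (GS L D (-2)).subtype,
        X * Y = Y * X := by
    rintro _ ⟨X, hX, rfl⟩ _ ⟨_, ⟨Y, rfl⟩, rfl⟩
    have h1 := d.fz_pow_br hz hzc (l := l) n X Y
    rw [LinearMap.mem_ker.1 hX] at h1
    rw [← sub_eq_zero]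
    refine h1.trans ?_
    simp
  have hRK : ∀ X ∈ (LinearMap.range (fz d hz 2 l ^ n)).map (GS L D 2).subtype,
      ∀ Y ∈ (LinearMap.ker (fz d hz (-2) (-l) ^ n)).map (GS L D (-2)).subtype,
        X * Y = Y * X := by
    rintro _ ⟨_, ⟨X, rfl⟩, rfl⟩ _ ⟨Y, hY, rfl⟩
    have h1 := d.fz_pow_br hz hzc (l := l) n X Y
    rw [LinearMap.mem_ker.1 hY] at h1
    have h2 : (-1 : K) ^ n • (((fz d hz 2 l ^ n) X).1 * Y.1 -
        Y.1 * ((fz d hz 2 l ^ n) X).1) = 0 := by
      rw [← h1]
      simp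
    have h3 : ((-1 : K) ^ n) ≠ 0 := pow_ne_zero _ (by norm_num)
    exact sub_eq_zero.1 ((smul_eq_zero.1 h2).resolve_left h3)
  have hcov : ∀ X, G L D 2 X → ∃ A ∈ (LinearMap.ker (fz d hz 2 l ^ n)).map (GS L D 2).subtype,
      ∃ B ∈ (LinearMap.range (fz d hz 2 l ^ n)).map (GS L D 2).subtype, X = A + B := by
    intro X hX
    have h1 : (⟨X, hX⟩ : GS L D 2) ∈ LinearMap.ker (fz d hz 2 l ^ n) ⊔
        LinearMap.range (fz d hz 2 l ^ n) := by
      rw [c1.sup_eq_top]
      trivial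
    obtain ⟨A, hA, B, hB, hAB⟩ := Submodule.mem_sup.1 h1
    exact ⟨A.1, ⟨A, hA, rfl⟩, B.1, ⟨B, hB, rfl⟩, (congrArg Subtype.val hAB).symm⟩
  have hcovm : ∀ X, G L D (-2) X →
      ∃ A ∈ (LinearMap.ker (fz d hz (-2) (-l) ^ n)).map (GS L D (-2)).subtype,
      ∃ B ∈ (LinearMap.range (fz d hz (-2) (-l) ^ n)).map (GS L D (-2)).subtype,
        X = A + B := by
    intro X hX
    have h1 : (⟨X, hX⟩ : GS L D (-2)) ∈ LinearMap.ker (fz d hz (-2) (-l) ^ n) ⊔
        LinearMap.range (fz d hz (-2) (-l) ^ n) := by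
      rw [c2.sup_eq_top]
      trivial
    obtain ⟨A, hA, B, hB, hAB⟩ := Submodule.mem_sup.1 h1
    exact ⟨A.1, ⟨A, hA, rfl⟩, B.1, ⟨B, hB, rfl⟩, (congrArg Subtype.val hAB).symm⟩
  have hle : ∀ (a : ℤ) (S : Submodule K (GS L D a)), ∀ X ∈ S.map (GS L D a).subtype,
      G L D a X := by
    rintro a S _ ⟨X, _, rfl⟩
    exact X.2
  have hsk : ∀ (a : ℤ) (l : K) (Y : End K V), G L D 0 Y →
      ∀ X ∈ (LinearMap.ker (fz d hz a l ^ n)).map (GS L D a).subtype,
        Y * X - X * Y ∈ (LinearMap.ker (fz d hz a l ^ n)).map (GS L D a).subtype := by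
    rintro a l Y hY _ ⟨X, hX, rfl⟩
    refine ⟨⟨Y * X.1 - X.1 * Y, d.G_br' hY X.2 (by omega)⟩, ?_, rfl⟩
    have h1 := d.fz_comm hz hzc (l := l) hY n X
    rw [LinearMap.mem_ker.1 hX] at h1
    refine LinearMap.mem_ker.2 ?_
    apply Subtype.ext
    rw [h1]
    simp
  have hsr : ∀ (a : ℤ) (l : K) (Y : End K V), G L D 0 Y →
      ∀ X ∈ (LinearMap.range (fz d hz a l ^ n)).map (GS L D a).subtype,
        Y * X - X * Y ∈ (LinearMap.range (fz d hz a l ^ n)).map (GS L D a).subtype := by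
    rintro a l Y hY _ ⟨_, ⟨X, rfl⟩, rfl⟩
    have h1 := d.fz_comm hz hzc (l := l) hY n X
    refine ⟨_, ⟨⟨Y * X.1 - X.1 * Y, d.G_br' hY X.2 (by omega)⟩, rfl⟩, ?_⟩
    exact h1
  have hK0 : (LinearMap.ker (fz d hz 2 l ^ n)).map (GS L D 2).subtype ≠ ⊥ := by
    obtain ⟨X, hX0, hX⟩ := hker
    intro h
    apply hX0
    apply Subtype.ext
    have h1 : X.1 ∈ (LinearMap.ker (fz d hz 2 l ^ n)).map (GS L D 2).subtype := ⟨X, hX, rfl⟩
    rw [h, Submodule.mem_bot] at h1
    exact h1
  have hR0 : (LinearMap.range (fz d hz 2 l ^ n)).map (GS L D 2).subtype ≠ ⊥ := by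
    intro h
    apply hrange
    refine LinearMap.ext fun X => ?_
    apply Subtype.ext
    have h1 : ((fz d hz 2 l ^ n) X).1 ∈
        (LinearMap.range (fz d hz 2 l ^ n)).map (GS L D 2).subtype := ⟨_, ⟨X, rfl⟩, rfl⟩
    rw [h, Submodule.mem_bot] at h1
    exact h1
  refine ⟨_, _, _, _, ⟨hle 2 _, hle 2 _, hle (-2) _, hle (-2) _, hcov, hcovm, hKR, hRK, hK0,
    hR0, ?_, ?_, hsk 2 l, hsr 2 l, hsk (-2) (-l), hsr (-2) (-l)⟩⟩
  · intro h
    apply hK0
    rw [Submodule.eq_bot_iff]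
    intro X hX
    refine d.sep2 (hle 2 _ X hX) fun Y hY => ?_
    obtain ⟨A, hA, B, hB, rfl⟩ := hcovm Y hY
    rw [h, Submodule.mem_bot] at hA
    rw [hA, zero_add]
    exact d.tr_comm (hle 2 _ X hX) (hKR X hX B hB)
  · intro h
    apply hR0
    rw [Submodule.eq_bot_iff]
    intro X hX
    refine d.sep2 (hle 2 _ X hX) fun Y hY => ?_
    obtain ⟨A, hA, B, hB, rfl⟩ := hcovm Y hY
    rw [h, Submodule.mem_bot] at hB
    rw [hB, add_zero]
    exact d.tr_comm (hle 2 _ X hX) (hRK X hX A hA)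

end adz

end Run7.h853.Cy
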