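import Mathlib
import Pool.Agent.Run7.h853.Cy.D

/-!
# The three-dimensional ideal
-/

set_option linter.unusedSectionVars false

namespace Run7.h853.Cy

open Module

variable {K V : Type*} [Field K] [CharZero K] [AddCommGroup V] [Module K V]
  [FiniteDimensional K V]

/-- A three-dimensional simple ideal, spanned by `x`, `y` and their bracket. -/
structure Sl (L : Submodule K (End K V)) (D : End K V) (vm : V) (x y : End K V) (r0 : K) :
    Prop where
  gx : G L D 2 x
  gy : G L D (-2) y
  xx : x * x = 0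
  yy : y * y = 0
  xy : x * y + y * x = r0 • 1
  ne : r0 ≠ 0
  cov : ∀ X, G L D 2 X → ∃ (a : K) (r : End K V), G L D 2 r ∧ r * y = y * r ∧ X = a • x + r
  covm : ∀ X, G L D (-2) X → ∃ (a : K) (r : End K V), G L D (-2) r ∧ r * x = x * r ∧
    X = a • y + r
  rrr : ∀ a b c, G L D 2 a → G L D 2 b → G L D 2 c → a * y = y * a → b * y = y * b →
    c * y = y * c → a (b (c vm)) = 0
  st : ∀ B, G L D 0 B → ∃ a : K, B * x - x * B = a • x ∧ B * y - y * B = -(a • y)

variable {L : Submodule K (End K V)} {D : End K V} {P : ℤ → End K V}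
    {w : V →ₗ[K] V →ₗ[K] K} {vp vm : V} (d : Dt L D P w vp vm)

include d

theorem Dt.dec_unique {A B C : End K V} (hA : G L D 2 A) (hB : G L D 0 B) (hC : G L D (-2) C)
    (h : A + B + C = 0) : A = 0 ∧ B = 0 ∧ C = 0 := by
  have h1 : C = 0 := by
    rw [← d.pr_eq hA hB hC, h]
    simp [pr]
  subst h1
  have h2 : D * (A + B + 0) - (A + B + 0) * D = (D * A - A * D) + (D * B - B * D) := by
    noncomm_ring
  rw [hA.2, hB.2, h] at h2
  have h3 : ((2 : ℤ) : K) • A = 0 := by
    have h4 : D * (0 : End K V) - 0 * D = 0 := by simp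
    rw [h4, Int.cast_zero, zero_smul, add_zero] at h2
    exact h2.symm
  have h4 : A = 0 := (smul_eq_zero.1 h3).resolve_left (by norm_num)
  subst h4
  refine ⟨rfl, ?_, rfl⟩
  rw [add_zero, zero_add] at h
  exact h

theorem Dt.three {a b c : End K V} (ha : G L D 2 a) (hb : G L D 2 b) (hc : G L D 2 c) :
    ∃ k : K, a (b (c vm)) = k • vp :=
  d.tp _ (ha.app' (hb.app' (hc.app' d.Em (c := -1) (by decide)) (c := 1) (by decide)) (by decide))

theorem Dt.comm_app {a b : End K V} (ha : G L D 2 a) (hb : G L D 2 b) (v : V) :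
    a (b v) = b (a v) := by
  rw [← Module.End.mul_apply, d.comm ha hb, Module.End.mul_apply]

theorem Dt.m_vm {Y : End K V} (hY : G L D (-2) Y) : Y vm = 0 :=
  d.eig_zero (hY.app d.Em) (by decide) (by decide) (by decide) (by decide)

theorem Dt.p_vp {Y : End K V} (hY : G L D 2 Y) : Y vp = 0 :=
  d.eig_zero (hY.app d.Ep) (by decide) (by decide) (by decide) (by decide)

section split

variable {K1 R1 Km Rm : Submodule K (End K V)} (h : Split L D K1 R1 Km Rm)

include h

theorem Dt.kkk {a b c : End K V} (ha : a ∈ K1) (hb : b ∈ K1) (hc : c ∈ K1) :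
    a (b (c vm)) = 0 := by
  by_contra hne
  obtain ⟨k, hk⟩ := d.three (h.K1le a ha) (h.K1le b hb) (h.K1le c hc)
  have hk0 : k ≠ 0 := by
    rintro rfl
    rw [zero_smul] at hk
    exact hne hk
  apply h.Rm0
  rw [Submodule.eq_bot_iff]
  intro r hr
  refine d.inj' (h.Rmle r hr) ?_
  have h1 : r (k • vp) = 0 := by
    rw [← hk, ← Module.End.mul_apply, ← h.KR a ha r hr, Module.End.mul_apply,
      ← Module.End.mul_apply r, ← h.KR b hb r hr, Module.End.mul_apply,
      ← Module.End.mul_apply r, ← h.KR c hc r hr, Module.End.mul_apply, d.m_vm (h.Rmle r hr)]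
    simp
  rw [map_smul] at h1
  exact (smul_eq_zero.1 h1).resolve_left hk0

theorem Dt.kkr {a b r : End K V} (ha : a ∈ K1) (hb : b ∈ K1) (hr : r ∈ R1)
    (hne : a (b (r vm)) ≠ 0) {Y : End K V} (hY : Y ∈ Rm) :
    ∃ k : K, Y vp = k • a (b vm) := by
  obtain ⟨k, hk⟩ := d.three (h.K1le a ha) (h.K1le b hb) (h.R1le r hr)
  have hk0 : k ≠ 0 := by
    rintro rfl
    rw [zero_smul] at hk
    exact hne hk
  have hG : G L D 0 (Y * r - r * Y) := d.G_br' (h.Rmle Y hY) (h.R1le r hr) (by decide)
  have h1 : Y (k • vp) = -chi w vp vm (Y * r - r * Y) • a (b vm) := by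
    have h2 : (Y * r - r * Y) vm = Y (r vm) := by
      rw [LinearMap.sub_apply, Module.End.mul_apply, Module.End.mul_apply,
        d.m_vm (h.Rmle Y hY), map_zero, sub_zero]
    rw [← hk, ← Module.End.mul_apply, ← h.KR a ha Y hY, Module.End.mul_apply,
      ← Module.End.mul_apply Y, ← h.KR b hb Y hY, Module.End.mul_apply, ← h2, d.chi_vm hG,
      map_smul, map_smul]
  refine ⟨k⁻¹ * -chi w vp vm (Y * r - r * Y), ?_⟩
  rw [mul_smul, ← h1, map_smul, smul_smul, inv_mul_cancel₀ hk0, one_smul]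

/-- Two elements of a piece of degree `-2` are proportional if their values are. -/
theorem Dt.prop_of {v : V} (hv : ∀ Y ∈ Rm, ∃ k : K, Y vp = k • v) {y : End K V} (hy : y ∈ Rm)
    (hy0 : y ≠ 0) {Y : End K V} (hY : Y ∈ Rm) : ∃ k : K, Y = k • y := by
  obtain ⟨k, hk⟩ := hv Y hY
  obtain ⟨k', hk'⟩ := hv y hy
  have hk0 : k' ≠ 0 := by
    rintro rfl
    rw [zero_smul] at hk'
    exact hy0 (d.inj' (h.Rmle y hy) hk')
  refine ⟨k * k'⁻¹, ?_⟩
  rw [← sub_eq_zero]
  refine d.inj' ((h.Rmle Y hY).sub ((h.Rmle y hy).smul _)) ?_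
  rw [LinearMap.sub_apply, LinearMap.smul_apply, hk, hk', smul_smul, mul_assoc,
    inv_mul_cancel₀ hk0, mul_one, sub_self]

/-- The dual statement. -/
theorem Dt.prop_of' {y : End K V} (hy : ∀ Y ∈ Rm, ∃ k : K, Y = k • y) {x : End K V}
    (hx : x ∈ R1) (hx0 : x ≠ 0) {X : End K V} (hX : X ∈ R1) :
    LinearMap.trace K V (x * y) ≠ 0 ∧ ∃ k : K, X = k • x := by
  have key : ∀ X ∈ R1, LinearMap.trace K V (X * y) = 0 → X = 0 := by
    intro X hX h0
    refine d.sep2 (h.R1le X hX) fun Y hY => ?_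
    obtain ⟨A, hA, B, hB, rfl⟩ := h.covm Y hY
    obtain ⟨k, rfl⟩ := hy B hB
    rw [mul_add, map_add, d.tr_comm (h.R1le X hX) (h.RK X hX A hA), mul_smul_comm, map_smul, h0,
      smul_zero, add_zero]
  have h1 : LinearMap.trace K V (x * y) ≠ 0 := fun h0 => hx0 (key x hx h0)
  refine ⟨h1, LinearMap.trace K V (X * y) / LinearMap.trace K V (x * y), ?_⟩
  rw [← sub_eq_zero]
  refine key _ (Submodule.sub_mem _ hX (Submodule.smul_mem _ _ hx)) ?_
  rw [sub_mul, smul_mul_assoc, map_sub, map_smul, smul_eq_mul, div_mul_cancel₀ _ h1, sub_self]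

/-- The ideal in the case where one element of the first piece occurs. -/
theorem Dt.exists_sl_aux [IsAlgClosed K] {x t t' : End K V} (hx : x ∈ K1) (ht : t ∈ R1)
    (ht' : t' ∈ R1) (hne : x (t (t' vm)) ≠ 0) : ∃ y r0, Sl L D vm x y r0 := by
  have hx0 : x ≠ 0 := by
    rintro rfl
    exact hne rfl
  have hne' : t (t' (x vm)) ≠ 0 := by
    rw [d.comm_app (h.R1le t' ht') (h.K1le x hx), d.comm_app (h.R1le t ht) (h.K1le x hx)]
    exact hne
  have hKm : ∀ Y ∈ Km, ∃ k : K, Y vp = k • t (t' vm) := fun Y hY =>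
    d.kkr h.symm ht ht' hx hne' hY
  obtain ⟨y, hy, hy0⟩ := Submodule.exists_mem_ne_zero_of_ne_bot h.Km0
  have hKy : ∀ Y ∈ Km, ∃ k : K, Y = k • y := fun Y hY => d.prop_of h.symm hKm hy hy0 hY
  have hKx : ∀ X ∈ K1, ∃ k : K, X = k • x := fun X hX =>
    (d.prop_of' h.symm hKy hx hx0 hX).2
  have htr : LinearMap.trace K V (x * y) ≠ 0 := (d.prop_of' h.symm hKy hx hx0 hx).1
  have gx := h.K1le x hx
  have gy := h.Kmle y hy
  have hyvp : y vp ≠ 0 := fun h0 => hy0 (d.inj' gy h0)
  -- two factors `x` do not occur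
  have ha : ∀ r ∈ R1, x (x (r vm)) = 0 := by
    intro r hr
    by_contra hr0
    have hRm : ∀ Y ∈ Rm, ∃ k : K, Y vp = k • x (x vm) := fun Y hY => d.kkr h hx hx hr hr0 hY
    obtain ⟨s, hs, hs0⟩ := Submodule.exists_mem_ne_zero_of_ne_bot h.Rm0
    have hRs : ∀ Y ∈ Rm, ∃ k : K, Y = k • s := fun Y hY => d.prop_of h hRm hs hs0 hY
    have hrne : r ≠ 0 := by
      rintro rfl
      apply hr0
      simp
    obtain ⟨k1, hk1⟩ := (d.prop_of' h hRs hr hrne ht).2
    obtain ⟨k2, hk2⟩ := (d.prop_of' h hRs hr hrne ht').2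
    have e1 : w (x (r (r vm))) vm ≠ 0 := by
      intro h0
      obtain ⟨k, hk⟩ := d.three gx (h.R1le r hr) (h.R1le r hr)
      rw [hk, map_smul, LinearMap.smul_apply, smul_eq_mul] at h0
      apply hne
      rw [hk1, hk2]
      simp only [LinearMap.smul_apply, map_smul]
      rw [hk, (mul_eq_zero.1 h0).resolve_right d.nz]
      simp
    -- first expression
    obtain ⟨k3, hk3⟩ := hKm y hy
    have e2 : w (r vm) (y vp) = 0 := by
      rw [hk3, hk1, hk2]
      simp only [LinearMap.smul_apply, map_smul]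
      have e3 : w (r vm) (r (r vm)) = 0 := by
        rw [d.sp' (h.R1le r hr).1, d.sp' (h.R1le r hr).1, d.kkk h.symm hr hr hr]
        simp
      rw [e3]
      simp
    -- second expression
    obtain ⟨k, hk⟩ := d.three gx gx (h.R1le r hr)
    have hk0 : k ≠ 0 := by
      rintro rfl
      rw [zero_smul] at hk
      exact hr0 hk
    have gb : G L D 0 (y * x - x * y) := d.G_br' gy gx (by decide)
    obtain ⟨b, hb⟩ := hKx _ (h.sK1 _ gb x hx)
    obtain ⟨m, hm⟩ : ∃ m, m = b - 2 * chi w vp vm (y * x - x * y) := ⟨_, rfl⟩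
    have e4 : y (x (x vm)) = m • x vm := by
      have f1 : (y * x - x * y) (x vm) = y (x (x vm)) - x (y (x vm)) := rfl
      have f2 : (y * x - x * y) vm = y (x vm) := by
        rw [LinearMap.sub_apply, Module.End.mul_apply, Module.End.mul_apply, d.m_vm gy,
          map_zero, sub_zero]
      have f3 : (y * x - x * y) (x vm) = b • x vm + x ((y * x - x * y) vm) := by
        have f4 := LinearMap.congr_fun hb vm
        rw [LinearMap.sub_apply, Module.End.mul_apply, Module.End.mul_apply,
          LinearMap.smul_apply, sub_eq_iff_eq_add] at f4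
        exact f4
      have f5 : y (x (x vm)) = (y * x - x * y) (x vm) + x (y (x vm)) := by
        rw [f1]
        abel
      rw [f5, f3, ← f2, d.chi_vm gb, map_smul, hm]
      module
    have e5 : k • y vp = m • r (x vm) := by
      have f1 : x (x (r vm)) = r (x (x vm)) := by
        rw [d.comm_app gx (h.R1le r hr), d.comm_app gx (h.R1le r hr)]
      rw [← map_smul, ← hk, f1, ← Module.End.mul_apply, ← h.RK r hr y hy,
        Module.End.mul_apply, e4, map_smul]
    have e6 : m * w (x (r (r vm))) vm = 0 := by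
      have f1 : w (r vm) (k • y vp) = 0 := by rw [map_smul, e2, smul_zero]
      rw [e5, map_smul, smul_eq_mul, d.sp' (h.R1le r hr).1] at f1
      have f2 : w (r (r vm)) (x vm) = -w (x (r (r vm))) vm := d.sp' gx.1 _ _
      rw [f2, neg_neg] at f1
      exact f1
    have hm0 := (mul_eq_zero.1 e6).resolve_right e1
    rw [hm0, zero_smul] at e5
    exact hyvp ((smul_eq_zero.1 e5).resolve_left hk0)
  -- the square of `x`
  have hxx0 : x (x vm) = 0 := by
    refine d.sep (gx.app' (gx.app' d.Em (c := -1) (by decide)) (c := 1) (by decide)) ?_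
    intro u hu
    obtain ⟨U, hU, rfl⟩ := d.Vm1 hu
    obtain ⟨A, hA, B, hB, rfl⟩ := h.cov U hU
    obtain ⟨k, rfl⟩ := hKx A hA
    rw [d.sp' hU.1]
    have f1 : (k • x + B) (x (x vm)) = 0 := by
      rw [LinearMap.add_apply, LinearMap.smul_apply, d.kkk h hx hx hx,
        d.comm_app (h.R1le B hB) gx, d.comm_app (h.R1le B hB) gx, ha B hB]
      simp
    rw [f1]
    simp
  have hxx : x * x = 0 := by
    refine d.ext0 ?_ ?_ ?_ ?_
    · intro v hv
      rw [Module.End.mul_apply]
      exact d.eig_zero (gx.app (gx.app hv)) (by decide) (by decide) (by decide) (by decide)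
    · intro v hv
      rw [Module.End.mul_apply]
      exact d.eig_zero (gx.app (gx.app hv)) (by decide) (by decide) (by decide) (by decide)
    · intro v hv
      obtain ⟨U, hU, rfl⟩ := d.Vm1 hv
      rw [Module.End.mul_apply, d.comm_app gx hU, d.comm_app gx hU, hxx0, map_zero]
    · intro v hv
      obtain ⟨c, rfl⟩ := d.tm v hv
      rw [Module.End.mul_apply, map_smul, map_smul, hxx0, smul_zero]
  -- the square of `y`
  have hyy0 : y (y vp) = 0 := by
    obtain ⟨k, hk⟩ := hKm y hy
    rw [hk, map_smul, ← Module.End.mul_apply, ← h.RK t ht y hy, Module.End.mul_apply,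
      ← Module.End.mul_apply y, ← h.RK t' ht' y hy, Module.End.mul_apply, d.m_vm gy]
    simp
  have hyy : y * y = 0 := by
    refine d.ext0 ?_ ?_ ?_ ?_
    · intro v hv
      obtain ⟨c, rfl⟩ := d.tp v hv
      rw [Module.End.mul_apply, map_smul, map_smul, hyy0, smul_zero]
    · intro v hv
      obtain ⟨U, hU, rfl⟩ := d.V1' hv
      rw [← Module.End.mul_apply, mul_assoc, d.comm' gy hU, ← mul_assoc, d.comm' gy hU,
        mul_assoc, Module.End.mul_apply, Module.End.mul_apply, hyy0, map_zero]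
    · intro v hv
      rw [Module.End.mul_apply]
      exact d.eig_zero (gy.app (gy.app hv)) (by decide) (by decide) (by decide) (by decide)
    · intro v hv
      rw [Module.End.mul_apply]
      exact d.eig_zero (gy.app (gy.app hv)) (by decide) (by decide) (by decide) (by decide)
  -- the stability under the part of degree zero
  have hst : ∀ B, G L D 0 B → ∃ a : K, B * x - x * B = a • x ∧ B * y - y * B = -(a • y) := by
    intro B hB
    obtain ⟨a, ha⟩ := hKx _ (h.sK1 B hB x hx)
    obtain ⟨b, hb⟩ := hKy _ (h.sKm B hB y hy)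
    have h1 : LinearMap.trace K V ((B * x - x * B) * y) + LinearMap.trace K V
        (x * (B * y - y * B)) = 0 := by
      rw [← map_add]
      have h2 : (B * x - x * B) * y + x * (B * y - y * B) = B * (x * y) - (x * y) * B := by
        noncomm_ring
      rw [h2, map_sub, LinearMap.trace_mul_comm, sub_self]
    rw [ha, hb, smul_mul_assoc, mul_smul_comm, map_smul, map_smul, ← add_smul] at h1
    have h2 : a + b = 0 := by
      rw [smul_eq_mul] at h1
      exact (mul_eq_zero.1 h1).resolve_right htr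
    refine ⟨a, ha, ?_⟩
    rw [hb, eq_neg_of_add_eq_zero_right h2, neg_smul]
  -- the covering
  have hcov : ∀ X, G L D 2 X → ∃ (a : K) (r : End K V), G L D 2 r ∧ r * y = y * r ∧
      X = a • x + r ∧ r ∈ R1 := by
    intro X hX
    obtain ⟨A, hA, B, hB, rfl⟩ := h.cov X hX
    obtain ⟨k, rfl⟩ := hKx A hA
    exact ⟨k, B, h.R1le B hB, h.RK B hB y hy, rfl, hB⟩
  have hcovm : ∀ X, G L D (-2) X → ∃ (a : K) (r : End K V), G L D (-2) r ∧ r * x = x * r ∧
      X = a • y + r := by
    intro X hX
    obtain ⟨A, hA, B, hB, rfl⟩ := h.covm X hX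
    obtain ⟨k, rfl⟩ := hKy A hA
    exact ⟨k, B, h.Rmle B hB, (h.KR x hx B hB).symm, rfl⟩
  have hR1 : ∀ X, G L D 2 X → X * y = y * X → X ∈ R1 := by
    intro X hX hc
    obtain ⟨a, r, hr, hry, rfl, hrR⟩ := hcov X hX
    have h1 : a • (x * y - y * x) = 0 := by
      rw [add_mul, mul_add, hry, smul_mul_assoc, mul_smul_comm] at hc
      rw [smul_sub, sub_eq_zero]
      exact add_right_cancel hc
    rcases smul_eq_zero.1 h1 with h2 | h2
    · rw [h2, zero_smul, zero_add]
      exact hrR
    · exact absurd (d.tr_comm gx (sub_eq_zero.1 h2)) htr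
  -- the scalar
  have hcomm : ∀ X ∈ L, X * (x * y + y * x) = (x * y + y * x) * X := by
    intro X hX
    obtain ⟨A, B, C, hA, hB, hC, rfl⟩ := d.dec hX
    have c1 : Commute A (x * y + y * x) := by
      obtain ⟨a, r, hr, hry, rfl, -⟩ := hcov A hA
      have hrx : Commute r x := d.comm hr gx
      have hry' : Commute r y := hry
      have h1 : Commute r (x * y + y * x) :=
        (hrx.mul_right hry').add_right (hry'.mul_right hrx)
      have h3 : Commute x (x * y + y * x) := by
        have h4 : x * (x * y + y * x) = (x * x) * y + x * y * x := by noncomm_ring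
        have h5 : (x * y + y * x) * x = x * y * x + y * (x * x) := by noncomm_ring
        unfold Commute SemiconjBy
        rw [h4, h5, hxx]
        simp
      exact (h3.smul_left a).add_left h1
    have c3 : Commute C (x * y + y * x) := by
      obtain ⟨a, r, hr, hry, rfl⟩ := hcovm C hC
      have hry' : Commute r y := d.comm' hr gy
      have hrx : Commute r x := hry
      have h1 : Commute r (x * y + y * x) :=
        (hrx.mul_right hry').add_right (hry'.mul_right hrx)
      have h3 : Commute y (x * y + y * x) := by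
        have h4 : y * (x * y + y * x) = y * x * y + (y * y) * x := by noncomm_ring
        have h5 : (x * y + y * x) * y = x * (y * y) + y * x * y := by noncomm_ring
        unfold Commute SemiconjBy
        rw [h4, h5, hyy]
        simp
      exact (h3.smul_left a).add_left h1
    have c2 : Commute B (x * y + y * x) := by
      obtain ⟨a, e1, e2⟩ := hst B hB
      have h1 : B * (x * y + y * x) - (x * y + y * x) * B =
          (B * x - x * B) * y + x * (B * y - y * B) + (B * y - y * B) * x +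
            y * (B * x - x * B) := by noncomm_ring
      unfold Commute SemiconjBy
      rw [← sub_eq_zero, h1, e1, e2]
      simp only [smul_mul_assoc, mul_smul_comm, mul_neg, neg_mul]
      abel
    exact (c1.add_left c2).add_left c3
  obtain ⟨r0, hr0⟩ := d.schur hcomm
  refine ⟨y, r0, ⟨gx, gy, hxx, hyy, hr0, ?_, ?_, hcovm, ?_, hst⟩⟩
  · rintro rfl
    have h1 : LinearMap.trace K V (x * y + y * x) = 0 := by rw [hr0, zero_smul, map_zero]
    rw [map_add, LinearMap.trace_mul_comm K y x, ← two_mul] at h1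
    exact htr ((mul_eq_zero.1 h1).resolve_left two_ne_zero)
  · intro X hX
    obtain ⟨a, r, h1, h2, h3, -⟩ := hcov X hX
    exact ⟨a, r, h1, h2, h3⟩
  · intro a b c ha hb hc h1 h2 h3
    exact d.kkk h.symm (hR1 a ha h1) (hR1 b hb h2) (hR1 c hc h3)

/-- The ideal. -/
theorem Dt.exists_sl [IsAlgClosed K] : ∃ x y r0, Sl L D vm x y r0 := by
  obtain ⟨X, Y, Z, hX, hY, hZ, hne⟩ := d.exists3
  by_contra hcon
  push Not at hcon
  have hA : ∀ x ∈ K1, ∀ t ∈ R1, ∀ t' ∈ R1, x (t (t' vm)) = 0 := by
    intro x hx t ht t' ht'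
    by_contra h0
    obtain ⟨y, r0, h1⟩ := d.exists_sl_aux h hx ht ht' h0
    exact hcon x y r0 h1
  have hB : ∀ x ∈ R1, ∀ t ∈ K1, ∀ t' ∈ K1, x (t (t' vm)) = 0 := by
    intro x hx t ht t' ht'
    by_contra h0
    obtain ⟨y, r0, h1⟩ := d.exists_sl_aux h.symm hx ht ht' h0
    exact hcon x y r0 h1
  have hK := fun a ha b hb c hc => d.kkk (a := a) (b := b) (c := c) h ha hb hc
  have hR := fun a ha b hb c hc => d.kkk (a := a) (b := b) (c := c) h.symm ha hb hc
  apply hne
  obtain ⟨a, ha, a', ha', rfl⟩ := h.cov X hX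
  obtain ⟨b, hb, b', hb', rfl⟩ := h.cov Y hY
  obtain ⟨c, hc, c', hc', rfl⟩ := h.cov Z hZ
  have e1 : a (b (c' vm)) = 0 := by
    rw [d.comm_app (h.K1le b hb) (h.R1le c' hc'), d.comm_app (h.K1le a ha) (h.R1le c' hc')]
    exact hB c' hc' a ha b hb
  have e2 : a (b' (c vm)) = 0 := by
    rw [d.comm_app (h.K1le a ha) (h.R1le b' hb')]
    exact hB b' hb' a ha c hc
  have e3 : a' (b (c' vm)) = 0 := by
    rw [d.comm_app (h.R1le a' ha') (h.K1le b hb)]
    exact hA b hb a' ha' c' hc'
  have e4 : a' (b' (c vm)) = 0 := by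
    rw [d.comm_app (h.R1le b' hb') (h.K1le c hc), d.comm_app (h.R1le a' ha') (h.K1le c hc)]
    exact hA c hc a' ha' b' hb'
  simp only [LinearMap.add_apply, map_add, hK a ha b hb c hc, hR a' ha' b' hb' c' hc', e1, e2,
    e3, e4, hA a ha b' hb' c' hc', hB a' ha' b hb c hc]
  simp

end split

end Run7.h853.Cy
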