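import Mathlib
import Pool.Agent.Run7.h853.Cy.F

/-!
# The uniqueness of the three-dimensional ideal
-/

set_option linter.unusedSectionVars false

namespace Run7.h853.Cy

open Module

variable {K V : Type*} [Field K] [CharZero K] [AddCommGroup V] [Module K V]
  [FiniteDimensional K V]

variable {L : Submodule K (End K V)} {D : End K V} {P : ℤ → End K V}
    {w : V →ₗ[K] V →ₗ[K] K} {vp vm : V} (d : Dt L D P w vp vm)

include d

/-- An ideal contains the homogeneous components of its elements. -/
theorem Dt.ideal_comp {S : Submodule K (End K V)}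
    (hS : ∀ X ∈ L, ∀ b ∈ S, X * b - b * X ∈ S) {A B C : End K V} (hA : G L D 2 A)
    (hB : G L D 0 B) (hC : G L D (-2) C) (h : A + B + C ∈ S) : A ∈ S ∧ B ∈ S ∧ C ∈ S := by
  have h1 : D * (A + B + C) - (A + B + C) * D = (2 : K) • A - (2 : K) • C := by
    have h2 : D * (A + B + C) - (A + B + C) * D = (D * A - A * D) + (D * B - B * D) +
        (D * C - C * D) := by noncomm_ring
    rw [h2, hA.2, hB.2, hC.2]
    push_cast
    module
  have h2 := hS D d.DL _ h
  rw [h1] at h2
  have h3 := hS D d.DL _ h2
  have h4 : D * ((2 : K) • A - (2 : K) • C) - ((2 : K) • A - (2 : K) • C) * D =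
      (4 : K) • A + (4 : K) • C := by
    have h5 : D * ((2 : K) • A - (2 : K) • C) - ((2 : K) • A - (2 : K) • C) * D =
        (2 : K) • (D * A - A * D) - (2 : K) • (D * C - C * D) := by
      simp only [mul_sub, sub_mul, mul_smul_comm, smul_mul_assoc, smul_sub]
      abel
    rw [h5, hA.2, hC.2]
    push_cast
    module
  rw [h4] at h3
  have hA' : A ∈ S := by
    have h5 : A = (8 : K)⁻¹ • ((2 : K) • ((2 : K) • A - (2 : K) • C) +
        ((4 : K) • A + (4 : K) • C)) := by module
    rw [h5]
    exact Submodule.smul_mem _ _ (Submodule.add_mem _ (Submodule.smul_mem _ _ h2) h3)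
  have hC' : C ∈ S := by
    have h5 : C = (4 : K)⁻¹ • (((4 : K) • A + (4 : K) • C) - (4 : K) • A) := by module
    rw [h5]
    exact Submodule.smul_mem _ _ (Submodule.sub_mem _ h3 (Submodule.smul_mem _ _ hA'))
  refine ⟨hA', ?_, hC'⟩
  have h5 : B = (A + B + C) - A - C := by abel
  rw [h5]
  exact Submodule.sub_mem _ (Submodule.sub_mem _ h hA') hC'

/-- A nonzero ideal contains a nonzero element of degree `2`. -/
theorem Dt.ideal_ne {S : Submodule K (End K V)} (hSL : S ≤ L)
    (hS : ∀ X ∈ L, ∀ b ∈ S, X * b - b * X ∈ S) (hS0 : S ≠ ⊥) :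
    ∃ t ∈ S, G L D 2 t ∧ t ≠ 0 := by
  by_contra hcon
  push Not at hcon
  apply hS0
  rw [Submodule.eq_bot_iff]
  have h0 : ∀ B ∈ S, G L D 0 B → B = 0 := by
    intro B hBS hB
    have hc : ∀ X, G L D 2 X → X * B = B * X := by
      intro X hX
      rw [← sub_eq_zero]
      exact hcon _ (hS X hX.1 B hBS) (d.G_br' hX hB (by decide))
    obtain ⟨c, hc'⟩ : ∃ c, c = -chi w vp vm B := ⟨_, rfl⟩
    have h1 : B vm = c • vm := by rw [hc']; exact d.chi_vm hB
    have h2 : ∀ X, G L D 2 X → ∀ v, B v = c • v → B (X v) = c • X v := by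
      intro X hX v hv
      rw [← Module.End.mul_apply, ← hc X hX, Module.End.mul_apply, hv, map_smul]
    have h3 : ∀ v, E D 1 v → B v = c • v := by
      intro v hv
      have h4 := d.V1 hv
      clear hv
      induction h4 using Submodule.span_induction with
      | mem u hu =>
        obtain ⟨X, Y, hX, hY, rfl⟩ := hu
        exact h2 X hX _ (h2 Y hY _ h1)
      | zero => rw [map_zero, smul_zero]
      | add x y _ _ h1 h2 => rw [map_add, h1, h2, smul_add]
      | smul a x _ h1 => rw [map_smul, h1, smul_comm]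
    have h4 : B vp = c • vp := by
      obtain ⟨X, Y, Z, hX, hY, hZ, hne⟩ := d.exists3
      obtain ⟨k, hk⟩ := d.three hX hY hZ
      have hk0 : k ≠ 0 := by
        rintro rfl
        apply hne
        rw [hk, zero_smul, map_zero, LinearMap.zero_apply]
      have h5 := h2 X hX _ (h2 Y hY _ (h2 Z hZ _ h1))
      rw [hk, map_smul, smul_comm] at h5
      exact smul_right_injective V hk0 h5
    have h5 : c = 0 := by
      have h6 := d.chi_vp hB
      rw [h4] at h6
      have h7 : (c - chi w vp vm B) • vp = 0 := by rw [sub_smul, h6, sub_self]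
      have h8 := (smul_eq_zero.1 h7).resolve_right d.vp0
      have h9 : (2 : K) * c = 0 := by linear_combination h8 + hc'
      exact (mul_eq_zero.1 h9).resolve_left two_ne_zero
    subst h5
    refine d.ext0 ?_ ?_ ?_ ?_
    · intro x hx
      obtain ⟨k, rfl⟩ := d.tp x hx
      rw [map_smul, h4, zero_smul, smul_zero]
    · intro x hx
      rw [h3 x hx, zero_smul]
    · intro x hx
      obtain ⟨X, hX, rfl⟩ := d.Vm1 hx
      rw [h2 X hX _ h1, zero_smul]
    · intro x hx
      obtain ⟨k, rfl⟩ := d.tm x hx
      rw [map_smul, h1, zero_smul, smul_zero]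
  intro b hb
  obtain ⟨A, B, C, hA, hB, hC, rfl⟩ := d.dec (hSL hb)
  obtain ⟨hAS, hBS, hCS⟩ := d.ideal_comp hS hA hB hC hb
  have hC0 : C = 0 := by
    refine d.sepm2 hC fun X hX => d.tr_comm hX ?_
    rw [← sub_eq_zero]
    exact h0 _ (hS X hX.1 C hCS) (d.G_br' hX hC (by decide))
  rw [hcon A hAS hA, h0 B hBS hB, hC0]
  simp

variable {x y : End K V} {r0 : K} (h : Sl L D vm x y r0)

include h

theorem Dt.sl_tr : LinearMap.trace K V (x * y) ≠ 0 := by
  intro h0
  have hnt : Nontrivial V := ⟨⟨vp, 0, d.vp0⟩⟩
  have h1 : LinearMap.trace K V (x * y + y * x) = 0 := by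
    rw [map_add, LinearMap.trace_mul_comm K y x, h0, add_zero]
  rw [h.xy, map_smul, LinearMap.trace_one, smul_eq_mul] at h1
  rcases mul_eq_zero.1 h1 with h2 | h2
  · exact h.ne h2
  · have h3 : finrank K V = 0 := by exact_mod_cast h2
    exact (Module.finrank_pos (R := K) (M := V)).ne' h3

omit d in
theorem Sl.hx : (x * y - y * x) * x - x * (x * y - y * x) = (2 * r0) • x := by
  have h1 : (x * y - y * x) * x - x * (x * y - y * x) =
      (x * y + y * x) * x + x * (x * y + y * x) - (2 : K) • (y * (x * x)) -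
        (2 : K) • (x * x * y) := by
    rw [two_smul, two_smul]
    noncomm_ring
  rw [h1, h.xy, h.xx]
  simp only [smul_mul_assoc, mul_smul_comm, one_mul, mul_one, mul_zero, zero_mul, smul_zero]
  module

omit d in
theorem Sl.hy : (x * y - y * x) * y - y * (x * y - y * x) = -((2 * r0) • y) := by
  have h1 : (x * y - y * x) * y - y * (x * y - y * x) =
      -((x * y + y * x) * y + y * (x * y + y * x)) + (2 : K) • (x * (y * y)) +
        (2 : K) • (y * y * x) := by
    rw [two_smul, two_smul]
    noncomm_ring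
  rw [h1, h.xy, h.yy]
  simp only [smul_mul_assoc, mul_smul_comm, one_mul, mul_one, mul_zero, zero_mul, smul_zero]
  module

/-- The ideal is the only three-dimensional ideal whose elements have scalar squares, unless
the dimension is three. -/
theorem Dt.uniq {S : Submodule K (End K V)} (hSL : S ≤ L)
    (hS : ∀ X ∈ L, ∀ b ∈ S, X * b - b * X ∈ S) (hS3 : finrank K S = 3)
    (hsq : ∀ b ∈ S, ∃ c : K, b * b = c • 1) :
    Submodule.span K {x, y, x * y - y * x} ≤ S ∨ finrank K (ES D 1) = 3 := by
  have hS0 : S ≠ ⊥ := by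
    rintro rfl
    rw [finrank_bot] at hS3
    omega
  have h2r : (2 * r0) ≠ 0 := mul_ne_zero two_ne_zero h.ne
  have hxS : x ∈ S → Submodule.span K {x, y, x * y - y * x} ≤ S := by
    intro hx
    have h1 : x * y - y * x ∈ S := by
      have h2 := hS y h.gy.1 x hx
      have h3 : x * y - y * x = -(y * x - x * y) := by abel
      rw [h3]
      exact Submodule.neg_mem _ h2
    have h2 : y ∈ S := by
      have h3 := hS y h.gy.1 _ h1
      have h4 : y * (x * y - y * x) - (x * y - y * x) * y = (2 * r0) • y := by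
        rw [← neg_neg ((2 * r0) • y), ← h.hy]
        abel
      rw [h4] at h3
      exact (Submodule.smul_mem_iff _ h2r).1 h3
    rw [Submodule.span_le]
    rintro b hb
    simp only [Set.mem_insert_iff, Set.mem_singleton_iff] at hb
    rcases hb with rfl | rfl | rfl
    · exact hx
    · exact h2
    · exact h1
  by_cases hx : x ∈ S
  · exact Or.inl (hxS hx)
  right
  have hhS : x * y - y * x ∉ S := by
    intro h1
    apply hx
    have h2 := hS x h.gx.1 _ h1
    have h3 : x * (x * y - y * x) - (x * y - y * x) * x = -((2 * r0) • x) := by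
      rw [← h.hx]
      abel
    rw [h3] at h2
    exact (Submodule.smul_mem_iff _ h2r).1 ((Submodule.neg_mem_iff _).1 h2)
  -- the elements of the ideal commute with `x` and `y`
  have hc2 : ∀ A ∈ S, G L D 2 A → A * x = x * A ∧ A * y = y * A := by
    intro A hAS hA
    refine ⟨d.comm hA h.gx, ?_⟩
    obtain ⟨a, r, hr, hry, rfl⟩ := h.cov A hA
    have h1 := hS y h.gy.1 _ hAS
    have h2 : y * (a • x + r) - (a • x + r) * y = (-a) • (x * y - y * x) := by
      rw [mul_add, add_mul, hry, mul_smul_comm, smul_mul_assoc]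
      module
    rw [h2] at h1
    have h3 : a = 0 := by
      by_contra ha
      exact hhS ((Submodule.smul_mem_iff _ (neg_ne_zero.2 ha)).1 h1)
    rw [h3, zero_smul, zero_add]
    exact hry
  -- elements
  obtain ⟨t, htS, ht, ht0⟩ := d.ideal_ne hSL hS hS0
  obtain ⟨t', ht'S, ht', ht'0⟩ : ∃ t ∈ S, G L D (-2) t ∧ t ≠ 0 := by
    obtain ⟨t, h1, h2, h3⟩ := d.flip.ideal_ne hSL hS hS0
    refine ⟨t, h1, ?_, h3⟩
    have h4 := h2.neg
    rwa [neg_neg] at h4
  have hty : t * y = y * t := (hc2 t htS ht).2
  -- `Y` commutes with `x` and not with `t`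
  obtain ⟨Y, hY, hYx, hYt⟩ : ∃ Y, G L D (-2) Y ∧ Y * x = x * Y ∧ t * Y - Y * t ≠ 0 := by
    by_contra hcon
    push Not at hcon
    apply ht0
    refine d.sep2 ht fun Z hZ => d.tr_comm ht ?_
    obtain ⟨a, r, hr, hrx, rfl⟩ := h.covm Z hZ
    have h1 := sub_eq_zero.1 (hcon r hr hrx)
    rw [mul_add, add_mul, h1, mul_smul_comm, smul_mul_assoc, hty]
  obtain ⟨e, he⟩ : ∃ e, e = t * Y - Y * t := ⟨_, rfl⟩
  rw [← he] at hYt
  have heS : e ∈ S := by
    have h1 := hS Y hY.1 t htS
    have h2 : e = -(Y * t - t * Y) := by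
      rw [he]
      abel
    rw [h2]
    exact Submodule.neg_mem _ h1
  have heG : G L D 0 e := by
    rw [he]
    exact d.G_br' ht hY (by decide)
  -- the ideal is spanned by three elements
  have hspan : S = Submodule.span K (Set.range ![t, e, t']) := by
    have hli : LinearIndependent K ![t, e, t'] := by
      rw [Fintype.linearIndependent_iff]
      intro g hg
      rw [Fin.sum_univ_three] at hg
      obtain ⟨h1, h2, h3⟩ := d.dec_unique (ht.smul (g 0)) (heG.smul (g 1)) (ht'.smul (g 2)) hg
      intro i
      fin_cases i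
      · exact (smul_eq_zero.1 h1).resolve_right ht0
      · exact (smul_eq_zero.1 h2).resolve_right hYt
      · exact (smul_eq_zero.1 h3).resolve_right ht'0
    symm
    refine Submodule.eq_of_le_of_finrank_eq ?_ ?_
    · rw [Submodule.span_le]
      rintro _ ⟨i, rfl⟩
      fin_cases i
      · exact htS
      · exact heS
      · exact ht'S
    · rw [finrank_span_eq_card hli, hS3, Fintype.card_fin]
  have hS0' : ∀ B ∈ S, G L D 0 B → ∃ k : K, B = k • e := by
    intro B hBS hB
    rw [hspan] at hBS
    obtain ⟨c, hc⟩ := (Submodule.mem_span_range_iff_exists_fun K).1 hBS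
    rw [Fin.sum_univ_three] at hc
    have hc' : c 0 • t + c 1 • e + c 2 • t' = B := hc
    have h1 : c 0 • t + (c 1 • e - B) + c 2 • t' = 0 := by
      rw [← hc']
      abel
    obtain ⟨-, h2, -⟩ := d.dec_unique (ht.smul (c 0)) ((heG.smul (c 1)).sub hB)
      (ht'.smul (c 2)) h1
    exact ⟨c 1, (sub_eq_zero.1 h2).symm⟩
  have hbr : ∀ Z, G L D (-2) Z → ∃ k : K, t * Z - Z * t = k • e := by
    intro Z hZ
    refine hS0' _ ?_ (d.G_br' ht hZ (by decide))
    have h1 := hS Z hZ.1 t htS
    have h2 : t * Z - Z * t = -(Z * t - t * Z) := by abel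
    rw [h2]
    exact Submodule.neg_mem _ h1
  -- a nonzero product
  obtain ⟨r, hr, hry, hrne⟩ : ∃ r, G L D 2 r ∧ r * y = y * r ∧ t (x (r vm)) ≠ 0 := by
    by_contra hcon
    push Not at hcon
    apply ht0
    refine d.inj ht ?_
    refine d.sep (ht.app' d.Em (c := -1) (by decide)) ?_
    intro v hv
    have h4 := d.V1 (y := v) (by simpa using hv)
    clear hv
    induction h4 using Submodule.span_induction with
    | mem u hu =>
      obtain ⟨X, Z, hX, hZ, rfl⟩ := hu
      have h5 : t (X (Z vm)) = 0 := by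
        obtain ⟨a, r, hr, hry, rfl⟩ := h.cov X hX
        obtain ⟨a', r', hr', hry', rfl⟩ := h.cov Z hZ
        have e1 := hcon r hr hry
        have e2 := hcon r' hr' hry'
        have e3 := h.rrr t r r' ht hr hr' hty hry hry'
        have e4 : x (x vm) = 0 := LinearMap.congr_fun h.xx vm
        simp only [LinearMap.add_apply, LinearMap.smul_apply, map_add, map_smul, e3, e4, e2]
        rw [d.comm_app hr h.gx, e1]
        simp
      have h6 : w (t vm) (X (Z vm)) = w (Z (X (t vm))) vm := by
        rw [d.sp' hX.1, d.sp' hZ.1, neg_neg]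
      rw [h6]
      have h7 : Z (X (t vm)) = t (X (Z vm)) := by
        rw [d.comm_app hX ht, d.comm_app hZ ht, d.comm_app hZ hX]
      rw [h7, h5]
      simp
    | zero => exact map_zero _
    | add x y _ _ h1 h2 => rw [map_add, h1, h2, add_zero]
    | smul a x _ h1 => rw [map_smul, h1, smul_zero]
  obtain ⟨k, hk⟩ := d.three ht h.gx hr
  have hk0 : k ≠ 0 := by
    rintro rfl
    rw [zero_smul] at hk
    exact hrne hk
  -- the upper bound
  have hle : finrank K (ES D 1) ≤ 3 := by
    have hZ : ∀ Z, G L D (-2) Z → Z * x = x * Z → Z * t = t * Z →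
        ∃ c : K, Z vp = c • t (x vm) := by
      intro Z hZ hZx hZt
      have hG : G L D 0 (Z * r - r * Z) := d.G_br' hZ hr (by decide)
      have h1 : Z (k • vp) = -chi w vp vm (Z * r - r * Z) • t (x vm) := by
        have h2 : (Z * r - r * Z) vm = Z (r vm) := by
          rw [LinearMap.sub_apply, Module.End.mul_apply, Module.End.mul_apply,
            d.m_vm hZ, map_zero, sub_zero]
        rw [← hk, ← Module.End.mul_apply, hZt, Module.End.mul_apply,
          ← Module.End.mul_apply Z, hZx, Module.End.mul_apply, ← h2, d.chi_vm hG,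
          map_smul, map_smul]
      refine ⟨k⁻¹ * -chi w vp vm (Z * r - r * Z), ?_⟩
      rw [mul_smul, ← h1, map_smul, smul_smul, inv_mul_cancel₀ hk0, one_smul]
    have h1 : ES D 1 ≤ Submodule.span K (Set.range ![y vp, Y vp, t (x vm)]) := by
      intro v hv
      obtain ⟨Z, hZG, rfl⟩ := d.V1' hv
      obtain ⟨a, s, hs, hsx, rfl⟩ := h.covm Z hZG
      obtain ⟨b, hb⟩ := hbr s hs
      have e1 : G L D (-2) (s - b • Y) := hs.sub (hY.smul b)
      have e2 : (s - b • Y) * x = x * (s - b • Y) := by
        rw [sub_mul, mul_sub, smul_mul_assoc, mul_smul_comm, hsx, hYx]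
      have e3 : (s - b • Y) * t = t * (s - b • Y) := by
        have e4 : t * (s - b • Y) - (s - b • Y) * t = (t * s - s * t) - b • (t * Y - Y * t) := by
          rw [sub_mul, mul_sub, smul_mul_assoc, mul_smul_comm]
          module
        rw [hb, ← he, sub_self] at e4
        exact (sub_eq_zero.1 e4).symm
      obtain ⟨c, hc⟩ := hZ _ e1 e2 e3
      rw [Submodule.mem_span_range_iff_exists_fun]
      refine ⟨![a, b, c], ?_⟩
      rw [Fin.sum_univ_three]
      change a • y vp + b • Y vp + c • t (x vm) = (a • y + s) vp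
      rw [← hc]
      simp only [LinearMap.sub_apply, LinearMap.add_apply, LinearMap.smul_apply]
      abel
    have h2 := Submodule.finrank_mono h1
    have h3 := finrank_range_le_card (R := K) ![y vp, Y vp, t (x vm)]
    rw [Fintype.card_fin] at h3
    exact h2.trans h3
  -- the lower bound
  have hge : 3 ≤ finrank K (ES D 1) := by
    have htt : t (t vm) = 0 := by
      obtain ⟨c, hc⟩ := hsq t htS
      have h1 : t (t vm) = c • vm := LinearMap.congr_fun hc vm
      have h2 : E D 1 (t (t vm)) :=
        ht.app' (ht.app' d.Em (c := -1) (by decide)) (by decide)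
      rw [← d.P1 h2, h1, map_smul, d.eig_P d.Em (by decide), smul_zero]
    have hxx : x (x vm) = 0 := LinearMap.congr_fun h.xx vm
    have hli : LinearIndependent K ![x vm, t vm, r vm] := by
      rw [Fintype.linearIndependent_iff]
      intro g hg
      rw [Fin.sum_univ_three] at hg
      have hg' : g 0 • x vm + g 1 • t vm + g 2 • r vm = 0 := hg
      have htxv : ∀ v, t (x v) = x (t v) := fun v => d.comm_app ht h.gx v
      have htrv : ∀ v, t (r v) = r (t v) := fun v => d.comm_app ht hr v
      have hrxv : ∀ v, r (x v) = x (r v) := fun v => d.comm_app hr h.gx v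
      have h2 : g 2 = 0 := by
        have e1 := congrArg (fun v => t (x v)) hg'
        simp only [map_add, map_smul, hxx, map_zero, smul_zero, zero_add] at e1
        have e2 : t (x (t vm)) = 0 := by rw [htxv, htt, map_zero]
        rw [e2, smul_zero, zero_add] at e1
        exact (smul_eq_zero.1 e1).resolve_right hrne
      have h0 : g 0 = 0 := by
        have e1 := congrArg (fun v => t (r v)) hg'
        rw [h2] at e1
        simp only [map_add, map_smul, map_zero, zero_smul, add_zero] at e1
        have e2 : t (r (t vm)) = 0 := by rw [htrv, htt, map_zero]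
        rw [e2, smul_zero, add_zero, hrxv] at e1
        exact (smul_eq_zero.1 e1).resolve_right hrne
      have h1 : g 1 = 0 := by
        rw [h0, h2, zero_smul, zero_smul, zero_add, add_zero] at hg'
        refine (smul_eq_zero.1 hg').resolve_right fun h3 => ht0 (d.inj ht h3)
      intro i
      fin_cases i
      · exact h0
      · exact h1
      · exact h2
    have h1 : Submodule.span K (Set.range ![x vm, t vm, r vm]) ≤ ES D (-1) := by
      rw [Submodule.span_le]
      rintro _ ⟨i, rfl⟩
      fin_cases i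
      · exact h.gx.app' d.Em (by decide)
      · exact ht.app' d.Em (by decide)
      · exact hr.app' d.Em (by decide)
    have h2 := Submodule.finrank_mono h1
    rw [finrank_span_eq_card hli, Fintype.card_fin, d.dims.1] at h2
    exact h2
  omega

end Run7.h853.Cy
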