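import Mathlib
import Pool.Agent.Run7.h853.Cy.Irr
import Pool.Agent.Run7.h853.Cy.U

/-!
# The Lie algebra of a Hodge structure of Calabi-Yau type of weight three
-/

set_option linter.unusedSectionVars false

namespace Run7.h853.Cy

open Matrix ComplexOrder Pool.Agent.W437.HC Pool.Agent.W437.HD Pool.Agent.W437.HP
  Pool.Agent.W437.HR Pool.Agent.W437.CY

variable {B : Type} [Fintype B] [DecidableEq B] {D : Matrix B B ℂ} {Om : Matrix B B ℚ}
  {P : ℤ → Matrix B B ℂ}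

/-- The Lie algebra as a space of endomorphisms. -/
noncomputable def LE (D : Matrix B B ℂ) : Submodule ℂ (Module.End ℂ (B → ℂ)) :=
  (lieM D ℂ).map (Matrix.toLin' : Matrix B B ℂ ≃ₗ[ℂ] ((B → ℂ) →ₗ[ℂ] (B → ℂ))).toLinearMap

theorem mem_LE {X : Matrix B B ℂ} : Matrix.toLin' X ∈ LE D ↔ X ∈ lieM D ℂ := by
  constructor
  · rintro ⟨Y, hY, h⟩
    have h1 : Y = X := Matrix.toLin'.injective h
    rw [← h1]
    exact hY
  · intro hX
    exact ⟨X, hX, rfl⟩

theorem mul_toLin (X Y : Matrix B B ℂ) :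
    (Matrix.toLin' X : Module.End ℂ (B → ℂ)) * Matrix.toLin' Y = Matrix.toLin' (X * Y) :=
  (Matrix.toLin'_mul X Y).symm

theorem br_toLin (X Y : Matrix B B ℂ) :
    (Matrix.toLin' X : Module.End ℂ (B → ℂ)) * Matrix.toLin' Y -
      Matrix.toLin' Y * Matrix.toLin' X = Matrix.toLin' (X * Y - Y * X) := by
  rw [map_sub, ← mul_toLin, ← mul_toLin]

/-- The components of a matrix with respect to the grading. -/
noncomputable def cmp (S : Finset ℤ) (P : ℤ → Matrix B B ℂ) (Y : Matrix B B ℂ) (a : ℤ) :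
    Matrix B B ℂ := ∑ p ∈ S, ∑ q ∈ S, (if p - q = a then (1 : ℂ) else 0) • (P p * Y * P q)

theorem cmp_mem {S : Finset ℤ} (h : Proj D S P) {Y : Matrix B B ℂ} (hY : Y ∈ lieM D ℂ) (a : ℤ) :
    cmp S P Y a ∈ lieM D ℂ := h.fun_mem (fun c => if c = a then 1 else 0) hY

theorem cmp_br {S : Finset ℤ} (h : Proj D S P) (Y : Matrix B B ℂ) (a : ℤ) :
    D * cmp S P Y a - cmp S P Y a * D = (a : ℂ) • cmp S P Y a := by
  unfold cmp
  rw [Finset.mul_sum, Finset.sum_mul, ← Finset.sum_sub_distrib, Finset.smul_sum]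
  refine Finset.sum_congr rfl fun p _ => ?_
  rw [Finset.mul_sum, Finset.sum_mul, ← Finset.sum_sub_distrib, Finset.smul_sum]
  refine Finset.sum_congr rfl fun q _ => ?_
  by_cases hpq : p - q = a
  · rw [if_pos hpq, one_smul, ← mul_assoc, ← mul_assoc, h.left, mul_assoc (P p * Y), h.right,
      smul_mul_assoc, smul_mul_assoc, mul_smul_comm, ← sub_smul, ← hpq]
    push_cast
    rfl
  · rw [if_neg hpq, zero_smul, mul_zero, zero_mul, sub_zero, smul_zero]

theorem cmp_sum (h : Proj D (Finset.Icc (-3) 3) P) (Y : Matrix B B ℂ) :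
    Y = ∑ a ∈ Finset.Icc (-6 : ℤ) 6, cmp (Finset.Icc (-3) 3) P Y a := by
  have h1 : Y = ∑ p ∈ Finset.Icc (-3 : ℤ) 3, ∑ q ∈ Finset.Icc (-3 : ℤ) 3, P p * Y * P q := by
    rw [← Finset.sum_mul_sum, ← Finset.sum_mul, h.tot, one_mul, mul_one]
  conv_lhs => rw [h1]
  unfold cmp
  conv_rhs => rw [Finset.sum_comm]
  refine Finset.sum_congr rfl fun p hp => ?_
  conv_rhs => rw [Finset.sum_comm]
  refine Finset.sum_congr rfl fun q hq => ?_
  rw [← Finset.sum_smul, Finset.sum_ite_eq, if_pos, one_smul]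
  simp only [Finset.mem_Icc] at hp hq ⊢
  omega

/-- A polarized Hodge structure of weight three without nontrivial endomorphisms whose Lie algebra
has no elements of degree three gives the abstract data. -/
theorem dt_of (d : Pol D Om (Finset.Icc (-3) 3) P) [Nonempty B] (hE : EndQ D) {v : B → ℂ}
    (hv0 : v ≠ 0) (hv : D *ᵥ v = ((3 : ℤ) : ℂ) • v)
    (htop : ∀ x, D *ᵥ x = ((3 : ℤ) : ℂ) • x → ∃ c : ℂ, x = c • v)
    (hg : ∀ Y ∈ lieM D ℂ, ww (cK ℂ Om) v (Y *ᵥ v) = 0) :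
    Dt (LE D) (Matrix.toLin' D) (fun a => Matrix.toLin' (P a)) (wwL (cK ℂ Om)) v (cj v) where
  br := by
    rintro _ ⟨X, hX, rfl⟩ _ ⟨Y, hY, rfl⟩
    change (Matrix.toLin' X : Module.End ℂ (B → ℂ)) * Matrix.toLin' Y -
      Matrix.toLin' Y * Matrix.toLin' X ∈ _
    rw [br_toLin, mem_LE]
    exact lieM_bracket D hX hY
  DL := mem_LE.2 (D_mem D)
  gr := by
    rintro _ ⟨X, hX, rfl⟩
    refine ⟨fun a => Matrix.toLin' (cmp (Finset.Icc (-3) 3) P X a),
      fun a => ⟨mem_LE.2 (cmp_mem d.prj hX a), ?_⟩, ?_⟩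
    · rw [br_toLin, cmp_br d.prj, map_smul]
    · rw [← map_sum, ← cmp_sum d.prj]
      rfl
  anti := fun x y => by
    rw [wwL_apply, wwL_apply]
    exact ww_anti d.skewC x y
  nd := fun x hx => by
    have hu : IsUnit (cK ℂ Om) := by
      obtain ⟨u, hu⟩ := d.unit
      refine ⟨⟨cK ℂ Om, cK ℂ ((u⁻¹ : (Matrix _ _ ℚ)ˣ) : Matrix _ _ ℚ), ?_, ?_⟩, rfl⟩
      · rw [← cK_mul, ← hu, Units.mul_inv, cK_one]
      · rw [← cK_mul, ← hu, Units.inv_mul, cK_one]
    have h2 : cK ℂ Om *ᵥ x = 0 := by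
      funext i
      have h3 := hx (Pi.single i 1)
      rw [wwL_apply, ww_anti d.skewC, neg_eq_zero] at h3
      unfold ww at h3
      rwa [single_one_dotProduct] at h3
    obtain ⟨u, hu⟩ := hu
    have h3 : ((u⁻¹ : (Matrix B B ℂ)ˣ) : Matrix B B ℂ) *ᵥ (cK ℂ Om *ᵥ x) = x := by
      rw [← hu, mulVec_mulVec, Units.inv_mul, one_mulVec]
    rw [← h3, h2, mulVec_zero]
  sp := by
    rintro _ ⟨X, hX, rfl⟩ x y
    rw [wwL_apply, wwL_apply]
    exact ww_sp (spC d hX) x y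
  tot := by
    have h1 := d.prj.tot
    have h2 : (Finset.Icc (-3 : ℤ) 3) = {3, 2, 1, 0, -1, -2, -3} := by decide
    rw [h2] at h1
    rw [Finset.sum_insert (by decide), Finset.sum_insert (by decide),
      Finset.sum_insert (by decide), Finset.sum_insert (by decide),
      Finset.sum_insert (by decide), Finset.sum_insert (by decide), Finset.sum_singleton,
      d.P_zero_of_not_odd (a := 2) (by decide), d.P_zero_of_not_odd (a := 0) (by decide),
      d.P_zero_of_not_odd (a := -2) (by decide), zero_add, zero_add, zero_add] at h1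
    have h3 := congrArg (Matrix.toLin' : Matrix B B ℂ ≃ₗ[ℂ] ((B → ℂ) →ₗ[ℂ] (B → ℂ))) h1
    rw [map_add, map_add, map_add, Matrix.toLin'_one] at h3
    change _ = LinearMap.id
    rw [← h3]
    abel
  Pl := fun a => by
    rw [mul_toLin, d.prj.left, map_smul]
  Pr := fun a => by
    rw [mul_toLin, d.prj.right, map_smul]
  ep := hv
  em := by
    have h1 := d.cj_eig hv
    exact h1
  tp := htop
  tm := fun x hx => by
    have hx' : D *ᵥ x = ((-3 : ℤ) : ℂ) • x := hx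
    obtain ⟨c, hc⟩ := htop (cj x) (by
      have h1 := d.cj_eig hx'
      simpa using h1)
    refine ⟨starRingEnd ℂ c, ?_⟩
    rw [← cj_smul, ← hc, cj_cj]
  nz := by
    have h1 := d.pos 3 v hv hv0
    intro h
    rw [wwL_apply] at h
    rw [h, mul_zero] at h1
    exact lt_irrefl _ h1
  irr := fun U hU => irr_of_endQ d hE U fun X hX x hx => hU _ (mem_LE.2 hX) x hx
  tr := by
    rintro _ ⟨X, hX, rfl⟩ h
    have h1 : X = 0 := by
      refine tr_nondeg d hX fun Y hY => ?_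
      have h2 := h _ (mem_LE.2 hY)
      change LinearMap.trace ℂ (B → ℂ) ((Matrix.toLin' X : Module.End ℂ (B → ℂ)) *
        Matrix.toLin' Y) = 0 at h2
      rw [mul_toLin] at h2
      have h3 := LinearMap.trace_eq_matrix_trace ℂ (Pi.basisFun ℂ B) (Matrix.toLin' (X * Y))
      rw [h2] at h3
      have h4 : LinearMap.toMatrix (Pi.basisFun ℂ B) (Pi.basisFun ℂ B) (Matrix.toLin' (X * Y)) =
          X * Y := LinearMap.toMatrix'_toLin' _
      rw [h4] at h3
      exact h3.symm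
    rw [h1]
    exact map_zero _
  trz := by
    rintro _ ⟨X, hX, rfl⟩
    have hu : IsUnit (cK ℂ Om) := by
      obtain ⟨u, hu⟩ := d.unit
      refine ⟨⟨cK ℂ Om, cK ℂ ((u⁻¹ : (Matrix _ _ ℚ)ˣ) : Matrix _ _ ℚ), ?_, ?_⟩, rfl⟩
      · rw [← cK_mul, ← hu, Units.mul_inv, cK_one]
      · rw [← cK_mul, ← hu, Units.inv_mul, cK_one]
    have h1 := tr_zero hu (spC d hX)
    have h3 := LinearMap.trace_eq_matrix_trace ℂ (Pi.basisFun ℂ B) (Matrix.toLin' X)
    have h4 : LinearMap.toMatrix (Pi.basisFun ℂ B) (Pi.basisFun ℂ B) (Matrix.toLin' X) =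
        X := LinearMap.toMatrix'_toLin' _
    rw [h4, h1] at h3
    exact h3
  g3 := by
    rintro _ ⟨X, hX, rfl⟩
    rw [wwL_apply]
    change ww (cK ℂ Om) (X *ᵥ cj v) (cj v) = 0
    have hrat : ∀ σ : ℂ →+* ℂ, (cK ℂ Om).map σ = cK ℂ Om := by
      intro σ
      ext i j
      simp [cK]
    have h1 := hg _ (map_mem_aut hX (starRingEnd ℂ))
    have h2 := congrArg (starRingEnd ℂ) h1
    rw [ww_map (hrat _), map_zero] at h2
    have h3 : (fun i => starRingEnd ℂ ((X.map (starRingEnd ℂ) *ᵥ v) i)) = X *ᵥ cj v := by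
      have h4 := cj_mulVec (X.map (starRingEnd ℂ)) v
      have h5 : (X.map (starRingEnd ℂ)).map (starRingEnd ℂ) = X := by
        ext i j
        simp
      rw [h5] at h4
      exact h4
    rw [h3] at h2
    rw [ww_anti d.skewC]
    have h4 : ww (cK ℂ Om) (cj v) (X *ᵥ cj v) = 0 := h2
    rw [h4, neg_zero]
  g3' := by
    rintro _ ⟨X, hX, rfl⟩
    rw [wwL_apply]
    change ww (cK ℂ Om) (X *ᵥ v) v = 0
    rw [ww_anti d.skewC, hg X hX, neg_zero]

/-- If there is an element of degree three then the Lie algebra is the full symplectic Lie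
algebra. -/
theorem full_of_ne (d : Pol D Om (Finset.Icc (-3) 3) P) [Nonempty B] (hE : EndQ D) {v : B → ℂ}
    (hv0 : v ≠ 0) (hv : D *ᵥ v = ((3 : ℤ) : ℂ) • v)
    (htop : ∀ x, D *ᵥ x = ((3 : ℤ) : ℂ) • x → ∃ c : ℂ, x = c • v)
    {Y : Matrix B B ℂ} (hY : Y ∈ lieM D ℂ) (hne : ww (cK ℂ Om) v (Y *ᵥ v) ≠ 0)
    (x y : B → ℂ) : SS (cK ℂ Om) x y ∈ lieM D ℂ := by
  have hS : ∀ a, P a ≠ 0 → -(3 : ℤ) ≤ a ∧ a ≤ 3 := by
    intro a ha
    by_contra h
    apply ha
    refine d.prj.zero ?_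
    rw [Finset.mem_Icc]
    exact h
  obtain ⟨S', d'⟩ := d.dat (k := 3) (by norm_num) hS hv0 hv htop
  have hg := d'.good_of_ne hY hne
  have h1 : VV D (cK ℂ Om) v = ⊤ := by
    rcases irr_of_endQ d hE (VV D (cK ℂ Om) v)
      (fun X hX x hx => VV_stable d'.skew d'.sp hg hX hx) with h | h
    · exfalso
      have h2 := self_mem_VV hg
      rw [h, Submodule.mem_bot] at h2
      exact hv0 h2
    · exact h
  refine VV_pair d'.skew d'.sp hg ?_ ?_ <;> rw [h1] <;> trivial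

end Run7.h853.Cy
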