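import Mathlib
import Pool.Agent.Run7.h853.Cy.U

/-!
# Properties of the three-dimensional ideal
-/

set_option linter.unusedSectionVars false

namespace Run7.h853.Cy

open Module

variable {K V : Type*} [Field K] [CharZero K] [AddCommGroup V] [Module K V]
  [FiniteDimensional K V]

variable {L : Submodule K (End K V)} {D : End K V} {P : ℤ → End K V}
    {w : V →ₗ[K] V →ₗ[K] K} {vp vm : V} {x y : End K V} {r0 : K}

/-- The ideal. -/
def idl (x y : End K V) : Submodule K (End K V) := Submodule.span K {x, y, x * y - y * x}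

theorem mem_idl {a : End K V} : a ∈ idl x y ↔
    ∃ k l m : K, a = k • x + l • y + m • (x * y - y * x) := by
  unfold idl
  rw [Submodule.mem_span_insert]
  constructor
  · rintro ⟨k, z, hz, rfl⟩
    rw [Submodule.mem_span_pair] at hz
    obtain ⟨l, m, rfl⟩ := hz
    exact ⟨k, l, m, by abel⟩
  · rintro ⟨k, l, m, rfl⟩
    exact ⟨k, l • y + m • (x * y - y * x), Submodule.mem_span_pair.2 ⟨l, m, rfl⟩, by abel⟩

theorem x_mem_idl : x ∈ idl x y := mem_idl.2 ⟨1, 0, 0, by simp⟩

theorem y_mem_idl : y ∈ idl x y := mem_idl.2 ⟨0, 1, 0, by simp⟩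

theorem h_mem_idl : x * y - y * x ∈ idl x y := mem_idl.2 ⟨0, 0, 1, by simp⟩

variable (h : Sl L D vm x y r0)

include h

theorem Sl.xyx : x * y * x = r0 • x := by
  have h1 : x * y * x = (x * y + y * x) * x - y * (x * x) := by noncomm_ring
  rw [h1, h.xy, h.xx, smul_mul_assoc, one_mul, mul_zero, sub_zero]

theorem Sl.yxy : y * x * y = r0 • y := by
  have h1 : y * x * y = (x * y + y * x) * y - x * (y * y) := by noncomm_ring
  rw [h1, h.xy, h.yy, smul_mul_assoc, one_mul, mul_zero, sub_zero]

theorem Sl.hh : (x * y - y * x) * (x * y - y * x) = (r0 * r0) • 1 := by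
  have h1 : (x * y - y * x) * (x * y - y * x) = (x * y * x) * y + (y * x * y) * x -
      x * (y * y) * x - y * (x * x) * y := by noncomm_ring
  rw [h1, h.xyx, h.yxy, h.xx, h.yy]
  simp only [smul_mul_assoc, mul_zero, zero_mul, sub_zero]
  rw [← smul_add, h.xy, smul_smul]

theorem Sl.xh : x * (x * y - y * x) + (x * y - y * x) * x = 0 := by
  have h1 : x * (x * y - y * x) + (x * y - y * x) * x = (x * x) * y - y * (x * x) := by
    noncomm_ring
  rw [h1, h.xx]
  simp

theorem Sl.yh : y * (x * y - y * x) + (x * y - y * x) * y = 0 := by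
  have h1 : y * (x * y - y * x) + (x * y - y * x) * y = x * (y * y) - (y * y) * x := by
    noncomm_ring
  rw [h1, h.yy]
  simp

theorem Sl.mul_self (k l m : K) : (k • x + l • y + m • (x * y - y * x)) *
    (k • x + l • y + m • (x * y - y * x)) = (k * l * r0 + m * m * (r0 * r0)) • 1 := by
  obtain ⟨e, he⟩ : ∃ e, e = x * y - y * x := ⟨_, rfl⟩
  rw [← he]
  have h1 : (k • x + l • y + m • e) * (k • x + l • y + m • e) =
      (k * k) • (x * x) + (l * l) • (y * y) + (m * m) • (e * e) + (k * l) • (x * y + y * x) +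
        (k * m) • (x * e + e * x) + (l * m) • (y * e + e * y) := by
    simp only [mul_add, add_mul, smul_mul_smul_comm, smul_add]
    rw [mul_comm l k, mul_comm m k, mul_comm m l]
    abel
  rw [h1, h.xx, h.yy, h.xy, he, h.hh, h.xh, h.yh, smul_zero, smul_zero, smul_zero, smul_zero,
    smul_smul, smul_smul]
  rw [zero_add, zero_add, add_zero, add_zero, ← add_smul, add_comm (m * m * (r0 * r0))]

/-- The squares of the elements of the ideal are scalars. -/
theorem Sl.sq {a : End K V} (ha : a ∈ idl x y) : ∃ c : K, a * a = c • 1 := by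
  obtain ⟨k, l, m, rfl⟩ := mem_idl.1 ha
  exact ⟨_, h.mul_self k l m⟩

theorem Sl.x0 [Nontrivial V] : x ≠ 0 := by
  rintro rfl
  have h1 := h.xy
  rw [zero_mul, mul_zero, add_zero] at h1
  have h2 : (1 : End K V) ≠ 0 := one_ne_zero
  exact h.ne ((smul_eq_zero.1 h1.symm).resolve_right h2)

theorem Sl.y0 [Nontrivial V] : y ≠ 0 := by
  rintro rfl
  have h1 := h.xy
  rw [zero_mul, mul_zero, add_zero] at h1
  have h2 : (1 : End K V) ≠ 0 := one_ne_zero
  exact h.ne ((smul_eq_zero.1 h1.symm).resolve_right h2)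

theorem Sl.h0 [Nontrivial V] : x * y - y * x ≠ 0 := by
  intro h0
  have h1 := h.hh
  rw [h0, mul_zero] at h1
  have h2 : (1 : End K V) ≠ 0 := one_ne_zero
  exact mul_ne_zero h.ne h.ne ((smul_eq_zero.1 h1.symm).resolve_right h2)

variable (d : Dt L D P w vp vm)

include d

theorem Sl.gh : G L D 0 (x * y - y * x) := d.G_br' h.gx h.gy (by decide)

theorem Sl.le : idl x y ≤ L := by
  intro a ha
  obtain ⟨k, l, m, rfl⟩ := mem_idl.1 ha
  exact Submodule.add_mem _ (Submodule.add_mem _ (Submodule.smul_mem _ _ h.gx.1)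
    (Submodule.smul_mem _ _ h.gy.1)) (Submodule.smul_mem _ _ (h.gh d).1)

theorem Sl.finrank_idl : finrank K (idl x y) = 3 := by
  have hnt : Nontrivial V := ⟨⟨vp, 0, d.vp0⟩⟩
  have hli : LinearIndependent K ![x, y, x * y - y * x] := by
    rw [Fintype.linearIndependent_iff]
    intro g hg
    rw [Fin.sum_univ_three] at hg
    have hg' : g 0 • x + g 2 • (x * y - y * x) + g 1 • y = 0 := by
      rw [← hg]
      change g 0 • x + g 2 • (x * y - y * x) + g 1 • y =
        g 0 • x + g 1 • y + g 2 • (x * y - y * x)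
      abel
    obtain ⟨h1, h2, h3⟩ := d.dec_unique (h.gx.smul (g 0)) ((h.gh d).smul (g 2))
      (h.gy.smul (g 1)) hg'
    intro i
    fin_cases i
    · exact (smul_eq_zero.1 h1).resolve_right h.x0
    · exact (smul_eq_zero.1 h3).resolve_right h.y0
    · exact (smul_eq_zero.1 h2).resolve_right h.h0
  have h1 := finrank_span_eq_card hli
  have h2 : Set.range ![x, y, x * y - y * x] = {x, y, x * y - y * x} := by
    ext a
    constructor
    · rintro ⟨i, rfl⟩
      fin_cases i <;> simp
    · intro ha
      simp only [Set.mem_insert_iff, Set.mem_singleton_iff] at ha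
      rcases ha with rfl | rfl | rfl
      · exact ⟨0, rfl⟩
      · exact ⟨1, rfl⟩
      · exact ⟨2, rfl⟩
  rw [h2, Fintype.card_fin] at h1
  exact h1

/-- The ideal is an ideal. -/
theorem Sl.ideal : ∀ X ∈ L, ∀ a ∈ idl x y, X * a - a * X ∈ idl x y := by
  have hx : ∀ X ∈ L, ∃ k l m : K, X * x - x * X = k • x + l • y + m • (x * y - y * x) := by
    intro X hX
    obtain ⟨A, B, C, hA, hB, hC, rfl⟩ := d.dec hX
    obtain ⟨a, ha, -⟩ := h.st B hB
    obtain ⟨c, s, hs, hsx, rfl⟩ := h.covm C hC
    refine ⟨a, 0, -c, ?_⟩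
    have h1 : (A + B + (c • y + s)) * x - x * (A + B + (c • y + s)) =
        (A * x - x * A) + (B * x - x * B) + c • (y * x - x * y) + (s * x - x * s) := by
      simp only [add_mul, mul_add, smul_mul_assoc, mul_smul_comm, smul_sub]
      abel
    rw [h1, d.comm hA h.gx, ha, hsx, sub_self, sub_self]
    module
  have hy : ∀ X ∈ L, ∃ k l m : K, X * y - y * X = k • x + l • y + m • (x * y - y * x) := by
    intro X hX
    obtain ⟨A, B, C, hA, hB, hC, rfl⟩ := d.dec hX
    obtain ⟨a, -, ha⟩ := h.st B hB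
    obtain ⟨c, s, hs, hsy, rfl⟩ := h.cov A hA
    refine ⟨0, -a, c, ?_⟩
    have h1 : (c • x + s + B + C) * y - y * (c • x + s + B + C) =
        (C * y - y * C) + (B * y - y * B) + c • (x * y - y * x) + (s * y - y * s) := by
      simp only [add_mul, mul_add, smul_mul_assoc, mul_smul_comm, smul_sub]
      abel
    rw [h1, d.comm' hC h.gy, ha, hsy, sub_self, sub_self]
    module
  have hcx : ∀ a ∈ idl x y, a * y - y * a ∈ idl x y ∧ x * a - a * x ∈ idl x y := by
    intro a ha
    obtain ⟨k, l, m, rfl⟩ := mem_idl.1 ha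
    constructor
    · have h1 : ∀ e : End K V, (k • x + l • y + m • e) * y -
          y * (k • x + l • y + m • e) = k • (x * y - y * x) +
            m • (e * y - y * e) := by
        intro e
        simp only [add_mul, mul_add, smul_mul_assoc, mul_smul_comm, smul_sub]
        abel
      rw [h1, h.hy]
      exact mem_idl.2 ⟨0, -(m * (2 * r0)), k, by module⟩
    · have h1 : ∀ e : End K V, x * (k • x + l • y + m • e) -
          (k • x + l • y + m • e) * x = l • (x * y - y * x) -
            m • (e * x - x * e) := by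
        intro e
        simp only [add_mul, mul_add, smul_mul_assoc, mul_smul_comm, smul_sub]
        abel
      rw [h1, h.hx]
      exact mem_idl.2 ⟨-(m * (2 * r0)), 0, l, by module⟩
  intro X hX a ha
  obtain ⟨k, l, m, rfl⟩ := mem_idl.1 ha
  have e1 : X * x - x * X ∈ idl x y := mem_idl.2 (hx X hX)
  have e2 : X * y - y * X ∈ idl x y := mem_idl.2 (hy X hX)
  have e3 : X * (x * y - y * x) - (x * y - y * x) * X ∈ idl x y := by
    have h1 : X * (x * y - y * x) - (x * y - y * x) * X =
        ((X * x - x * X) * y - y * (X * x - x * X)) +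
          (x * (X * y - y * X) - (X * y - y * X) * x) := by noncomm_ring
    rw [h1]
    exact Submodule.add_mem _ (hcx _ e1).1 (hcx _ e2).2
  have h1 : X * (k • x + l • y + m • (x * y - y * x)) -
      (k • x + l • y + m • (x * y - y * x)) * X = k • (X * x - x * X) + l • (X * y - y * X) +
        m • (X * (x * y - y * x) - (x * y - y * x) * X) := by
    obtain ⟨e, he⟩ : ∃ e, e = x * y - y * x := ⟨_, rfl⟩
    rw [← he]
    simp only [add_mul, mul_add, smul_mul_assoc, mul_smul_comm, smul_sub]
    abel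
  rw [h1]
  exact Submodule.add_mem _ (Submodule.add_mem _ (Submodule.smul_mem _ _ e1)
    (Submodule.smul_mem _ _ e2)) (Submodule.smul_mem _ _ e3)

end Run7.h853.Cy
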