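import Mathlib
import Pool.Agent.Run7.h853.Cy.SlProp
import Pool.Agent.Run7.h853.Cy.Asm

/-!
# The three-dimensional ideal is rational
-/

set_option linter.unusedSectionVars false

namespace Run7.h853.Cy

open Matrix ComplexOrder Pool.Agent.W437.HC Pool.Agent.W437.HD Pool.Agent.W437.HP
  Pool.Agent.W437.HR Pool.Agent.W437.CY

variable {B : Type} [Fintype B] [DecidableEq B] {D : Matrix B B ℂ}

/-- The action of an automorphism of the field of complex numbers on endomorphisms. -/
noncomputable def mapE (σ : ℂ ≃+* ℂ) (X : Module.End ℂ (B → ℂ)) : Module.End ℂ (B → ℂ) :=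
  Matrix.toLin' ((LinearMap.toMatrix' X).map σ)

theorem mapE_toLin (σ : ℂ ≃+* ℂ) (X : Matrix B B ℂ) :
    mapE σ (Matrix.toLin' X) = Matrix.toLin' (X.map σ) := by
  unfold mapE
  rw [LinearMap.toMatrix'_toLin']

theorem toLin_surj (X : Module.End ℂ (B → ℂ)) : ∃ M : Matrix B B ℂ, X = Matrix.toLin' M :=
  ⟨LinearMap.toMatrix' X, (Matrix.toLin'_toMatrix' X).symm⟩

theorem mapE_add (σ : ℂ ≃+* ℂ) (X Y : Module.End ℂ (B → ℂ)) :
    mapE σ (X + Y) = mapE σ X + mapE σ Y := by
  obtain ⟨X, rfl⟩ := toLin_surj X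
  obtain ⟨Y, rfl⟩ := toLin_surj Y
  rw [← map_add, mapE_toLin, mapE_toLin, mapE_toLin, ← map_add]
  congr 1
  ext i j
  simp

theorem mapE_sub (σ : ℂ ≃+* ℂ) (X Y : Module.End ℂ (B → ℂ)) :
    mapE σ (X - Y) = mapE σ X - mapE σ Y := by
  obtain ⟨X, rfl⟩ := toLin_surj X
  obtain ⟨Y, rfl⟩ := toLin_surj Y
  rw [← map_sub, mapE_toLin, mapE_toLin, mapE_toLin, ← map_sub]
  congr 1
  ext i j
  simp

theorem mapE_smul (σ : ℂ ≃+* ℂ) (c : ℂ) (X : Module.End ℂ (B → ℂ)) :
    mapE σ (c • X) = σ c • mapE σ X := by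
  obtain ⟨X, rfl⟩ := toLin_surj X
  rw [← map_smul, mapE_toLin, mapE_toLin, ← map_smul]
  congr 1
  ext i j
  simp

theorem mapE_mul (σ : ℂ ≃+* ℂ) (X Y : Module.End ℂ (B → ℂ)) :
    mapE σ (X * Y) = mapE σ X * mapE σ Y := by
  obtain ⟨X, rfl⟩ := toLin_surj X
  obtain ⟨Y, rfl⟩ := toLin_surj Y
  rw [mul_toLin, mapE_toLin, mapE_toLin, mapE_toLin, mul_toLin]
  congr 1
  exact Matrix.map_mul (f := (σ : ℂ →+* ℂ))

theorem mapE_one (σ : ℂ ≃+* ℂ) : mapE σ (1 : Module.End ℂ (B → ℂ)) = 1 := by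
  have h1 : (1 : Module.End ℂ (B → ℂ)) = Matrix.toLin' (1 : Matrix B B ℂ) :=
    Matrix.toLin'_one.symm
  rw [h1, mapE_toLin]
  congr 1
  exact Matrix.map_one _ (map_zero σ) (map_one σ)

theorem mapE_symm (σ : ℂ ≃+* ℂ) (X : Module.End ℂ (B → ℂ)) :
    mapE σ.symm (mapE σ X) = X := by
  obtain ⟨X, rfl⟩ := toLin_surj X
  rw [mapE_toLin, mapE_toLin]
  congr 1
  ext i j
  simp

theorem mapE_symm' (σ : ℂ ≃+* ℂ) (X : Module.End ℂ (B → ℂ)) :
    mapE σ (mapE σ.symm X) = X := mapE_symm σ.symm X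

theorem mapE_mem (σ : ℂ ≃+* ℂ) {X : Module.End ℂ (B → ℂ)} (hX : X ∈ LE D) :
    mapE σ X ∈ LE D := by
  obtain ⟨X, rfl⟩ := toLin_surj X
  rw [mem_LE] at hX
  rw [mapE_toLin, mem_LE]
  exact map_mem_aut hX (σ : ℂ →+* ℂ)

theorem mapE_zero (σ : ℂ ≃+* ℂ) : mapE σ (0 : Module.End ℂ (B → ℂ)) = 0 := by
  have h := mapE_smul σ 0 (0 : Module.End ℂ (B → ℂ))
  rwa [zero_smul, map_zero, zero_smul] at h

variable {P : ℤ → Module.End ℂ (B → ℂ)} {w : (B → ℂ) →ₗ[ℂ] (B → ℂ) →ₗ[ℂ] ℂ} {vp vm : B → ℂ}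
  (d : Dt (LE D) (Matrix.toLin' D) P w vp vm) {x y : Module.End ℂ (B → ℂ)} {r0 : ℂ}
  (h : Sl (LE D) (Matrix.toLin' D) vm x y r0)

include d h

/-- The ideal is stable under the automorphisms of the field of complex numbers. -/
theorem idl_stable (hq : Module.finrank ℂ (ES (Matrix.toLin' D) 1) ≠ 3) (σ : ℂ ≃+* ℂ)
    {a : Module.End ℂ (B → ℂ)} (ha : a ∈ idl x y) : mapE σ a ∈ idl x y := by
  let S : Submodule ℂ (Module.End ℂ (B → ℂ)) :=
    { carrier := {X | mapE σ X ∈ idl x y}
      zero_mem' := by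
        change mapE σ 0 ∈ idl x y
        rw [mapE_zero]
        exact Submodule.zero_mem _
      add_mem' := by
        intro X Y hX hY
        change mapE σ (X + Y) ∈ idl x y
        rw [mapE_add]
        exact Submodule.add_mem _ hX hY
      smul_mem' := by
        intro c X hX
        change mapE σ (c • X) ∈ idl x y
        rw [mapE_smul]
        exact Submodule.smul_mem _ _ hX }
  have hS : ∀ X, X ∈ S ↔ mapE σ X ∈ idl x y := fun X => Iff.rfl
  have hrank : Module.finrank ℂ S = 3 := by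
    rw [← h.finrank_idl d]
    have h1 : Module.rank ℂ S = Module.rank ℂ (idl x y) := by
      refine rank_eq_of_equiv_equiv (σ : ℂ → ℂ)
        { toFun := fun X => ⟨mapE σ X.1, X.2⟩
          invFun := fun X => ⟨mapE σ.symm X.1, by
            rw [hS, mapE_symm']
            exact X.2⟩
          left_inv := fun X => Subtype.ext (mapE_symm σ X.1)
          right_inv := fun X => Subtype.ext (mapE_symm' σ X.1)
          map_add' := fun X Y => Subtype.ext (mapE_add σ X.1 Y.1) } σ.bijective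
        (fun c X => Subtype.ext (mapE_smul σ c X.1))
    unfold Module.finrank
    rw [h1]
  have hle : S ≤ LE D := by
    intro X hX
    have h1 := mapE_mem σ.symm (h.le d hX)
    rwa [mapE_symm] at h1
  have hid : ∀ X ∈ LE D, ∀ b ∈ S, X * b - b * X ∈ S := by
    intro X hX b hb
    rw [hS, mapE_sub, mapE_mul, mapE_mul]
    exact h.ideal d _ (mapE_mem σ hX) _ hb
  have hsq : ∀ b ∈ S, ∃ c : ℂ, b * b = c • (1 : Module.End ℂ (B → ℂ)) := by
    intro b hb
    obtain ⟨c, hc⟩ := h.sq hb
    refine ⟨σ.symm c, ?_⟩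
    rw [← mapE_mul] at hc
    have h1 := congrArg (mapE σ.symm) hc
    rwa [mapE_symm, mapE_smul, mapE_one] at h1
  have hu := d.uniq h (S := S) hle hid hrank hsq
  rcases hu with h1 | h1
  · exact h1 ha
  · exact absurd h1 hq

omit d h in
/-- The rational matrices in a rational space of matrices span it. -/
theorem span_cK (T : Submodule ℂ (Matrix B B ℂ)) (hT : ∀ (σ : ℂ ≃+* ℂ), ∀ M ∈ T, M.map σ ∈ T)
    {M : Matrix B B ℂ} (hM : M ∈ T) :
    M ∈ Submodule.span ℂ {N | N ∈ T ∧ ∃ N0 : Matrix B B ℚ, N = cK ℂ N0} := by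
  let e : Matrix B B ℂ →ₗ[ℂ] (B × B → ℂ) :=
    { toFun := fun f p => f p.1 p.2
      map_add' := fun _ _ => rfl
      map_smul' := fun _ _ => rfl }
  let e' : (B × B → ℂ) →ₗ[ℂ] Matrix B B ℂ :=
    { toFun := fun f => Matrix.of fun i j => f (i, j)
      map_add' := fun _ _ => rfl
      map_smul' := fun _ _ => rfl }
  have hrat := span_rational (T.comap e') (fun σ v hv => hT σ _ hv)
  have h1 : e M ∈ T.comap e' := hM
  rw [hrat] at h1
  have h2 := Submodule.mem_map_of_mem (f := e') h1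
  rw [Submodule.map_span] at h2
  have h3 : e' (e M) = M := rfl
  rw [h3] at h2
  refine Submodule.span_mono ?_ h2
  rintro _ ⟨f, ⟨hf, u, rfl⟩, rfl⟩
  exact ⟨hf, Matrix.of fun i j => u (i, j), rfl⟩

/-- Rational generators of the quaternion algebra. -/
theorem exists_quat (hq : Module.finrank ℂ (ES (Matrix.toLin' D) 1) ≠ 3) :
    ∃ (a b : ℚ) (I J : Matrix B B ℚ), a ≠ 0 ∧ b ≠ 0 ∧ I * I = a • 1 ∧ J * J = b • 1 ∧
      I * J = -(J * I) ∧
      Submodule.span ℂ {Matrix.toLin' (cK ℂ I), Matrix.toLin' (cK ℂ J),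
        Matrix.toLin' (cK ℂ (I * J))} = idl x y := by
  have hnt : Nontrivial (B → ℂ) := ⟨⟨vp, 0, d.vp0⟩⟩
  have hB : Nonempty B := by
    by_contra hB
    rw [not_nonempty_iff] at hB
    exact not_subsingleton (B → ℂ) inferInstance
  -- the rational points
  obtain ⟨T, hT⟩ : ∃ T : Submodule ℂ (Matrix B B ℂ), ∀ M, M ∈ T ↔ Matrix.toLin' M ∈ idl x y :=
    ⟨(idl x y).comap (Matrix.toLin' : Matrix B B ℂ ≃ₗ[ℂ] ((B → ℂ) →ₗ[ℂ] (B → ℂ))).toLinearMap,
      fun M => Iff.rfl⟩
  have hTσ : ∀ (σ : ℂ ≃+* ℂ), ∀ M ∈ T, M.map σ ∈ T := by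
    intro σ M hM
    rw [hT] at hM ⊢
    rw [← mapE_toLin]
    exact idl_stable d h hq σ hM
  have hsqC : ∀ M ∈ T, ∃ c : ℂ, M * M = c • (1 : Matrix B B ℂ) := by
    intro M hM
    obtain ⟨c, hc⟩ := h.sq ((hT M).1 hM)
    refine ⟨c, ?_⟩
    rw [mul_toLin] at hc
    apply Matrix.toLin'.injective
    rw [hc, map_smul, Matrix.toLin'_one]
    rfl
  have hsq : ∀ M : Matrix B B ℚ, cK ℂ M ∈ T → ∃ c : ℚ, M * M = c • (1 : Matrix B B ℚ) := by
    intro M hM
    obtain ⟨c, hc⟩ := hsqC _ hM
    rw [← cK_mul] at hc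
    obtain ⟨k⟩ := hB
    refine ⟨(M * M) k k, ?_⟩
    have h1 := congrFun (congrFun hc k) k
    have h2 : (((M * M) k k : ℚ) : ℂ) = c := by
      simpa [cK] using h1
    ext i j
    have h3 := congrFun (congrFun hc i) j
    rw [← h2] at h3
    have h4 : (((M * M) i j : ℚ) : ℂ) =
        ((((M * M) k k • (1 : Matrix B B ℚ)) i j : ℚ) : ℂ) := by
      simp only [cK, Matrix.map_apply, Matrix.smul_apply, Matrix.one_apply, smul_eq_mul] at h3 ⊢
      rw [h3]
      split_ifs <;> simp
    exact_mod_cast h4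
  have hpol : ∀ M N : Matrix B B ℚ, cK ℂ M ∈ T → cK ℂ N ∈ T →
      ∃ c : ℚ, M * N + N * M = c • (1 : Matrix B B ℚ) := by
    intro M N hM hN
    obtain ⟨c1, h1⟩ := hsq M hM
    obtain ⟨c2, h2⟩ := hsq N hN
    have hMN : cK ℂ (M + N) ∈ T := by
      have h3 : cK ℂ (M + N) = cK ℂ M + cK ℂ N := by
        ext i j
        simp [cK]
      rw [h3]
      exact Submodule.add_mem _ hM hN
    obtain ⟨c3, h3⟩ := hsq _ hMN
    refine ⟨c3 - c1 - c2, ?_⟩
    have h4 : M * N + N * M = (M + N) * (M + N) - M * M - N * N := by noncomm_ring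
    rw [h4, h1, h2, h3]
    module
  obtain ⟨x', hx'⟩ := toLin_surj x
  obtain ⟨y', hy'⟩ := toLin_surj y
  have hxT : x' ∈ T := by
    rw [hT, ← hx']
    exact x_mem_idl
  have hyT : y' ∈ T := by
    rw [hT, ← hy']
    exact y_mem_idl
  have hxy : x' * y' + y' * x' = r0 • (1 : Matrix B B ℂ) := by
    have h1 := h.xy
    rw [hx', hy', mul_toLin, mul_toLin, ← map_add] at h1
    apply Matrix.toLin'.injective
    rw [h1, map_smul, Matrix.toLin'_one]
    rfl
  have hxx : x' * x' = 0 := by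
    have h1 := h.xx
    rw [hx', mul_toLin] at h1
    exact Matrix.toLin'.injective (h1.trans (map_zero _).symm)
  have h1ne : (1 : Matrix B B ℂ) ≠ 0 := by
    intro h0
    obtain ⟨k⟩ := hB
    have h1 := congrFun (congrFun h0 k) k
    rw [Matrix.one_apply_eq, Matrix.zero_apply] at h1
    exact one_ne_zero h1
  -- the first generator
  obtain ⟨I, a, hI, ha, hIa⟩ : ∃ (I : Matrix B B ℚ) (a : ℚ), cK ℂ I ∈ T ∧ a ≠ 0 ∧
      I * I = a • (1 : Matrix B B ℚ) := by
    by_contra hcon
    push Not at hcon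
    have h0 : ∀ M : Matrix B B ℚ, cK ℂ M ∈ T → M * M = 0 := by
      intro M hM
      obtain ⟨c, hc⟩ := hsq M hM
      by_cases hc0 : c = 0
      · rw [hc, hc0, zero_smul]
      · exact absurd hc (hcon M c hM hc0)
    have h1 : ∀ M N : Matrix B B ℚ, cK ℂ M ∈ T → cK ℂ N ∈ T → M * N + N * M = 0 := by
      intro M N hM hN
      have hMN : cK ℂ (M + N) ∈ T := by
        have h3 : cK ℂ (M + N) = cK ℂ M + cK ℂ N := by
          ext i j
          simp [cK]
        rw [h3]
        exact Submodule.add_mem _ hM hN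
      have h4 : M * N + N * M = (M + N) * (M + N) - M * M - N * N := by noncomm_ring
      rw [h4, h0 _ hMN, h0 _ hM, h0 _ hN]
      simp
    have h2 : ∀ M ∈ T, ∀ N ∈ T, M * N + N * M = 0 := by
      intro M hM
      have hM' := span_cK T hTσ hM
      clear hM
      induction hM' using Submodule.span_induction with
      | mem M hM =>
        obtain ⟨hM, M0, rfl⟩ := hM
        intro N hN
        have hN' := span_cK T hTσ hN
        clear hN
        induction hN' using Submodule.span_induction with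
        | mem N hN =>
          obtain ⟨hN, N0, rfl⟩ := hN
          rw [← cK_mul, ← cK_mul]
          have h3 := congrArg (cK ℂ) (h1 M0 N0 hM hN)
          have h4 : cK ℂ (M0 * N0 + N0 * M0) = cK ℂ (M0 * N0) + cK ℂ (N0 * M0) := by
            ext i j
            simp [cK]
          rw [← h4, h3, cK_zero]
        | zero => simp
        | add X Y _ _ h1 h2 =>
          have h3 : cK ℂ M0 * (X + Y) + (X + Y) * cK ℂ M0 =
              (cK ℂ M0 * X + X * cK ℂ M0) + (cK ℂ M0 * Y + Y * cK ℂ M0) := by noncomm_ring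
          rw [h3, h1, h2, add_zero]
        | smul c X _ h1 => rw [mul_smul_comm, smul_mul_assoc, ← smul_add, h1, smul_zero]
      | zero => simp
      | add X Y _ _ h1 h2 =>
        intro N hN
        have h3 : (X + Y) * N + N * (X + Y) = (X * N + N * X) + (Y * N + N * Y) := by
          noncomm_ring
        rw [h3, h1 N hN, h2 N hN, add_zero]
      | smul c X _ h1 =>
        intro N hN
        rw [mul_smul_comm, smul_mul_assoc, ← smul_add, h1 N hN, smul_zero]
    have h3 := h2 x' hxT y' hyT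
    rw [hxy] at h3
    exact h.ne ((smul_eq_zero.1 h3).resolve_right h1ne)
  -- the second generator
  obtain ⟨J, b, hJ, hb, hJb, hIJ⟩ : ∃ (J : Matrix B B ℚ) (b : ℚ), cK ℂ J ∈ T ∧ b ≠ 0 ∧
      J * J = b • (1 : Matrix B B ℚ) ∧ I * J = -(J * I) := by
    by_contra hcon
    push Not at hcon
    -- the form has rank one
    have h0 : ∀ M : Matrix B B ℚ, cK ℂ M ∈ T → I * M + M * I = 0 → M * M = 0 := by
      intro M hM hIM
      obtain ⟨c, hc⟩ := hsq M hM
      by_cases hc0 : c = 0
      · rw [hc, hc0, zero_smul]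
      · exact absurd (eq_neg_of_add_eq_zero_left hIM) (hcon M c hM hc0 hc)
    have h1 : ∀ M N : Matrix B B ℚ, cK ℂ M ∈ T → cK ℂ N ∈ T → I * M + M * I = 0 →
        I * N + N * I = 0 → M * N + N * M = 0 := by
      intro M N hM hN hIM hIN
      have hMN : cK ℂ (M + N) ∈ T := by
        have h3 : cK ℂ (M + N) = cK ℂ M + cK ℂ N := by
          ext i j
          simp [cK]
        rw [h3]
        exact Submodule.add_mem _ hM hN
      have hIMN : I * (M + N) + (M + N) * I = 0 := by
        have h3 : I * (M + N) + (M + N) * I = (I * M + M * I) + (I * N + N * I) := by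
          noncomm_ring
        rw [h3, hIM, hIN, add_zero]
      have h4 : M * N + N * M = (M + N) * (M + N) - M * M - N * N := by noncomm_ring
      rw [h4, h0 _ hMN hIMN, h0 _ hM hIM, h0 _ hN hIN]
      simp
    have hcsub : ∀ (M : Matrix B B ℚ) (m : ℚ), cK ℂ M ∈ T → cK ℂ (M - m • I) ∈ T := by
      intro M m hM
      have h3 : cK ℂ (M - m • I) = cK ℂ M - (m : ℂ) • cK ℂ I := by
        ext i j
        simp [cK]
      rw [h3]
      exact Submodule.sub_mem _ hM (Submodule.smul_mem _ _ hI)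
    have h2 : ∀ M N : Matrix B B ℚ, cK ℂ M ∈ T → cK ℂ N ∈ T →
        M * N + N * M = (2 * a)⁻¹ • ((I * M + M * I) * (I * N + N * I)) := by
      intro M N hM hN
      obtain ⟨m, hm⟩ := hpol I M hI hM
      obtain ⟨n, hn⟩ := hpol I N hI hN
      have e1 : I * (M - (m / (2 * a)) • I) + (M - (m / (2 * a)) • I) * I = 0 := by
        have h3 : I * (M - (m / (2 * a)) • I) + (M - (m / (2 * a)) • I) * I =
            (I * M + M * I) - (2 * (m / (2 * a))) • (I * I) := by
          simp only [mul_sub, sub_mul, mul_smul_comm, smul_mul_assoc]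
          module
        rw [h3, hm, hIa, smul_smul, ← sub_smul]
        have h4 : m - 2 * (m / (2 * a)) * a = 0 := by
          field_simp
          ring
        rw [h4, zero_smul]
      have e2 : I * (N - (n / (2 * a)) • I) + (N - (n / (2 * a)) • I) * I = 0 := by
        have h3 : I * (N - (n / (2 * a)) • I) + (N - (n / (2 * a)) • I) * I =
            (I * N + N * I) - (2 * (n / (2 * a))) • (I * I) := by
          simp only [mul_sub, sub_mul, mul_smul_comm, smul_mul_assoc]
          module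
        rw [h3, hn, hIa, smul_smul, ← sub_smul]
        have h4 : n - 2 * (n / (2 * a)) * a = 0 := by
          field_simp
          ring
        rw [h4, zero_smul]
      have e3 := h1 _ _ (hcsub M _ hM) (hcsub N _ hN) e1 e2
      have e4 : (M - (m / (2 * a)) • I) * (N - (n / (2 * a)) • I) +
          (N - (n / (2 * a)) • I) * (M - (m / (2 * a)) • I) =
          (M * N + N * M) - (n / (2 * a)) • (I * M + M * I) - (m / (2 * a)) • (I * N + N * I) +
            (2 * (m / (2 * a)) * (n / (2 * a))) • (I * I) := by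
        simp only [mul_sub, sub_mul, mul_smul_comm, smul_mul_assoc]
        module
      rw [e4, hm, hn, hIa] at e3
      rw [hm, hn, smul_mul_smul_comm, one_mul, smul_smul]
      have e5 : M * N + N * M = ((n / (2 * a)) * m + (m / (2 * a)) * n -
          (2 * (m / (2 * a)) * (n / (2 * a))) * a) • (1 : Matrix B B ℚ) := by
        have e6 : M * N + N * M = (M * N + N * M - (n / (2 * a)) • m • (1 : Matrix B B ℚ) -
          (m / (2 * a)) • n • 1 + (2 * (m / (2 * a)) * (n / (2 * a))) • a • 1) +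
          ((n / (2 * a)) * m + (m / (2 * a)) * n -
          (2 * (m / (2 * a)) * (n / (2 * a))) * a) • (1 : Matrix B B ℚ) := by module
        rw [e6, e3, zero_add]
      rw [e5]
      congr 1
      field_simp
      ring
    have h3 : ∀ M ∈ T, ∀ N ∈ T, M * N + N * M =
        ((2 * a : ℂ))⁻¹ • ((cK ℂ I * M + M * cK ℂ I) * (cK ℂ I * N + N * cK ℂ I)) := by
      intro M hM
      have hM' := span_cK T hTσ hM
      clear hM
      induction hM' using Submodule.span_induction with
      | mem M hM =>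
        obtain ⟨hM, M0, rfl⟩ := hM
        intro N hN
        have hN' := span_cK T hTσ hN
        clear hN
        induction hN' using Submodule.span_induction with
        | mem N hN =>
          obtain ⟨hN, N0, rfl⟩ := hN
          have h3 := congrArg (cK ℂ) (h2 M0 N0 hM hN)
          have h4 : ∀ X Y : Matrix B B ℚ, cK ℂ (X + Y) = cK ℂ X + cK ℂ Y := by
            intro X Y
            ext i j
            simp [cK]
          have h5 : ∀ (m : ℚ) (X : Matrix B B ℚ), cK ℂ (m • X) = (m : ℂ) • cK ℂ X := by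
            intro m X
            ext i j
            simp [cK]
          rw [h5] at h3
          simp only [h4, cK_mul] at h3
          rw [h3]
          push_cast
          rfl
        | zero => simp
        | add X Y _ _ h1 h2 =>
          have h3 : cK ℂ M0 * (X + Y) + (X + Y) * cK ℂ M0 =
              (cK ℂ M0 * X + X * cK ℂ M0) + (cK ℂ M0 * Y + Y * cK ℂ M0) := by noncomm_ring
          rw [h3, h1, h2, ← smul_add]
          congr 1
          noncomm_ring
        | smul c X _ h1 =>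
          rw [mul_smul_comm, smul_mul_assoc, ← smul_add, h1, mul_smul_comm, smul_mul_assoc,
            ← smul_add, mul_smul_comm, smul_comm]
      | zero => simp
      | add X Y _ _ h1 h2 =>
        intro N hN
        have h3 : (X + Y) * N + N * (X + Y) = (X * N + N * X) + (Y * N + N * Y) := by
          noncomm_ring
        rw [h3, h1 N hN, h2 N hN, ← smul_add]
        congr 1
        noncomm_ring
      | smul c X _ h1 =>
        intro N hN
        rw [mul_smul_comm, smul_mul_assoc, ← smul_add, h1 N hN, mul_smul_comm, smul_mul_assoc,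
          ← smul_add, smul_mul_assoc, smul_comm]
    have h2a : ((2 * a : ℂ))⁻¹ ≠ 0 := by
      apply inv_ne_zero
      exact mul_ne_zero two_ne_zero (by exact_mod_cast ha)
    -- `x` is orthogonal to the first generator
    obtain ⟨c, hc⟩ : ∃ c : ℂ, cK ℂ I * x' + x' * cK ℂ I = c • (1 : Matrix B B ℂ) := by
      obtain ⟨c1, h4⟩ := hsqC _ (Submodule.add_mem _ hI hxT)
      obtain ⟨c2, h5⟩ := hsqC _ hI
      refine ⟨c1 - c2, ?_⟩
      have h6 : cK ℂ I * x' + x' * cK ℂ I = (cK ℂ I + x') * (cK ℂ I + x') - cK ℂ I * cK ℂ I -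
          x' * x' := by noncomm_ring
      rw [h6, h4, h5, hxx]
      module
    have h4 := h3 x' hxT x' hxT
    rw [hxx, add_zero, hc, smul_mul_smul_comm, one_mul] at h4
    have h5 : c = 0 := by
      have h6 := (smul_eq_zero.1 h4.symm).resolve_left h2a
      have h7 := (smul_eq_zero.1 h6).resolve_right h1ne
      exact mul_self_eq_zero.1 h7
    have h6 := h3 x' hxT y' hyT
    rw [hc, h5, zero_smul, zero_mul, smul_zero, hxy] at h6
    exact h.ne ((smul_eq_zero.1 h6).resolve_right h1ne)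
  refine ⟨a, b, I, J, ha, hb, hIa, hJb, hIJ, ?_⟩
  obtain ⟨X, hX⟩ : ∃ X : Module.End ℂ (B → ℂ), X = Matrix.toLin' (cK ℂ I) := ⟨_, rfl⟩
  obtain ⟨Y, hY⟩ : ∃ Y : Module.End ℂ (B → ℂ), Y = Matrix.toLin' (cK ℂ J) := ⟨_, rfl⟩
  have hXm : X ∈ idl x y := by
    rw [hX]
    exact (hT _).1 hI
  have hYm : Y ∈ idl x y := by
    rw [hY]
    exact (hT _).1 hJ
  have hZ : Matrix.toLin' (cK ℂ (I * J)) = X * Y := by
    rw [cK_mul, ← mul_toLin, hX, hY]
  have hsm : ∀ (m : ℚ), cK ℂ (m • (1 : Matrix B B ℚ)) = (m : ℂ) • (1 : Matrix B B ℂ) := by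
    intro m
    ext i j
    simp only [cK, Matrix.map_apply, Matrix.smul_apply, Matrix.one_apply, smul_eq_mul]
    split_ifs <;> simp
  have hXX : X * X = (a : ℂ) • (1 : Module.End ℂ (B → ℂ)) := by
    rw [hX, mul_toLin, ← cK_mul, hIa, hsm, map_smul, Matrix.toLin'_one]
    rfl
  have hYY : Y * Y = (b : ℂ) • (1 : Module.End ℂ (B → ℂ)) := by
    rw [hY, mul_toLin, ← cK_mul, hJb, hsm, map_smul, Matrix.toLin'_one]
    rfl
  have hXY : X * Y + Y * X = 0 := by
    have h1 : cK ℂ I * cK ℂ J + cK ℂ J * cK ℂ I = 0 := by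
      have h2 : I * J + J * I = 0 := by rw [hIJ]; simp
      rw [← cK_mul, ← cK_mul, ← cK_zero (K := ℂ), ← h2]
      ext i j
      simp [cK]
    rw [hX, hY, mul_toLin, mul_toLin, ← map_add, h1, map_zero]
  have hac : (a : ℂ) ≠ 0 := by exact_mod_cast ha
  have hbc : (b : ℂ) ≠ 0 := by exact_mod_cast hb
  have hEne : (1 : Module.End ℂ (B → ℂ)) ≠ 0 := one_ne_zero
  have hZm : X * Y ∈ idl x y := by
    have h1 := h.ideal d X (h.le d hXm) Y hYm
    have h2 : X * Y = (2⁻¹ : ℂ) • (X * Y - Y * X) + (2⁻¹ : ℂ) • (X * Y + Y * X) := by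
      module
    rw [hXY, smul_zero, add_zero] at h2
    rw [h2]
    exact Submodule.smul_mem _ _ h1
  have hli : LinearIndependent ℂ ![X, Y, X * Y] := by
    rw [Fintype.linearIndependent_iff]
    intro g hg
    rw [Fin.sum_univ_three] at hg
    simp only [Matrix.cons_val_zero, Matrix.cons_val_one, Matrix.cons_val] at hg
    have e0 : g 0 = 0 := by
      have h1 : X * (g 0 • X + g 1 • Y + g 2 • (X * Y)) +
          (g 0 • X + g 1 • Y + g 2 • (X * Y)) * X = 0 := by
        rw [hg, mul_zero, zero_mul, add_zero]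
      have h5 : X * (X * Y) + X * Y * X = 0 := by rw [mul_assoc, ← mul_add, hXY, mul_zero]
      have h2 : X * (g 0 • X + g 1 • Y + g 2 • (X * Y)) +
          (g 0 • X + g 1 • Y + g 2 • (X * Y)) * X = (2 * g 0) • (X * X) +
            g 1 • (X * Y + Y * X) + g 2 • (X * (X * Y) + X * Y * X) := by
        simp only [mul_add, add_mul, mul_smul_comm, smul_mul_assoc]
        module
      rw [h2, hXX, hXY, h5, smul_zero, smul_zero, add_zero, add_zero, smul_smul] at h1
      have h3 := (smul_eq_zero.1 h1).resolve_right hEne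
      simpa [hac] using h3
    have e1 : g 1 = 0 := by
      have h1 : Y * (g 0 • X + g 1 • Y + g 2 • (X * Y)) +
          (g 0 • X + g 1 • Y + g 2 • (X * Y)) * Y = 0 := by
        rw [hg, mul_zero, zero_mul, add_zero]
      have h5 : Y * (X * Y) + X * Y * Y = 0 := by
        rw [← mul_assoc, ← add_mul, add_comm, hXY, zero_mul]
      have h2 : Y * (g 0 • X + g 1 • Y + g 2 • (X * Y)) +
          (g 0 • X + g 1 • Y + g 2 • (X * Y)) * Y = (2 * g 1) • (Y * Y) +
            g 0 • (X * Y + Y * X) + g 2 • (Y * (X * Y) + X * Y * Y) := by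
        simp only [mul_add, add_mul, mul_smul_comm, smul_mul_assoc]
        module
      rw [h2, hYY, hXY, h5, smul_zero, smul_zero, add_zero, add_zero, smul_smul] at h1
      have h3 := (smul_eq_zero.1 h1).resolve_right hEne
      simpa [hbc] using h3
    have e2 : g 2 = 0 := by
      rw [e0, e1, zero_smul, zero_smul, zero_add, zero_add] at hg
      have h1 : X * (g 2 • (X * Y)) * Y = 0 := by rw [hg, mul_zero, zero_mul]
      have h2 : X * (g 2 • (X * Y)) * Y = g 2 • ((X * X) * (Y * Y)) := by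
        rw [mul_smul_comm, smul_mul_assoc]
        congr 1
      rw [h2, hXX, hYY, smul_mul_smul_comm, one_mul, smul_smul] at h1
      have h3 := (smul_eq_zero.1 h1).resolve_right hEne
      simpa [hac, hbc] using h3
    intro i
    fin_cases i
    · exact e0
    · exact e1
    · exact e2
  rw [hZ, ← hX, ← hY]
  have hr : Set.range ![X, Y, X * Y] = {X, Y, X * Y} := by
    ext u
    simp only [Set.mem_range, Fin.exists_fin_succ, Set.mem_insert_iff, Set.mem_singleton_iff]
    simp [eq_comm]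
  have hfr := finrank_span_eq_card hli
  rw [hr, Fintype.card_fin] at hfr
  apply Submodule.eq_of_le_of_finrank_eq
  · rw [Submodule.span_le]
    rintro u (rfl | rfl | rfl)
    · exact hXm
    · exact hYm
    · exact hZm
  · rw [hfr, h.finrank_idl d]

end Run7.h853.Cy
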