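import Mathlib
import Pool.Agent.Run7.h853.Cy.Irr

/-!
# Hodge structures without endomorphisms are simple
-/

set_option linter.unusedSectionVars false

namespace Run7.h853.Cy

open Matrix ComplexOrder Pool.Agent.W437.HC Pool.Agent.W437.HD Pool.Agent.W437.HP
  Pool.Agent.W437.HR Pool.Agent.W437.CY

variable {B : Type*} [Fintype B] [DecidableEq B] {D : Matrix B B ℂ} {Om : Matrix B B ℚ}
  {S : Finset ℤ} {P : ℤ → Matrix B B ℂ} (d : Pol D Om S P)

theorem cspan_sup (N N' : Submodule ℚ (B → ℚ)) (h : N ⊔ N' = ⊤) : cspan N ⊔ cspan N' = ⊤ := by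
  rw [eq_top_iff]
  intro x _
  have h1 : x = ∑ i, x i • cv (Pi.single i 1 : B → ℚ) := by
    funext j
    rw [Finset.sum_apply, Finset.sum_eq_single j]
    · simp [cv]
    · intro b _ hb
      simp [cv, Pi.single_eq_of_ne (Ne.symm hb)]
    · intro h
      exact absurd (Finset.mem_univ _) h
  rw [h1]
  refine Submodule.sum_mem _ fun i _ => Submodule.smul_mem _ _ ?_
  have h2 : (Pi.single i 1 : B → ℚ) ∈ N ⊔ N' := by
    rw [h]
    trivial
  obtain ⟨u, hu, u', hu', huu⟩ := Submodule.mem_sup.1 h2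
  have h3 : cv (Pi.single i 1 : B → ℚ) = cv u + cv u' := by
    rw [← huu]
    funext j
    simp [cv]
  rw [h3]
  exact Submodule.add_mem_sup (mem_cspan hu) (mem_cspan hu')

include d

/-- A vector of a stable real subspace which is orthogonal to it is zero. -/
theorem disj_of_stable {W : Submodule ℂ (B → ℂ)} (hD : ∀ x ∈ W, D *ᵥ x ∈ W)
    (hcj : ∀ x ∈ W, cj x ∈ W) {x : B → ℂ} (hx : x ∈ W) (h0 : ∀ z ∈ W, ww (cK ℂ Om) x z = 0) :
    x = 0 := by
  rw [← d.prj.sum_vec x]
  refine Finset.sum_eq_zero fun a ha => ?_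
  by_contra hne
  have h1 := d.pos a _ (d.P_eig a x) hne
  have h2 : ww (cK ℂ Om) x (cj (P a *ᵥ x)) = 0 := h0 _ (hcj _ (d.prj.stable hD a hx))
  have h3 : ww (cK ℂ Om) x (cj (P a *ᵥ x)) = ww (cK ℂ Om) (P a *ᵥ x) (cj (P a *ᵥ x)) := by
    have h4 : ww (cK ℂ Om) (∑ c ∈ S, P c *ᵥ x) (cj (P a *ᵥ x)) =
        ww (cK ℂ Om) (P a *ᵥ x) (cj (P a *ᵥ x)) := by
      rw [← wwL_apply, map_sum, LinearMap.sum_apply, Finset.sum_eq_single a]
      · rfl
      · intro c _ hc
        exact d.ww_eig (d.P_eig c x) (d.cj_eig (d.P_eig a x)) (by omega)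
      · intro h
        exact absurd ha h
    rwa [d.prj.sum_vec] at h4
  rw [← h3, h2, mul_zero] at h1
  exact lt_irrefl _ h1

/-- The projection to a rational subspace whose complexification is stable, along a rational
subspace with the same property. -/
theorem exists_pr (N : Submodule ℚ (B → ℚ)) (hN : ∀ x ∈ cspan N, D *ᵥ x ∈ cspan N) :
    ∃ M : Matrix B B ℚ, cK ℂ M * D = D * cK ℂ M ∧ (∀ x ∈ N, M *ᵥ x = x) ∧
      ∀ x, M *ᵥ x ∈ N := by
  classical
  obtain ⟨b, hb⟩ : ∃ b : LinearMap.BilinForm ℚ (B → ℚ), b = Matrix.toBilin' Om := ⟨_, rfl⟩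
  have hbv : ∀ x y, b x y = x ⬝ᵥ (Om *ᵥ y) := fun x y => by rw [hb, Matrix.toBilin'_apply']
  have hanti : ∀ x y, b x y = -b y x := by
    intro x y
    rw [hbv, hbv, dotProduct_mulVec, ← mulVec_transpose, d.skew, neg_mulVec, neg_dotProduct,
      dotProduct_comm]
  have hrefl : b.IsRefl := by
    intro x y h
    rw [hanti, h, neg_zero]
  have hcb : ∀ x y : B → ℚ, ww (cK ℂ Om) (cv x) (cv y) = ((b x y : ℚ) : ℂ) := by
    intro x y
    unfold ww
    rw [cK_mulVec, hbv]
    simp [cv, dotProduct]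
  have horth : ∀ x ∈ cspan N, ∀ z ∈ cspan (b.orthogonal N), ww (cK ℂ Om) x z = 0 := by
    intro x hx z hz
    unfold cspan at hx hz
    induction hx using Submodule.span_induction with
    | mem x hx =>
      obtain ⟨u, hu, rfl⟩ := hx
      induction hz using Submodule.span_induction with
      | mem z hz =>
        obtain ⟨u', hu', rfl⟩ := hz
        have h1 : ww (cK ℂ Om) (cv u) (cv u') = 0 := by
          have h2 : b u u' = 0 := hu' u hu
          rw [hcb, h2]
          simp
        exact h1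
      | zero => exact ww_zero_right _
      | add z z' _ _ h1 h2 => rw [ww_add_right, h1, h2, add_zero]
      | smul a z _ h1 => rw [ww_smul_right, h1, mul_zero]
    | zero => exact ww_zero_left _
    | add x x' _ _ h1 h2 => rw [ww_add_left, h1, h2, add_zero]
    | smul a x _ h1 => rw [ww_smul_left, h1, mul_zero]
  have hcj : ∀ x ∈ cspan N, cj x ∈ cspan N := fun x hx => cspan_cj hx
  have hdisj : Disjoint N (b.orthogonal N) := by
    rw [Submodule.disjoint_def]
    intro x hx hx'
    apply cv_inj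
    refine disj_of_stable d hN hcj (mem_cspan hx) fun z hz => ?_
    rw [ww_anti d.skewC, horth z hz _ (mem_cspan hx'), neg_zero]
  have hc : IsCompl N (b.orthogonal N) :=
    (LinearMap.BilinForm.isCompl_orthogonal_iff_disjoint hrefl).2 hdisj
  have hcs := cspan_sup N (b.orthogonal N) hc.sup_eq_top
  have hst' : ∀ x ∈ cspan (b.orthogonal N), D *ᵥ x ∈ cspan (b.orthogonal N) := by
    intro x hx
    have h1 : D *ᵥ x ∈ cspan N ⊔ cspan (b.orthogonal N) := by
      rw [hcs]
      trivial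
    obtain ⟨u, hu, u', hu', huu⟩ := Submodule.mem_sup.1 h1
    have h2 : u = 0 := by
      refine disj_of_stable d hN hcj hu fun z hz => ?_
      have h3 : ww (cK ℂ Om) (D *ᵥ x) z = 0 := by
        have h4 := ww_sp d.spD x z
        have h5 : ww (cK ℂ Om) x (D *ᵥ z) = 0 := by
          rw [ww_anti d.skewC, horth _ (hN z hz) x hx, neg_zero]
        rw [h5] at h4
        linear_combination h4
      rw [← huu, ww_add_left] at h3
      have h4 : ww (cK ℂ Om) u' z = 0 := by
        rw [ww_anti d.skewC, horth z hz u' hu', neg_zero]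
      rwa [h4, add_zero] at h3
    rw [← huu, h2, zero_add]
    exact hu'
  obtain ⟨p, hp⟩ : ∃ p : (B → ℚ) →ₗ[ℚ] (B → ℚ), p = N.projection _ hc := ⟨_, rfl⟩
  have hp1 : ∀ x ∈ N, p x = x := fun x hx => by
    rw [hp]
    exact Submodule.projection_apply_of_mem_left hc hx
  have hp2 : ∀ x ∈ b.orthogonal N, p x = 0 := fun x hx => by
    rw [hp]
    exact (Submodule.projection_apply_eq_zero_iff hc).2 hx
  obtain ⟨M, hM⟩ : ∃ M, M = LinearMap.toMatrix' p := ⟨_, rfl⟩
  have hMv : ∀ x, M *ᵥ x = p x := fun x => by rw [hM, LinearMap.toMatrix'_mulVec]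
  have hM1 : ∀ x ∈ cspan N, cK ℂ M *ᵥ x = x := by
    intro x hx
    unfold cspan at hx
    induction hx using Submodule.span_induction with
    | mem x hx =>
      obtain ⟨u, hu, rfl⟩ := hx
      have h1 : cK ℂ M *ᵥ cv u = cv u := by rw [cK_mulVec, hMv, hp1 u hu]
      exact h1
    | zero => exact mulVec_zero _
    | add x y _ _ h1 h2 => rw [mulVec_add, h1, h2]
    | smul a x _ h1 => rw [mulVec_smul, h1]
  have hM2 : ∀ x ∈ cspan (b.orthogonal N), cK ℂ M *ᵥ x = 0 := by
    intro x hx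
    unfold cspan at hx
    induction hx using Submodule.span_induction with
    | mem x hx =>
      obtain ⟨u, hu, rfl⟩ := hx
      have h1 : cK ℂ M *ᵥ cv u = 0 := by
        rw [cK_mulVec, hMv, hp2 u hu]
        funext i
        simp [cv]
      exact h1
    | zero => exact mulVec_zero _
    | add x y _ _ h1 h2 => rw [mulVec_add, h1, h2, add_zero]
    | smul a x _ h1 => rw [mulVec_smul, h1, smul_zero]
  refine ⟨M, mat_ext fun x => ?_, fun x hx => by rw [hMv, hp1 x hx], fun x => ?_⟩
  · have hx : x ∈ cspan N ⊔ cspan (b.orthogonal N) := by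
      rw [hcs]
      trivial
    obtain ⟨u, hu, u', hu', rfl⟩ := Submodule.mem_sup.1 hx
    rw [← mulVec_mulVec, ← mulVec_mulVec, mulVec_add, mulVec_add, mulVec_add, hM1 u hu,
      hM2 u' hu', hM1 _ (hN u hu), hM2 _ (hst' u' hu'), add_zero, add_zero]
  · rw [hMv, hp]
    exact Submodule.projection_apply_mem hc x

/-- A Hodge structure without endomorphisms is simple. -/
theorem simpleD_of_endQ (hE : EndQ D) : SimpleD D := by
  intro N hN
  obtain ⟨M, hM, hM1, hM2⟩ := exists_pr d N hN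
  obtain ⟨a, ha⟩ := hE M hM
  by_cases hN0 : N = ⊥
  · exact Or.inl hN0
  · right
    obtain ⟨n, hn, hn0⟩ := Submodule.exists_mem_ne_zero_of_ne_bot hN0
    have h1 := hM1 n hn
    rw [ha, smul_mulVec, one_mulVec] at h1
    have h2 : a = 1 := by
      have h3 : (a - 1) • n = 0 := by rw [sub_smul, h1, one_smul, sub_self]
      exact sub_eq_zero.1 ((smul_eq_zero.1 h3).resolve_right hn0)
    rw [eq_top_iff]
    intro x _
    have h3 := hM2 x
    rwa [ha, h2, one_smul, one_mulVec] at h3

end Run7.h853.Cy
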