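import Mathlib
import Pool.Agent.Run7.h853.Cy.Desc
import Pool.Agent.Run7.h853.Cy.Simp

/-!
# Complements of stable subspaces, and the commutant of the Lie algebra
-/

set_option linter.unusedSectionVars false

namespace Run7.h853.Cy

open Matrix ComplexOrder Pool.Agent.W437.HC Pool.Agent.W437.HD Pool.Agent.W437.HP
  Pool.Agent.W437.HR Pool.Agent.W437.CY

variable {B : Type} [Fintype B] [DecidableEq B] {D : Matrix B B ℂ} {Om : Matrix B B ℚ}
  {S : Finset ℤ} {P : ℤ → Matrix B B ℂ}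

theorem cj_add (x y : B → ℂ) : cj (x + y) = cj x + cj y := by
  funext i
  simp [cj]

theorem cj_zero : cj (0 : B → ℂ) = 0 := by
  funext i
  simp [cj]

theorem conj_mem {X : Matrix B B ℂ} (hX : X ∈ lieM D ℂ) : X.map (starRingEnd ℂ) ∈ lieM D ℂ :=
  map_mem_aut hX (starRingEnd ℂ)

section pol

variable (d : Pol D Om S P)

include d

theorem unitC : IsUnit (cK ℂ Om) := by
  obtain ⟨u, hu⟩ := d.unit
  refine ⟨⟨cK ℂ Om, cK ℂ ((u⁻¹ : (Matrix _ _ ℚ)ˣ) : Matrix _ _ ℚ), ?_, ?_⟩, rfl⟩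
  · rw [← cK_mul, ← hu, Units.mul_inv, cK_one]
  · rw [← cK_mul, ← hu, Units.inv_mul, cK_one]

/-- A stable subspace has a stable complement. -/
theorem exists_compl (U : Submodule ℂ (B → ℂ)) (hU : ∀ X ∈ lieM D ℂ, ∀ x ∈ U, X *ᵥ x ∈ U) :
    ∃ p : Matrix B B ℂ, (∀ X ∈ lieM D ℂ, X * p = p * X) ∧ (∀ x ∈ U, p *ᵥ x = x) ∧
      ∀ x, p *ᵥ x ∈ U := by
  classical
  obtain ⟨N', hN'⟩ : ∃ N' : Submodule ℂ (B → ℂ), ∀ y, y ∈ N' ↔ ∀ u ∈ U, ww (cK ℂ Om) u y = 0 :=
    ⟨{ carrier := {y | ∀ u ∈ U, ww (cK ℂ Om) u y = 0}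
       zero_mem' := fun u _ => ww_zero_right u
       add_mem' := fun {a b} ha hb u hu => by rw [ww_add_right, ha u hu, hb u hu, add_zero]
       smul_mem' := fun c a ha u hu => by rw [ww_smul_right, ha u hu, mul_zero] },
     fun y => Iff.rfl⟩
  obtain ⟨N, hN⟩ : ∃ N : Submodule ℂ (B → ℂ), ∀ y, y ∈ N ↔ cj y ∈ N' :=
    ⟨{ carrier := {y | cj y ∈ N'}
       zero_mem' := by
        change cj 0 ∈ N'
        rw [cj_zero]
        exact Submodule.zero_mem _
       add_mem' := fun {a b} ha hb => by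
        change cj (a + b) ∈ N'
        rw [cj_add]
        exact Submodule.add_mem _ ha hb
       smul_mem' := fun c a ha => by
        change cj (c • a) ∈ N'
        rw [cj_smul]
        exact Submodule.smul_mem _ _ ha }, fun y => Iff.rfl⟩
  have hst : ∀ X ∈ lieM D ℂ, ∀ x ∈ N, X *ᵥ x ∈ N := by
    intro X hX x hx
    rw [hN, hN'] at hx ⊢
    intro u hu
    rw [cj_mulVec, ← neg_eq_zero, ← ww_sp (spC d (conj_mem hX))]
    exact hx _ (hU _ (conj_mem hX) u hu)
  have hdisj : Disjoint U N := by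
    rw [Submodule.disjoint_def]
    intro x hx hx'
    rw [hN, hN'] at hx'
    rw [← d.prj.sum_vec x]
    refine Finset.sum_eq_zero fun a ha => ?_
    by_contra hne
    have h1 := d.pos a _ (d.P_eig a x) hne
    have h2 : ww (cK ℂ Om) (P a *ᵥ x) (cj x) = 0 :=
      hx' _ (d.prj.stable (fun y hy => hU D (D_mem D) y hy) a hx)
    have h3 : ww (cK ℂ Om) (P a *ᵥ x) (cj x) = ww (cK ℂ Om) (P a *ᵥ x) (cj (P a *ᵥ x)) := by
      have h4 : cj x = ∑ b ∈ S, cj (P b *ᵥ x) := by
        conv_lhs => rw [← d.prj.sum_vec x]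
        funext i
        simp [cj, Finset.sum_apply, map_sum]
      conv_lhs => rw [h4]
      rw [ww_sum_right, Finset.sum_eq_single a]
      · intro c _ hc
        exact d.ww_eig (d.P_eig a x) (d.cj_eig (d.P_eig c x)) (by omega)
      · intro h
        exact absurd ha h
    rw [← h3, h2, mul_zero] at h1
    exact lt_irrefl _ h1
  have hfin : Module.finrank ℂ N = Module.finrank ℂ N' := by
    have h1 : Module.rank ℂ N = Module.rank ℂ N' := by
      refine rank_eq_of_equiv_equiv (starRingEnd ℂ : ℂ → ℂ)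
        { toFun := fun x => ⟨cj x.1, (hN _).1 x.2⟩
          invFun := fun x => ⟨cj x.1, by
            rw [hN, cj_cj]
            exact x.2⟩
          left_inv := fun x => Subtype.ext (cj_cj x.1)
          right_inv := fun x => Subtype.ext (cj_cj x.1)
          map_add' := fun x y => Subtype.ext (cj_add x.1 y.1) }
        ⟨(starRingEnd ℂ).injective, fun z => ⟨starRingEnd ℂ z, Complex.conj_conj z⟩⟩
        (fun c x => Subtype.ext (cj_smul c x.1))
    unfold Module.finrank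
    rw [h1]
  have hnd : (wwL (cK ℂ Om)).Nondegenerate := by
    have hsk := d.skewC
    have hl : (wwL (cK ℂ Om)).SeparatingLeft := by
      intro x hx
      obtain ⟨u, hu⟩ := unitC d
      have h2 : cK ℂ Om *ᵥ x = 0 := by
        funext i
        have h3 := hx (Pi.single i 1)
        rw [wwL_apply, ww_anti hsk, neg_eq_zero] at h3
        unfold ww at h3
        rwa [single_one_dotProduct] at h3
      have h3 : ((u⁻¹ : (Matrix B B ℂ)ˣ) : Matrix B B ℂ) *ᵥ (cK ℂ Om *ᵥ x) = x := by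
        rw [← hu, mulVec_mulVec, Units.inv_mul, one_mulVec]
      rw [← h3, h2, mulVec_zero]
    refine ⟨hl, fun x hx => hl x fun y => ?_⟩
    rw [wwL_apply, ww_anti hsk, ← wwL_apply, hx y, neg_zero]
  have hrefl : LinearMap.BilinForm.IsRefl (wwL (cK ℂ Om)) := by
    intro x y h
    rw [wwL_apply] at h ⊢
    rw [ww_anti d.skewC, h, neg_zero]
  have horth : N' = LinearMap.BilinForm.orthogonal (wwL (cK ℂ Om)) U := by
    ext y
    rw [hN', LinearMap.BilinForm.mem_orthogonal_iff]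
    rfl
  have hsum : Module.finrank ℂ U + Module.finrank ℂ N = Module.finrank ℂ (B → ℂ) := by
    rw [hfin, horth]
    have h1 := LinearMap.BilinForm.finrank_orthogonal hnd U
    have h2 := Submodule.finrank_le U
    omega
  have hc : IsCompl U N :=
    ⟨hdisj, codisjoint_iff.2 (Submodule.eq_top_of_disjoint _ _ hsum.ge hdisj)⟩
  obtain ⟨q, hq⟩ : ∃ q : (B → ℂ) →ₗ[ℂ] (B → ℂ), q = U.projection _ hc := ⟨_, rfl⟩
  have hq1 : ∀ x ∈ U, q x = x := fun x hx => by
    rw [hq]
    exact Submodule.projection_apply_of_mem_left hc hx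
  have hq2 : ∀ x ∈ N, q x = 0 := fun x hx => by
    rw [hq]
    exact (Submodule.projection_apply_eq_zero_iff hc).2 hx
  have hMv : ∀ x, LinearMap.toMatrix' q *ᵥ x = q x := fun x => LinearMap.toMatrix'_mulVec q x
  refine ⟨LinearMap.toMatrix' q, fun X hX => mat_ext fun x => ?_, fun x hx => by
    rw [hMv, hq1 x hx], fun x => ?_⟩
  · have hx : x ∈ U ⊔ N := by
      rw [hc.sup_eq_top]
      trivial
    obtain ⟨u, hu, u', hu', rfl⟩ := Submodule.mem_sup.1 hx
    have e1 : LinearMap.toMatrix' q *ᵥ (u + u') = u := by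
      rw [hMv, map_add, hq1 u hu, hq2 u' hu', add_zero]
    have e2 : LinearMap.toMatrix' q *ᵥ (X *ᵥ (u + u')) = X *ᵥ u := by
      rw [mulVec_add, hMv, map_add, hq1 _ (hU X hX u hu), hq2 _ (hst X hX u' hu'), add_zero]
    rw [← mulVec_mulVec, ← mulVec_mulVec, e1, e2]
  · rw [hMv, hq]
    exact Submodule.projection_apply_mem hc x

end pol

/-- The commutant of the Lie algebra is spanned by rational matrices. -/
theorem comm_span {M : Matrix B B ℂ} (hM : ∀ X ∈ lieM D ℂ, X * M = M * X) :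
    M ∈ Submodule.span ℂ {N | ∃ N0 : Matrix B B ℚ, cK ℂ N0 * D = D * cK ℂ N0 ∧
      N = cK ℂ N0} := by
  obtain ⟨T, hT⟩ : ∃ T : Submodule ℂ (Matrix B B ℂ), ∀ M, M ∈ T ↔
      ∀ X ∈ lieM D ℂ, X * M = M * X :=
    ⟨{ carrier := {M | ∀ X ∈ lieM D ℂ, X * M = M * X}
       zero_mem' := fun X _ => by rw [mul_zero, zero_mul]
       add_mem' := fun {a b} ha hb X hX => by rw [mul_add, add_mul, ha X hX, hb X hX]
       smul_mem' := fun c a ha X hX => by rw [mul_smul_comm, smul_mul_assoc, ha X hX] },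
     fun M => Iff.rfl⟩
  have hσ : ∀ (σ : ℂ ≃+* ℂ), ∀ M ∈ T, M.map σ ∈ T := by
    intro σ M hM
    rw [hT] at hM ⊢
    intro X hX
    have h1 := hM _ (map_mem_aut hX (σ.symm : ℂ →+* ℂ))
    have h2 := congrArg (fun Z : Matrix B B ℂ => Z.map (σ : ℂ →+* ℂ)) h1
    simp only [Matrix.map_mul] at h2
    have h3 : (X.map (σ.symm : ℂ →+* ℂ)).map (σ : ℂ →+* ℂ) = X := by
      ext i j
      simp
    rw [h3] at h2
    exact h2
  refine Submodule.span_mono ?_ (span_cK T hσ ((hT M).2 hM))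
  rintro _ ⟨hN, N0, rfl⟩
  exact ⟨N0, ((hT _).1 hN D (D_mem D)).symm, rfl⟩

end Run7.h853.Cy
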