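import Mathlib
import Pool.Agent.Run7.h853.Cy.Rm1

/-!
# Hodge structures with totally real multiplication: the part which contains the top vector
-/

set_option linter.unusedSectionVars false

namespace Run7.h853.Cy

open Matrix ComplexOrder Pool.Agent.W437.HC Pool.Agent.W437.HD Pool.Agent.W437.HP
  Pool.Agent.W437.HR Pool.Agent.W437.CY

variable {B : Type} [Fintype B] [DecidableEq B] {D : Matrix B B ℂ} {Om : Matrix B B ℚ}
  {S : Finset ℤ} {P : ℤ → Matrix B B ℂ}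

theorem cK_add' (M N : Matrix B B ℚ) : cK ℂ (M + N) = cK ℂ M + cK ℂ N := by
  ext i j
  simp [cK]

theorem cK_smul' (a : ℚ) (M : Matrix B B ℚ) : cK ℂ (a • M) = (a : ℂ) • cK ℂ M := by
  ext i j
  simp [cK]

theorem cK_neg' (M : Matrix B B ℚ) : cK ℂ (-M) = -cK ℂ M := by
  ext i j
  simp [cK]

theorem cK_inj {M N : Matrix B B ℚ} (h : cK ℂ M = cK ℂ N) : M = N := by
  ext i j
  have h1 := congrFun (congrFun h i) j
  simpa [cK] using h1

/-- The rational endomorphisms. -/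
def EA (D : Matrix B B ℂ) : Subalgebra ℚ (Matrix B B ℚ) where
  carrier := {M | cK ℂ M * D = D * cK ℂ M}
  mul_mem' := fun {a b} ha hb => by
    change cK ℂ (a * b) * D = D * cK ℂ (a * b)
    change cK ℂ a * D = D * cK ℂ a at ha
    change cK ℂ b * D = D * cK ℂ b at hb
    rw [cK_mul, mul_assoc, hb, ← mul_assoc, ha, mul_assoc]
  add_mem' := fun {a b} ha hb => by
    change cK ℂ (a + b) * D = D * cK ℂ (a + b)
    change cK ℂ a * D = D * cK ℂ a at ha
    change cK ℂ b * D = D * cK ℂ b at hb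
    rw [cK_add', add_mul, mul_add, ha, hb]
  algebraMap_mem' := fun r => by
    change cK ℂ (algebraMap ℚ _ r) * D = D * cK ℂ (algebraMap ℚ _ r)
    rw [Algebra.algebraMap_eq_smul_one, cK_smul', cK_one]
    simp

theorem mem_EA {M : Matrix B B ℚ} : M ∈ EA D ↔ cK ℂ M * D = D * cK ℂ M := Iff.rfl

/-- A polarized Hodge structure of Calabi-Yau type with totally real multiplication. -/
structure Rm (D : Matrix B B ℂ) (Om : Matrix B B ℚ) (S : Finset ℤ) (P : ℤ → Matrix B B ℂ)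
    (k : ℤ) (v : B → ℂ) : Prop where
  pol : Pol D Om S P
  simple : SimpleD D
  sa : ∀ M ∈ EA D, Mᵀ * Om = Om * M
  v0 : v ≠ 0
  ev : D *ᵥ v = (k : ℂ) • v
  top : ∀ x, D *ᵥ x = (k : ℂ) • x → ∃ c : ℂ, x = c • v

/-- The rational endomorphisms commute with the Lie algebra. -/
theorem comm_lie (d : Pol D Om S P) {M : Matrix B B ℚ} (hM : M ∈ EA D) {X : Matrix B B ℂ}
    (hX : X ∈ lieM D ℂ) : X * cK ℂ M = cK ℂ M * X := by
  have h1 : Dᵀ * cK ℂ (Om * M) + cK ℂ (Om * M) * D = 0 := by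
    rw [cK_mul, mul_assoc (cK ℂ Om), mem_EA.1 hM, ← mul_assoc, ← mul_assoc, ← add_mul, d.spD,
      zero_mul]
  have h2 : Xᵀ * cK ℂ (Om * M) + cK ℂ (Om * M) * X = 0 := lieM_bil _ (isH_bilc _ h1) hX
  have h3 := spC d hX
  rw [cK_mul] at h2
  obtain ⟨u, hu⟩ := unitC d
  have h4 : cK ℂ Om * (cK ℂ M * X - X * cK ℂ M) = 0 := by
    have h5 : cK ℂ Om * (cK ℂ M * X - X * cK ℂ M) =
        (Xᵀ * (cK ℂ Om * cK ℂ M) + cK ℂ Om * cK ℂ M * X) -
          (Xᵀ * cK ℂ Om + cK ℂ Om * X) * cK ℂ M := by noncomm_ring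
    rw [h5, h3, zero_mul, sub_zero]
    exact h2
  have h5 : cK ℂ M * X - X * cK ℂ M = 0 := by
    have h6 : ((u⁻¹ : (Matrix B B ℂ)ˣ) : Matrix B B ℂ) *
        (cK ℂ Om * (cK ℂ M * X - X * cK ℂ M)) = cK ℂ M * X - X * cK ℂ M := by
      rw [← hu, ← mul_assoc, Units.inv_mul, one_mul]
    rw [← h6, h4, mul_zero]
  exact (sub_eq_zero.1 h5).symm

/-- The part on which the endomorphisms act as on the vector. -/
def MP (D : Matrix B B ℂ) (v : B → ℂ) : Submodule ℂ (B → ℂ) where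
  carrier := {x | ∀ M ∈ EA D, ∀ t : ℂ, cK ℂ M *ᵥ v = t • v → cK ℂ M *ᵥ x = t • x}
  zero_mem' := fun M _ t _ => by rw [mulVec_zero, smul_zero]
  add_mem' := fun {a b} ha hb M hM t ht => by
    rw [mulVec_add, ha M hM t ht, hb M hM t ht, smul_add]
  smul_mem' := fun c a ha M hM t ht => by
    rw [mulVec_smul, ha M hM t ht, smul_comm]

theorem mem_MP {v x : B → ℂ} : x ∈ MP D v ↔
    ∀ M ∈ EA D, ∀ t : ℂ, cK ℂ M *ᵥ v = t • v → cK ℂ M *ᵥ x = t • x := Iff.rfl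

variable {k : ℤ} {v : B → ℂ} (r : Rm D Om S P k v)

include r

theorem Rm.self_mem : v ∈ MP D v := fun _ _ _ h => h

theorem Rm.exists_chi {M : Matrix B B ℚ} (hM : M ∈ EA D) : ∃ t : ℂ, cK ℂ M *ᵥ v = t • v := by
  apply r.top
  rw [mulVec_mulVec, ← mem_EA.1 hM, ← mulVec_mulVec, r.ev, mulVec_smul]

theorem Rm.stable {X : Matrix B B ℂ} (hX : X ∈ lieM D ℂ) {x : B → ℂ} (hx : x ∈ MP D v) :
    X *ᵥ x ∈ MP D v := by
  intro M hM t ht
  rw [mulVec_mulVec, ← comm_lie r.pol hM hX, ← mulVec_mulVec, hx M hM t ht, mulVec_smul]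

theorem Rm.nz : ww (cK ℂ Om) v (cj v) ≠ 0 := by
  have h1 := r.pol.pos k v r.ev r.v0
  intro h
  rw [h, mul_zero] at h1
  exact lt_irrefl _ h1

theorem Rm.sa_ww {M : Matrix B B ℚ} (hM : M ∈ EA D) (x y : B → ℂ) :
    ww (cK ℂ Om) (cK ℂ M *ᵥ x) y = ww (cK ℂ Om) x (cK ℂ M *ᵥ y) := by
  have h1 := congrArg (cK ℂ) (r.sa M hM)
  rw [cK_mul, cK_mul, cK_transpose] at h1
  unfold ww
  rw [mulVec_mulVec, ← h1, ← mulVec_mulVec, dotProduct_mulVec x, vecMul_transpose]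

omit r in
theorem cj_cK (M : Matrix B B ℚ) (x : B → ℂ) : cj (cK ℂ M *ᵥ x) = cK ℂ M *ᵥ cj x := by
  rw [cj_mulVec]
  congr 1
  ext i j
  simp [cK]

/-- The multiplication is totally real. -/
theorem Rm.real {M : Matrix B B ℚ} (hM : M ∈ EA D) {t : ℂ} (ht : cK ℂ M *ᵥ v = t • v) :
    starRingEnd ℂ t = t := by
  have h1 := r.sa_ww hM v (cj v)
  rw [← cj_cK, ht, cj_smul, ww_smul_left, ww_smul_right] at h1
  exact (mul_right_cancel₀ r.nz h1).symm

theorem Rm.cj_mem {x : B → ℂ} (hx : x ∈ MP D v) : cj x ∈ MP D v := by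
  intro M hM t ht
  rw [← cj_cK, hx M hM t ht, cj_smul, r.real hM ht]

/-- The part is irreducible. -/
theorem Rm.irr (U : Submodule ℂ (B → ℂ)) (hU : ∀ X ∈ lieM D ℂ, ∀ x ∈ U, X *ᵥ x ∈ U)
    (hle : U ≤ MP D v) (hne : U ≠ ⊥) : MP D v ≤ U := by
  obtain ⟨p, hp1, hp2, hp3⟩ := exists_compl r.pol U hU
  have h1 := comm_span hp1
  obtain ⟨c, hc⟩ : ∃ c : ℂ, ∀ x ∈ MP D v, p *ᵥ x = c • x := by
    clear hp1 hp2 hp3
    induction h1 using Submodule.span_induction with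
    | mem M hM =>
      obtain ⟨M0, hM0, rfl⟩ := hM
      obtain ⟨t, ht⟩ := r.exists_chi (M := M0) hM0
      exact ⟨t, fun x hx => hx M0 hM0 t ht⟩
    | zero => exact ⟨0, fun x _ => by rw [zero_mulVec, zero_smul]⟩
    | add M N _ _ h1 h2 =>
      obtain ⟨a, ha⟩ := h1
      obtain ⟨b, hb⟩ := h2
      exact ⟨a + b, fun x hx => by rw [add_mulVec, ha x hx, hb x hx, add_smul]⟩
    | smul a M _ h1 =>
      obtain ⟨b, hb⟩ := h1
      exact ⟨a * b, fun x hx => by rw [smul_mulVec, hb x hx, smul_smul]⟩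
  obtain ⟨u, hu, hu0⟩ := Submodule.exists_mem_ne_zero_of_ne_bot hne
  have h2 : c = 1 := by
    have h3 := hc u (hle hu)
    rw [hp2 u hu] at h3
    have h4 : (c - 1) • u = 0 := by rw [sub_smul, ← h3, one_smul, sub_self]
    exact sub_eq_zero.1 ((smul_eq_zero.1 h4).resolve_right hu0)
  intro x hx
  have h3 := hc x hx
  rw [h2, one_smul] at h3
  rw [← h3]
  exact hp3 x

/-- The projection. -/
theorem Rm.exists_p : ∃ p : Matrix B B ℂ, (∀ X ∈ lieM D ℂ, X * p = p * X) ∧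
    (∀ x ∈ MP D v, p *ᵥ x = x) ∧ (∀ x, p *ᵥ x ∈ MP D v) ∧ pᵀ * cK ℂ Om = cK ℂ Om * p ∧
    p.map (starRingEnd ℂ) = p := by
  classical
  obtain ⟨N, hN⟩ : ∃ N : Submodule ℂ (B → ℂ), ∀ y, y ∈ N ↔
      ∀ u ∈ MP D v, ww (cK ℂ Om) u y = 0 :=
    ⟨{ carrier := {y | ∀ u ∈ MP D v, ww (cK ℂ Om) u y = 0}
       zero_mem' := fun u _ => ww_zero_right u
       add_mem' := fun {a b} ha hb u hu => by rw [ww_add_right, ha u hu, hb u hu, add_zero]
       smul_mem' := fun c a ha u hu => by rw [ww_smul_right, ha u hu, mul_zero] },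
     fun y => Iff.rfl⟩
  have hst : ∀ X ∈ lieM D ℂ, ∀ x ∈ N, X *ᵥ x ∈ N := by
    intro X hX x hx
    rw [hN] at hx ⊢
    intro u hu
    rw [← neg_eq_zero, ← ww_sp (spC r.pol hX)]
    exact hx _ (r.stable hX hu)
  have hdisj : Disjoint (MP D v) N := by
    rw [Submodule.disjoint_def]
    intro x hx hx'
    refine disj_of_stable r.pol (fun y hy => r.stable (D_mem D) hy) (fun y hy => r.cj_mem hy) hx
      fun z hz => ?_
    rw [ww_anti r.pol.skewC, (hN x).1 hx' z hz, neg_zero]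
  have hrefl : LinearMap.BilinForm.IsRefl (wwL (cK ℂ Om)) := by
    intro x y h
    rw [wwL_apply] at h ⊢
    rw [ww_anti r.pol.skewC, h, neg_zero]
  have horth : N = LinearMap.BilinForm.orthogonal (wwL (cK ℂ Om)) (MP D v) := by
    ext y
    rw [hN, LinearMap.BilinForm.mem_orthogonal_iff]
    rfl
  have hc : IsCompl (MP D v) N := by
    rw [horth] at hdisj ⊢
    exact (LinearMap.BilinForm.isCompl_orthogonal_iff_disjoint hrefl).2 hdisj
  obtain ⟨q, hq⟩ : ∃ q : (B → ℂ) →ₗ[ℂ] (B → ℂ), q = (MP D v).projection _ hc := ⟨_, rfl⟩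
  have hq1 : ∀ x ∈ MP D v, q x = x := fun x hx => by
    rw [hq]
    exact Submodule.projection_apply_of_mem_left hc hx
  have hq2 : ∀ x ∈ N, q x = 0 := fun x hx => by
    rw [hq]
    exact (Submodule.projection_apply_eq_zero_iff hc).2 hx
  have hMv : ∀ x, LinearMap.toMatrix' q *ᵥ x = q x := fun x => LinearMap.toMatrix'_mulVec q x
  have hdec : ∀ x, ∃ u ∈ MP D v, ∃ u' ∈ N, u + u' = x := by
    intro x
    have hx : x ∈ MP D v ⊔ N := by
      rw [hc.sup_eq_top]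
      trivial
    obtain ⟨u, hu, u', hu', h⟩ := Submodule.mem_sup.1 hx
    exact ⟨u, hu, u', hu', h⟩
  refine ⟨LinearMap.toMatrix' q, fun X hX => mat_ext fun x => ?_, fun x hx => by
    rw [hMv, hq1 x hx], fun x => ?_, mat_ext' fun x y => ?_, mat_ext fun x => ?_⟩
  · obtain ⟨u, hu, u', hu', rfl⟩ := hdec x
    have e1 : LinearMap.toMatrix' q *ᵥ (u + u') = u := by
      rw [hMv, map_add, hq1 u hu, hq2 u' hu', add_zero]
    have e2 : LinearMap.toMatrix' q *ᵥ (X *ᵥ (u + u')) = X *ᵥ u := by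
      rw [mulVec_add, hMv, map_add, hq1 _ (r.stable hX hu), hq2 _ (hst X hX u' hu'), add_zero]
    rw [← mulVec_mulVec, ← mulVec_mulVec, e1, e2]
  · rw [hMv, hq]
    exact Submodule.projection_apply_mem hc x
  · obtain ⟨u, hu, u', hu', rfl⟩ := hdec x
    obtain ⟨z, hz, z', hz', rfl⟩ := hdec y
    have h1 : (u + u') ⬝ᵥ (((LinearMap.toMatrix' q)ᵀ * cK ℂ Om) *ᵥ (z + z')) =
        ww (cK ℂ Om) (LinearMap.toMatrix' q *ᵥ (u + u')) (z + z') := by
      unfold ww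
      rw [← mulVec_mulVec, dotProduct_mulVec (u + u'), vecMul_transpose]
    have h2 : (u + u') ⬝ᵥ ((cK ℂ Om * LinearMap.toMatrix' q) *ᵥ (z + z')) =
        ww (cK ℂ Om) (u + u') (LinearMap.toMatrix' q *ᵥ (z + z')) := by
      unfold ww
      rw [mulVec_mulVec]
    have e1 : LinearMap.toMatrix' q *ᵥ (u + u') = u := by
      rw [hMv, map_add, hq1 u hu, hq2 u' hu', add_zero]
    have e2 : LinearMap.toMatrix' q *ᵥ (z + z') = z := by
      rw [hMv, map_add, hq1 z hz, hq2 z' hz', add_zero]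
    rw [h1, h2, e1, e2, ww_add_right, ww_add_left, (hN z').1 hz' u hu,
      ww_anti r.pol.skewC u' z, (hN u').1 hu' z hz]
    simp
  · obtain ⟨u, hu, u', hu', rfl⟩ := hdec x
    have hcN : cj u' ∈ N := by
      rw [hN]
      intro z hz
      have h1 := (hN u').1 hu' _ (r.cj_mem hz)
      have h2 := congrArg (starRingEnd ℂ) h1
      have hrat : (cK ℂ Om).map (starRingEnd ℂ) = cK ℂ Om := by
        ext i j
        simp [cK]
      rw [ww_map hrat, map_zero] at h2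
      have h3 : (fun i => starRingEnd ℂ (cj z i)) = z := cj_cj z
      rw [h3] at h2
      exact h2
    have e1 : LinearMap.toMatrix' q *ᵥ cj (u + u') = cj u := by
      rw [cj_add, hMv, map_add, hq1 _ (r.cj_mem hu), hq2 _ hcN, add_zero]
    have e2 : LinearMap.toMatrix' q *ᵥ (u + u') = u := by
      rw [hMv, map_add, hq1 u hu, hq2 u' hu', add_zero]
    have e3 := cj_mulVec (LinearMap.toMatrix' q) (cj (u + u'))
    rw [e1, cj_cj, cj_cj] at e3
    rw [← e3, e2]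

end Run7.h853.Cy
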