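import Mathlib
import Pool.Agent.Run7.h853.Cy.Rm2

/-!
# The trace form on the part which contains the top vector
-/

set_option linter.unusedSectionVars false

namespace Run7.h853.Cy

open Matrix ComplexOrder Pool.Agent.W437.HC Pool.Agent.W437.HD Pool.Agent.W437.HP
  Pool.Agent.W437.HR Pool.Agent.W437.CY

variable {B : Type} [Fintype B] [DecidableEq B] {D : Matrix B B ℂ} {Om : Matrix B B ℚ}
  {S : Finset ℤ} {P : ℤ → Matrix B B ℂ}

/-- A matrix whose product with its adjoint has trace zero is zero. -/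
theorem star_zero {M Z Zs : Matrix B B ℂ} (hM : M.PosDef) (h1 : M * Zs = Zᴴ * M)
    (h0 : trace (Z * Zs) = 0) : Z = 0 := by
  obtain ⟨y, ⟨u, rfl⟩, hy⟩ := exists_sqrtC hM
  obtain ⟨yi, hyi⟩ : ∃ yi, yi = ((u⁻¹ : (Matrix B B ℂ)ˣ) : Matrix B B ℂ) := ⟨_, rfl⟩
  obtain ⟨y, hyy⟩ : ∃ y, y = (u : Matrix B B ℂ) := ⟨_, rfl⟩
  rw [← hyy] at hy
  have hy1 : yi * y = 1 := by rw [hyi, hyy, Units.inv_mul]
  have hy2 : y * yi = 1 := by rw [hyi, hyy, Units.mul_inv]
  have hy3 : yiᴴ * yᴴ = 1 := by rw [← conjTranspose_mul, hy2, conjTranspose_one]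
  have h2 : Zs = yi * yiᴴ * Zᴴ * yᴴ * y := by
    have h3 : yi * yiᴴ * (M * Zs) = Zs := by
      rw [hy, star_eq_conjTranspose]
      have h4 : yi * yiᴴ * (yᴴ * y * Zs) = yi * (yiᴴ * yᴴ) * y * Zs := by noncomm_ring
      rw [h4, hy3, mul_one, hy1, one_mul]
    rw [← h3, h1, hy, star_eq_conjTranspose]
    noncomm_ring
  have h3 : trace ((y * Z * yi) * (y * Z * yi)ᴴ) = 0 := by
    rw [conjTranspose_mul, conjTranspose_mul]
    have h4 : y * Z * yi * (yiᴴ * (Zᴴ * yᴴ)) = y * (Z * yi * yiᴴ * Zᴴ * yᴴ) := by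
      noncomm_ring
    rw [h4, trace_mul_comm]
    have h5 : Z * yi * yiᴴ * Zᴴ * yᴴ * y = Z * (yi * yiᴴ * Zᴴ * yᴴ * y) := by noncomm_ring
    rw [h5, ← h2, h0]
  rw [trace_mul_conjTranspose_self_eq_zero_iff] at h3
  have h7 : yi * (y * Z * yi) * y = Z := by
    have : yi * (y * Z * yi) * y = (yi * y) * Z * (yi * y) := by noncomm_ring
    rw [this, hy1, one_mul, mul_one]
  rw [← h7, h3, mul_zero, zero_mul]

/-- A matrix which commutes with the operator commutes with the projections. -/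
theorem comm_P (h : Proj D S P) {p : Matrix B B ℂ} (hp : D * p = p * D) (a : ℤ) :
    P a * p = p * P a := by
  have h1 : ∀ b, b ≠ a → P a * p * P b = 0 := by
    intro b hb
    have h2 : (a : ℂ) • (P a * p * P b) = (b : ℂ) • (P a * p * P b) := by
      rw [← smul_mul_assoc, ← smul_mul_assoc, ← h.right, mul_assoc (P a) D, hp, ← mul_assoc,
        mul_assoc _ D, h.left, mul_smul_comm]
    have h3 : ((a : ℂ) - b) • (P a * p * P b) = 0 := by rw [sub_smul, h2, sub_self]
    exact (smul_eq_zero.1 h3).resolve_left (sub_ne_zero.2 (by exact_mod_cast Ne.symm hb))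
  have h1' : ∀ b, b ≠ a → P b * p * P a = 0 := by
    intro b hb
    have h2 : (b : ℂ) • (P b * p * P a) = (a : ℂ) • (P b * p * P a) := by
      rw [← smul_mul_assoc, ← smul_mul_assoc, ← h.right, mul_assoc (P b) D, hp, ← mul_assoc,
        mul_assoc _ D, h.left, mul_smul_comm]
    have h3 : ((b : ℂ) - a) • (P b * p * P a) = 0 := by rw [sub_smul, h2, sub_self]
    exact (smul_eq_zero.1 h3).resolve_left (sub_ne_zero.2 (by exact_mod_cast hb))
  by_cases ha : a ∈ S
  · have h2 : P a * p = P a * p * P a := by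
      conv_lhs => rw [← Matrix.mul_one (P a * p), ← h.tot, Matrix.mul_sum]
      exact Finset.sum_eq_single a (fun b _ hb => h1 b hb) (fun h => absurd ha h)
    have h3 : p * P a = P a * p * P a := by
      conv_lhs => rw [← Matrix.one_mul (p * P a), ← h.tot, Matrix.sum_mul]
      rw [Finset.sum_eq_single a (fun b _ hb => by rw [← mul_assoc]; exact h1' b hb)
        (fun h => absurd ha h), mul_assoc]
    rw [h2, h3]
  · rw [h.zero ha, zero_mul, mul_zero]

/-- The adjoint of an element of the Lie algebra is in the Lie algebra. -/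
theorem star_mem (d : Pol D Om S P) {X : Matrix B B ℂ} (hX : X ∈ lieM D ℂ) :
    Cw S P * X.map (starRingEnd ℂ) * Cw S P ∈ lieM D ℂ := by
  have hY := d.prj.fun_mem (fun c => Complex.I ^ (-c)) (conj_mem hX)
  have h1 : ∑ a ∈ S, ∑ b ∈ S, (Complex.I ^ (-(a - b))) • (P a * X.map (starRingEnd ℂ) * P b) =
      (-Cw S P) * X.map (starRingEnd ℂ) * Cw S P := by
    have h1 : -Cw S P = ∑ a ∈ S, Complex.I ^ (-a) • P a := by
      rw [Cw, ← Finset.sum_neg_distrib]
      refine Finset.sum_congr rfl fun a _ => ?_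
      by_cases ha : Odd a
      · rw [I_zpow_neg ha, neg_smul]
      · rw [d.P_zero_of_not_odd ha, smul_zero, smul_zero, neg_zero]
    rw [h1, Cw, Finset.sum_mul, Finset.sum_mul]
    refine Finset.sum_congr rfl fun a _ => ?_
    rw [Finset.mul_sum]
    refine Finset.sum_congr rfl fun b _ => ?_
    rw [smul_mul_assoc, smul_mul_smul_comm, ← zpow_add₀ Complex.I_ne_zero]
    congr 2
    ring
  rw [h1] at hY
  have h2 := Submodule.neg_mem _ hY
  have h3 : -(-Cw S P * X.map (starRingEnd ℂ) * Cw S P) =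
      Cw S P * X.map (starRingEnd ℂ) * Cw S P := by noncomm_ring
  rwa [h3] at h2

/-- The trace form of a summand is nondegenerate. -/
theorem tr_zero_of (d : Pol D Om S P) {p X : Matrix B B ℂ}
    (hp : ∀ X ∈ lieM D ℂ, X * p = p * X) (hpp : p * p = p)
    (hsa : pᵀ * cK ℂ Om = cK ℂ Om * p) (hre : p.map (starRingEnd ℂ) = p) (hX : X ∈ lieM D ℂ)
    (h : ∀ Y ∈ lieM D ℂ, trace (p * X * Y) = 0) : p * X = 0 := by
  have h1 := h _ (star_mem d hX)
  obtain ⟨C, hC⟩ : ∃ C, C = Cw S P := ⟨_, rfl⟩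
  obtain ⟨Xb, hXb⟩ : ∃ Xb, Xb = X.map (starRingEnd ℂ) := ⟨_, rfl⟩
  have hCC : C * C = -1 := by
    have h2 := d.C_mul_neg
    rw [← hC, mul_neg] at h2
    rw [← h2, neg_neg]
  have hpC : p * C = C * p := by
    rw [hC, Cw, Finset.mul_sum, Finset.sum_mul]
    refine Finset.sum_congr rfl fun a _ => ?_
    rw [mul_smul_comm, smul_mul_assoc, comm_P d.prj (hp D (D_mem D))]
  have hXsp := spC d (conj_mem hX)
  rw [← hXb] at hXsp
  rw [← hC, ← hXb] at h1
  refine star_zero d.posDef (Zs := C * Xb * C * p) ?_ ?_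
  · rw [← hC]
    have e1 : (p * X)ᴴ = Xbᵀ * pᵀ := by
      rw [conjTranspose_mul]
      congr 1
      · rw [hXb]
        rfl
      · conv_rhs => rw [← hre]
        rfl
    have e2 : Xbᵀ * pᵀ * -(cK ℂ Om * C) = -(Xbᵀ * (pᵀ * cK ℂ Om) * C) := by noncomm_ring
    have e3 : -(Xbᵀ * (cK ℂ Om * p) * C) = -((Xbᵀ * cK ℂ Om) * (p * C)) := by noncomm_ring
    have e4 : -(cK ℂ Om * C) * (C * Xb * C * p) = -(cK ℂ Om * (C * C) * Xb * (C * p)) := by
      noncomm_ring
    rw [e1, e2, hsa, e3, hpC, e4, hCC, eq_neg_of_add_eq_zero_left hXsp]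
    noncomm_ring
  · have e1 : p * X * (C * Xb * C * p) = (p * X * (C * Xb * C)) * p := by noncomm_ring
    rw [e1, trace_mul_comm]
    have e2 : p * (p * X * (C * Xb * C)) = (p * p) * X * (C * Xb * C) := by noncomm_ring
    rw [e2, hpp]
    exact h1

end Run7.h853.Cy
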