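import Mathlib
import Pool.Agent.Run7.h853.Cy.Rm3

/-!
# The quartic form given by the projection to the Lie algebra
-/

set_option linter.unusedSectionVars false

namespace Run7.h853.Cy

open Matrix ComplexOrder Pool.Agent.W437.HC Pool.Agent.W437.HD Pool.Agent.W437.HP
  Pool.Agent.W437.HR Pool.Agent.W437.CY

variable {B : Type} [Fintype B] [DecidableEq B] {D : Matrix B B ℂ} {Om : Matrix B B ℚ}
  {S : Finset ℤ} {P : ℤ → Matrix B B ℂ}

/-- The orthogonal projection to the Lie algebra. -/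
theorem exists_orth (hnd : ∀ X ∈ lieM D ℚ, (∀ Y ∈ lieM D ℚ, trace (X * Y) = 0) → X = 0) :
    ∃ p : Matrix B B ℚ →ₗ[ℚ] Matrix B B ℚ, (∀ A, p A ∈ lieM D ℚ) ∧
      (∀ X ∈ lieM D ℚ, ∀ A, p (X * A - A * X) = X * p A - p A * X) ∧
      ∀ A, ∀ X ∈ lieM D ℚ, trace (p A * X) = trace (A * X) := by
  classical
  have hdisj : Disjoint (lieM D ℚ) ((trF B).orthogonal (lieM D ℚ)) := by
    rw [Submodule.disjoint_def]
    intro X hX hX'
    refine hnd X hX fun Y hY => ?_
    have h1 := hX' Y hY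
    change trF B Y X = 0 at h1
    rw [trF_apply, trace_mul_comm] at h1
    exact h1
  have hc : IsCompl (lieM D ℚ) ((trF B).orthogonal (lieM D ℚ)) :=
    (LinearMap.BilinForm.isCompl_orthogonal_iff_disjoint trF_refl).2 hdisj
  obtain ⟨p, hp⟩ : ∃ p, p = (lieM D ℚ).projection _ hc := ⟨_, rfl⟩
  have h1 : ∀ A, A - p A ∈ (trF B).orthogonal (lieM D ℚ) := by
    intro A
    rw [← Submodule.projection_apply_eq_zero_iff hc, map_sub, ← hp]
    rw [sub_eq_zero, hp]
    exact (Submodule.projection_apply_of_mem_left hc (Submodule.projection_apply_mem hc A)).symm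
  have hpm : ∀ A, p A ∈ lieM D ℚ := fun A => by
    rw [hp]
    exact Submodule.projection_apply_mem hc A
  refine ⟨p, hpm, fun X hX A => ?_, fun A X hX => ?_⟩
  · have h2 : X * (A - p A) - (A - p A) * X ∈ (trF B).orthogonal (lieM D ℚ) := by
      intro Y hY
      change trF B Y _ = 0
      rw [trF_apply]
      have h3 := h1 A (Y * X - X * Y) (lieM_bracket D hY hX)
      change trF B _ _ = 0 at h3
      rw [trF_apply] at h3
      rw [← h3]
      generalize A - p A = C
      rw [mul_sub, sub_mul, trace_sub, trace_sub, mul_assoc, ← mul_assoc Y C X,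
        trace_mul_comm (Y * C) X, mul_assoc]
    have h4 : X * A - A * X = (X * p A - p A * X) + (X * (A - p A) - (A - p A) * X) := by
      noncomm_ring
    rw [h4, map_add]
    have h5 : p (X * (A - p A) - (A - p A) * X) = 0 := by
      rw [hp] at h2 ⊢
      exact (Submodule.projection_apply_eq_zero_iff hc).2 h2
    rw [h5, add_zero]
    have h6 := lieM_bracket D hX (hpm A)
    conv_lhs => rw [hp]
    rw [hp] at h6 ⊢
    exact Submodule.projection_apply_of_mem_left hc h6
  · have h3 := h1 A X hX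
    change trF B _ _ = 0 at h3
    rw [trF_apply, Matrix.mul_sub, trace_sub, sub_eq_zero] at h3
    rw [trace_mul_comm, ← h3, trace_mul_comm]

/-- The element of the Lie algebra dual to `X ↦ ω (x, X x)`. -/
noncomputable def Zx (p : Matrix B B ℚ →ₗ[ℚ] Matrix B B ℚ) (Om : Matrix B B ℚ) (x : B → ℂ) :
    Matrix B B ℂ := ∑ i, ∑ j, (x i * x j) • cK ℂ (p (single i j 1 * Om))

section proj

variable {p : Matrix B B ℚ →ₗ[ℚ] Matrix B B ℚ} (hp : ∀ A, p A ∈ lieM D ℚ)
  (ho : ∀ A, ∀ X ∈ lieM D ℚ, trace (p A * X) = trace (A * X))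

include hp in
theorem Zx_mem (x : B → ℂ) : Zx p Om x ∈ lieM D ℂ :=
  Submodule.sum_mem _ fun _ _ => Submodule.sum_mem _ fun _ _ =>
    Submodule.smul_mem _ _ (cast_mem _ (hp _))

include ho in
theorem orthC (A : Matrix B B ℚ) {X : Matrix B B ℂ} (hX : X ∈ lieM D ℂ) :
    trace (cK ℂ (p A) * X) = trace (cK ℂ A * X) := by
  have h2 := mem_span_rat hX
  clear hX
  induction h2 using Submodule.span_induction with
  | mem Y hY =>
    obtain ⟨Y0, hY0, rfl⟩ := hY
    rw [← cK_mul, ← cK_mul]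
    have h4 : ∀ M : Matrix B B ℚ, trace (cK ℂ M) = ((trace M : ℚ) : ℂ) := by
      intro M
      simp [trace, cK]
    rw [h4, h4, ho A Y0 hY0]
  | zero => rw [Matrix.mul_zero, Matrix.mul_zero]
  | add x y _ _ h1 h2 => rw [Matrix.mul_add, Matrix.mul_add, trace_add, trace_add, h1, h2]
  | smul a x _ h1 => rw [Matrix.mul_smul, Matrix.mul_smul, trace_smul, trace_smul, h1]

theorem tr_single (i j : B) (M : Matrix B B ℂ) :
    trace (cK ℂ (single i j (1 : ℚ) * Om) * M) = (cK ℂ Om * M) j i := by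
  have h1 : cK ℂ (single i j (1 : ℚ)) = single i j (1 : ℂ) := by
    ext a b
    simp only [cK, Matrix.map_apply, single_apply]
    by_cases h : i = a ∧ j = b
    · rw [if_pos h, if_pos h, Rat.cast_one]
    · rw [if_neg h, if_neg h, Rat.cast_zero]
  rw [cK_mul, h1, Matrix.mul_assoc, Matrix.trace]
  simp only [diag_apply]
  rw [Finset.sum_eq_single i]
  · simp
  · intro a _ ha
    simp [ha]
  · intro h
    exact absurd (Finset.mem_univ _) h

include ho in
theorem Zx_tr (x : B → ℂ) {X : Matrix B B ℂ} (hX : X ∈ lieM D ℂ) :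
    trace (Zx p Om x * X) = ww (cK ℂ Om) x (X *ᵥ x) := by
  unfold Zx
  rw [Finset.sum_mul, trace_sum]
  have h1 : ∀ i, trace ((∑ j, (x i * x j) • cK ℂ (p (single i j 1 * Om))) * X) =
      ∑ j, (x i * x j) * (cK ℂ Om * X) j i := by
    intro i
    rw [Finset.sum_mul, trace_sum]
    refine Finset.sum_congr rfl fun j _ => ?_
    rw [smul_mul_assoc, trace_smul, orthC ho _ hX, tr_single, smul_eq_mul]
  rw [Finset.sum_congr rfl fun i _ => h1 i, Finset.sum_comm]
  unfold ww
  rw [mulVec_mulVec]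
  simp only [dotProduct, mulVec, Finset.mul_sum]
  refine Finset.sum_congr rfl fun j _ => Finset.sum_congr rfl fun i _ => ?_
  ring

/-- The functions of four variables. -/
def four (B : Type) : (Fin 4 → B) ≃ (B × B) × (B × B) where
  toFun I := ((I 0, I 1), (I 2, I 3))
  invFun q := ![q.1.1, q.1.2, q.2.1, q.2.2]
  left_inv I := by
    funext s
    fin_cases s <;> rfl
  right_inv q := rfl

include hp ho in
/-- The value of the quartic form. -/
theorem theta_val (x : B → ℂ) :
    evalF (cst ℂ (theta p Om)) (fun _ => x) = trace (Zx p Om x * Zx p Om x) := by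
  have h1 : evalF (cst ℂ (theta p Om)) (fun _ => x) = ∑ q : (B × B) × (B × B),
      ((trace (p (single q.1.1 q.1.2 1 * Om) * (single q.2.1 q.2.2 1 * Om)) : ℚ) : ℂ) *
        (x q.1.1 * x q.1.2 * (x q.2.1 * x q.2.2)) := by
    unfold evalF
    refine Fintype.sum_equiv (four B) _ _ fun I => ?_
    rw [Fin.prod_univ_four]
    change ((theta p Om I : ℚ) : ℂ) * _ = _
    unfold theta
    change _ = ((trace (p (single (I 0) (I 1) 1 * Om) * (single (I 2) (I 3) 1 * Om)) : ℚ) : ℂ) *
        (x (I 0) * x (I 1) * (x (I 2) * x (I 3)))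
    ring
  have h4 : ∀ M : Matrix B B ℚ, ((trace M : ℚ) : ℂ) = trace (cK ℂ M) := by
    intro M
    simp [trace, cK]
  have h2 : trace (Zx p Om x * Zx p Om x) = ∑ c, ∑ d, (x c * x d) *
      trace (cK ℂ (single c d 1 * Om) * Zx p Om x) := by
    have hZ := Zx_mem (D := D) (Om := Om) hp x
    obtain ⟨Z, hZd⟩ : ∃ Z, Z = Zx p Om x := ⟨_, rfl⟩
    rw [← hZd] at hZ ⊢
    conv_lhs => rw [congrArg (fun M => M * Z) hZd, Zx, Finset.sum_mul, trace_sum]
    refine Finset.sum_congr rfl fun c _ => ?_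
    rw [Finset.sum_mul, trace_sum]
    refine Finset.sum_congr rfl fun d _ => ?_
    rw [smul_mul_assoc, trace_smul, orthC ho _ hZ, smul_eq_mul]
  have h3 : ∀ c d, trace (cK ℂ (single c d 1 * Om) * Zx p Om x) = ∑ a, ∑ b, (x a * x b) *
      trace (cK ℂ (p (single a b 1 * Om)) * cK ℂ (single c d 1 * Om)) := by
    intro c d
    rw [Zx, Finset.mul_sum, trace_sum]
    refine Finset.sum_congr rfl fun a _ => ?_
    rw [Finset.mul_sum, trace_sum]
    refine Finset.sum_congr rfl fun b _ => ?_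
    rw [mul_smul_comm, trace_smul, trace_mul_comm, smul_eq_mul]
  rw [h1, h2, Fintype.sum_prod_type, Finset.sum_comm, Fintype.sum_prod_type]
  refine Finset.sum_congr rfl fun c _ => Finset.sum_congr rfl fun d _ => ?_
  rw [h3, Fintype.sum_prod_type, Finset.mul_sum]
  refine Finset.sum_congr rfl fun a _ => ?_
  rw [Finset.mul_sum]
  refine Finset.sum_congr rfl fun b _ => ?_
  rw [h4, cK_mul]
  ring

end proj

/-- If all the values `Tr (Z x ^ 2)` vanish, for real vectors, then the Lie algebra has an element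
of the largest degree. -/
theorem exists_top_of (d : Pol D Om S P) {k : ℤ} (hk : k ≠ 0) (hodd : Odd k) {v : B → ℂ}
    (hv0 : v ≠ 0) (hv : D *ᵥ v = (k : ℂ) • v)
    {Z : Matrix B B ℂ} (hZ : Z ∈ lieM D ℂ)
    (hZx : ∀ X ∈ lieM D ℂ, trace (Z * X) = ww (cK ℂ Om) (v + cj v) (X *ᵥ (v + cj v)))
    (h0 : trace (Z * Z) = 0) : ∃ Y ∈ lieM D ℂ, ww (cK ℂ Om) v (Y *ᵥ v) ≠ 0 := by
  by_contra hg
  push Not at hg
  have hskew := d.skewC
  have hrat : ∀ σ : ℂ →+* ℂ, (cK ℂ Om).map σ = cK ℂ Om := by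
    intro σ
    ext i j
    simp [cK]
  -- the form on the conjugate vector
  have hcg : ∀ Y ∈ lieM D ℂ, ww (cK ℂ Om) (cj v) (Y *ᵥ cj v) = 0 := by
    intro X hX
    have h1 := hg _ (map_mem_aut hX (starRingEnd ℂ))
    have h2 := congrArg (starRingEnd ℂ) h1
    rw [ww_map (hrat _), map_zero] at h2
    have h3 : (fun i => starRingEnd ℂ ((X.map (starRingEnd ℂ) *ᵥ v) i)) = X *ᵥ cj v := by
      have h4 := cj_mulVec (X.map (starRingEnd ℂ)) v
      have h5 : (X.map (starRingEnd ℂ)).map (starRingEnd ℂ) = X := by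
        ext i j
        simp
      rw [h5] at h4
      exact h4
    rw [h3] at h2
    exact h2
  have hval : ∀ X ∈ lieM D ℂ, trace (Z * X) = 2 * ww (cK ℂ Om) v (X *ᵥ cj v) := by
    intro X hX
    rw [hZx X hX, mulVec_add, ww_add_left, ww_add_right, ww_add_right, hg X hX, hcg X hX,
      zero_add, add_zero]
    have h2 : ww (cK ℂ Om) (cj v) (X *ᵥ v) = ww (cK ℂ Om) v (X *ᵥ cj v) := by
      rw [ww_anti hskew (cj v), ww_sp (spC d hX) v (cj v), neg_neg]
    rw [h2]
    ring
  obtain ⟨C, hC⟩ : ∃ C, C = Cw S P := ⟨_, rfl⟩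
  have hCC : C * C = -1 := by
    have h2 := d.C_mul_neg
    rw [← hC, mul_neg] at h2
    rw [← h2, neg_neg]
  have hkS : k ∈ S := by
    by_contra h
    have h1 := d.prj.eig hv k
    rw [if_pos rfl, d.prj.zero h, zero_mulVec] at h1
    exact hv0 h1.symm
  have hCv : C *ᵥ v = (Complex.I ^ k) • v := by
    rw [hC, Cw, sum_mulVec, Finset.sum_eq_single k]
    · have h1 := d.prj.eig hv k
      rw [if_pos rfl] at h1
      rw [smul_mulVec, h1]
    · intro b _ hb
      have h1 := d.prj.eig hv b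
      rw [if_neg hb] at h1
      rw [smul_mulVec, h1, smul_zero]
    · intro h
      exact absurd hkS h
  have hCw : ∀ w, ww (cK ℂ Om) (cj v) (C *ᵥ w) = Complex.I ^ k * ww (cK ℂ Om) (cj v) w := by
    intro w
    have h1 : ∀ b ∈ S, b ≠ k → ww (cK ℂ Om) (cj v) (P b *ᵥ w) = 0 := fun b _ hb =>
      d.ww_eig (d.cj_eig hv) (d.P_eig b w) (by omega)
    have h2 : ww (cK ℂ Om) (cj v) w = ww (cK ℂ Om) (cj v) (P k *ᵥ w) := by
      conv_lhs => rw [← d.prj.sum_vec w]
      rw [ww_sum_right]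
      exact Finset.sum_eq_single k h1 (fun h => absurd hkS h)
    rw [h2, hC, d.C_vec, ww_sum_right]
    rw [Finset.sum_eq_single k]
    · rw [ww_smul_right]
    · intro b hb hbk
      rw [ww_smul_right, h1 b hb hbk, mul_zero]
    · intro h
      exact absurd hkS h
  have hIk : (Complex.I ^ k) * (Complex.I ^ k) = -1 := by
    rw [← mul_zpow, Complex.I_mul_I, hodd.neg_one_zpow]
  obtain ⟨Zb, hZb⟩ : ∃ Zb, Zb = Z.map (starRingEnd ℂ) := ⟨_, rfl⟩
  have hZbm : Zb ∈ lieM D ℂ := by
    rw [hZb]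
    exact conj_mem hZ
  have hZs : C * Zb * C ∈ lieM D ℂ := by
    have h1 := star_mem d hZ
    rwa [← hC, ← hZb] at h1
  have hanti : C * Zb * C = -Z := by
    rw [eq_neg_iff_add_eq_zero]
    refine tr_nondeg d (Submodule.add_mem _ hZs hZ) fun X hX => ?_
    have hX' : C * X * C ∈ lieM D ℂ := by
      have h1 := star_mem d (conj_mem hX)
      have h2 : (X.map (starRingEnd ℂ)).map (starRingEnd ℂ) = X := by
        ext i j
        simp
      rwa [h2, ← hC] at h1
    have e1 : trace (C * Zb * C * X) = trace (Zb * (C * X * C)) := by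
      have : C * Zb * C * X = C * (Zb * C * X) := by noncomm_ring
      rw [this, trace_mul_comm]
      have : Zb * C * X * C = Zb * (C * X * C) := by noncomm_ring
      rw [this]
    have e2 : trace (Zb * (C * X * C)) =
        starRingEnd ℂ (trace (Z * (C * X * C).map (starRingEnd ℂ))) := by
      rw [hZb]
      simp [trace, Matrix.mul_apply, map_sum]
    have e3 := hval _ (conj_mem hX')
    have e4 : starRingEnd ℂ (ww (cK ℂ Om) v ((C * X * C).map (starRingEnd ℂ) *ᵥ cj v)) =
        ww (cK ℂ Om) (cj v) ((C * X * C) *ᵥ v) := by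
      rw [ww_map (hrat _)]
      have h1 : (fun i => starRingEnd ℂ (((C * X * C).map (starRingEnd ℂ) *ᵥ cj v) i)) =
          (C * X * C) *ᵥ v := by
        have h4 := cj_mulVec ((C * X * C).map (starRingEnd ℂ)) (cj v)
        have h5 : ∀ M : Matrix B B ℂ, (M.map (starRingEnd ℂ)).map (starRingEnd ℂ) = M := by
          intro M
          ext i j
          simp
        rw [h5, cj_cj] at h4
        exact h4
      rw [h1]
      rfl
    have e5 : ww (cK ℂ Om) (cj v) ((C * X * C) *ᵥ v) = -ww (cK ℂ Om) v (X *ᵥ cj v) := by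
      rw [← mulVec_mulVec, hCv, mulVec_smul, ← mulVec_mulVec, ww_smul_right, hCw, ← mul_assoc,
        hIk, neg_one_mul]
      have h2 : ww (cK ℂ Om) (cj v) (X *ᵥ v) = ww (cK ℂ Om) v (X *ᵥ cj v) := by
        rw [ww_anti hskew (cj v), ww_sp (spC d hX) v (cj v), neg_neg]
      rw [h2]
    have e6 : (starRingEnd ℂ) 2 = 2 := map_ofNat _ 2
    rw [add_mul, trace_add, e1, e2, e3, map_mul, e4, e5, hval X hX, e6]
    ring
  have hZ0 : Z = 0 := by
    refine star_zero d.posDef (Zs := C * Zb * C) ?_ ?_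
    · rw [← hC]
      have e1 : Zᴴ = Zbᵀ := by
        rw [hZb]
        rfl
      have hXsp := spC d hZbm
      have e4 : -(cK ℂ Om * C) * (C * Zb * C) = -(cK ℂ Om * (C * C) * Zb * C) := by
        noncomm_ring
      have e5 : Zbᵀ * -(cK ℂ Om * C) = -((Zbᵀ * cK ℂ Om) * C) := by noncomm_ring
      rw [e1, e5, e4, hCC, eq_neg_of_add_eq_zero_left hXsp]
      noncomm_ring
    · rw [hanti, mul_neg, trace_neg, h0, neg_zero]
  have h3 := hval D (D_mem D)
  have h4 := d.cj_eig hv
  rw [hZ0, Matrix.zero_mul, trace_zero, h4, ww_smul_right] at h3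
  have h5 := d.pos k v hv hv0
  have h6 : ww (cK ℂ Om) v (cj v) ≠ 0 := by
    intro h
    rw [h, mul_zero] at h5
    exact lt_irrefl _ h5
  have h7 : (((-k : ℤ) : ℂ)) ≠ 0 := by
    exact_mod_cast neg_ne_zero.2 hk
  exact (mul_ne_zero two_ne_zero (mul_ne_zero h7 h6)) h3.symm

end Run7.h853.Cy
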