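import Mathlib
import Pool.Agent.W437.CY.RelG

/-!
# Hodge structures with a good vector: ideals
-/

set_option linter.unusedSectionVars false

namespace Run7.h853.Cy

open Matrix ComplexOrder Pool.Agent.W437.HC Pool.Agent.W437.HD Pool.Agent.W437.HP
  Pool.Agent.W437.HR Pool.Agent.W437.CY

section ideal

variable {B : Type*} [Fintype B] [DecidableEq B] {D Om : Matrix B B ℂ} (hOm : Omᵀ = -Om)
  (hsp : ∀ X ∈ lieM D ℂ, Xᵀ * Om + Om * X = 0)

theorem mem_of_smul {I : Submodule ℂ (Matrix B B ℂ)} {a : ℂ} (ha : a ≠ 0) {X : Matrix B B ℂ}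
    (h : a • X ∈ I) : X ∈ I := by
  have h2 : a⁻¹ • a • X ∈ I := Submodule.smul_mem _ _ h
  rwa [smul_smul, inv_mul_cancel₀ ha, one_smul] at h2

include hOm hsp in
/-- A subspace which contains the square of a good vector and is stable contains all the
products. -/
theorem ideal_pairs {v : B → ℂ} (hv : Good D Om v) (I : Submodule ℂ (Matrix B B ℂ))
    (hI : ∀ x ∈ VV D Om v, ∀ y ∈ VV D Om v, ∀ Z ∈ I, SS Om x y * Z - Z * SS Om x y ∈ I)
    (hvI : SS Om v v ∈ I) {x y : B → ℂ} (hx : x ∈ VV D Om v) (hy : y ∈ VV D Om v) :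
    SS Om x y ∈ I := by
  obtain ⟨w, hww, hvw⟩ := hv.2
  have hwV : w ∈ VV D Om v := by
    rw [mem_VV, SS_comm]
    exact SS_pair hsp hv.1 hww hvw
  have hwv : ww Om w v ≠ 0 := by
    rw [ww_anti hOm, neg_ne_zero]
    exact hvw
  have key : ∀ a ∈ VV D Om v, ∀ b ∈ VV D Om v, ∀ x y, SS Om x y ∈ I →
      (ww Om b x • SS Om a y + ww Om a x • SS Om b y) +
        (ww Om b y • SS Om x a + ww Om a y • SS Om x b) ∈ I := by
    intro a ha b hb x y hxy
    have h1 := hI a ha b hb _ hxy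
    rw [SS_bracket (hsp _ (VV_pair hOm hsp hv ha hb)), SS_vec, SS_vec, SS_add_left,
      SS_add_right, SS_smul_left, SS_smul_left, SS_smul_right, SS_smul_right] at h1
    exact h1
  -- the square of the second vector
  have h1 : SS Om w v ∈ I := by
    have h2 := key w hwV w hwV v v hvI
    have h3 : (ww Om w v • SS Om w v + ww Om w v • SS Om w v) +
        (ww Om w v • SS Om v w + ww Om w v • SS Om v w) = (4 * ww Om w v) • SS Om w v := by
      rw [SS_comm v w]
      module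
    rw [h3] at h2
    exact mem_of_smul (mul_ne_zero (by norm_num) hwv) h2
  have h2 : ∀ x ∈ VV D Om v, SS Om x v ∈ I := by
    intro x hx
    have h3 := key x hx w hwV v v hvI
    have h4 : (ww Om w v • SS Om x v + ww Om x v • SS Om w v) +
        (ww Om w v • SS Om v x + ww Om x v • SS Om v w) =
        (2 * ww Om w v) • SS Om x v + (2 * ww Om x v) • SS Om w v := by
      rw [SS_comm v x, SS_comm v w]
      module
    rw [h4] at h3
    have h5 := Submodule.sub_mem _ h3 (Submodule.smul_mem _ (2 * ww Om x v) h1)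
    rw [add_sub_cancel_right] at h5
    exact mem_of_smul (mul_ne_zero two_ne_zero hwv) h5
  have h3 : ∀ x ∈ VV D Om v, SS Om x w ∈ I := by
    intro x hx
    have h4 := key w hwV w hwV x v (h2 x hx)
    have h5 : (ww Om w x • SS Om w v + ww Om w x • SS Om w v) +
        (ww Om w v • SS Om x w + ww Om w v • SS Om x w) =
        (2 * ww Om w x) • SS Om w v + (2 * ww Om w v) • SS Om x w := by module
    rw [h5] at h4
    have h6 := Submodule.sub_mem _ h4 (Submodule.smul_mem _ (2 * ww Om w x) h1)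
    rw [add_sub_cancel_left] at h6
    exact mem_of_smul (mul_ne_zero two_ne_zero hwv) h6
  have h4 := key y hy w hwV x v (h2 x hx)
  have h5 : (ww Om w x • SS Om y v + ww Om y x • SS Om w v) +
      (ww Om w v • SS Om x y + ww Om y v • SS Om x w) =
      ww Om w x • SS Om y v + ww Om y x • SS Om w v + ww Om y v • SS Om x w +
        ww Om w v • SS Om x y := by module
  rw [h5] at h4
  have h6 := Submodule.sub_mem _ h4 (Submodule.add_mem _ (Submodule.add_mem _
    (Submodule.smul_mem _ (ww Om w x) (h2 y hy)) (Submodule.smul_mem _ (ww Om y x) h1))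
    (Submodule.smul_mem _ (ww Om y v) (h3 x hx)))
  rw [add_sub_cancel_left] at h6
  exact mem_of_smul hwv h6

/-- If `a v + v a` vanishes then so does `a`. -/
theorem SS_eq_zero {Om : Matrix B B ℂ} {v a : B → ℂ} {w : B → ℂ}
    (hvw : ww Om v w ≠ 0) (h : SS Om a v = 0) : a = 0 := by
  have h1 : ∀ u, ww Om v u • a + ww Om a u • v = 0 := by
    intro u
    rw [← SS_vec, h, zero_mulVec]
  have h2 := h1 w
  obtain ⟨c, hc⟩ : ∃ c : ℂ, a = c • v := by
    obtain ⟨t, ht⟩ : ∃ t, t = ww Om a w := ⟨_, rfl⟩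
    refine ⟨-(ww Om v w)⁻¹ * t, ?_⟩
    have h3 : ww Om v w • a = -(t • v) := by
      rw [ht]
      exact eq_neg_of_add_eq_zero_left h2
    have h4 : a = (ww Om v w)⁻¹ • (ww Om v w • a) := by
      rw [smul_smul, inv_mul_cancel₀ hvw, one_smul]
    rw [h4, h3]
    module
  rw [hc, ww_smul_left, smul_smul, ← add_smul] at h2
  have h3 : v ≠ 0 := by
    rintro rfl
    exact hvw (ww_zero_left w)
  have h4 := (smul_eq_zero.1 h2).resolve_right h3
  have h5 : (2 * ww Om v w) * c = 0 := by linear_combination h4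
  have h6 := (mul_eq_zero.1 h5).resolve_left (mul_ne_zero two_ne_zero hvw)
  rw [hc, h6, zero_smul]

include hOm hsp in
/-- The sum of the spaces of the conjugates of a good vector. -/
theorem top_conj (hrat : ∀ σ : ℂ →+* ℂ, Om.map σ = Om) (hs : SimpleD D) {v : B → ℂ}
    (hv : Good D Om v) : ⨆ σ : ℂ ≃+* ℂ, VV D Om (fun i => σ (v i)) = ⊤ := by
  have hgs : ∀ σ : ℂ ≃+* ℂ, Good D Om (fun i => σ (v i)) := fun σ =>
    Good.map (σ := (σ : ℂ →+* ℂ)) (hrat _) hv
  refine eq_top_of_stable hs _ (fun σ x hx => ?_) (fun x hx => ?_) ?_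
  · induction hx using Submodule.iSup_induction' with
    | mem τ x hx =>
      refine Submodule.mem_iSup_of_mem (τ.trans σ) ?_
      exact VV_map (σ := (σ : ℂ →+* ℂ)) (hrat _) hx
    | zero =>
      have h1 : (fun i => σ ((0 : B → ℂ) i)) = 0 := by
        funext i
        exact map_zero σ
      rw [h1]
      exact Submodule.zero_mem _
    | add x y _ _ hx hy =>
      have h1 : (fun i => σ ((x + y) i)) = (fun i => σ (x i)) + fun i => σ (y i) := by
        funext i
        exact map_add σ _ _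
      rw [h1]
      exact Submodule.add_mem _ hx hy
  · have h1 : (⨆ σ : ℂ ≃+* ℂ, VV D Om (fun i => σ (v i))) ≤
        (⨆ σ : ℂ ≃+* ℂ, VV D Om (fun i => σ (v i))).comap (mulVecLin D) := by
      refine iSup_le fun σ y hy => ?_
      rw [Submodule.mem_comap, mulVecLin_apply]
      exact Submodule.mem_iSup_of_mem σ (VV_stable hOm hsp (hgs σ) (D_mem D) hy)
    exact h1 hx
  · intro h
    have h1 : v ∈ ⨆ σ : ℂ ≃+* ℂ, VV D Om (fun i => σ (v i)) :=
      Submodule.mem_iSup_of_mem (RingEquiv.refl ℂ) (self_mem_VV hv)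
    rw [h, Submodule.mem_bot] at h1
    obtain ⟨w, -, hvw⟩ := hv.2
    apply hvw
    rw [h1]
    exact ww_zero_left w

end ideal

variable {k N : ℕ} (V : PolHS k N)

/-- The Hodge structure is simple and has a good vector of the largest weight. -/
def Gd (V : PolHS k N) : Prop :=
  V.IsSimple ∧ ∃ v ∈ V.H (Fin.last k), Good V.D (cK ℂ V.Q) v

variable (hk : Odd k)

include hk

theorem skQ : (cK ℂ V.Q)ᵀ = -cK ℂ V.Q := (V.pol hk (K := k) le_rfl).skewC

theorem spV {X : Matrix (Fin N) (Fin N) ℂ} (hX : X ∈ lieM V.D ℂ) :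
    Xᵀ * cK ℂ V.Q + cK ℂ V.Q * X = 0 := lieM_bil _ (isH_bilc _ V.spD) hX

omit hk in
theorem ratQ (σ : ℂ →+* ℂ) : (cK ℂ V.Q).map σ = cK ℂ V.Q := by
  ext i j
  simp [cK]

omit hk in
theorem unitQ : IsUnit (cK ℂ V.Q) := by
  obtain ⟨u, hu⟩ := V.unit
  refine ⟨⟨cK ℂ V.Q, cK ℂ ((u⁻¹ : (Matrix _ _ ℚ)ˣ) : Matrix _ _ ℚ), ?_, ?_⟩, rfl⟩
  · rw [← cK_mul, ← hu, Units.mul_inv, cK_one]
  · rw [← cK_mul, ← hu, Units.inv_mul, cK_one]

theorem uu_top (hg : Gd V) : UU V.D (cK ℂ V.Q) = ⊤ := by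
  obtain ⟨hs, v, -, hv⟩ := hg
  rw [eq_top_iff, ← top_conj (skQ V hk) (fun _ hX => spV V hk hX) (ratQ V) (V.simpleD hs) hv]
  refine iSup_le fun σ => ?_
  exact le_iSup (fun v : {v // Good V.D (cK ℂ V.Q) v} => VV V.D (cK ℂ V.Q) v.1)
    ⟨fun i => σ (v i), Good.map (σ := (σ : ℂ →+* ℂ)) (ratQ V _) hv⟩

theorem hasPcs_of_gd (hg : Gd V) : HasPcs V.D :=
  hasPcs_of_top (skQ V hk) (unitQ V) (fun _ hX => spV V hk hX) (uu_top V hk hg)

end Run7.h853.Cy
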