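import Mathlib
import Pool.Agent.Run7.h853.Cy.Q4a
import Pool.Agent.Run7.h853.Cy.Rel1
import Pool.Agent.Run7.h853.Cy.Defs2
import Pool.Agent.W437.CY.RelE

/-!
# Hodge structures without quartic Hodge classes
-/

set_option linter.unusedSectionVars false

namespace Run7.h853.Cy

open Matrix ComplexOrder Pool.Agent.W437.HC Pool.Agent.W437.HD Pool.Agent.W437.HP
  Pool.Agent.W437.HR Pool.Agent.W437.CY

section sym

variable {B : Type} [Fintype B] [DecidableEq B]

/-- The symmetrization. -/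
def symm4 (c : (Fin 4 → B) → ℚ) : (Fin 4 → B) → ℚ :=
  ∑ e : Equiv.Perm (Fin 4), fun I => c (fun j => I (e j))

theorem symm4_symm (c : (Fin 4 → B) → ℚ) (e : Equiv.Perm (Fin 4)) (I : Fin 4 → B) :
    symm4 c (fun j => I (e j)) = symm4 c I := by
  unfold symm4
  rw [Finset.sum_apply, Finset.sum_apply]
  exact Equiv.sum_comp (Equiv.mulLeft e) fun e' : Equiv.Perm (Fin 4) => c fun j => I (e' j)

theorem cst_sum {ι : Type} (s : Finset ι) (c : ι → (Fin 4 → B) → ℚ) :
    cst ℂ (∑ i ∈ s, c i) = ∑ i ∈ s, cst ℂ (c i) := by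
  funext I
  simp [cst, Finset.sum_apply]

theorem act_sum_right {ι : Type} (s : Finset ι) (D : Matrix B B ℂ) (c : ι → (Fin 4 → B) → ℂ) :
    act D (∑ i ∈ s, c i) = ∑ i ∈ s, act D (c i) := by
  classical
  induction s using Finset.induction_on with
  | empty => rw [Finset.sum_empty, Finset.sum_empty, act_zero_right]
  | insert a s ha ih => rw [Finset.sum_insert ha, Finset.sum_insert ha, act_add_right, ih]

theorem symm4_isH {D : Matrix B B ℂ} {c : (Fin 4 → B) → ℚ} (hc : IsH D c) :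
    IsH D (symm4 c) := by
  unfold IsH symm4
  rw [cst_sum, act_sum_right]
  refine Finset.sum_eq_zero fun e _ => ?_
  exact isH_reindex D (e.symm) hc

theorem symm4_val (c : (Fin 4 → B) → ℚ) (x : B → ℂ) :
    evalF (cst ℂ (symm4 c)) (fun _ => x) =
      (Fintype.card (Equiv.Perm (Fin 4)) : ℂ) * evalF (cst ℂ c) (fun _ => x) := by
  have h1 : evalF (cst ℂ (symm4 c)) (fun _ => x) = ∑ e : Equiv.Perm (Fin 4),
      evalF (cst ℂ fun I => c (fun j => I (e j))) (fun _ => x) := by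
    unfold symm4
    rw [cst_sum]
    unfold evalF
    simp only [Finset.sum_apply, Finset.sum_mul]
    rw [Finset.sum_comm]
  rw [h1]
  have h2 : ∀ e : Equiv.Perm (Fin 4), evalF (cst ℂ fun I => c (fun j => I (e j))) (fun _ => x) =
      evalF (cst ℂ c) (fun _ => x) := by
    intro e
    unfold evalF
    refine Fintype.sum_equiv (Equiv.arrowCongr e.symm (Equiv.refl B)) _ _ fun I => ?_
    have h3 : (Equiv.arrowCongr e.symm (Equiv.refl B)) I = fun j => I (e j) := by
      funext j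
      simp
    rw [h3]
    congr 1
    exact (Equiv.prod_comp e fun j => x (I j)).symm
  rw [Finset.sum_congr rfl fun e _ => h2 e, Finset.sum_const, nsmul_eq_mul, Finset.card_univ]

end sym

section hodge

variable {k N : ℕ} (V : PolHS k N)

/-- The tensors killed by the operator are Hodge classes. -/
theorem hodge4 {c : (Fin 4 → Fin N) → ℚ} (hc : act V.Dᵀ (cst ℂ c) = 0) :
    (fun I => ((c I : ℚ) : ℂ)) ∈ Submodule.span ℂ {F | ∃ (x : Fin 4 → Fin N → ℂ)
      (p : Fin 4 → Fin (k + 1)), (∀ j, x j ∈ V.H (p j)) ∧ ∑ j, (p j : ℕ) = 2 * k ∧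
      F = fun I => ∏ j, x j (I j)} := by
  have hpr := V.proj (K := k) le_rfl
  have htot : ∑ a ∈ Finset.Icc (-(k : ℤ)) k, V.P a = 1 := hpr.tot
  have h1 : (fun I => ((c I : ℚ) : ℂ)) = ∑ q ∈ Fintype.piFinset (fun _ : Fin 4 =>
        Finset.Icc (-(k : ℤ)) k), ∑ J : Fin 4 → Fin N,
      cst ℂ c J • fun I : Fin 4 → Fin N => ∏ j, (V.P (q j) *ᵥ Pi.single (J j) 1) (I j) := by
    funext I
    have h2 : ((c I : ℚ) : ℂ) = evalM (cst ℂ c) (fun j => ∑ q ∈
        Finset.Icc (-(k : ℤ)) k, (V.P q)ᵀ *ᵥ (Pi.single (I j) 1 : Fin N → ℂ)) := by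
      have h3 : (fun j : Fin 4 => ∑ q ∈ Finset.Icc (-(k : ℤ)) k,
        (V.P q)ᵀ *ᵥ (Pi.single (I j) 1 : Fin N → ℂ)) = fun j => Pi.single (I j) 1 := by
        funext j
        rw [← Matrix.sum_mulVec, ← transpose_sum, htot, transpose_one, one_mulVec]
      rw [h3, evalM_apply, evalF_single]
      rfl
    rw [h2, MultilinearMap.map_sum_finset, Finset.sum_apply]
    refine Finset.sum_congr rfl fun q _ => ?_
    rw [evalM_apply, Finset.sum_apply]
    unfold evalF
    refine Finset.sum_congr rfl fun J _ => ?_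
    rw [Pi.smul_apply, smul_eq_mul]
    congr 1
    refine Finset.prod_congr rfl fun j _ => ?_
    change ((V.P (q j))ᵀ *ᵥ Pi.single (I j) 1) (J j) = _
    rw [mulVec_single_one, mulVec_single_one]
    rfl
  rw [h1]
  refine Submodule.sum_mem _ fun q _ => ?_
  by_cases hq : ∑ j, q j = 0
  · refine Submodule.sum_mem _ fun J _ => Submodule.smul_mem _ _ ?_
    by_cases h0 : ∃ j, V.P (q j) *ᵥ (Pi.single (J j) 1 : Fin N → ℂ) = 0
    · obtain ⟨j, hj⟩ := h0
      have h2 : (fun I : Fin 4 → Fin N => ∏ j, (V.P (q j) *ᵥ Pi.single (J j) 1) (I j)) = 0 := by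
        funext I
        exact Finset.prod_eq_zero (Finset.mem_univ j) (by rw [hj]; rfl)
      rw [h2]
      exact Submodule.zero_mem _
    · push Not at h0
      have h2 : ∀ j, ∃ p : Fin (k + 1), 2 * (p : ℤ) - k = q j ∧
          V.P (q j) *ᵥ (Pi.single (J j) 1 : Fin N → ℂ) ∈ V.H p := fun j =>
        (V.P_mem (q j) _).resolve_right (h0 j)
      choose p hp hpm using h2
      refine Submodule.subset_span ⟨fun j => V.P (q j) *ᵥ Pi.single (J j) 1, p, hpm, ?_, rfl⟩
      have h3 : ∑ j, (2 * ((p j : ℕ) : ℤ) - k) = 0 := by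
        rw [← hq]
        exact Finset.sum_congr rfl fun j _ => hp j
      rw [Fin.sum_univ_four] at h3 ⊢
      omega
  · have h2 : ∑ J : Fin 4 → Fin N,
      (cst ℂ c J • fun I : Fin 4 → Fin N => ∏ j, (V.P (q j) *ᵥ Pi.single (J j) 1) (I j)) =
        0 := by
      funext I
      rw [Finset.sum_apply, Pi.zero_apply]
      have h3 : evalF (cst ℂ c) (fun j => (V.P (q j))ᵀ *ᵥ
          (Pi.single (I j) 1 : Fin N → ℂ)) = 0 := by
        refine evalF_eig hc (fun j => ((q j : ℤ) : ℂ)) _ (fun j => ?_) ?_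
        · rw [mulVec_mulVec, ← transpose_mul, hpr.right, transpose_smul, smul_mulVec]
        · intro h
          apply hq
          exact_mod_cast h
      rw [← h3]
      unfold evalF
      refine Finset.sum_congr rfl fun J _ => ?_
      rw [Pi.smul_apply, smul_eq_mul]
      congr 1
      refine Finset.prod_congr rfl fun j _ => ?_
      change _ = ((V.P (q j))ᵀ *ᵥ Pi.single (I j) 1) (J j)
      rw [mulVec_single_one, mulVec_single_one]
      rfl
    rw [h2]
    exact Submodule.zero_mem _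

/-- Without quartic Hodge classes there is an element of the largest degree. -/
theorem exists_top_quartic (hk : Odd k) (hq : NoQuartic V) {v : Fin N → ℂ}
    (hv0 : v ≠ 0) (hv : V.D *ᵥ v = ((k : ℤ) : ℂ) • v) :
    ∃ Y ∈ lieM V.D ℂ, ww (cK ℂ V.Q) v (Y *ᵥ v) ≠ 0 := by
  have d := V.pol hk (K := k) le_rfl
  obtain ⟨p, hp, hpc, ho⟩ := exists_orth (D := V.D) (by
    intro X hX h
    have h1 : cK ℂ X = 0 := by
      refine tr_nondeg d (cast_mem _ hX) fun Y hY => ?_
      have h2 := mem_span_rat hY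
      clear hY
      induction h2 using Submodule.span_induction with
      | mem Y hY =>
        obtain ⟨Y0, hY0, rfl⟩ := hY
        rw [← cK_mul]
        have h4 : trace (cK ℂ (X * Y0)) = ((trace (X * Y0) : ℚ) : ℂ) := by
          simp [trace, cK]
        rw [h4, h Y0 hY0, Rat.cast_zero]
      | zero => rw [Matrix.mul_zero, trace_zero]
      | add x y _ _ h1 h2 => rw [Matrix.mul_add, trace_add, h1, h2, add_zero]
      | smul a x _ h1 => rw [Matrix.mul_smul, trace_smul, h1, smul_zero]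
    ext i j
    have h2 := congrFun (congrFun h1 i) j
    simpa [cK] using h2)
  have hθ : IsH V.D (theta p V.Q) := isH_of_rat _ fun X hX =>
    act_theta_eq_zero (spQ d hX) (hpc X hX)
  have hs := symm4_isH hθ
  -- the tensor
  have hu : IsUnit V.Q.det := (Matrix.isUnit_iff_isUnit_det _).1 V.unit
  have hQ1 : V.Q * V.Q⁻¹ = 1 := Matrix.mul_nonsing_inv _ hu
  have hQ2 : V.Q⁻¹ * V.Q = 1 := Matrix.nonsing_inv_mul _ hu
  have h3 : cK ℂ (V.Q⁻¹) * cK ℂ V.Q = 1 := by rw [← cK_mul, hQ2, cK_one]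
  have h3' : cK ℂ V.Q * cK ℂ (V.Q⁻¹) = 1 := mul_eq_one_comm.1 h3
  have hQD : cK ℂ (V.Q⁻¹) * V.Dᵀ = -V.D * cK ℂ (V.Q⁻¹) := by
    have h2 := V.spD
    have h5 : cK ℂ (V.Q⁻¹) * (V.Dᵀ * cK ℂ V.Q + cK ℂ V.Q * V.D) * cK ℂ (V.Q⁻¹) = 0 := by
      rw [h2, Matrix.mul_zero, Matrix.zero_mul]
    have h6 : cK ℂ (V.Q⁻¹) * (V.Dᵀ * cK ℂ V.Q + cK ℂ V.Q * V.D) * cK ℂ (V.Q⁻¹) =
        cK ℂ (V.Q⁻¹) * V.Dᵀ * (cK ℂ V.Q * cK ℂ (V.Q⁻¹)) +
          (cK ℂ (V.Q⁻¹) * cK ℂ V.Q) * V.D * cK ℂ (V.Q⁻¹) := by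
      noncomm_ring
    rw [h6, h3, h3', Matrix.mul_one, Matrix.one_mul] at h5
    rw [neg_mul]
    exact eq_neg_of_add_eq_zero_left h5
  obtain ⟨c, hc⟩ : ∃ c, c = pull V.Q⁻¹ (symm4 (theta p V.Q)) := ⟨_, rfl⟩
  have hcH : act V.Dᵀ (cst ℂ c) = 0 := by
    have hs' : act V.D (cst ℂ (symm4 (theta p V.Q))) = 0 := hs
    rw [hc, cst_pull, act_pull hQD, act_neg_left, hs', neg_zero, pull_zero]
  have hcs : ∀ (e : Equiv.Perm (Fin 4)) I, c (fun j => I (e j)) = c I := by
    intro e I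
    rw [hc]
    have h1 := pull_reindex V.Q⁻¹ e (symm4 (theta p V.Q)) I
    rw [← h1]
    congr 1
    funext J
    exact symm4_symm _ e J
  have hc0 := hq c hcs (hodge4 V hcH)
  have hθ0 : symm4 (theta p V.Q) = 0 := by
    have h1 : pull V.Q c = symm4 (theta p V.Q) := by
      rw [hc, pull_pull, hQ2, pull_one]
    rw [← h1, hc0, pull_zero]
  have hval : evalF (cst ℂ (theta p V.Q)) (fun _ => v + cj v) = 0 := by
    have h1 := symm4_val (theta p V.Q) (v + cj v)
    rw [hθ0, cst_zero, evalF_zero] at h1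
    exact (mul_eq_zero.1 h1.symm).resolve_left (by
      exact_mod_cast Fintype.card_ne_zero)
  rw [theta_val hp ho] at hval
  have hk0 : (k : ℤ) ≠ 0 := by
    have := hk.pos
    omega
  exact exists_top_of d hk0 (by exact_mod_cast hk) hv0 hv (Zx_mem hp (v + cj v))
    (fun X hX => Zx_tr ho _ hX) hval

/-- A simple Hodge structure of Calabi-Yau type without quartic Hodge classes has a good
vector. -/
theorem gd_quartic (hk : Odd k) (hs : V.IsSimple)
    (h1 : Module.finrank ℂ (V.H (Fin.last k)) = 1) (hq : NoQuartic V) : Gd V := by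
  have d := V.pol hk (K := k) le_rfl
  obtain ⟨v, hv0, hv⟩ := finrank_eq_one_iff'.1 h1
  have hv0' : (v : Fin N → ℂ) ≠ 0 := fun h => hv0 (Subtype.ext h)
  have hlast : (2 * ((Fin.last k : Fin (k + 1)) : ℕ) : ℤ) - k = k := by
    rw [Fin.val_last]
    ring
  have hvD : V.D *ᵥ (v : Fin N → ℂ) = ((k : ℤ) : ℂ) • (v : Fin N → ℂ) := by
    have h2 := V.D_vec v.2
    rwa [hlast] at h2
  have htop : ∀ x, V.D *ᵥ x = ((k : ℤ) : ℂ) • x → ∃ c : ℂ, x = c • (v : Fin N → ℂ) := by
    intro x hx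
    have h2 : x ∈ V.H (Fin.last k) := by
      apply V.mem_of_eig
      rw [hlast]
      exact hx
    obtain ⟨c, hc⟩ := hv ⟨x, h2⟩
    exact ⟨c, (congrArg Subtype.val hc).symm⟩
  obtain ⟨Y, hY, hne⟩ := exists_top_quartic V hk hq hv0' hvD
  refine ⟨hs, v, v.2, ?_⟩
  have hk0 : (0 : ℤ) < k := by
    have := hk.pos
    omega
  have hS : ∀ a, V.P a ≠ 0 → -(k : ℤ) ≤ a ∧ a ≤ k := by
    intro a ha
    by_contra h
    apply ha
    refine d.prj.zero ?_
    rw [Finset.mem_Icc]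
    exact h
  obtain ⟨S', d'⟩ := d.dat hk0 hS hv0' hvD htop
  exact d'.good_of_ne hY hne

end hodge

end Run7.h853.Cy
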