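import Mathlib
import Pool.Agent.Run7.h853.Cy.Rel1

/-!
# Elements of the Lie algebra which vanish on the part of small level
-/

set_option linter.unusedSectionVars false

namespace Run7.h853.Cy

open Matrix ComplexOrder Pool.Agent.W437.HC Pool.Agent.W437.HD Pool.Agent.W437.HP
  Pool.Agent.W437.HR Pool.Agent.W437.CY

variable {ι : Type} [Fintype ι] [DecidableEq ι] {k N : ι → ℕ} {l d : ℕ}
variable (M : LowHS d l) (V : ∀ i, PolHS (k i) (N i)) (hk : ∀ i, Odd (k i))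
  (hd : ∀ i, d < k i)

/-- For all good vectors of the largest weight the square is the component of an element which
vanishes on the first part. -/
def Kx (M : LowHS d l) (V : ∀ i, PolHS (k i) (N i)) : Prop :=
  ∀ i v, Good (V i).D (cK ℂ (V i).Q) v → v ∈ (V i).H (Fin.last (k i)) →
    ∃ X ∈ lieM (DM M V) ℂ, (blO M V).bl ℂ none X = 0 ∧
      (blO M V).bl ℂ (some i) X = SS (cK ℂ (V i).Q) v v

include hk

/-- The projections to the eigenspaces of the blocks. -/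
theorem projO {K : ℤ} (hK : ∀ i, (k i : ℤ) ≤ K) (hdK : (d : ℤ) ≤ K) (o : Option ι) :
    Proj (DO M V o) (Finset.Icc (-K) K) (EO M V o) := by
  rcases o with _ | j
  · exact M.proj hdK
  · exact (V j).proj (hK j)

/-- The trace form on the image of the Lie algebra in a factor is nondegenerate. -/
theorem nondegO (i : ι) : ∀ X ∈ (lieM (DM M V) ℚ).map ((blO M V).bl ℚ (some i)),
      (∀ Y ∈ (lieM (DM M V) ℚ).map ((blO M V).bl ℚ (some i)), trace (X * Y) = 0) → X = 0 := by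
  have hK : ∀ i, (k i : ℤ) ≤ ∑ j, (k j : ℤ) + d := fun i => by
    have h1 := Finset.single_le_sum (f := fun j => (k j : ℤ)) (fun j _ => by positivity)
      (Finset.mem_univ i)
    have h2 : (k i : ℤ) ≤ ∑ j, (k j : ℤ) := h1
    omega
  have hdK : (d : ℤ) ≤ ∑ j, (k j : ℤ) + d := by
    have h1 : 0 ≤ ∑ j, (k j : ℤ) := Finset.sum_nonneg fun j _ => by positivity
    omega
  have hproj := projO M V hk hK hdK
  have hpol : Pol (DO M V (some i)) (SO M V (some i))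
      (Finset.Icc (-(∑ j, (k j : ℤ) + d)) (∑ j, (k j : ℤ) + d)) (EO M V (some i)) :=
    (V i).pol (hk i) (hK i)
  exact nondeg2 (blO M V) hproj (some i) hpol

/-- The square of a vector of the largest weight is a component. -/
theorem exists_im (i : ι) {v : Fin (N i) → ℂ} (hv : SS (cK ℂ (V i).Q) v v ∈ lieM (V i).D ℂ)
    (hvm : v ∈ (V i).H (Fin.last (k i))) :
    ∃ X ∈ lieM (DM M V) ℂ, (blO M V).bl ℂ (some i) X = SS (cK ℂ (V i).Q) v v := by
  have hlast : (2 * ((Fin.last (k i) : Fin (k i + 1)) : ℕ) : ℤ) - k i = k i := by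
    rw [Fin.val_last]
    ring
  have hvD : (V i).D *ᵥ v = ((k i : ℤ) : ℂ) • v := by
    have h1 := (V i).D_vec hvm
    rwa [hlast] at h1
  have hk0 : (0 : ℤ) < k i := by
    have := (hk i).pos
    omega
  have hw : (V i).D * SS (cK ℂ (V i).Q) v v - SS (cK ℂ (V i).Q) v v * (V i).D =
      ((2 * (k i : ℤ) : ℤ) : ℂ) • SS (cK ℂ (V i).Q) v v := by
    rw [SS_bracket (V i).spD, hvD, SS_smul_left, SS_smul_right, ← add_smul]
    congr 1
    push_cast
    ring
  have h1 := (blO M V).ideal_C (some i) (nondegO M V hk i)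
    (Y := SS (cK ℂ (V i).Q) v v) hv (X := (V i).D) ⟨DM M V, D_mem _, (blO M V).bl_D (some i)⟩
  have h2 : SS (cK ℂ (V i).Q) v v * (V i).D - (V i).D * SS (cK ℂ (V i).Q) v v =
      (-((2 * (k i : ℤ) : ℤ) : ℂ)) • SS (cK ℂ (V i).Q) v v := by
    rw [neg_smul, ← hw, neg_sub]
  have h3 : (-((2 * (k i : ℤ) : ℤ) : ℂ)) ≠ 0 := by
    rw [neg_ne_zero]
    exact_mod_cast (by omega : (2 * (k i : ℤ)) ≠ 0)
  obtain ⟨X, hX, hXv⟩ := h1
  have hXv' : (blO M V).bl ℂ (some i) X =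
      (-((2 * (k i : ℤ) : ℤ) : ℂ)) • SS (cK ℂ (V i).Q) v v := hXv.trans h2
  refine ⟨(-((2 * (k i : ℤ) : ℤ) : ℂ))⁻¹ • X, Submodule.smul_mem _ _ hX, ?_⟩
  rw [map_smul, hXv']
  exact inv_smul_smul₀ h3 _

/-- The products of vectors of the space of a good vector of the largest weight are
components. -/
theorem im_pairs (i : ι) {v : Fin (N i) → ℂ} (hv : Good (V i).D (cK ℂ (V i).Q) v)
    (hvm : v ∈ (V i).H (Fin.last (k i))) :
    ∀ x ∈ VV (V i).D (cK ℂ (V i).Q) v, ∀ y ∈ VV (V i).D (cK ℂ (V i).Q) v,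
      SS (cK ℂ (V i).Q) x y ∈ (lieM (DM M V) ℂ).map ((blO M V).bl ℂ (some i)) := by
  intro x hx y hy
  refine ideal_pairs (skQ _ (hk i)) (fun _ hX => spV _ (hk i) hX) hv _ ?_
    (exists_im M V hk i hv.1 hvm) hx hy
  intro x hx y hy Z hZ
  exact (blO M V).ideal_C (some i) (nondegO M V hk i)
    (VV_pair (skQ _ (hk i)) (fun _ hX => spV _ (hk i) hX) hv hx hy) hZ

include hd in
/-- The square of a vector of the largest weight. -/
theorem exists_ker' (i : ι) {v : Fin (N i) → ℂ} (hv : SS (cK ℂ (V i).Q) v v ∈ lieM (V i).D ℂ)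
    (hvm : v ∈ (V i).H (Fin.last (k i))) :
    ∃ X ∈ lieM (DM M V) ℂ, (blO M V).bl ℂ none X = 0 ∧
      (blO M V).bl ℂ (some i) X = SS (cK ℂ (V i).Q) v v := by
  have hK : ∀ i, (k i : ℤ) ≤ ∑ j, (k j : ℤ) := fun i =>
    Finset.single_le_sum (f := fun j => (k j : ℤ)) (fun j _ => by positivity) (Finset.mem_univ i)
  have hdK : (d : ℤ) ≤ ∑ j, (k j : ℤ) := by
    have h1 := hK i
    have h2 := hd i
    omega
  have hproj : ∀ o : Option ι, Proj (DO M V o) (Finset.Icc (-∑ j, (k j : ℤ)) (∑ j, (k j : ℤ)))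
      (EO M V o) := by
    rintro (_ | j)
    · exact M.proj hdK
    · exact (V j).proj (hK j)
  have hlast : (2 * ((Fin.last (k i) : Fin (k i + 1)) : ℕ) : ℤ) - k i = k i := by
    rw [Fin.val_last]
    ring
  have hvD : (V i).D *ᵥ v = ((k i : ℤ) : ℂ) • v := by
    have h1 := (V i).D_vec hvm
    rwa [hlast] at h1
  have hk0 : (0 : ℤ) < k i := by
    have := (hk i).pos
    omega
  have hw : (V i).D * SS (cK ℂ (V i).Q) v v - SS (cK ℂ (V i).Q) v v * (V i).D =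
      ((2 * (k i : ℤ) : ℤ) : ℂ) • SS (cK ℂ (V i).Q) v v := by
    rw [SS_bracket (V i).spD, hvD, SS_smul_left, SS_smul_right, ← add_smul]
    congr 1
    push_cast
    ring
  obtain ⟨X, hX, hXv⟩ := exists_im M V hk i hv hvm
  have hgp := gP_proj (blO M V) hproj
  have hX1 := hgp.fun_mem (fun c => if c = 2 * (k i : ℤ) then 1 else 0) hX
  have hbl : ∀ o, (blO M V).bl ℂ o (∑ a ∈ Finset.Icc (-∑ j, (k j : ℤ)) (∑ j, (k j : ℤ)),
      ∑ c ∈ Finset.Icc (-∑ j, (k j : ℤ)) (∑ j, (k j : ℤ)),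
      (if a - c = 2 * (k i : ℤ) then (1 : ℂ) else 0) •
        (gP (blO M V) (EO M V) a * X * gP (blO M V) (EO M V) c)) =
      ∑ a ∈ Finset.Icc (-∑ j, (k j : ℤ)) (∑ j, (k j : ℤ)),
      ∑ c ∈ Finset.Icc (-∑ j, (k j : ℤ)) (∑ j, (k j : ℤ)),
      (if a - c = 2 * (k i : ℤ) then (1 : ℂ) else 0) •
        (EO M V o a * (blO M V).bl ℂ o X * EO M V o c) := by
    intro o
    rw [map_sum]
    refine Finset.sum_congr rfl fun a _ => ?_
    rw [map_sum]
    refine Finset.sum_congr rfl fun c _ => ?_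
    rw [map_smul, bl_gP]
  refine ⟨_, hX1, ?_, ?_⟩
  · rw [hbl]
    refine Finset.sum_eq_zero fun a _ => Finset.sum_eq_zero fun c _ => ?_
    by_cases hac : a - c = 2 * (k i : ℤ)
    · have hdi := hd i
      by_cases ha : -(d : ℤ) ≤ a ∧ a ≤ d
      · have hc : ¬(-(d : ℤ) ≤ c ∧ c ≤ d) := by omega
        have h1 : EO M V none c = 0 := M.P_zero hc
        rw [h1, Matrix.mul_zero, smul_zero]
      · have h1 : EO M V none a = 0 := M.P_zero ha
        rw [h1, Matrix.zero_mul, Matrix.zero_mul, smul_zero]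
    · rw [if_neg hac, zero_smul]
  · rw [hbl, hXv]
    have h1 := fun_weight ((V i).proj (hK i)) hw (fun c => if c = 2 * (k i : ℤ) then 1 else 0)
    rw [if_pos rfl, one_smul] at h1
    exact h1

include hd in
/-- Small level of the first part. -/
theorem kx_of_level : Kx M V := fun i _ hv hvm => exists_ker' M V hk hd i hv.1 hvm

omit hk in
/-- The images of the elements which vanish on the first part. -/
theorem exists_il (i : ι) : ∃ I : Submodule ℂ (Matrix (Fin (N i)) (Fin (N i)) ℂ),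
    ∀ Z, Z ∈ I ↔ ∃ X ∈ lieM (DM M V) ℂ, (blO M V).bl ℂ none X = 0 ∧
      (blO M V).bl ℂ (some i) X = Z :=
  ⟨{ carrier := {Z | ∃ X ∈ lieM (DM M V) ℂ, (blO M V).bl ℂ none X = 0 ∧
      (blO M V).bl ℂ (some i) X = Z}
     zero_mem' := ⟨0, Submodule.zero_mem _, map_zero _, map_zero _⟩
     add_mem' := by
      rintro _ _ ⟨X, hX, h1, rfl⟩ ⟨Y, hY, h2, rfl⟩
      exact ⟨X + Y, Submodule.add_mem _ hX hY, by rw [map_add, h1, h2, add_zero], map_add _ _ _⟩
     smul_mem' := by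
      rintro c _ ⟨X, hX, h1, rfl⟩
      exact ⟨c • X, Submodule.smul_mem _ _ hX, by rw [map_smul, h1, smul_zero],
        map_smul _ _ _⟩ }, fun Z => Iff.rfl⟩

/-- The products of vectors of the space of a conjugate of a good vector of the largest weight. -/
theorem exists_pairs (hx : Kx M V) (i : ι) {v : Fin (N i) → ℂ} (hv : Good (V i).D (cK ℂ (V i).Q) v)
    (hvm : v ∈ (V i).H (Fin.last (k i))) (σ : ℂ ≃+* ℂ) {x y : Fin (N i) → ℂ}
    (hxm : x ∈ VV (V i).D (cK ℂ (V i).Q) (fun j => σ (v j)))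
    (hym : y ∈ VV (V i).D (cK ℂ (V i).Q) (fun j => σ (v j))) :
    ∃ X ∈ lieM (DM M V) ℂ, (blO M V).bl ℂ none X = 0 ∧
      (blO M V).bl ℂ (some i) X = SS (cK ℂ (V i).Q) x y := by
  obtain ⟨u, hu⟩ : ∃ u : Fin (N i) → ℂ, u = fun j => σ (v j) := ⟨_, rfl⟩
  rw [← hu] at hxm hym
  have hgu : Good (V i).D (cK ℂ (V i).Q) u := by
    rw [hu]
    exact Good.map (σ := (σ : ℂ →+* ℂ)) (ratQ _ _) hv
  obtain ⟨X, hX, hX0, hXv⟩ := hx i v hv hvm
  have hcK : ∀ {m n : Type} (A : Matrix m n ℚ), (cK ℂ A).map (σ : ℂ →+* ℂ) = cK ℂ A := by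
    intro m n A
    ext i j
    simp [cK]
  have hblσ : ∀ o, (blO M V).bl ℂ o (X.map (σ : ℂ →+* ℂ)) =
      ((blO M V).bl ℂ o X).map (σ : ℂ →+* ℂ) := by
    intro o
    rw [(blO M V).bl_apply, (blO M V).bl_apply, Matrix.map_mul, Matrix.map_mul, hcK,
      transpose_map, hcK]
  have huu : ∃ X ∈ lieM (DM M V) ℂ, (blO M V).bl ℂ none X = 0 ∧
      (blO M V).bl ℂ (some i) X = SS (cK ℂ (V i).Q) u u := by
    refine ⟨X.map (σ : ℂ →+* ℂ), map_mem_aut hX _, ?_, ?_⟩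
    · rw [hblσ, hX0]
      ext a b
      simp
    · rw [hblσ]
      refine (congrArg (fun Z : Matrix (Fin (N i)) (Fin (N i)) ℂ => Z.map (σ : ℂ →+* ℂ))
        hXv).trans ?_
      change (SS (cK ℂ (V i).Q) v v).map (σ : ℂ →+* ℂ) = _
      rw [SS_map (ratQ _ _), hu]
      rfl
  obtain ⟨I, hI⟩ := exists_il M V i
  rw [← hI] at huu ⊢
  have hIA : ∀ x ∈ VV (V i).D (cK ℂ (V i).Q) u, ∀ y ∈ VV (V i).D (cK ℂ (V i).Q) u,
      SS (cK ℂ (V i).Q) x y ∈ (lieM (DM M V) ℂ).map ((blO M V).bl ℂ (some i)) := by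
    intro x hx y hy
    refine ideal_pairs (skQ _ (hk i)) (fun _ hX => spV _ (hk i) hX) hgu _ ?_ ?_ hx hy
    · intro x hx y hy Z hZ
      exact (blO M V).ideal_C (some i) (nondegO M V hk i)
        (VV_pair (skQ _ (hk i)) (fun _ hX => spV _ (hk i) hX) hgu hx hy) hZ
    · rw [hI] at huu
      obtain ⟨X, hX, -, hXu⟩ := huu
      exact ⟨X, hX, hXu⟩
  refine ideal_pairs (skQ _ (hk i)) (fun _ hX => spV _ (hk i) hX) hgu _ ?_ huu hxm hym
  intro x hx y hy Z hZ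
  rw [hI] at hZ ⊢
  obtain ⟨Z', hZ', hZ0, rfl⟩ := hZ
  obtain ⟨Y, hY, hYe⟩ := hIA x hx y hy
  refine ⟨Y * Z' - Z' * Y, lieM_bracket _ hY hZ', ?_, ?_⟩
  · rw [(blO M V).bl_bracket hY hZ', hZ0, Matrix.mul_zero, Matrix.zero_mul, sub_zero]
  · have e1 := (blO M V).bl_bracket hY hZ' (some i)
    rw [hYe] at e1
    exact e1

end Run7.h853.Cy
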