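import Mathlib
import Pool.Agent.Run7.h853.Cy.Rel2

/-!
# The operator of the direct sum alone belongs to the Lie algebra
-/

set_option linter.unusedSectionVars false

namespace Run7.h853.Cy

open Matrix ComplexOrder Pool.Agent.W437.HC Pool.Agent.W437.HD Pool.Agent.W437.HP
  Pool.Agent.W437.HR Pool.Agent.W437.CY

variable {ι : Type} [Fintype ι] [DecidableEq ι] {k N : ι → ℕ} {l d : ℕ}
variable (M : LowHS d l) (V : ∀ i, PolHS (k i) (N i)) (hk : ∀ i, Odd (k i))
  (hx : Kx M V) (hg : ∀ i, Gd (V i))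

/-- A rational matrix which commutes with the rational Lie algebra of the second part commutes
with the elements which vanish on the first part. -/
theorem comm_of_ker {T' : Matrix (Σ i, Fin (N i)) (Σ i, Fin (N i)) ℚ}
    (hT'l : T' ∈ lieM (gD V) ℚ) (hcomm : ∀ X ∈ LL M V, X * T' = T' * X) (i : ι)
    {X : Matrix (Bas l N) (Bas l N) ℂ} (hX : X ∈ lieM (DM M V) ℂ)
    (hX0 : (blO M V).bl ℂ none X = 0) {Z : Matrix (Fin (N i)) (Fin (N i)) ℂ}
    (hXi : (blO M V).bl ℂ (some i) X = Z) :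
    (blk V).bl ℂ i (cK ℂ T') * Z = Z * (blk V).bl ℂ i (cK ℂ T') := by
  have hTC : cK ℂ T' ∈ lieM (gD V) ℂ := cast_mem _ hT'l
  obtain ⟨X', hX'⟩ : ∃ X', X' = cK ℂ (RR l N) * X * (cK ℂ (RR l N))ᵀ := ⟨_, rfl⟩
  have hXE : Em l N ℂ X' = X := by
    have e1 : cK ℂ (PL l N) * X = 0 := by
      have e2 := (blO M V).prj_mul hX none
      rw [hX0, Matrix.zero_mul] at e2
      exact e2
    have e3 : X * (cK ℂ (PL l N))ᵀ = 0 := by
      have e2 := (blO M V).mul_inc hX none
      rw [hX0, Matrix.mul_zero] at e2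
      exact e2
    have e4 : (cK ℂ (PL l N))ᵀ * cK ℂ (PL l N) + (cK ℂ (RR l N))ᵀ * cK ℂ (RR l N) = 1 := by
      have e5 := congrArg (cK ℂ) (PR_tot l N)
      have e6 : cK ℂ ((PL l N)ᵀ * PL l N + (RR l N)ᵀ * RR l N) =
          cK ℂ ((PL l N)ᵀ * PL l N) + cK ℂ ((RR l N)ᵀ * RR l N) := by
        ext x y
        simp [cK]
      rw [e6, cK_mul, cK_mul, cK_one, cK_transpose, cK_transpose] at e5
      exact e5
    have e7 : (cK ℂ (RR l N))ᵀ * cK ℂ (RR l N) * X = X := by
      conv_rhs => rw [← Matrix.one_mul X, ← e4, Matrix.add_mul,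
        Matrix.mul_assoc (cK ℂ (PL l N))ᵀ, e1, Matrix.mul_zero, zero_add]
    have e8 : X * ((cK ℂ (RR l N))ᵀ * cK ℂ (RR l N)) = X := by
      conv_rhs => rw [← Matrix.mul_one X, ← e4, Matrix.mul_add,
        ← Matrix.mul_assoc X (cK ℂ (PL l N))ᵀ, e3, Matrix.zero_mul, zero_add]
    rw [Em_eq, hX']
    have e9 : (cK ℂ (RR l N))ᵀ * (cK ℂ (RR l N) * X * (cK ℂ (RR l N))ᵀ) * cK ℂ (RR l N) =
        ((cK ℂ (RR l N))ᵀ * cK ℂ (RR l N) * X) * ((cK ℂ (RR l N))ᵀ * cK ℂ (RR l N)) := by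
      simp only [Matrix.mul_assoc]
    rw [e9, e7, e8]
  have hXc : X' * cK ℂ T' = cK ℂ T' * X' := by
    rw [← sub_eq_zero]
    ext a b
    refine eq_zero_of_lam fun mu => ?_
    have e1 : X'.map mu * T' = T' * X'.map mu := by
      refine hcomm _ (LL_map M V ?_ mu)
      rw [hXE]
      exact hX
    have e2 : (X' * cK ℂ T' - cK ℂ T' * X').map mu = 0 := by
      have e3 : (X' * cK ℂ T' - cK ℂ T' * X').map mu =
          (X' * cK ℂ T').map mu - (cK ℂ T' * X').map mu := by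
        ext x y
        simp
      rw [e3, map_mul_rat, map_mul_rat', e1, sub_self]
    exact congrFun (congrFun e2 a) b
  have hbX : cK ℂ (pm N i) * X' * (cK ℂ (pm N i))ᵀ = Z := by
    rw [← hXi, hX']
    change _ = cK ℂ (pm N i * RR l N) * X * (cK ℂ (pm N i * RR l N))ᵀ
    rw [cK_mul, transpose_mul]
    simp only [Matrix.mul_assoc]
  have e1 : cK ℂ (pm N i) * cK ℂ T' = (blk V).bl ℂ i (cK ℂ T') * cK ℂ (pm N i) :=
    (blk V).prj_mul hTC i
  have e2 : cK ℂ T' * (cK ℂ (pm N i))ᵀ = (cK ℂ (pm N i))ᵀ * (blk V).bl ℂ i (cK ℂ T') :=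
    (blk V).mul_inc hTC i
  rw [← hbX]
  have e3 : (blk V).bl ℂ i (cK ℂ T') * (cK ℂ (pm N i) * X' * (cK ℂ (pm N i))ᵀ) =
      cK ℂ (pm N i) * (cK ℂ T' * X') * (cK ℂ (pm N i))ᵀ := by
    rw [← Matrix.mul_assoc (cK ℂ (pm N i)), e1]
    simp only [Matrix.mul_assoc]
  have e4 : (cK ℂ (pm N i) * X' * (cK ℂ (pm N i))ᵀ) * (blk V).bl ℂ i (cK ℂ T') =
      cK ℂ (pm N i) * (X' * cK ℂ T') * (cK ℂ (pm N i))ᵀ := by
    rw [Matrix.mul_assoc _ (cK ℂ (pm N i))ᵀ, ← e2]
    simp only [Matrix.mul_assoc]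
  rw [e3, e4, hXc]

include hk hx hg in
/-- The extension by zero of the operator of the direct sum is in the Lie algebra. -/
theorem Em_gD_mem' : Em l N ℂ (gD V) ∈ lieM (DM M V) ℂ := by
  refine mem_of_map _ fun lam => ?_
  rw [Em_map]
  change (gD V).map lam ∈ LL M V
  obtain ⟨p, hp1, hp2, hp3⟩ := exists_proj (LL M V) (fun X hX Y hY => LL_lie M V hX hY)
    (fun X hX h => LL_nondeg M V hk hX h)
  obtain ⟨T, hT⟩ : ∃ T, T = (gD V).map lam := ⟨_, rfl⟩
  rw [← hT]
  have hTl : T ∈ lieM (gD V) ℚ := by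
    rw [hT]
    exact map_mem _ (D_mem _) lam
  have hnorm : ∀ X ∈ LL M V, X * T - T * X ∈ LL M V := by
    intro X hX
    have hXC : Em l N ℂ (cK ℂ X) ∈ lieM (DM M V) ℂ := by
      rw [← Em_cK]
      exact cast_mem _ hX
    have h1 := lieM_bracket _ hXC (D_mem (DM M V))
    have h2 : Em l N ℂ (cK ℂ X) * DM M V - DM M V * Em l N ℂ (cK ℂ X) =
        Em l N ℂ (cK ℂ X * gD V - gD V * cK ℂ X) := by
      rw [Em_apply, Em_apply, DM, fromBlocks_multiply, fromBlocks_multiply]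
      ext x y
      rcases x with x | x <;> rcases y with y | y <;> simp
    rw [h2] at h1
    have h3 := LL_map M V h1 lam
    have h4 : (cK ℂ X * gD V - gD V * cK ℂ X).map lam = X * T - T * X := by
      rw [hT, ← map_mul_rat, ← map_mul_rat']
      ext x y
      simp
    rwa [h4] at h3
  obtain ⟨T', hT'⟩ : ∃ T', T' = T - p T := ⟨_, rfl⟩
  have hT'l : T' ∈ lieM (gD V) ℚ := by
    rw [hT']
    exact Submodule.sub_mem _ hTl (LL_sub M V (hp1 T))
  have hcomm : ∀ X ∈ LL M V, X * T' = T' * X := by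
    intro X hX
    have h1 := hp3 X hX T
    rw [hp2 _ (hnorm X hX)] at h1
    rw [← sub_eq_zero, hT']
    have h2 : X * (T - p T) - (T - p T) * X = (X * T - T * X) - (X * p T - p T * X) := by
      noncomm_ring
    rw [h2, h1, sub_self]
  have hT'0 : T' = 0 := by
    have hbl0 : ∀ i, (blk V).bl ℚ i T' = 0 := by
      intro i
      obtain ⟨hs, v, hvm, hv⟩ := hg i
      have hTC : cK ℂ T' ∈ lieM (gD V) ℂ := cast_mem _ hT'l
      have h1 : (blk V).bl ℂ i (cK ℂ T') ∈ lieM (V i).D ℂ := (blk V).bl_mem hTC i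
      obtain ⟨W, hW⟩ : ∃ W, W = (blk V).bl ℂ i (cK ℂ T') := ⟨_, rfl⟩
      have hWsp : Wᵀ * cK ℂ (V i).Q + cK ℂ (V i).Q * W = 0 := by
        rw [hW]
        exact spV _ (hk i) h1
      have hsk := skQ (V i) (hk i)
      have hW0 : ∀ x, W *ᵥ x = 0 := by
        intro x
        have hxm : x ∈ ⨆ σ : ℂ ≃+* ℂ, VV (V i).D (cK ℂ (V i).Q) (fun j => σ (v j)) := by
          rw [top_conj hsk (fun _ hX => spV _ (hk i) hX) (ratQ _) ((V i).simpleD hs) hv]
          trivial
        induction hxm using Submodule.iSup_induction' with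
        | mem σ x hxm =>
          obtain ⟨u, hu⟩ : ∃ u : Fin (N i) → ℂ, u = fun j => σ (v j) := ⟨_, rfl⟩
          have hgu : Good (V i).D (cK ℂ (V i).Q) u := by
            rw [hu]
            exact Good.map (σ := (σ : ℂ →+* ℂ)) (ratQ _ _) hv
          have key : ∀ y ∈ VV (V i).D (cK ℂ (V i).Q) u,
              SS (cK ℂ (V i).Q) (W *ᵥ y) u + SS (cK ℂ (V i).Q) y (W *ᵥ u) = 0 := by
            intro y hy
            obtain ⟨X, hX, hX0, hXi⟩ := exists_pairs M V hk hx i hv hvm σ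
              (x := y) (y := u) (by rw [← hu]; exact hy) (by rw [← hu]; exact self_mem_VV hgu)
            have e1 := comm_of_ker M V hT'l hcomm i hX hX0 hXi
            rw [← hW] at e1
            rw [← SS_bracket hWsp, e1, sub_self]
          obtain ⟨w, -, huw⟩ := hgu.2
          have hWu : W *ᵥ u = 0 := by
            have e1 := key u (self_mem_VV hgu)
            rw [SS_comm u, ← two_smul ℂ] at e1
            exact SS_eq_zero huw ((smul_eq_zero.1 e1).resolve_left two_ne_zero)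
          rw [← hu] at hxm
          have e2 := key x hxm
          rw [hWu, SS_comm x, SS_zero_left, add_zero] at e2
          exact SS_eq_zero huw e2
        | zero => exact mulVec_zero _
        | add x y _ _ hx hy => rw [mulVec_add, hx, hy, add_zero]
      have h2 : (blk V).bl ℂ i (cK ℂ T') = 0 := by
        rw [← hW]
        exact mat_ext fun x => by rw [hW0, zero_mulVec]
      rw [(blk V).bl_cast] at h2
      ext a b
      have h3 := congrFun (congrFun h2 a) b
      simpa [cK] using h3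
    have h1 := (blk V).totK (K := ℚ)
    have h2 : T' = ∑ i, T' * ((cK ℚ ((blk V).P i))ᵀ * cK ℚ ((blk V).P i)) := by
      rw [← Matrix.mul_sum, h1, Matrix.mul_one]
    rw [h2]
    refine Finset.sum_eq_zero fun i _ => ?_
    rw [← Matrix.mul_assoc, (blk V).mul_inc hT'l i, hbl0, Matrix.mul_zero, Matrix.zero_mul]
  have h1 : T = p T := by
    rw [← sub_eq_zero, ← hT', hT'0]
  rw [h1]
  exact hp1 T

end Run7.h853.Cy
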