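import Mathlib
import Pool.Agent.W437.CY.Defs

/-!
# Systems of classes on the tensor powers of the sum of Hodge structures
-/

set_option linter.unusedSectionVars false

namespace Run7.h853.Cy

open Matrix Pool.Agent.W437.CY

variable {ι : Type} {k N : ι → ℕ} {d l : ℕ} (M : LowHS d l) (V : ∀ i, PolHS (k i) (N i))

/-- A system of rational tensors, for all finite sets `κ` of factors, with the formal properties
of the algebraic classes: it is closed under products (`mul`) and permutations of the factors
(`perm`), it contains the Hodge classes of the tensor powers of `M` with at most `n` factors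
(`low`), and the Hodge classes of `V i ⊗ V j` for all `i` and `j` (`pair`). -/
structure IsSys [Fintype ι] [DecidableEq ι] (n : ℕ)
    (A : ∀ κ : Type, Submodule ℚ ((κ → Bas l N) → ℚ)) : Prop where
  mul : ∀ (κ κ' : Type) [Finite κ] [Finite κ'] (c : (κ → Bas l N) → ℚ)
    (c' : (κ' → Bas l N) → ℚ), c ∈ A κ → c' ∈ A κ' →
    (fun I : κ ⊕ κ' → Bas l N => c (fun j => I (Sum.inl j)) * c' (fun j => I (Sum.inr j))) ∈
      A (κ ⊕ κ')
  perm : ∀ (κ κ' : Type) [Finite κ] (e : κ ≃ κ') (c : (κ → Bas l N) → ℚ), c ∈ A κ →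
    (fun I : κ' → Bas l N => c (fun j => I (e j))) ∈ A κ'
  low : ∀ (κ : Type) [Fintype κ] (c : (κ → Bas l N) → ℚ), Fintype.card κ ≤ n →
    IsHodgeClass M V c → (∀ I, (∃ j b, I j = Sum.inr b) → c I = 0) → c ∈ A κ
  pair : ∀ i j m, IsHodgeClass M V (pairClass l i j m) → pairClass l i j m ∈ A (Fin 2)

end Run7.h853.Cy
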