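import Mathlib
import Pool.Agent.Run7.h853.Cy.Rel3
import Pool.Agent.Run7.h853.Cy.Sys

/-!
# Hodge classes on the products
-/

set_option linter.unusedSectionVars false

namespace Run7.h853.Cy

open Matrix ComplexOrder Pool.Agent.W437.HC Pool.Agent.W437.HD Pool.Agent.W437.HP
  Pool.Agent.W437.HR Pool.Agent.W437.CY

variable {ι : Type} [Fintype ι] [DecidableEq ι] {k N : ι → ℕ} {l d : ℕ}

/-- The forms killed by the operator of the direct sum. -/
theorem mem_MS_glue' (V : ∀ i, PolHS (k i) (N i)) (hk : ∀ i, Odd (k i))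
    (hg : ∀ i, Gd (V i)) {m : ℕ}
    (c : (Fin m × Fin 2 → Σ i, Fin (N i)) → ℚ) (hc : IsH (gD V) c) : c ∈ MS (gD V) m := by
  have hK : ∀ i, (k i : ℤ) ≤ ∑ j, (k j : ℤ) := fun i =>
    Finset.single_le_sum (f := fun j => (k j : ℤ)) (fun j _ => by positivity) (Finset.mem_univ i)
  have hp := fun i => (V i).pol (hk i) (hK i)
  exact mem_MS' (blk V) (fun i => nondeg (blk V) hp i) (fun i => (hp i).inj)
    (fun i => hasPcs_of_gd (V i) (hk i) (hg i)) c hc

/-- The class dual to the polarization. -/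
theorem inv_D (V : ∀ i, PolHS (k i) (N i)) (i : ι) :
    (V i).D * cK ℂ ((V i).Q⁻¹) + cK ℂ ((V i).Q⁻¹) * (V i).Dᵀ = 0 := by
  have hu : IsUnit (V i).Q.det := (Matrix.isUnit_iff_isUnit_det _).1 (V i).unit
  have h2 := (V i).spD
  have h3 : cK ℂ ((V i).Q⁻¹) * cK ℂ (V i).Q = 1 := by
    rw [← cK_mul, Matrix.nonsing_inv_mul _ hu, cK_one]
  have h3' : cK ℂ (V i).Q * cK ℂ ((V i).Q⁻¹) = 1 := mul_eq_one_comm.1 h3
  have h5 : cK ℂ ((V i).Q⁻¹) * ((V i).Dᵀ * cK ℂ (V i).Q + cK ℂ (V i).Q * (V i).D) *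
      cK ℂ ((V i).Q⁻¹) = 0 := by rw [h2, Matrix.mul_zero, Matrix.zero_mul]
  have h6 : cK ℂ ((V i).Q⁻¹) * ((V i).Dᵀ * cK ℂ (V i).Q + cK ℂ (V i).Q * (V i).D) *
      cK ℂ ((V i).Q⁻¹) = cK ℂ ((V i).Q⁻¹) * (V i).Dᵀ * (cK ℂ (V i).Q * cK ℂ ((V i).Q⁻¹)) +
        (cK ℂ ((V i).Q⁻¹) * cK ℂ (V i).Q) * (V i).D * cK ℂ ((V i).Q⁻¹) := by
    noncomm_ring
  rw [h6, h3, h3', Matrix.mul_one, Matrix.one_mul] at h5
  rw [add_comm]
  exact h5

section tens

variable {V : ∀ i, PolHS (k i) (N i)} {A : ∀ κ : Type, Submodule ℚ ((κ → Bas l N) → ℚ)}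
  (hA : Sys0 V A) (hP : ∀ i j (m : Matrix (Fin (N i)) (Fin (N j)) ℚ),
    (V i).D * cK ℂ m + cK ℂ m * (V j).Dᵀ = 0 → pairClass l i j m ∈ A (Fin 2))
  (hk : ∀ i, Odd (k i)) (hg : ∀ i, Gd (V i))

include hP hk

/-- The bilinear forms killed by the operator give classes of the system. -/
theorem pair_mem' (b : (Fin 2 → Σ i, Fin (N i)) → ℚ) (hb : IsH (gD V) b) :
    pull (glue ℚ (fun i => (V i).Q⁻¹) * RR l N) b ∈ A (Fin 2) := by
  obtain ⟨G, hG⟩ : ∃ G : Matrix (Σ i, Fin (N i)) (Σ i, Fin (N i)) ℚ,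
      G = Matrix.of fun x y => b ![x, y] := ⟨_, rfl⟩
  have hbG : b = bilc G := by
    funext I
    rw [hG]
    simp only [bilc, Matrix.of_apply]
    congr 1
    funext s
    fin_cases s <;> rfl
  have hu : ∀ i, IsUnit (V i).Q.det := fun i =>
    (Matrix.isUnit_iff_isUnit_det _).1 (V i).unit
  -- the operator kills the form
  have hGD : (gD V)ᵀ * cK ℂ G + cK ℂ G * gD V = 0 := by
    have h1 : act (gD V) (bilc (cK ℂ G)) = 0 := by
      rw [hbG] at hb
      exact hb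
    ext x y
    have h2 := congrFun h1 ![x, y]
    rw [act_bilc] at h2
    exact h2
  have hGij : ∀ i j, (V i).Dᵀ * cK ℂ (pm N i * G * (pm N j)ᵀ) +
      cK ℂ (pm N i * G * (pm N j)ᵀ) * (V j).D = 0 := by
    intro i j
    have h1 := congrArg (fun M => cK ℂ (pm N i) * M * (cK ℂ (pm N j))ᵀ) hGD
    simp only [Matrix.mul_zero, Matrix.zero_mul, Matrix.mul_add, Matrix.add_mul] at h1
    have h2 : cK ℂ (pm N i) * (gD V)ᵀ = (V i).Dᵀ * cK ℂ (pm N i) := by
      unfold gD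
      rw [glue_transpose, pm_glue]
    have h3 : gD V * (cK ℂ (pm N j))ᵀ = (cK ℂ (pm N j))ᵀ * (V j).D := by
      have h4 : cK ℂ (pm N j) * (gD V)ᵀ = (V j).Dᵀ * cK ℂ (pm N j) := by
        unfold gD
        rw [glue_transpose, pm_glue]
      have h5 := congrArg Matrix.transpose h4
      rwa [transpose_mul, transpose_mul, transpose_transpose, transpose_transpose] at h5
    have h4 : cK ℂ (pm N i) * ((gD V)ᵀ * cK ℂ G) * (cK ℂ (pm N j))ᵀ =
        (V i).Dᵀ * (cK ℂ (pm N i) * cK ℂ G * (cK ℂ (pm N j))ᵀ) := by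
      rw [← Matrix.mul_assoc, h2]
      simp only [Matrix.mul_assoc]
    have h5 : cK ℂ (pm N i) * (cK ℂ G * gD V) * (cK ℂ (pm N j))ᵀ =
        (cK ℂ (pm N i) * cK ℂ G * (cK ℂ (pm N j))ᵀ) * (V j).D := by
      rw [Matrix.mul_assoc, Matrix.mul_assoc, h3]
      simp only [Matrix.mul_assoc]
    rw [h4, h5] at h1
    rw [cK_mul, cK_mul, cK_transpose]
    exact h1
  -- the components
  have hcomp : pull (glue ℚ (fun i => (V i).Q⁻¹) * RR l N) b = ∑ i, ∑ j, pairClass l i j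
      (((V i).Q⁻¹)ᵀ * (pm N i * G * (pm N j)ᵀ) * (V j).Q⁻¹) := by
    obtain ⟨g, hg⟩ : ∃ g, g = glue ℚ (fun i => (V i).Q⁻¹) := ⟨_, rfl⟩
    rw [← hg, hbG, pull_bilc]
    have hgi : ∀ i, (V i).Q⁻¹ * pm N i = pm N i * g := by
      intro i
      have h1 := pm_glue (K := ℚ) (fun i => (V i).Q⁻¹) i
      rw [cK_rat, ← hg] at h1
      exact h1.symm
    funext I
    simp only [Finset.sum_apply]
    have h1 : ∀ i j, pairClass l i j (((V i).Q⁻¹)ᵀ * (pm N i * G * (pm N j)ᵀ) * (V j).Q⁻¹) I =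
        bilc ((RR l N)ᵀ * (((pm N i)ᵀ * pm N i) * gᵀ * G * g * ((pm N j)ᵀ * pm N j)) * RR l N)
          I := by
      intro i j
      rw [pairClass_eq]
      congr 1
      have e1 : (pm N i * RR l N)ᵀ * (((V i).Q⁻¹)ᵀ * (pm N i * G * (pm N j)ᵀ) * (V j).Q⁻¹) *
          (pm N j * RR l N) = (RR l N)ᵀ * ((pm N i)ᵀ * (((V i).Q⁻¹)ᵀ * pm N i) * G *
            ((pm N j)ᵀ * ((V j).Q⁻¹ * pm N j))) * RR l N := by
        rw [transpose_mul]
        simp only [Matrix.mul_assoc]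
      have e2 : ((V i).Q⁻¹)ᵀ * pm N i = pm N i * gᵀ := by
        have h2 := pm_glue (K := ℚ) (fun i => ((V i).Q⁻¹)ᵀ) i
        rw [cK_rat] at h2
        rw [← h2, hg, glue_transpose]
      have e3 : (pm N j)ᵀ * ((V j).Q⁻¹ * pm N j) = g * ((pm N j)ᵀ * pm N j) := by
        have h2 := pm_glue (K := ℚ) (fun i => ((V i).Q⁻¹)ᵀ) j
        rw [cK_rat] at h2
        have h3 := congrArg Matrix.transpose h2
        rw [transpose_mul, transpose_mul, transpose_transpose, glue_transpose] at h3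
        simp only [transpose_transpose] at h3
        rw [← hg] at h3
        rw [← Matrix.mul_assoc, ← h3, Matrix.mul_assoc]
      rw [e1, e2, e3]
      simp only [Matrix.mul_assoc]
    simp only [h1]
    have h3 : (glue ℚ (fun i => (V i).Q⁻¹) * RR l N)ᵀ * G * (glue ℚ (fun i => (V i).Q⁻¹) *
        RR l N) = ∑ i, ∑ j, (RR l N)ᵀ * (((pm N i)ᵀ * pm N i) * gᵀ * G * g *
          ((pm N j)ᵀ * pm N j)) * RR l N := by
      rw [← hg]
      have e4 : (g * RR l N)ᵀ * G * (g * RR l N) =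
          (RR l N)ᵀ * (1 * gᵀ * G * g * 1) * RR l N := by
        rw [transpose_mul, Matrix.one_mul, Matrix.mul_one]
        simp only [Matrix.mul_assoc]
      rw [e4, ← pm_tot (N := N)]
      simp only [Matrix.mul_sum, Matrix.sum_mul]
      rw [Finset.sum_comm]
    rw [← hg] at h3
    rw [h3]
    simp only [bilc, Matrix.sum_apply]
  rw [hcomp]
  refine Submodule.sum_mem _ fun i _ => Submodule.sum_mem _ fun j _ => ?_
  refine hP i j _ ?_
  have h1 := hGij i j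
  obtain ⟨g, hg⟩ : ∃ g, g = cK ℂ (pm N i * G * (pm N j)ᵀ) := ⟨_, rfl⟩
  rw [← hg] at h1
  rw [cK_mul, cK_mul, ← hg]
  have e1 : (V i).D * cK ℂ ((V i).Q⁻¹)ᵀ = -(cK ℂ ((V i).Q⁻¹)ᵀ * (V i).Dᵀ) := by
    have h2 := (V i).spD
    have h3 : cK ℂ ((V i).Q⁻¹) * cK ℂ (V i).Q = 1 := by
      rw [← cK_mul, Matrix.nonsing_inv_mul _ (hu i), cK_one]
    have h3' : cK ℂ (V i).Q * cK ℂ ((V i).Q⁻¹) = 1 := mul_eq_one_comm.1 h3
    have h4 : cK ℂ ((V i).Q⁻¹)ᵀ = -cK ℂ ((V i).Q⁻¹) := by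
      rw [QT hk]
      ext a b
      simp [cK]
    rw [h4]
    have h5 : cK ℂ ((V i).Q⁻¹) * ((V i).Dᵀ * cK ℂ (V i).Q + cK ℂ (V i).Q * (V i).D) *
        cK ℂ ((V i).Q⁻¹) = 0 := by rw [h2, Matrix.mul_zero, Matrix.zero_mul]
    have h6 : cK ℂ ((V i).Q⁻¹) * ((V i).Dᵀ * cK ℂ (V i).Q + cK ℂ (V i).Q * (V i).D) *
        cK ℂ ((V i).Q⁻¹) = cK ℂ ((V i).Q⁻¹) * (V i).Dᵀ * (cK ℂ (V i).Q * cK ℂ ((V i).Q⁻¹)) +
          (cK ℂ ((V i).Q⁻¹) * cK ℂ (V i).Q) * (V i).D * cK ℂ ((V i).Q⁻¹) := by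
      noncomm_ring
    rw [h6, h3, h3', Matrix.mul_one, Matrix.one_mul] at h5
    have h7 := eq_neg_of_add_eq_zero_right h5
    rw [Matrix.mul_neg, Matrix.neg_mul, neg_neg, h7, neg_neg]
  have e2 : cK ℂ ((V j).Q⁻¹) * (V j).Dᵀ = -((V j).D * cK ℂ ((V j).Q⁻¹)) := by
    have h2 := (V j).spD
    have h3 : cK ℂ ((V j).Q⁻¹) * cK ℂ (V j).Q = 1 := by
      rw [← cK_mul, Matrix.nonsing_inv_mul _ (hu j), cK_one]
    have h3' : cK ℂ (V j).Q * cK ℂ ((V j).Q⁻¹) = 1 := mul_eq_one_comm.1 h3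
    have h5 : cK ℂ ((V j).Q⁻¹) * ((V j).Dᵀ * cK ℂ (V j).Q + cK ℂ (V j).Q * (V j).D) *
        cK ℂ ((V j).Q⁻¹) = 0 := by rw [h2, Matrix.mul_zero, Matrix.zero_mul]
    have h6 : cK ℂ ((V j).Q⁻¹) * ((V j).Dᵀ * cK ℂ (V j).Q + cK ℂ (V j).Q * (V j).D) *
        cK ℂ ((V j).Q⁻¹) = cK ℂ ((V j).Q⁻¹) * (V j).Dᵀ * (cK ℂ (V j).Q * cK ℂ ((V j).Q⁻¹)) +
          (cK ℂ ((V j).Q⁻¹) * cK ℂ (V j).Q) * (V j).D * cK ℂ ((V j).Q⁻¹) := by
      noncomm_ring
    rw [h6, h3, h3', Matrix.mul_one, Matrix.one_mul] at h5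
    exact eq_neg_of_add_eq_zero_left h5
  have e3 : (V i).D * (cK ℂ ((V i).Q⁻¹)ᵀ * g * cK ℂ ((V j).Q⁻¹)) +
      cK ℂ ((V i).Q⁻¹)ᵀ * g * cK ℂ ((V j).Q⁻¹) * (V j).Dᵀ =
      ((V i).D * cK ℂ ((V i).Q⁻¹)ᵀ) * g * cK ℂ ((V j).Q⁻¹) +
      cK ℂ ((V i).Q⁻¹)ᵀ * g * (cK ℂ ((V j).Q⁻¹) * (V j).Dᵀ) := by
    simp only [Matrix.mul_assoc]
  rw [e3, e1, e2]
  have e4 : -(cK ℂ ((V i).Q⁻¹)ᵀ * (V i).Dᵀ) * g * cK ℂ ((V j).Q⁻¹) +
      cK ℂ ((V i).Q⁻¹)ᵀ * g * -((V j).D * cK ℂ ((V j).Q⁻¹)) =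
      -(cK ℂ ((V i).Q⁻¹)ᵀ * ((V i).Dᵀ * g + g * (V j).D) * cK ℂ ((V j).Q⁻¹)) := by
    simp only [Matrix.mul_assoc, Matrix.mul_add, Matrix.add_mul, Matrix.mul_neg, Matrix.neg_mul,
      neg_add]
  rw [e4, h1, Matrix.mul_zero, Matrix.zero_mul, neg_zero]


include hA hg

/-- The tensors killed by the operator give classes of the system. -/
theorem tens_mem' (κ : Type) [Fintype κ] [DecidableEq κ] (c : (κ → Σ i, Fin (N i)) → ℚ)
    (hc : act (gD V)ᵀ (cst ℂ c) = 0) : pull (RR l N) c ∈ A κ := by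
  have hu : ∀ i, IsUnit (V i).Q.det := fun i =>
    (Matrix.isUnit_iff_isUnit_det _).1 (V i).unit
  obtain ⟨gQ, hgQ⟩ : ∃ gQ, gQ = glue ℚ (fun i => (V i).Q) := ⟨_, rfl⟩
  obtain ⟨gQi, hgQi⟩ : ∃ gQi, gQi = glue ℚ (fun i => (V i).Q⁻¹) := ⟨_, rfl⟩
  have hQ1 : gQ * gQi = 1 := by
    rw [hgQ, hgQi, glue_mul, ← glue_one]
    congr 1
    funext i
    exact Matrix.mul_nonsing_inv _ (hu i)
  have hQD : cK ℂ gQ * gD V = -(gD V)ᵀ * cK ℂ gQ := by
    have h1 : (gD V)ᵀ * cK ℂ gQ + cK ℂ gQ * gD V = 0 := by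
      rw [hgQ, glue_cK]
      unfold gD
      rw [glue_transpose, glue_mul, glue_mul, glue_add, ← glue_zero]
      congr 1
      funext i
      exact (V i).spD
    rw [neg_mul]
    exact eq_neg_of_add_eq_zero_right h1
  have hf : ∀ (κ : Type) [Fintype κ] [DecidableEq κ] (c : (κ → Σ i, Fin (N i)) → ℚ),
      act (gD V)ᵀ (cst ℂ c) = 0 → IsH (gD V) (pull gQ c) := by
    intro κ _ _ c hc
    unfold IsH
    rw [cst_pull, act_pull hQD, act_neg_left, hc, neg_zero, pull_zero]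
  have hback : ∀ (κ : Type) [Fintype κ] [DecidableEq κ] (c : (κ → Σ i, Fin (N i)) → ℚ),
      pull gQi (pull gQ c) = c := by
    intro κ _ _ c
    rw [pull_pull, hQ1, pull_one]
  rcases Nat.even_or_odd (Fintype.card κ) with hev | hodd
  · obtain ⟨m, hm⟩ := hev
    let e : Fin m × Fin 2 ≃ κ := Fintype.equivOfCardEq (by
      rw [Fintype.card_prod, Fintype.card_fin, Fintype.card_fin, hm]
      omega)
    obtain ⟨c', hc'⟩ : ∃ c' : (Fin m × Fin 2 → Σ i, Fin (N i)) → ℚ,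
        c' = fun J => c (fun s => J (e.symm s)) := ⟨_, rfl⟩
    have hcc : c = fun I => c' (fun s => I (e s)) := by
      funext I
      rw [hc']
      simp
    have h1 : act (gD V)ᵀ (cst ℂ c') = 0 := by
      have h2 := act_reindex e (gD V)ᵀ (cst ℂ c)
      rw [hc] at h2
      rw [hc']
      exact h2
    have h2 := mem_MS_glue' V hk hg (pull gQ c') (hf _ c' h1)
    have h3 : pull (RR l N) c' ∈ A (Fin m × Fin 2) := by
      rw [← hback _ c', pull_pull]
      unfold MS at h2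
      generalize pull gQ c' = f at h2 ⊢
      induction h2 using Submodule.span_induction with
      | mem F hF =>
        obtain ⟨e', b, hb, rfl⟩ := hF
        have h4 := prod_mem hA (Fin 2) (Fin m) (fun s => pull (gQi * RR l N) (b s))
          (fun s => by
            rw [hgQi]
            exact pair_mem' hP hk (b s) (hb s))
        have h5 := hA.perm _ _ e' _ h4
        convert h5 using 1
        funext I
        rw [pull_prod]
        refine Finset.prod_congr rfl fun s _ => ?_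
        congr 1
        funext ε
        fin_cases ε <;> rfl
      | zero =>
        rw [pull_zero]
        exact Submodule.zero_mem _
      | add F G _ _ h1 h2 =>
        rw [pull_add]
        exact Submodule.add_mem _ h1 h2
      | smul a F _ h1 =>
        rw [pull_smul]
        exact Submodule.smul_mem _ _ h1
    have h4 := hA.perm _ _ e _ h3
    convert h4 using 1
    funext I
    conv_lhs => rw [hcc]
    exact pull_reindex _ e c' I
  · obtain ⟨S, P, hP, ho⟩ := proj_glue V hk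
    have h1 : IsH (gD V) (pull gQ c) := hf _ c hc
    have h2 := odd_zero hP ho hodd h1
    have h3 : pull gQ c = 0 := cst_injective (K := ℂ) (by rw [h2, cst_zero])
    rw [← hback _ c, h3, pull_zero, pull_zero]
    exact Submodule.zero_mem _


end tens

variable (M : LowHS d l) (V : ∀ i, PolHS (k i) (N i)) (hk : ∀ i, Odd (k i)) (hx : Kx M V)
  (hg : ∀ i, Gd (V i))

include hk hx hg

/-- The tensors killed by the operator are killed by its second part. -/
theorem act_em' {κ : Type} [Fintype κ] [DecidableEq κ] {c : (κ → Bas l N) → ℚ}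
    (hc : act (DM M V)ᵀ (cst ℂ c) = 0) : act (Em l N ℂ (gD V))ᵀ (cst ℂ c) = 0 := by
  obtain ⟨S, P, hpol, -, -⟩ := pol_glue (d := d) V hk
  obtain ⟨u, hu⟩ := M.unit
  obtain ⟨w, hw⟩ := hpol.unit
  obtain ⟨T, hT⟩ : ∃ T : Matrix (Bas l N) (Bas l N) ℚ,
      T = Matrix.fromBlocks M.S 0 0 (glue ℚ fun i => (V i).Q) := ⟨_, rfl⟩
  obtain ⟨T', hT'⟩ : ∃ T' : Matrix (Bas l N) (Bas l N) ℚ, T * T' = 1 := by
    refine ⟨Matrix.fromBlocks ((u⁻¹ : (Matrix _ _ ℚ)ˣ) : Matrix _ _ ℚ) 0 0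
      ((w⁻¹ : (Matrix _ _ ℚ)ˣ) : Matrix _ _ ℚ), ?_⟩
    rw [hT, fromBlocks_multiply, ← hu, ← hw, Units.mul_inv, Units.mul_inv]
    simp
  have hTC : cK ℂ T = Matrix.fromBlocks (cK ℂ M.S) 0 0 (cK ℂ (glue ℚ fun i => (V i).Q)) := by
    rw [hT, cK_blocks]
  have h1 : cK ℂ T * DM M V = -(DM M V)ᵀ * cK ℂ T := by
    rw [hTC, DM]
    exact skew_blocks M.spD hpol.spD
  have h2 : cK ℂ T * Em l N ℂ (gD V) = -(Em l N ℂ (gD V))ᵀ * cK ℂ T := by
    rw [hTC, Em_apply]
    refine skew_blocks ?_ hpol.spD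
    rw [transpose_zero, Matrix.zero_mul, Matrix.mul_zero, add_zero]
  have h3 : IsH (DM M V) (pull T c) := by
    unfold IsH
    rw [cst_pull, act_pull h1, act_neg_left, hc, neg_zero, pull_zero]
  have h4 := lieM_kills _ (Em_gD_mem' M V hk hx hg) h3
  rw [cst_pull, act_pull h2, act_neg_left] at h4
  have h5 := congrArg (pull (cK ℂ T')) h4
  rw [pull_pull, ← cK_mul, hT', cK_one, pull_one, pull_zero] at h5
  exact neg_eq_zero.1 h5

/-- Every Hodge class on the products is in the system. -/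
theorem main' {n : ℕ} {A : ∀ κ : Type, Submodule ℚ ((κ → Bas l N) → ℚ)} (hA : IsSys M V n A)
    {κ : Type} [Fintype κ] (c : (κ → Bas l N) → ℚ) (hc : IsHodgeClass M V c)
    (hn : ∀ I, c I ≠ 0 → (Finset.univ.filter fun j => (I j).isLeft = true).card ≤ n) :
    c ∈ A κ := by
  classical
  have hP : ∀ i j (m : Matrix (Fin (N i)) (Fin (N j)) ℚ),
      (V i).D * cK ℂ m + cK ℂ m * (V j).Dᵀ = 0 → pairClass l i j m ∈ A (Fin 2) :=
    fun i j m hm => hA.pair i j m (hodge_pair M hm)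
  have hA0 : Sys0 V A := by
    refine ⟨?_, hA.mul, hA.perm, fun i => hP i i _ (inv_D V i), fun i j _ m hm => hP i j m hm⟩
    refine hA.low Empty _ (Nat.zero_le _) (hodge_of_act M V ?_) fun I ⟨j, _⟩ => j.elim
    funext I
    unfold act
    exact Finset.sum_eq_zero fun j _ => j.elim
  have h0 := act_hodge M V hc
  have h1 := act_em' M V hk hx hg h0
  have h2 : act (Matrix.fromBlocks M.Dᵀ 0 0 0 : Matrix (Bas l N) (Bas l N) ℂ) (cst ℂ c) = 0 := by
    have h3 : (DM M V)ᵀ = Matrix.fromBlocks M.Dᵀ 0 0 0 + (Em l N ℂ (gD V))ᵀ := by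
      rw [DM, Em_apply, fromBlocks_transpose, fromBlocks_transpose, fromBlocks_add]
      simp
    rw [h3, act_add_left, h1, add_zero] at h0
    exact h0
  rw [Em_apply, fromBlocks_transpose, transpose_zero, transpose_zero, transpose_zero] at h1
  have hsum : c = ∑ σ : κ → Bool, fun I : κ → Bas l N =>
      if (fun j => (I j).isRight) = σ then c I else 0 := by
    funext I
    rw [Finset.sum_apply, Finset.sum_ite_eq, if_pos (Finset.mem_univ _)]
  rw [hsum]
  refine Submodule.sum_mem _ fun σ _ => ?_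
  by_cases hσn : Fintype.card {j // ¬σ j = true} ≤ n
  swap
  · have h0 : (fun I : κ → Bas l N => if (fun j => (I j).isRight) = σ then c I else 0) = 0 := by
      funext I
      by_cases hI : (fun j => (I j).isRight) = σ
      · rw [if_pos hI]
        by_contra hcI
        apply hσn
        have h3 := hn I hcI
        rw [Fintype.card_subtype]
        refine le_trans (le_of_eq ?_) h3
        congr 1
        ext j
        rw [Finset.mem_filter, Finset.mem_filter, ← hI]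
        rcases hIj : I j with t | b <;> simp [hIj]
      · rw [if_neg hI]
        rfl
    rw [h0]
    exact Submodule.zero_mem _
  -- the two subspaces
  obtain ⟨U, hU⟩ : ∃ U : Submodule ℚ (({j // ¬σ j = true} → Fin l) → ℚ),
      ∀ u, u ∈ U ↔ act M.Dᵀ (cst ℂ u) = 0 :=
    ⟨{ carrier := {u | act M.Dᵀ (cst ℂ u) = 0}
       zero_mem' := by
        change act M.Dᵀ (cst ℂ 0) = 0
        rw [cst_zero, act_zero_right]
       add_mem' := by
        intro u v hu hv
        change act M.Dᵀ (cst ℂ (u + v)) = 0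
        change act M.Dᵀ (cst ℂ u) = 0 at hu
        change act M.Dᵀ (cst ℂ v) = 0 at hv
        rw [cst_add, act_add_right, hu, hv, add_zero]
       smul_mem' := by
        intro a u hu
        change act M.Dᵀ (cst ℂ (a • u)) = 0
        change act M.Dᵀ (cst ℂ u) = 0 at hu
        have h3 : cst ℂ (a • u) = (a : ℂ) • cst ℂ u := by
          funext I
          simp [cst]
        rw [h3, act_smul_right, hu, smul_zero] }, fun u => Iff.rfl⟩
  obtain ⟨H, hH⟩ : ∃ H : Submodule ℚ (({j // σ j = true} → Σ i, Fin (N i)) → ℚ),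
      ∀ u, u ∈ H ↔ act (gD V)ᵀ (cst ℂ u) = 0 :=
    ⟨{ carrier := {u | act (gD V)ᵀ (cst ℂ u) = 0}
       zero_mem' := by
        change act (gD V)ᵀ (cst ℂ 0) = 0
        rw [cst_zero, act_zero_right]
       add_mem' := by
        intro u v hu hv
        change act (gD V)ᵀ (cst ℂ (u + v)) = 0
        change act (gD V)ᵀ (cst ℂ u) = 0 at hu
        change act (gD V)ᵀ (cst ℂ v) = 0 at hv
        rw [cst_add, act_add_right, hu, hv, add_zero]
       smul_mem' := by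
        intro a u hu
        change act (gD V)ᵀ (cst ℂ (a • u)) = 0
        change act (gD V)ᵀ (cst ℂ u) = 0 at hu
        have h3 : cst ℂ (a • u) = (a : ℂ) • cst ℂ u := by
          funext I
          simp [cst]
        rw [h3, act_smul_right, hu, smul_zero] }, fun u => Iff.rfl⟩
  obtain ⟨n, u, h, hu, hh, huh⟩ := exists_tensor U H (fun P J => c (jn σ P J)) (fun P => by
      rw [hH]
      funext J
      have h3 := act_slice_R σ (gD V)ᵀ (cst ℂ c) P J
      rw [h1] at h3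
      exact h3) (fun J => by
      rw [hU]
      funext P
      have h3 := act_slice_L σ M.Dᵀ (cst ℂ c) P J
      rw [h2] at h3
      exact h3)
  have hcs : (fun I : κ → Bas l N => if (fun j => (I j).isRight) = σ then c I else 0) =
      ∑ i, fun I : κ → Bas l N => pull (RR l N) (h i) (fun j : {j // σ j = true} => I j) *
        pull (PL l N) (u i) (fun j : {j // ¬σ j = true} => I j) := by
    funext I
    rw [Finset.sum_apply]
    by_cases hI : (fun j => (I j).isRight) = σ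
    · rw [if_pos hI]
      obtain ⟨P, J, hPJ⟩ := exists_jn σ hI
      rw [hPJ]
      refine (huh P J).trans (Finset.sum_congr rfl fun i _ => ?_)
      have h3 : (fun j : {j // σ j = true} => jn σ P J j) = fun j => Sum.inr (J j) := by
        funext j
        exact jn_true σ P J j
      have h4 : (fun j : {j // ¬σ j = true} => jn σ P J j) = fun j => Sum.inl (P j) := by
        funext j
        exact jn_false σ P J j
      rw [h3, h4, pull_RR_inr, pull_PL_inl, mul_comm]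
    · rw [if_neg hI]
      symm
      refine Finset.sum_eq_zero fun i _ => ?_
      obtain ⟨j, hj⟩ := Function.ne_iff.1 hI
      by_cases hσ : σ j = true
      · rw [hσ] at hj
        rcases hIj : I j with t | b
        · rw [pull_RR_zero (h i) _ ⟨j, hσ⟩ t hIj, zero_mul]
        · rw [hIj] at hj
          exact absurd rfl hj
      · rcases hIj : I j with t | b
        · rw [hIj] at hj
          exact absurd (by simpa using hσ) (Ne.symm hj)
        · rw [pull_PL_zero (u i) _ ⟨j, hσ⟩ b hIj, mul_zero]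
  rw [hcs]
  refine Submodule.sum_mem _ fun i _ => ?_
  have h3 : pull (RR l N) (h i) ∈ A {j // σ j = true} :=
    tens_mem' hA0 hP hk hg _ (h i) ((hH _).1 (hh i))
  have h4 : pull (PL l N) (u i) ∈ A {j // ¬σ j = true} := by
    refine hA.low _ _ hσn (hodge_of_act M V ?_) fun I ⟨j, b, hb⟩ => pull_PL_zero _ _ j b hb
    have h5 : cK ℂ (PL l N) * (DM M V)ᵀ = M.Dᵀ * cK ℂ (PL l N) := by
      rw [cK_PL, DM, fromBlocks_transpose, fromCols_mul_fromBlocks, mul_fromCols]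
      simp
    rw [cst_pull, act_pull h5, (hU _).1 (hu i), pull_zero]
  have h5 := hA.mul _ _ _ _ h3 h4
  exact hA.perm _ _ (Equiv.sumCompl fun j => σ j = true) _ h5


end Run7.h853.Cy
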