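import Mathlib
import Pool.Agent.Run7.h853.Cy.F
import Pool.Agent.Run7.h853.Cy.C

/-!
# Elements of rank one
-/

set_option linter.unusedSectionVars false

namespace Run7.h853.Cy

open Module

variable {K V : Type*} [Field K] [CharZero K] [AddCommGroup V] [Module K V]
  [FiniteDimensional K V]

/-- The pairing. -/
noncomputable def TT (w : V →ₗ[K] V →ₗ[K] K) (vp vm : V) (a y : End K V) : K :=
  chi w vp vm (a * y - y * a)

variable {L : Submodule K (End K V)} {D : End K V} {P : ℤ → End K V}
    {w : V →ₗ[K] V →ₗ[K] K} {vp vm : V} (d : Dt L D P w vp vm)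

include d

theorem Dt.T_vm {a y : End K V} (ha : G L D 2 a) (hy : G L D (-2) y) :
    y (a vm) = TT w vp vm a y • vm := by
  have h1 := d.chi_vm (d.G_br' ha hy (c := 0) (by decide))
  rw [LinearMap.sub_apply, Module.End.mul_apply, Module.End.mul_apply, d.m_vm hy, map_zero,
    zero_sub, neg_smul, neg_inj] at h1
  exact h1

theorem Dt.T_vp {a y : End K V} (ha : G L D 2 a) (hy : G L D (-2) y) :
    a (y vp) = TT w vp vm a y • vp := by
  have h1 := d.chi_vp (d.G_br' ha hy (c := 0) (by decide))
  rw [LinearMap.sub_apply, Module.End.mul_apply, Module.End.mul_apply, d.p_vp ha, map_zero,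
    sub_zero] at h1
  exact h1

/-- The basic identity. -/
theorem Dt.star {a b c y : End K V} (ha : G L D 2 a) (hb : G L D 2 b) (hc : G L D 2 c)
    (hy : G L D (-2) y) :
    y (a (b (c vm))) = a (y (b (c vm))) + b (y (a (c vm))) + c (y (a (b vm))) -
      TT w vp vm a y • b (c vm) - TT w vp vm b y • a (c vm) - TT w vp vm c y • a (b vm) := by
  obtain ⟨u, hu⟩ : ∃ u, u = a * y - y * a := ⟨_, rfl⟩
  have gu : G L D 0 u := by
    rw [hu]
    exact d.G_br' ha hy (by decide)
  have uvm : u vm = -(TT w vp vm a y • vm) := by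
    rw [hu, LinearMap.sub_apply, Module.End.mul_apply, Module.End.mul_apply, d.m_vm hy, map_zero,
      zero_sub, d.T_vm ha hy]
  have key : ∀ b, G L D 2 b → (u * b - b * u) vm =
      TT w vp vm b y • a vm - y (a (b vm)) + TT w vp vm a y • b vm := by
    intro b hb
    have h1 : u (b vm) = a (y (b vm)) - y (a (b vm)) := by
      rw [hu]
      rfl
    rw [LinearMap.sub_apply, Module.End.mul_apply, Module.End.mul_apply, h1, d.T_vm hb hy,
      map_smul, uvm, map_neg, map_smul]
    abel
  have e1 : y (a (b (c vm))) = a (y (b (c vm))) - u (b (c vm)) := by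
    rw [hu, LinearMap.sub_apply, Module.End.mul_apply, Module.End.mul_apply]
    abel
  have e2 : u (b (c vm)) = c ((u * b - b * u) vm) + b ((u * c - c * u) vm) -
      TT w vp vm a y • b (c vm) := by
    have h1 : u (b (c vm)) = (u * b - b * u) (c vm) + b (u (c vm)) := by
      rw [LinearMap.sub_apply, Module.End.mul_apply, Module.End.mul_apply]
      abel
    have h2 : (u * b - b * u) (c vm) = c ((u * b - b * u) vm) := by
      rw [← Module.End.mul_apply, ← Module.End.mul_apply,
        d.comm (d.G_br' gu hb (c := 2) (by decide)) hc]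
    have h3 : u (c vm) = (u * c - c * u) vm + c (u vm) := by
      rw [LinearMap.sub_apply, Module.End.mul_apply, Module.End.mul_apply]
      abel
    rw [h1, h2, h3, uvm, map_neg, map_smul, map_add, map_neg, map_smul]
    abel
  have hab : a (b vm) = b (a vm) := d.comm_app ha hb vm
  have hac : a (c vm) = c (a vm) := d.comm_app ha hc vm
  have hbc : b (c vm) = c (b vm) := d.comm_app hb hc vm
  rw [e1, e2, key b hb, key c hc]
  simp only [map_add, map_sub, map_smul]
  rw [hac, hab, hbc]
  abel

/-- A vector killed by the elements of degree two is zero. -/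
theorem Dt.nd1 {x : V} (hx : E D (-1) x) (h : ∀ b, G L D 2 b → b x = 0) : x = 0 := by
  refine d.sep hx fun z hz => ?_
  have hz' := d.V1 (y := z) (by simpa using hz)
  clear hz
  induction hz' using Submodule.span_induction with
  | mem z hz =>
    obtain ⟨b, b', hb, hb', rfl⟩ := hz
    rw [d.sp' hb.1, h b hb, map_zero, LinearMap.zero_apply, neg_zero]
  | zero => exact map_zero _
  | add x y _ _ h1 h2 => rw [map_add, h1, h2, add_zero]
  | smul a x _ h1 => rw [map_smul, h1, smul_zero]

theorem Dt.nd2 {x : V} (hx : E D 1 x) (h : ∀ b, G L D 2 b → b x = 0) : x = 0 := by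
  refine d.sep hx fun z hz => ?_
  obtain ⟨b, hb, rfl⟩ := d.Vm1 hz
  rw [d.sp' hb.1, h b hb, map_zero, LinearMap.zero_apply, neg_zero]

theorem Dt.sq0 {e : End K V} (he : G L D 2 e) (h : e (e vm) = 0) : e * e = 0 := by
  refine d.ext0 ?_ ?_ ?_ ?_
  · intro x hx
    exact d.eig_zero (he.app (he.app hx)) (by decide) (by decide) (by decide) (by decide)
  · intro x hx
    exact d.eig_zero (he.app (he.app hx)) (by decide) (by decide) (by decide) (by decide)
  · intro x hx
    obtain ⟨b, hb, rfl⟩ := d.Vm1 hx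
    rw [Module.End.mul_apply, d.comm_app he hb, d.comm_app he hb, h, map_zero]
  · intro x hx
    obtain ⟨c, rfl⟩ := d.tm x hx
    rw [Module.End.mul_apply, map_smul, map_smul, h, smul_zero]

theorem Dt.sq0' {f : End K V} (hf : G L D (-2) f) (h : f (f vp) = 0) : f * f = 0 :=
  d.flip.sq0 (by simpa using hf.neg) h

/-- The adjoint of a singular element has rank one. -/
theorem Dt.sharp {a y : End K V} (ha : G L D 2 a) (hy : G L D (-2) y)
    (h3 : a (a (a vm)) = 0) (h : y vp = a (a vm)) : y * y = 0 := by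
  apply d.sq0' hy
  rw [h]
  have hE : E D (-1) (y (a (a vm))) :=
    hy.app' (ha.app' (ha.app' d.Em (c := -1) (by decide)) (c := 1) (by decide)) (by decide)
  refine d.nd1 hE fun b hb => ?_
  have hTa : TT w vp vm a y = 0 := by
    have h1 := d.T_vp ha hy
    rw [h, h3] at h1
    exact (smul_eq_zero.1 h1.symm).resolve_right d.vp0
  have hbaa : a (a (b vm)) = b (a (a vm)) := by
    rw [d.comm_app ha hb vm, d.comm_app ha hb]
  have e1 := d.star ha ha hb hy
  have e2 : y (a (a (b vm))) = TT w vp vm b y • a (a vm) := by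
    rw [hbaa, ← h, d.T_vp hb hy, map_smul]
  rw [e2, hTa, zero_smul, sub_zero, sub_zero] at e1
  obtain ⟨y', hy', hy'b⟩ := d.V1' (y := a (b vm))
    (ha.app' (hb.app' d.Em (c := -1) (by decide)) (by decide))
  have e3 := d.star ha ha ha hy'
  have e4 : TT w vp vm a y' = TT w vp vm b y := by
    have h1 := d.T_vp ha hy'
    rw [← hy'b, hbaa, ← h, d.T_vp hb hy] at h1
    exact (smul_left_injective K d.vp0 h1).symm
  have e5 : y' (a (a vm)) = y (a (b vm)) := by
    rw [← h, hy'b, ← Module.End.mul_apply, d.comm' hy' hy, Module.End.mul_apply]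
  rw [h3, map_zero, e4, e5] at e3
  -- combine
  have e6 : a (y (a (b vm))) = TT w vp vm b y • a (a vm) := by
    have h7 : (3 : K) • a (y (a (b vm))) = (3 : K) • TT w vp vm b y • a (a vm) := by
      linear_combination (norm := module) (-1 : K) • e3
    exact smul_right_injective V (three_ne_zero) h7
  rw [e6] at e1
  linear_combination (norm := module) (-1 : K) • e1

/-- An element of rank one has an opposite element of rank one. -/
theorem Dt.exists_f {e : End K V} (he : G L D 2 e) (he0 : e ≠ 0) (hee : e * e = 0) :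
    ∃ f, G L D (-2) f ∧ f * f = 0 ∧ TT w vp vm e f = 1 := by
  have hev : ∀ x, e (e x) = 0 := fun x => by
    rw [← Module.End.mul_apply, hee, LinearMap.zero_apply]
  obtain ⟨a, ha, hne⟩ : ∃ a, G L D 2 a ∧ e (a (a vm)) ≠ 0 := by
    by_contra hcon
    push Not at hcon
    have h1 : ∀ a b, G L D 2 a → G L D 2 b → e (a (b vm)) = 0 := by
      intro a b ha hb
      have e1 := hcon _ (ha.add hb)
      simp only [LinearMap.add_apply, map_add] at e1
      rw [hcon a ha, hcon b hb, d.comm_app hb ha vm] at e1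
      have e2 : (2 : K) • e (a (b vm)) = 0 := by
        linear_combination (norm := module) e1
      exact (smul_eq_zero.1 e2).resolve_left two_ne_zero
    apply he0
    refine d.inj he ?_
    refine d.nd1 (he.app' d.Em (by decide)) fun b hb => ?_
    refine d.nd2 (hb.app' (he.app' d.Em (c := -1) (by decide)) (by decide)) fun a ha => ?_
    have e1 := h1 a b ha hb
    rw [d.comm_app hb he vm, d.comm_app ha he]
    exact e1
  obtain ⟨n, hn⟩ := d.tp (a (a (a vm))) (ha.app' (ha.app' (ha.app' d.Em (c := -1) (by decide))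
    (c := 1) (by decide)) (by decide))
  obtain ⟨m, hm⟩ := d.tp (e (a (a vm))) (he.app' (ha.app' (ha.app' d.Em (c := -1) (by decide))
    (c := 1) (by decide)) (by decide))
  have hm0 : m ≠ 0 := by
    rintro rfl
    rw [zero_smul] at hm
    exact hne hm
  obtain ⟨t, ht⟩ : ∃ t, t = -n / (3 * m) := ⟨_, rfl⟩
  obtain ⟨a', ha'⟩ : ∃ a', a' = a + t • e := ⟨_, rfl⟩
  have ga' : G L D 2 a' := by
    rw [ha']
    exact ha.add (he.smul t)
  have haev : a (e vm) = e (a vm) := d.comm_app ha he vm
  have haeav : a (e (a vm)) = e (a (a vm)) := d.comm_app ha he _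
  have e1 : a' (a' vm) = a (a vm) + (2 * t) • e (a vm) := by
    rw [ha']
    simp only [LinearMap.add_apply, LinearMap.smul_apply, map_add, map_smul, hev, haev, smul_zero]
    module
  have e2 : e (a' (a' vm)) = m • vp := by
    rw [e1, map_add, map_smul, hev, smul_zero, add_zero, hm]
  have e3 : a' (a' (a' vm)) = 0 := by
    have hgen : ∀ x, a' x = a x + t • e x := fun x => by
      rw [ha']
      rfl
    have e4 : a' (a' (a' vm)) = a (a' (a' vm)) + t • e (a' (a' vm)) := hgen _
    rw [e4, e2, e1, map_add, map_smul, hn, haeav, hm, smul_smul, smul_smul, ← add_smul, ← add_smul]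
    have h5 : n + 2 * t * m + t * m = 0 := by
      rw [ht]
      field_simp
      ring
    rw [h5, zero_smul]
  obtain ⟨y, hy, hyv⟩ := d.V1' (y := a' (a' vm))
    (ga'.app' (ga'.app' d.Em (c := -1) (by decide)) (by decide))
  have hyy := d.sharp ga' hy e3 hyv.symm
  have hT : TT w vp vm e y = m := by
    have h1 := d.T_vp he hy
    rw [← hyv, e2] at h1
    exact (smul_left_injective K d.vp0 h1).symm
  refine ⟨m⁻¹ • y, hy.smul _, ?_, ?_⟩
  · rw [smul_mul_smul_comm, hyy, smul_zero]
  · unfold TT at hT ⊢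
    rw [mul_smul_comm, smul_mul_assoc, ← smul_sub, map_smul, hT, smul_eq_mul,
      inv_mul_cancel₀ hm0]

/-- A pair of opposite elements of rank one. -/
structure Ef (L : Submodule K (End K V)) (D : End K V) (vp vm : V) (e f : End K V) : Prop where
  ge : G L D 2 e
  gf : G L D (-2) f
  ee : e * e = 0
  ff : f * f = 0
  efe : e * f * e = e
  fef : f * e * f = f
  evm : f (e vm) = vm
  evp : e (f vp) = vp

theorem Dt.ef_of {e f : End K V} (he : G L D 2 e) (hf : G L D (-2) f) (hee : e * e = 0)
    (hff : f * f = 0) (hT : TT w vp vm e f = 1) : Ef L D vp vm e f := by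
  have h1 : f (e vm) = vm := by rw [d.T_vm he hf, hT, one_smul]
  have h2 : e (f vp) = vp := by rw [d.T_vp he hf, hT, one_smul]
  have gh : G L D 0 (e * f - f * e) := d.G_br' he hf (by decide)
  refine ⟨he, hf, hee, hff, ?_, ?_, h1, h2⟩
  · have h3 : G L D 2 ((e * f - f * e) * e - e * (e * f - f * e)) := d.G_br' gh he (by decide)
    have h4 : (e * f - f * e) * e - e * (e * f - f * e) = (2 : K) • (e * f * e) := by
      have h5 : (e * f - f * e) * e - e * (e * f - f * e) =
        (e * f * e + e * f * e) - f * (e * e) - (e * e) * f := by noncomm_ring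
      rw [h5, hee, mul_zero, zero_mul, sub_zero, sub_zero, two_smul]
    rw [h4] at h3
    have h5 := d.inj (h3.sub (he.smul 2)) (by
      rw [LinearMap.sub_apply, LinearMap.smul_apply, LinearMap.smul_apply, Module.End.mul_apply,
        Module.End.mul_apply, h1, sub_self])
    rw [← smul_sub] at h5
    exact sub_eq_zero.1 ((smul_eq_zero.1 h5).resolve_left two_ne_zero)
  · have h3 : G L D (-2) ((e * f - f * e) * f - f * (e * f - f * e)) :=
      d.G_br' gh hf (by decide)
    have h4 : (e * f - f * e) * f - f * (e * f - f * e) = (-2 : K) • (f * e * f) := by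
      have h5 : (e * f - f * e) * f - f * (e * f - f * e) =
        e * (f * f) - (f * e * f + f * e * f) + (f * f) * e := by noncomm_ring
      rw [h5, hff, mul_zero, zero_mul]
      module
    rw [h4] at h3
    have h5 := d.inj' (h3.sub (hf.smul (-2))) (by
      rw [LinearMap.sub_apply, LinearMap.smul_apply, LinearMap.smul_apply, Module.End.mul_apply,
        Module.End.mul_apply, h2, sub_self])
    rw [← smul_sub] at h5
    exact sub_eq_zero.1 ((smul_eq_zero.1 h5).resolve_left (by norm_num))

/-- There is a singular element. -/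
theorem Dt.exists_sing [IsAlgClosed K] (h2 : 2 ≤ finrank K (ES D 1)) :
    ∃ a, G L D 2 a ∧ a ≠ 0 ∧ a (a (a vm)) = 0 := by
  rw [← d.dims.1] at h2
  have hnt : Nontrivial (ES D (-1)) := Module.nontrivial_of_finrank_pos (R := K) (by omega)
  obtain ⟨x, hx⟩ := exists_ne (0 : ES D (-1))
  obtain ⟨y, hxy⟩ := exists_linearIndependent_pair_of_one_lt_finrank (R := K) (by omega) hx
  obtain ⟨a, ha, hax⟩ := d.Vm1 x.2
  obtain ⟨b, hb, hby⟩ := d.Vm1 y.2
  have hli : ∀ t : K, a + t • b ≠ 0 := by
    intro t h0
    have h1 : (x : V) + t • (y : V) = 0 := by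
      rw [hax, hby, ← LinearMap.smul_apply, ← LinearMap.add_apply, h0, LinearMap.zero_apply]
    have h3 : (1 : K) • x + t • y = 0 := by
      rw [one_smul]
      exact Subtype.ext h1
    exact one_ne_zero (LinearIndependent.pair_iff.1 hxy 1 t h3).1
  by_cases hb3 : b (b (b vm)) = 0
  · refine ⟨b, hb, ?_, hb3⟩
    rintro rfl
    have h3 : (0 : K) • x + (1 : K) • y = 0 := by
      rw [zero_smul, zero_add, one_smul]
      exact Subtype.ext hby
    exact one_ne_zero (LinearIndependent.pair_iff.1 hxy 0 1 h3).2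
  have hE : ∀ a b c, G L D 2 a → G L D 2 b → G L D 2 c → ∃ t : K, a (b (c vm)) = t • vp :=
    fun a b c ha hb hc => d.tp _ (ha.app' (hb.app' (hc.app' d.Em (c := -1) (by decide))
      (c := 1) (by decide)) (by decide))
  obtain ⟨c0, h0⟩ := hE a a a ha ha ha
  obtain ⟨c1, h1⟩ := hE a a b ha ha hb
  obtain ⟨c2, h2'⟩ := hE a b b ha hb hb
  obtain ⟨c3, h3⟩ := hE b b b hb hb hb
  have hc3 : c3 ≠ 0 := by
    rintro rfl
    rw [zero_smul] at h3
    exact hb3 h3
  obtain ⟨t, ht⟩ := IsAlgClosed.exists_root (Polynomial.C c3 * Polynomial.X ^ 3 +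
    Polynomial.C (3 * c2) * Polynomial.X ^ 2 + Polynomial.C (3 * c1) * Polynomial.X +
    Polynomial.C c0) (by
      rw [Polynomial.degree_cubic hc3]
      decide)
  refine ⟨a + t • b, ha.add (hb.smul t), hli t, ?_⟩
  have e1 : b (a vm) = a (b vm) := d.comm_app hb ha vm
  have e2 : b (a (a vm)) = a (a (b vm)) := by rw [d.comm_app hb ha, e1]
  have e3 : b (a (b vm)) = a (b (b vm)) := by rw [d.comm_app hb ha]
  simp only [LinearMap.add_apply, LinearMap.smul_apply, map_add, map_smul, e1, e2, e3, h0, h1,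
    h2', h3]
  have h5 : c0 + 3 * c1 * t + 3 * c2 * t ^ 2 + c3 * t ^ 3 = 0 := by
    have h6 := ht
    simp only [Polynomial.IsRoot.def, Polynomial.eval_add, Polynomial.eval_mul,
      Polynomial.eval_C, Polynomial.eval_pow, Polynomial.eval_X] at h6
    linear_combination h6
  have h6 : (c0 + 3 * c1 * t + 3 * c2 * t ^ 2 + c3 * t ^ 3) • vp = 0 := by
    rw [h5, zero_smul]
  linear_combination (norm := module) h6

/-- There is a pair of opposite elements of rank one. -/
theorem Dt.exists_ef [IsAlgClosed K] (h2 : 2 ≤ finrank K (ES D 1)) :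
    ∃ e f, Ef L D vp vm e f := by
  obtain ⟨a, ha, ha0, ha3⟩ := d.exists_sing h2
  obtain ⟨y, hy, hyv⟩ := d.V1' (y := a (a vm))
    (ha.app' (ha.app' d.Em (c := -1) (by decide)) (by decide))
  have hyy := d.sharp ha hy ha3 hyv.symm
  by_cases h0 : a (a vm) = 0
  · obtain ⟨f, hf, hff, hT⟩ := d.exists_f ha ha0 (d.sq0 ha h0)
    exact ⟨a, f, d.ef_of ha hf (d.sq0 ha h0) hff hT⟩
  · have hy0 : y ≠ 0 := by
      rintro rfl
      exact h0 hyv
    have gy : G L (-D) 2 y := by simpa using hy.neg
    obtain ⟨e, he, hee, hT⟩ := d.flip.exists_f gy hy0 hyy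
    have ge : G L D 2 e := by
      have h1 := he.neg
      rwa [neg_neg, neg_neg] at h1
    refine ⟨e, y, d.ef_of ge hy hee hyy ?_⟩
    have h3 := d.flip.T_vp gy he
    rw [hT, one_smul, d.T_vm ge hy] at h3
    have h4 : (TT w vp vm e y - 1) • vm = 0 := by
      rw [sub_smul, h3, one_smul, sub_self]
    exact sub_eq_zero.1 ((smul_eq_zero.1 h4).resolve_right d.vm0)

end Run7.h853.Cy
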