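import Mathlib
import Pool.Agent.Run7.h853.Cy.N1

/-!
# The pieces with respect to a pair of opposite elements of rank one
-/

set_option linter.unusedSectionVars false

namespace Run7.h853.Cy

open Module

variable {K V : Type*} [Field K] [CharZero K] [AddCommGroup V] [Module K V]
  [FiniteDimensional K V]

variable {L : Submodule K (End K V)} {D : End K V} {P : ℤ → End K V}
    {w : V →ₗ[K] V →ₗ[K] K} {vp vm : V} {e f : End K V}

/-- The elements of degree two and weight zero. -/
def J0 (L : Submodule K (End K V)) (D e f : End K V) : Submodule K (End K V) where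
  carrier := {a | G L D 2 a ∧ (e * f - f * e) * a = a * (e * f - f * e)}
  zero_mem' := ⟨G.zero, by simp⟩
  add_mem' := fun h1 h2 => ⟨h1.1.add h2.1, by rw [mul_add, add_mul, h1.2, h2.2]⟩
  smul_mem' := fun c _ h => ⟨h.1.smul c, by rw [mul_smul_comm, smul_mul_assoc, h.2]⟩

/-- The vectors of degree minus one and weight zero. -/
def W0 (D e f : End K V) : Submodule K V where
  carrier := {x | E D (-1) x ∧ e x = 0 ∧ f x = 0}
  zero_mem' := ⟨by unfold E; simp, map_zero _, map_zero _⟩
  add_mem' := fun h1 h2 => ⟨h1.1.add h2.1, by rw [map_add, h1.2.1, h2.2.1, add_zero],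
    by rw [map_add, h1.2.2, h2.2.2, add_zero]⟩
  smul_mem' := fun c _ h => ⟨h.1.smul c, by rw [map_smul, h.2.1, smul_zero],
    by rw [map_smul, h.2.2, smul_zero]⟩

section ef

variable (q : Ef L D vp vm e f)

include q

theorem Ef.eev (x : V) : e (e x) = 0 := by
  rw [← Module.End.mul_apply, q.ee, LinearMap.zero_apply]

theorem Ef.ffv (x : V) : f (f x) = 0 := by
  rw [← Module.End.mul_apply, q.ff, LinearMap.zero_apply]

theorem Ef.efev (x : V) : e (f (e x)) = e x := by
  have h := LinearMap.congr_fun q.efe x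
  simpa using h

theorem Ef.fefv (x : V) : f (e (f x)) = f x := by
  have h := LinearMap.congr_fun q.fef x
  simpa using h

theorem Ef.w0 {z : V} (hz : e (f z) = f (e z)) : e z = 0 ∧ f z = 0 := by
  constructor
  · have h1 := congrArg e hz
    rw [q.eev, q.efev] at h1
    exact h1.symm
  · have h1 := congrArg f hz
    rw [q.ffv, q.fefv] at h1
    exact h1

theorem Ef.wm {z : V} (hz : e (f z) - f (e z) = -z) : f z = 0 ∧ f (e z) = z := by
  have h1 := congrArg f hz
  rw [map_sub, q.fefv, q.ffv, sub_zero, map_neg] at h1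
  have h2 : (2 : K) • f z = 0 := by
    linear_combination (norm := module) h1
  have h3 := (smul_eq_zero.1 h2).resolve_left two_ne_zero
  refine ⟨h3, ?_⟩
  rw [h3, map_zero, zero_sub, neg_inj] at hz
  exact hz

theorem Ef.wp {z : V} (hz : e (f z) - f (e z) = z) : e z = 0 ∧ e (f z) = z := by
  have h1 := congrArg e hz
  rw [map_sub, q.eev, q.efev, zero_sub] at h1
  have h2 : (2 : K) • e z = 0 := by
    linear_combination (norm := module) -h1
  have h3 := (smul_eq_zero.1 h2).resolve_left two_ne_zero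
  refine ⟨h3, ?_⟩
  rw [h3, map_zero, sub_zero] at hz
  exact hz

end ef

variable (d : Dt L D P w vp vm) (q : Ef L D vp vm e f)

include d q

theorem Dt.h_vm : (e * f - f * e) vm = -vm := by
  rw [LinearMap.sub_apply, Module.End.mul_apply, Module.End.mul_apply, d.m_vm q.gf, q.evm, map_zero,
    zero_sub]

theorem Dt.h_vp : (e * f - f * e) vp = vp := by
  rw [LinearMap.sub_apply, Module.End.mul_apply, Module.End.mul_apply, d.p_vp q.ge, q.evp, map_zero,
    sub_zero]

omit d q in
theorem J0.app {a : End K V} (ha : a ∈ J0 L D e f) (x : V) :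
    (e * f - f * e) (a x) = a ((e * f - f * e) x) := by
  rw [← Module.End.mul_apply, ha.2, Module.End.mul_apply]

theorem J0.lo {a : End K V} (ha : a ∈ J0 L D e f) : f (a vm) = 0 ∧ f (e (a vm)) = a vm := by
  have h1 := J0.app ha vm
  rw [d.h_vm q, map_neg] at h1
  exact q.wm h1

/-- A vector of degree minus one and weight minus one. -/
theorem J0.of {x : V} (hx : E D (-1) x) (hfe : f (e x) = x) :
    ∃ a ∈ J0 L D e f, a vm = x := by
  obtain ⟨a, ha, hax⟩ := d.Vm1 hx
  refine ⟨a, ⟨ha, ?_⟩, hax.symm⟩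
  have gh : G L D 0 (e * f - f * e) := d.G_br' q.ge q.gf (by decide)
  have h1 : G L D 2 ((e * f - f * e) * a - a * (e * f - f * e)) := d.G_br' gh ha (by decide)
  rw [← sub_eq_zero]
  apply d.inj h1
  have hfx : f x = 0 := by
    rw [← hfe, q.ffv]
  rw [LinearMap.sub_apply, Module.End.mul_apply, Module.End.mul_apply, d.h_vm q, ← hax, map_neg,
    ← hax, LinearMap.sub_apply, Module.End.mul_apply, Module.End.mul_apply, hfx, hfe, map_zero]
  abel

/-- The dual element. -/
theorem J0.dual {c : End K V} (hc : c ∈ J0 L D e f) : ∃ y, G L D (-2) y ∧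
    (∀ x, (e * f - f * e) (y x) = y ((e * f - f * e) x)) ∧ y vp = e (c vm) := by
  obtain ⟨y, hy, hyc⟩ := d.V1' (y := e (c vm))
    (q.ge.app' (hc.1.app' d.Em (c := -1) (by decide)) (by decide))
  have gh : G L D 0 (e * f - f * e) := d.G_br' q.ge q.gf (by decide)
  have h1 : G L D (-2) ((e * f - f * e) * y - y * (e * f - f * e)) := d.G_br' gh hy (by decide)
  have h2 : (e * f - f * e) * y - y * (e * f - f * e) = 0 := by
    apply d.inj' h1
    have h3 := J0.lo d q hc
    rw [LinearMap.sub_apply, Module.End.mul_apply, Module.End.mul_apply, d.h_vp q, ← hyc,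
      LinearMap.sub_apply, Module.End.mul_apply, Module.End.mul_apply, q.eev, h3.2, map_zero]
    abel
  refine ⟨y, hy, fun x => ?_, hyc.symm⟩
  have h3 := LinearMap.congr_fun h2 x
  rw [LinearMap.zero_apply, LinearMap.sub_apply, sub_eq_zero] at h3
  exact h3

omit [FiniteDimensional K V] d q in
/-- The quadratic form. -/
noncomputable def QF (L : Submodule K (End K V)) (D : End K V) (w : V →ₗ[K] V →ₗ[K] K)
    (vp vm : V) (e f : End K V) : J0 L D e f →ₗ[K] J0 L D e f →ₗ[K] K :=
  LinearMap.mk₂ K (fun a c => w (e (a.1 (c.1 vm))) vm / w vp vm)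
    (fun a a' c => by
      change w (e (a.1 (c.1 vm) + a'.1 (c.1 vm))) vm / _ = _
      rw [map_add, map_add, LinearMap.add_apply, add_div])
    (fun t a c => by
      change w (e (t • a.1 (c.1 vm))) vm / _ = _
      rw [map_smul, map_smul, LinearMap.smul_apply, smul_eq_mul, smul_eq_mul, mul_div_assoc])
    (fun a c c' => by
      change w (e (a.1 (c.1 vm + c'.1 vm))) vm / _ = _
      rw [map_add, map_add, map_add, LinearMap.add_apply, add_div])
    (fun t a c => by
      change w (e (a.1 (t • c.1 vm))) vm / _ = _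
      rw [map_smul, map_smul, map_smul, LinearMap.smul_apply, smul_eq_mul, smul_eq_mul,
        mul_div_assoc])

theorem Dt.QF_e (a c : J0 L D e f) : e (a.1 (c.1 vm)) = QF L D w vp vm e f a c • vp := by
  obtain ⟨t, ht⟩ := d.tp (e (a.1 (c.1 vm))) (q.ge.app' (a.2.1.app' (c.2.1.app' d.Em (c := -1)
    (by decide)) (c := 1) (by decide)) (by decide))
  change _ = (w (e (a.1 (c.1 vm))) vm / w vp vm) • vp
  rw [ht, map_smul, LinearMap.smul_apply, smul_eq_mul, mul_div_cancel_right₀ _ d.nz]

theorem Dt.QF_f (a c : J0 L D e f) : a.1 (c.1 vm) = QF L D w vp vm e f a c • f vp := by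
  have h1 : (e * f - f * e) (a.1 (c.1 vm)) = -(a.1 (c.1 vm)) := by
    rw [J0.app a.2, J0.app c.2, d.h_vm q, map_neg, map_neg]
  have h2 := q.wm h1
  rw [← h2.2, d.QF_e q, map_smul]

theorem Dt.QF_symm (a c : J0 L D e f) :
    QF L D w vp vm e f a c = QF L D w vp vm e f c a := by
  change w (e (a.1 (c.1 vm))) vm / w vp vm = w (e (c.1 (a.1 vm))) vm / w vp vm
  rw [d.comm_app a.2.1 c.2.1]

theorem Dt.fvp0 : f vp ≠ 0 := by
  intro h
  have h1 := q.evp
  rw [h, map_zero] at h1
  exact d.vp0 h1.symm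

/-- Vectors of weight zero. -/
theorem W0.h {x : V} (hx : x ∈ W0 D e f) : (e * f - f * e) x = 0 := by
  rw [LinearMap.sub_apply, Module.End.mul_apply, Module.End.mul_apply, hx.2.1, hx.2.2, map_zero,
    map_zero, sub_zero]

theorem W0.J0 {x : V} (hx : x ∈ W0 D e f) {a : End K V} (ha : a ∈ J0 L D e f) :
    E D 1 (a x) ∧ e (a x) = 0 ∧ f (a x) = 0 := by
  refine ⟨ha.1.app' hx.1 (by decide), ?_⟩
  apply q.w0
  have h1 := J0.app ha x
  rw [W0.h d q hx, map_zero] at h1
  exact sub_eq_zero.1 h1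

/-- The elements of degree two are sums of a multiple of `e`, an element of weight zero, and an
element which maps the lowest vector to a vector of weight zero. -/
theorem Dt.dec3 {x : V} (hx : E D (-1) x) : ∃ (t : K) (a : J0 L D e f) (x' : V),
    x' ∈ W0 D e f ∧ x = t • e vm + a.1 vm + x' := by
  obtain ⟨t, ht⟩ := d.tm (f x) (q.gf.app' hx (by decide))
  obtain ⟨a, ha, hax⟩ := J0.of d q (x := f (e x))
    (q.gf.app' (q.ge.app' hx (c := 1) (by decide)) (by decide)) (by rw [q.efev])
  refine ⟨t, ⟨a, ha⟩, x - e (f x) - f (e x), ⟨?_, ?_, ?_⟩, ?_⟩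
  · have h1 : E D (-1) (e (f x)) := q.ge.app' (q.gf.app' hx (c := -3) (by decide)) (by decide)
    have h2 : E D (-1) (f (e x)) := q.gf.app' (q.ge.app' hx (c := 1) (by decide)) (by decide)
    have h3 := (hx.add (h1.smul (-1 : K))).add (h2.smul (-1 : K))
    rw [neg_one_smul, neg_one_smul, ← sub_eq_add_neg, ← sub_eq_add_neg] at h3
    exact h3
  · rw [map_sub, map_sub, q.eev, q.efev, sub_zero, sub_self]
  · rw [map_sub, map_sub, q.ffv, q.fefv, sub_self, sub_zero]
  · rw [← map_smul, ← ht]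
    change _ = e (f x) + a vm + _
    rw [hax]
    abel

/-- The Clifford relation of degree three. -/
theorem Dt.rel {x : V} (hx : x ∈ W0 D e f) (a a' c : J0 L D e f) {y : End K V}
    (hy : G L D (-2) y) (hyh : ∀ x, (e * f - f * e) (y x) = y ((e * f - f * e) x))
    (hyc : y vp = e (c.1 vm)) :
    a.1 (y (a'.1 x)) + a'.1 (y (a.1 x)) = QF L D w vp vm e f a c • a'.1 x +
      QF L D w vp vm e f a' c • a.1 x - QF L D w vp vm e f a a' • c.1 x := by
  obtain ⟨b, hb, rfl⟩ := d.Vm1 hx.1
  have h1 := d.star a.2.1 a'.2.1 hb hy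
  have hlhs : a.1 (a'.1 (b vm)) = 0 := by
    obtain ⟨t, ht⟩ := d.tp (a.1 (a'.1 (b vm))) (a.2.1.app' (a'.2.1.app' hx.1 (c := 1)
      (by decide)) (by decide))
    have h2 : (e * f - f * e) (a.1 (a'.1 (b vm))) = 0 := by
      rw [J0.app a.2, J0.app a'.2, W0.h d q hx, map_zero, map_zero]
    rw [ht, map_smul, d.h_vp q] at h2
    rw [ht, h2]
  have hTb : TT w vp vm b y = 0 := by
    have h2 := d.T_vm hb hy
    have h3 := hyh (b vm)
    rw [W0.h d q hx, map_zero, h2, map_smul, d.h_vm q, smul_neg, neg_eq_zero] at h3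
    exact (smul_eq_zero.1 h3).resolve_right d.vm0
  have hTa : ∀ a : J0 L D e f, TT w vp vm a.1 y = QF L D w vp vm e f a c := by
    intro a
    have h2 := d.T_vp a.2.1 hy
    have h3 : a.1 (y vp) = e (a.1 (c.1 vm)) := by
      rw [hyc, d.comm_app a.2.1 q.ge]
    rw [h3, d.QF_e q] at h2
    exact (smul_left_injective K d.vp0 h2).symm
  have h5 : b (y (a.1 (a'.1 vm))) = QF L D w vp vm e f a a' • c.1 (b vm) := by
    have h6 : y (f vp) = f (y vp) := by
      rw [← Module.End.mul_apply, d.comm' hy q.gf, Module.End.mul_apply]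
    rw [d.QF_f q, map_smul, map_smul, h6, hyc, (J0.lo d q c.2).2, d.comm_app hb c.2.1]
  rw [hlhs, map_zero, hTb, hTa, hTa, h5] at h1
  have h7 : b (y (a.1 (a'.1 vm))) = QF L D w vp vm e f a a' • c.1 (b vm) := h5
  linear_combination (norm := module) -h1

/-- The quadratic form is nondegenerate. -/
theorem Dt.QF_nondeg {r : J0 L D e f} (h : ∀ a, QF L D w vp vm e f a r = 0) : r = 0 := by
  have h1 : e (r.1 vm) = 0 := by
    refine d.nd2 (q.ge.app' (r.2.1.app' d.Em (c := -1) (by decide)) (by decide)) fun b hb => ?_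
    obtain ⟨t, a, x', hx', hx⟩ := d.dec3 q (x := b vm) (hb.app' d.Em (by decide))
    rw [d.comm_app hb q.ge, d.comm_app hb r.2.1, hx, map_add, map_add, map_add, map_add,
      map_smul, map_smul, d.comm_app r.2.1 q.ge, q.eev, smul_zero, zero_add,
      d.comm_app r.2.1 a.2.1, d.QF_e q, h, zero_smul, zero_add]
    exact (W0.J0 d q hx' r.2).2.1
  apply Subtype.ext
  apply d.inj r.2.1
  rw [← (J0.lo d q r.2).2, h1, map_zero]

/-- A vector of weight zero killed by all the elements of weight zero is zero. -/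
theorem Dt.W0_zero {x : V} (hx : x ∈ W0 D e f) (h : ∀ a : J0 L D e f, a.1 x = 0) : x = 0 := by
  obtain ⟨b, hb, rfl⟩ := d.Vm1 hx.1
  refine d.nd1 hx.1 fun b' hb' => ?_
  obtain ⟨t, a, x', hx', hx1⟩ := d.dec3 q (x := b' vm) (hb'.app' d.Em (by decide))
  have hcb := d.comm_app hb' hb vm
  rw [hcb, hx1, map_add, map_add, map_smul, d.comm_app hb q.ge, hx.2.1, smul_zero, zero_add,
    d.comm_app hb a.2.1, h, zero_add]
  -- the product of two vectors of weight zero
  obtain ⟨b1, hb1, hb1x⟩ := d.Vm1 hx'.1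
  rw [hb1x]
  have gh : G L D 0 (e * f - f * e) := d.G_br' q.ge q.gf (by decide)
  have hwt : ∀ b, G L D 2 b → (e * f - f * e) (b vm) = 0 →
      ((e * f - f * e) * b - b * (e * f - f * e)) = b := by
    intro b hb hb0
    have h1 : G L D 2 ((e * f - f * e) * b - b * (e * f - f * e)) := d.G_br' gh hb (by decide)
    rw [← sub_eq_zero]
    apply d.inj (h1.sub hb)
    rw [LinearMap.sub_apply, LinearMap.sub_apply, Module.End.mul_apply, Module.End.mul_apply, hb0,
      d.h_vm q, map_neg]
    abel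
  have hb0 : (e * f - f * e) (b vm) = 0 := W0.h d q hx
  have hb10 : (e * f - f * e) (b1 vm) = 0 := by
    rw [← hb1x]
    exact W0.h d q hx'
  have hz : (e * f - f * e) (b (b1 vm)) = b (b1 vm) := by
    have h1 := LinearMap.congr_fun (hwt b hb hb0) (b1 vm)
    rw [LinearMap.sub_apply, Module.End.mul_apply, Module.End.mul_apply, hb10, map_zero,
      sub_zero] at h1
    exact h1
  have hz2 := q.wp hz
  have hEz : E D (-1) (f (b (b1 vm))) :=
    q.gf.app' (hb.app' (hb1.app' d.Em (c := -1) (by decide)) (c := 1) (by decide)) (by decide)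
  obtain ⟨r, hr, hrx⟩ := J0.of d q hEz (by rw [hz2.2])
  have hr0 : (⟨r, hr⟩ : J0 L D e f) = 0 := by
    refine d.QF_nondeg q fun a => ?_
    have h1 := d.star hb hb1 a.2.1 q.gf
    have hfb : f (b vm) = 0 := hx.2.2
    have hfb1 : f (b1 vm) = 0 := by
      rw [← hb1x]
      exact hx'.2.2
    have hfa := (J0.lo d q a.2).1
    have T1 : TT w vp vm b f = 0 := by
      have h2 := d.T_vm hb q.gf
      rw [hfb] at h2
      exact (smul_eq_zero.1 h2.symm).resolve_right d.vm0
    have T2 : TT w vp vm b1 f = 0 := by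
      have h2 := d.T_vm hb1 q.gf
      rw [hfb1] at h2
      exact (smul_eq_zero.1 h2.symm).resolve_right d.vm0
    have T3 : TT w vp vm a.1 f = 0 := by
      have h2 := d.T_vm a.2.1 q.gf
      rw [hfa] at h2
      exact (smul_eq_zero.1 h2.symm).resolve_right d.vm0
    have h3 : b (a.1 vm) = 0 := by
      rw [d.comm_app hb a.2.1]
      exact h a
    have h4 : b (b1 (a.1 vm)) = 0 := by
      rw [d.comm_app hb hb1, h3, map_zero]
    have h5 : f (b1 (a.1 vm)) = 0 := by
      rw [d.comm_app hb1 a.2.1, ← hb1x]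
      exact (W0.J0 d q hx' a.2).2.2
    rw [h4, h5, h3, T1, T2, T3, map_zero, map_zero, map_zero, zero_smul, zero_smul, zero_smul,
      sub_zero, sub_zero, sub_zero, zero_add, zero_add, ← hrx] at h1
    have h6 := d.QF_f q a ⟨r, hr⟩
    have h7 : a.1 (r vm) = 0 := h1.symm
    rw [h7] at h6
    exact (smul_eq_zero.1 h6.symm).resolve_right (d.fvp0 q)
  have hr1 : r = 0 := congrArg Subtype.val hr0
  rw [← hz2.2, ← hrx, hr1, LinearMap.zero_apply, map_zero]

/-- A nonisotropic element is injective on the vectors of weight zero. -/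
theorem Dt.W0_inj {x : V} (hx : x ∈ W0 D e f) {a : J0 L D e f}
    (ha : QF L D w vp vm e f a a ≠ 0) (h : a.1 x = 0) : x = 0 := by
  refine d.W0_zero q hx fun c => ?_
  obtain ⟨y, hy, hyh, hyc⟩ := J0.dual d q c.2
  have h1 := d.rel q hx a a c hy hyh hyc
  rw [h, map_zero, map_zero, smul_zero, add_zero, zero_sub] at h1
  exact (smul_eq_zero.1 (neg_eq_zero.1 h1.symm)).resolve_left ha

theorem Dt.W0_back {x : V} (hx : x ∈ W0 D e f) (a : J0 L D e f) {y : End K V}
    (hy : G L D (-2) y) (hyh : ∀ x, (e * f - f * e) (y x) = y ((e * f - f * e) x)) :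
    y (a.1 x) ∈ W0 D e f := by
  have h1 := W0.J0 d q hx a.2
  refine ⟨hy.app' h1.1 (by decide), ?_⟩
  apply q.w0
  have h2 := hyh (a.1 x)
  rw [LinearMap.sub_apply, LinearMap.sub_apply, Module.End.mul_apply, Module.End.mul_apply,
    Module.End.mul_apply, Module.End.mul_apply, h1.2.1, h1.2.2, map_zero, map_zero, sub_zero,
    map_zero] at h2
  exact sub_eq_zero.1 h2

theorem Dt.W0_sq {x : V} (hx : x ∈ W0 D e f) {a : J0 L D e f}
    (ha : QF L D w vp vm e f a a ≠ 0) {y : End K V}
    (hy : G L D (-2) y) (hyh : ∀ x, (e * f - f * e) (y x) = y ((e * f - f * e) x))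
    (hyc : y vp = e (a.1 vm)) : y (a.1 x) = (QF L D w vp vm e f a a / 2) • x := by
  rw [← sub_eq_zero]
  refine d.W0_inj q (Submodule.sub_mem _ (d.W0_back q hx a hy hyh)
    (Submodule.smul_mem _ _ hx)) ha ?_
  have h1 := d.rel q hx a a a hy hyh hyc
  have h2 : (2 : K) • (a.1 (y (a.1 x)) - (QF L D w vp vm e f a a / 2) • a.1 x) = 0 := by
    linear_combination (norm := module) h1
  rw [map_sub, map_smul]
  exact (smul_eq_zero.1 h2).resolve_left two_ne_zero

end Run7.h853.Cy
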