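import Mathlib
import Pool.Agent.Run7.h853.Cy.N2

/-!
# Clifford modules and the list of dimensions
-/

set_option linter.unusedSectionVars false

namespace Run7.h853.Cy

open Module

universe u

/-- The dimension of a space with `n` anticommuting operators with nonzero scalar squares is
divisible by `2 ^ (n / 2)`. -/
theorem clifford {K : Type*} [Field K] [CharZero K] [IsAlgClosed K] (n : ℕ) :
    ∀ (W : Type u) [AddCommGroup W] [Module K W] [FiniteDimensional K W]
      (g : Fin n → End K W) (l : Fin n → K), (∀ i, l i ≠ 0) → (∀ i, g i * g i = l i • 1) →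
      (∀ i j, i ≠ j → g i * g j = -(g j * g i)) → 2 ^ (n / 2) ∣ finrank K W := by
  induction n using Nat.twoStepInduction with
  | zero => intro W _ _ _ g l _ _ _; simp
  | one => intro W _ _ _ g l _ _ _; simp
  | more n ih _ =>
    intro W _ _ _ g l hl hsq hac
    have hdiv : (n + 2) / 2 = n / 2 + 1 := by omega
    rw [hdiv, pow_succ, mul_comm]
    obtain ⟨t, ht⟩ : ∃ t, t = g 0 * g 1 := ⟨_, rfl⟩
    have h01 : (0 : Fin (n + 2)) ≠ 1 := by
      intro h
      exact absurd (congrArg Fin.val h) (by simp)
    have h10 : g 1 * g 0 = -(g 0 * g 1) := hac 1 0 (Ne.symm h01)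
    obtain ⟨m, hm⟩ := IsAlgClosed.exists_pow_nat_eq (-(l 0 * l 1)) (show 0 < 2 by norm_num)
    have hm0 : m ≠ 0 := by
      rintro rfl
      have h1 : -(l 0 * l 1) = 0 := by rw [← hm]; norm_num
      exact mul_ne_zero (hl 0) (hl 1) (neg_eq_zero.1 h1)
    have htt : t * t = (m * m) • 1 := by
      have h1 : t * t = g 0 * (g 1 * g 0) * g 1 := by
        rw [ht]
        noncomm_ring
      have h2 : g 0 * -(g 0 * g 1) * g 1 = -((g 0 * g 0) * (g 1 * g 1)) := by noncomm_ring
      rw [h1, h10, h2, hsq, hsq, smul_mul_smul_comm, mul_one, ← neg_smul, ← hm, sq]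
    have htg : t * g 0 = -(g 0 * t) := by
      have h1 : t * g 0 = g 0 * (g 1 * g 0) := by
        rw [ht]
        noncomm_ring
      rw [h1, h10, ht]
      noncomm_ring
    have httv : ∀ x, t (t x) = (m * m) • x := fun x => by
      have h1 := LinearMap.congr_fun htt x
      simpa using h1
    have htgv : ∀ x, t (g 0 x) = -g 0 (t x) := fun x => by
      have h1 := LinearMap.congr_fun htg x
      simpa using h1
    have hggv : ∀ x, g 0 (g 0 x) = l 0 • x := fun x => by
      have h1 := LinearMap.congr_fun (hsq 0) x
      simpa using h1
    -- the two eigenspaces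
    obtain ⟨W1, hW1⟩ : ∃ W1 : Submodule K W, ∀ x, x ∈ W1 ↔ t x = m • x :=
      ⟨{ carrier := {x | t x = m • x}
         zero_mem' := by simp
         add_mem' := fun {x y} hx hy => by
          change t (x + y) = m • (x + y)
          change t x = m • x at hx
          change t y = m • y at hy
          rw [map_add, hx, hy, smul_add]
         smul_mem' := fun c x hx => by
          change t (c • x) = m • (c • x)
          change t x = m • x at hx
          rw [map_smul, hx, smul_comm] }, fun x => Iff.rfl⟩
    obtain ⟨W2, hW2⟩ : ∃ W2 : Submodule K W, ∀ x, x ∈ W2 ↔ t x = -(m • x) :=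
      ⟨{ carrier := {x | t x = -(m • x)}
         zero_mem' := by simp
         add_mem' := fun {x y} hx hy => by
          change t (x + y) = -(m • (x + y))
          change t x = -(m • x) at hx
          change t y = -(m • y) at hy
          rw [map_add, hx, hy, smul_add, neg_add]
         smul_mem' := fun c x hx => by
          change t (c • x) = -(m • (c • x))
          change t x = -(m • x) at hx
          rw [map_smul, hx, smul_neg, smul_comm] }, fun x => Iff.rfl⟩
    have hcompl : IsCompl W1 W2 := by
      constructor
      · rw [Submodule.disjoint_def]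
        intro x h1 h2
        rw [hW1] at h1
        rw [hW2, h1] at h2
        have h3 : (2 * m) • x = 0 := by
          linear_combination (norm := module) h2
        exact (smul_eq_zero.1 h3).resolve_left (mul_ne_zero two_ne_zero hm0)
      · rw [codisjoint_iff, eq_top_iff]
        intro x _
        have h1 : x = (2 * m)⁻¹ • (m • x + t x) + (2 * m)⁻¹ • (m • x - t x) := by
          rw [← smul_add]
          have h2 : m • x + t x + (m • x - t x) = (2 * m) • x := by module
          rw [h2, smul_smul, inv_mul_cancel₀ (mul_ne_zero two_ne_zero hm0), one_smul]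
        rw [h1]
        refine Submodule.add_mem_sup ?_ ?_
        · refine Submodule.smul_mem _ _ ?_
          rw [hW1, map_add, map_smul, httv]
          module
        · refine Submodule.smul_mem _ _ ?_
          rw [hW2, map_sub, map_smul, httv]
          module
    have hle : finrank K W1 ≤ finrank K W2 := by
      refine LinearMap.finrank_le_finrank_of_injective
        (f := ((g 0).restrict (p := W1) (q := W2) ?_)) ?_
      · intro x hx
        rw [hW1] at hx
        rw [hW2, htgv, hx, map_smul]
      · intro x y hxy
        have h1 := congrArg Subtype.val hxy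
        have h2 : g 0 x = g 0 y := h1
        have h3 := congrArg (g 0) h2
        rw [hggv, hggv] at h3
        exact Subtype.ext (smul_right_injective W (hl 0) h3)
    have hge : finrank K W2 ≤ finrank K W1 := by
      refine LinearMap.finrank_le_finrank_of_injective
        (f := ((g 0).restrict (p := W2) (q := W1) ?_)) ?_
      · intro x hx
        rw [hW2] at hx
        rw [hW1, htgv, hx, map_neg, map_smul, neg_neg]
      · intro x y hxy
        have h1 := congrArg Subtype.val hxy
        have h2 : g 0 x = g 0 y := h1
        have h3 := congrArg (g 0) h2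
        rw [hggv, hggv] at h3
        exact Subtype.ext (smul_right_injective W (hl 0) h3)
    have hdim : finrank K W = 2 * finrank K W1 := by
      rw [← Submodule.finrank_add_eq_of_isCompl hcompl]
      omega
    rw [hdim]
    refine Nat.mul_dvd_mul_left 2 ?_
    -- the other operators
    have hcom : ∀ i : Fin n, t * g i.succ.succ = g i.succ.succ * t := by
      intro i
      have h0 : (0 : Fin (n + 2)) ≠ i.succ.succ := (Fin.succ_ne_zero _).symm
      have h1 : (1 : Fin (n + 2)) ≠ i.succ.succ := by
        intro h
        have h2 := congrArg Fin.val h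
        simp at h2
      have h2 : t * g i.succ.succ = g 0 * (g 1 * g i.succ.succ) := by
        rw [ht]
        noncomm_ring
      rw [h2, hac _ _ h1]
      have h3 : g 0 * -(g i.succ.succ * g 1) = -((g 0 * g i.succ.succ) * g 1) := by noncomm_ring
      rw [h3, hac _ _ h0, ht]
      noncomm_ring
    have hmap : ∀ i : Fin n, ∀ x ∈ W1, g i.succ.succ x ∈ W1 := by
      intro i x hx
      rw [hW1] at hx ⊢
      have h1 := LinearMap.congr_fun (hcom i) x
      rw [Module.End.mul_apply, Module.End.mul_apply, hx, map_smul] at h1
      exact h1
    refine ih W1 (fun i => (g i.succ.succ).restrict (hmap i)) (fun i => l i.succ.succ)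
      (fun i => hl _) (fun i => ?_) (fun i j hij => ?_)
    · refine LinearMap.ext fun x => Subtype.ext ?_
      have h1 := LinearMap.congr_fun (hsq i.succ.succ) x.1
      exact h1
    · refine LinearMap.ext fun x => Subtype.ext ?_
      have h1 := LinearMap.congr_fun (hac i.succ.succ j.succ.succ (fun h => hij
        (Fin.succ_injective _ (Fin.succ_injective _ h)))) x.1
      exact h1

/-- The numbers. -/
theorem list_of {p : ℕ} (hp : 2 ≤ p) (h : 2 ^ ((p - 1) / 2) ∣ 2 * p - 4) :
    p = 2 ∨ p = 3 ∨ p = 4 ∨ p = 6 ∨ p = 10 := by
  by_cases h10 : p ≤ 10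
  · interval_cases p <;> revert h <;> decide
  · exfalso
    push Not at h10
    have h1 : 2 * p - 4 < 2 ^ ((p - 1) / 2) := by
      obtain ⟨n, hn⟩ : ∃ n, n = (p - 1) / 2 := ⟨_, rfl⟩
      have h2 : 5 ≤ n := by omega
      have h3 : 2 * p - 4 ≤ 4 * n := by omega
      rw [← hn]
      have h4 : ∀ m, 5 ≤ m → 4 * m < 2 ^ m := by
        intro m hm
        induction m, hm using Nat.le_induction with
        | base => decide
        | succ m hm ih =>
          rw [pow_succ]
          omega
      have := h4 n h2
      omega
    have h2 := Nat.le_of_dvd (by omega) h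
    omega

end Run7.h853.Cy
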