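import Mathlib
import Pool.Agent.Run7.h853.Cy.N3

/-!
# The list of dimensions
-/

set_option linter.unusedSectionVars false

namespace Run7.h853.Cy

open Module

variable {K V : Type*} [Field K] [CharZero K] [AddCommGroup V] [Module K V]
  [FiniteDimensional K V]

variable {L : Submodule K (End K V)} {D : End K V} {P : ℤ → End K V}
    {w : V →ₗ[K] V →ₗ[K] K} {vp vm : V} {e f : End K V}

/-- The vectors of degree minus one and weight minus one. -/
def U0 (D e f : End K V) : Submodule K V where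
  carrier := {x | E D (-1) x ∧ f (e x) = x}
  zero_mem' := ⟨by unfold E; simp, by simp⟩
  add_mem' := fun h1 h2 => ⟨h1.1.add h2.1, by rw [map_add, map_add, h1.2, h2.2]⟩
  smul_mem' := fun c _ h => ⟨h.1.smul c, by rw [map_smul, map_smul, h.2]⟩

variable (d : Dt L D P w vp vm) (q : Ef L D vp vm e f)

include d q

theorem Dt.finU0 : finrank K (J0 L D e f) = finrank K (U0 D e f) := by
  let g : J0 L D e f →ₗ[K] U0 D e f :=
    { toFun := fun a => ⟨a.1 vm, a.2.1.app' d.Em (by decide), (J0.lo d q a.2).2⟩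
      map_add' := fun _ _ => rfl
      map_smul' := fun _ _ => rfl }
  have hg : Function.Bijective g := by
    constructor
    · intro a b hab
      have h1 : a.1 vm = b.1 vm := congrArg Subtype.val hab
      have h2 := d.inj (a.2.1.sub b.2.1) (by rw [LinearMap.sub_apply, h1, sub_self])
      exact Subtype.ext (sub_eq_zero.1 h2)
    · intro x
      obtain ⟨a, ha, hax⟩ := J0.of d q x.2.1 x.2.2
      exact ⟨⟨a, ha⟩, Subtype.ext hax⟩
  exact (LinearEquiv.ofBijective g hg).finrank_eq

theorem Dt.tr1 : LinearMap.trace K V (f * e * P (-1)) = (finrank K (U0 D e f) : K) := by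
  have h : LinearMap.IsProj (U0 D e f) (f * e * P (-1)) := by
    refine ⟨fun x => ⟨?_, ?_⟩, fun x hx => ?_⟩
    · exact q.gf.app' (q.ge.app' (d.P_eig (-1) x) (c := 1) (by decide)) (by decide)
    · change f (e (f (e (P (-1) x)))) = f (e (P (-1) x))
      rw [q.efev]
    · change f (e (P (-1) x)) = x
      rw [d.Pm1 hx.1, hx.2]
  exact h.trace

theorem Dt.evm0 : e vm ≠ 0 := by
  intro h
  have h1 := q.evm
  rw [h, map_zero] at h1
  exact d.vm0 h1.symm

theorem Dt.tr2 : LinearMap.trace K V (e * f * P (-1)) = 1 := by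
  have h : LinearMap.IsProj (Submodule.span K {e vm}) (e * f * P (-1)) := by
    refine ⟨fun x => ?_, fun x hx => ?_⟩
    · obtain ⟨t, ht⟩ := d.tm (f (P (-1) x)) (q.gf.app' (d.P_eig (-1) x) (by decide))
      change e (f (P (-1) x)) ∈ _
      rw [ht, map_smul]
      exact Submodule.smul_mem _ _ (Submodule.mem_span_singleton_self _)
    · obtain ⟨t, rfl⟩ := Submodule.mem_span_singleton.1 hx
      change e (f (P (-1) (t • e vm))) = t • e vm
      rw [d.Pm1 ((q.ge.app' d.Em (c := -1) (by decide)).smul t), map_smul, map_smul, q.evm]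
  rw [h.trace, finrank_span_singleton (d.evm0 q), Nat.cast_one]

theorem Dt.tr3 : LinearMap.trace K V (P (-1) - e * f * P (-1) - f * e * P (-1)) =
    (finrank K (W0 D e f) : K) := by
  have h : LinearMap.IsProj (W0 D e f) (P (-1) - e * f * P (-1) - f * e * P (-1)) := by
    refine ⟨fun x => ?_, fun x hx => ?_⟩
    · obtain ⟨z, hz⟩ : ∃ z, z = P (-1) x := ⟨_, rfl⟩
      have hzE : E D (-1) z := by
        rw [hz]
        exact d.P_eig (-1) x
      change P (-1) x - e (f (P (-1) x)) - f (e (P (-1) x)) ∈ _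
      rw [← hz]
      refine ⟨?_, ?_, ?_⟩
      · have h1 : E D (-1) (e (f z)) := q.ge.app' (q.gf.app' hzE (c := -3) (by decide)) (by decide)
        have h2 : E D (-1) (f (e z)) := q.gf.app' (q.ge.app' hzE (c := 1) (by decide)) (by decide)
        have h3 := (hzE.add (h1.smul (-1 : K))).add (h2.smul (-1 : K))
        rw [neg_one_smul, neg_one_smul, ← sub_eq_add_neg, ← sub_eq_add_neg] at h3
        exact h3
      · rw [map_sub, map_sub, q.eev, q.efev, sub_zero, sub_self]
      · rw [map_sub, map_sub, q.ffv, q.fefv, sub_self, sub_zero]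
    · change P (-1) x - e (f (P (-1) x)) - f (e (P (-1) x)) = x
      rw [d.Pm1 hx.1, hx.2.1, hx.2.2, map_zero, map_zero, sub_zero, sub_zero]
  exact h.trace

theorem Dt.dimW : finrank K (W0 D e f) + finrank K (J0 L D e f) + 1 = finrank K (ES D 1) := by
  have h1 := d.tr3 q
  rw [map_sub, map_sub, d.tr2 q, d.tr1 q, d.trP (a := -1) (fun x hx => d.Pm1 hx), d.dims.1,
    ← d.finU0 q] at h1
  have h2 : ((finrank K (W0 D e f) + finrank K (J0 L D e f) + 1 : ℕ) : K) =
      ((finrank K (ES D 1) : ℕ) : K) := by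
    push_cast
    rw [← h1]
    ring
  exact_mod_cast h2

theorem Dt.tr4 : LinearMap.trace K V (f * e) = (finrank K (J0 L D e f) : K) + 2 := by
  have h3 : f * e * P 3 = 0 := by
    refine LinearMap.ext fun x => ?_
    obtain ⟨t, ht⟩ := d.tp (P 3 x) (d.P_eig 3 x)
    change f (e (P 3 x)) = 0
    rw [ht, map_smul, d.p_vp q.ge, smul_zero, map_zero]
  have h1 : LinearMap.IsProj (Submodule.span K {f vp}) (f * e * P 1) := by
    refine ⟨fun x => ?_, fun x hx => ?_⟩
    · obtain ⟨t, ht⟩ := d.tp (e (P 1 x)) (q.ge.app' (d.P_eig 1 x) (by decide))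
      change f (e (P 1 x)) ∈ _
      rw [ht, map_smul]
      exact Submodule.smul_mem _ _ (Submodule.mem_span_singleton_self _)
    · obtain ⟨t, rfl⟩ := Submodule.mem_span_singleton.1 hx
      change f (e (P 1 (t • f vp))) = t • f vp
      rw [d.P1 ((q.gf.app' d.Ep (c := 1) (by decide)).smul t), map_smul, map_smul, q.evp]
  have h1t : LinearMap.trace K V (f * e * P 1) = 1 := by
    rw [h1.trace, finrank_span_singleton (d.fvp0 q), Nat.cast_one]
  have hm : LinearMap.IsProj (Submodule.span K {vm}) (f * e * P (-3)) := by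
    refine ⟨fun x => ?_, fun x hx => ?_⟩
    · obtain ⟨t, ht⟩ := d.tm (P (-3) x) (d.P_eig (-3) x)
      change f (e (P (-3) x)) ∈ _
      rw [ht, map_smul, map_smul, q.evm]
      exact Submodule.smul_mem _ _ (Submodule.mem_span_singleton_self _)
    · obtain ⟨t, rfl⟩ := Submodule.mem_span_singleton.1 hx
      change f (e (P (-3) (t • vm))) = t • vm
      rw [d.Pm3 (d.Em.smul t), map_smul, map_smul, q.evm]
  have hmt : LinearMap.trace K V (f * e * P (-3)) = 1 := by
    rw [hm.trace, finrank_span_singleton d.vm0, Nat.cast_one]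
  have h : f * e = f * e * P 3 + f * e * P 1 + f * e * P (-1) + f * e * P (-3) := by
    rw [← mul_add, ← mul_add, ← mul_add, d.tot, mul_one]
  rw [h, map_add, map_add, map_add, h3, map_zero, h1t, d.tr1 q, hmt, d.finU0 q]
  ring

/-- The relation between the dimensions. -/
theorem Dt.three_dim {s : K} (hs : ∀ Y ∈ L, chi w vp vm Y = s * LinearMap.trace K V (D * Y)) :
    finrank K (ES D 1) + 9 = 3 * (finrank K (J0 L D e f) + 2) := by
  have gh : G L D 0 (e * f - f * e) := d.G_br' q.ge q.gf (by decide)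
  have h1 := d.chi_vp gh
  rw [d.h_vp q] at h1
  have h2 : chi w vp vm (e * f - f * e) = 1 := by
    have h3 : (chi w vp vm (e * f - f * e) - 1) • vp = 0 := by
      rw [sub_smul, ← h1, one_smul, sub_self]
    exact sub_eq_zero.1 ((smul_eq_zero.1 h3).resolve_right d.vp0)
  have h3 := hs _ gh.1
  rw [h2, ← tr_br, q.ge.2, smul_mul_assoc, map_smul, LinearMap.trace_mul_comm, d.tr4 q,
    smul_eq_mul] at h3
  have h4 := hs D d.DL
  rw [d.chi_D, d.dims.2.2] at h4
  have h5 : ((finrank K (ES D 1) + 9 : ℕ) : K) = ((3 * (finrank K (J0 L D e f) + 2) : ℕ) : K) := by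
    push_cast at h3 ⊢
    have hs0 : s ≠ 0 := by
      rintro rfl
      rw [zero_mul] at h3
      exact one_ne_zero h3
    have h6 : s * (2 * ((finrank K (ES D 1) : K) + 9) -
        2 * (3 * ((finrank K (J0 L D e f) : K) + 2))) = 0 := by
      linear_combination -h4 + 3 * h3
    have h7 := (mul_eq_zero.1 h6).resolve_left hs0
    have h8 : (2 : K) ≠ 0 := two_ne_zero
    apply mul_left_cancel₀ h8
    linear_combination h7
  exact_mod_cast h5

/-- The divisibility. -/
theorem Dt.dvdW [IsAlgClosed K] :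
    2 ^ ((finrank K (J0 L D e f) - 1) / 2) ∣ finrank K (W0 D e f) := by
  have hinv : Invertible (2 : K) := invertibleOfNonzero two_ne_zero
  have hsymm : LinearMap.IsSymm (QF L D w vp vm e f) := ⟨fun a b => d.QF_symm q a b⟩
  obtain ⟨v, hv⟩ := LinearMap.BilinForm.exists_orthogonal_basis (B := QF L D w vp vm e f) hsymm
  have hsep : (QF L D w vp vm e f).SeparatingLeft := by
    intro r hr
    exact d.QF_nondeg q fun a => by
      rw [d.QF_symm q]
      exact hr a
  have hself := hv.not_isOrtho_basis_self_of_separatingLeft hsep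
  rcases Nat.eq_zero_or_pos (finrank K (J0 L D e f)) with h0 | hpos
  · rw [h0]
    simp
  obtain ⟨n, hn⟩ : ∃ n, finrank K (J0 L D e f) = n + 1 := ⟨_, (Nat.succ_pred_eq_of_pos hpos).symm⟩
  obtain ⟨u, hu⟩ : ∃ u : Fin (n + 1) → J0 L D e f, ∀ i, u i = v (Fin.cast hn.symm i) :=
    ⟨_, fun i => rfl⟩
  have hu1 : ∀ i, QF L D w vp vm e f (u i) (u i) ≠ 0 := fun i => by
    rw [hu]
    exact hself _
  have hu2 : ∀ i j, i ≠ j → QF L D w vp vm e f (u i) (u j) = 0 := fun i j hij => by
    rw [hu, hu]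
    exact hv fun h => hij (Fin.cast_injective _ h)
  obtain ⟨y, hy, hyh, hyc⟩ := J0.dual d q (u 0).2
  have hsq : ∀ x ∈ W0 D e f, y ((u 0).1 x) = (QF L D w vp vm e f (u 0) (u 0) / 2) • x :=
    fun x hx => d.W0_sq q hx (hu1 0) hy hyh hyc
  have hmap : ∀ i, ∀ x ∈ W0 D e f, (y * (u i).1) x ∈ W0 D e f :=
    fun i x hx => d.W0_back q hx (u i) hy hyh
  have key : ∀ i j : Fin n, ∀ x ∈ W0 D e f, y ((u i.succ).1 (y ((u j.succ).1 x))) +
      y ((u j.succ).1 (y ((u i.succ).1 x))) =
      -(QF L D w vp vm e f (u i.succ) (u j.succ) *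
        (QF L D w vp vm e f (u 0) (u 0) / 2)) • x := by
    intro i j x hx
    have h1 := d.rel q hx (u i.succ) (u j.succ) (u 0) hy hyh hyc
    rw [hu2 _ _ (Fin.succ_ne_zero i), hu2 _ _ (Fin.succ_ne_zero j), zero_smul, zero_smul,
      zero_add, zero_sub] at h1
    have h2 := congrArg y h1
    rw [map_add, map_neg, map_smul, hsq x hx] at h2
    rw [h2, smul_smul, neg_smul]
  rw [hn, Nat.add_sub_cancel]
  refine clifford n (W0 D e f) (fun i => (y * (u i.succ).1).restrict (hmap i.succ))
    (fun i => -(QF L D w vp vm e f (u i.succ) (u i.succ) *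
        (QF L D w vp vm e f (u 0) (u 0) / 2)) / 2) (fun i => ?_) (fun i => ?_)
    (fun i j hij => ?_)
  · exact div_ne_zero (neg_ne_zero.2 (mul_ne_zero (hu1 _) (div_ne_zero (hu1 0) two_ne_zero)))
      two_ne_zero
  · refine LinearMap.ext fun x => Subtype.ext ?_
    have h1 := key i i x.1 x.2
    change y ((u i.succ).1 (y ((u i.succ).1 x.1))) = (-(QF L D w vp vm e f (u i.succ) (u i.succ) *
        (QF L D w vp vm e f (u 0) (u 0) / 2)) / 2) • x.1
    linear_combination (norm := module) (2⁻¹ : K) • h1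
  · refine LinearMap.ext fun x => Subtype.ext ?_
    have h1 := key i j x.1 x.2
    rw [hu2 _ _ (fun h => hij (Fin.succ_injective _ h)), zero_mul, neg_zero, zero_smul] at h1
    exact eq_neg_of_add_eq_zero_left h1

omit q in
/-- The possible dimensions. -/
theorem Dt.list [IsAlgClosed K] {s : K}
    (hs : ∀ Y ∈ L, chi w vp vm Y = s * LinearMap.trace K V (D * Y)) :
    finrank K (ES D 1) ∈ ({1, 3, 6, 9, 15, 27} : Finset ℕ) := by
  have hpos : 0 < finrank K (ES D 1) := by
    rw [Nat.pos_iff_ne_zero]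
    intro h0
    obtain ⟨X, Y, Z, hX, hY, hZ, hne⟩ := d.exists3
    apply hne
    have h3 : Y (Z vm) ∈ ES D 1 := hY.app' (hZ.app' d.Em (c := -1) (by decide)) (by decide)
    rw [Submodule.finrank_eq_zero.1 h0, Submodule.mem_bot] at h3
    rw [h3, map_zero, map_zero, LinearMap.zero_apply]
  by_cases h1 : finrank K (ES D 1) = 1
  · rw [h1]
    decide
  obtain ⟨e, f, q⟩ := d.exists_ef (by omega)
  have h2 := d.three_dim q hs
  have h3 := d.dimW q
  have h4 := d.dvdW q
  obtain ⟨p, hp⟩ : ∃ p, p = finrank K (J0 L D e f) := ⟨_, rfl⟩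
  obtain ⟨m, hm⟩ : ∃ m, m = finrank K (ES D 1) := ⟨_, rfl⟩
  rw [← hp, ← hm] at h2 h3
  rw [← hp, show finrank K (W0 D e f) = 2 * p - 4 by omega] at h4
  rw [← hm] at h1 hpos ⊢
  rcases list_of (by omega) h4 with h | h | h | h | h <;> subst h
  · rw [show m = 3 by omega]; decide
  · rw [show m = 6 by omega]; decide
  · rw [show m = 9 by omega]; decide
  · rw [show m = 15 by omega]; decide
  · rw [show m = 27 by omega]; decide

end Run7.h853.Cy
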