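import Mathlib
import Pool.Agent.Run7.h853.Cy.Desc
import Pool.Agent.Run7.h853.Cy.Defs
import Pool.Agent.Run7.h853.Cy.N4
import Pool.Agent.Run7.h853.Cy.Simp
import Pool.Agent.Run7.h853.Cy.Rel1

/-!
# The Hodge Lie algebra of a Hodge structure of Calabi-Yau type of weight three
-/

set_option linter.unusedSectionVars false

namespace Run7.h853.Cy

open Matrix ComplexOrder Pool.Agent.W437.HC Pool.Agent.W437.HD Pool.Agent.W437.HP
  Pool.Agent.W437.HR Pool.Agent.W437.CY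

variable {q : ℕ}

theorem endQ_of_scalar {k N : ℕ} (V : PolHS k N) (hE : ScalarEnd V) : EndQ V.D := by
  intro M hM
  refine hE M fun p x hx => ?_
  apply V.mem_of_eig
  have h1 : V.D *ᵥ (cK ℂ M *ᵥ x) = cK ℂ M *ᵥ (V.D *ᵥ x) := by
    rw [mulVec_mulVec, mulVec_mulVec, hM]
  have h2 : V.D *ᵥ (cm M *ᵥ x) = V.D *ᵥ (cK ℂ M *ᵥ x) := rfl
  rw [h2, h1, V.D_vec hx, mulVec_smul]
  rfl

/-- Homogeneous elements shift the Hodge type. -/
theorem mem_shift {N : ℕ} (V : PolHS 3 N) {A : Matrix (Fin N) (Fin N) ℂ} {r : ℤ}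
    (hA : V.D * A - A * V.D = ((2 * r : ℤ) : ℂ) • A) : A ∈ shiftEnd V r := by
  intro p x hx
  by_cases h0 : A *ᵥ x = 0
  · rw [h0]
    exact Submodule.zero_mem _
  · have h1 := congrArg (fun B => B *ᵥ x) hA
    simp only [sub_mulVec, ← mulVec_mulVec, V.D_vec hx, mulVec_smul, smul_mulVec] at h1
    have h2 : V.D *ᵥ (A *ᵥ x) = ((2 * r + (2 * (p : ℤ) - (3 : ℕ)) : ℤ) : ℂ) • (A *ᵥ x) := by
      rw [Int.cast_add, add_smul, ← h1]
      abel
    obtain ⟨p', hp', hx'⟩ := V.eig_mem h2 h0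
    have h3 : (p' : ℤ) = p + r := by
      push_cast at hp'
      omega
    exact Submodule.mem_iSup_of_mem p' (Submodule.mem_iSup_of_mem h3 hx')

variable (V : PolHS 3 (2 * q + 2))

/-- The Lie algebra is the full symplectic Lie algebra. -/
theorem full_of (h1 : Module.finrank ℂ (V.H (Fin.last 3)) = 1) (hE : ScalarEnd V)
    (hT : ¬TensorType V) (hq : q ∉ ({1, 3, 6, 9, 15, 27} : Finset ℕ))
    (x y : Fin (2 * q + 2) → ℂ) :
    SS (cK ℂ V.Q) x y ∈ lieM V.D ℂ := by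
  have d := V.pol (by decide) (K := 3) (by norm_num)
  obtain ⟨v, hv0, hv⟩ := finrank_eq_one_iff'.1 h1
  have hv0' : (v : Fin (2 * q + 2) → ℂ) ≠ 0 := fun h => hv0 (Subtype.ext h)
  have hlast : (2 * ((Fin.last 3 : Fin (3 + 1)) : ℕ) : ℤ) - (3 : ℕ) = 3 := by
    rw [Fin.val_last]
    norm_num
  have hvD : V.D *ᵥ (v : Fin (2 * q + 2) → ℂ) = ((3 : ℤ) : ℂ) • (v : Fin (2 * q + 2) → ℂ) := by
    have h2 := V.D_vec v.2
    rwa [hlast] at h2
  have htop : ∀ x, V.D *ᵥ x = ((3 : ℤ) : ℂ) • x →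
      ∃ c : ℂ, x = c • (v : Fin (2 * q + 2) → ℂ) := by
    intro x hx
    have h2 : x ∈ V.H (Fin.last 3) := by
      apply V.mem_of_eig
      rw [hlast]
      exact hx
    obtain ⟨c, hc⟩ := hv ⟨x, h2⟩
    exact ⟨c, (congrArg Subtype.val hc).symm⟩
  have hEQ := endQ_of_scalar V hE
  by_cases hg : ∀ Y ∈ lieM V.D ℂ, ww (cK ℂ V.Q) v (Y *ᵥ (v : Fin (2 * q + 2) → ℂ)) = 0
  swap
  · push Not at hg
    obtain ⟨Y, hY, hne⟩ := hg
    exact full_of_ne d hEQ hv0' hvD htop hY hne x y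
  exfalso
  have dt := dt_of d hEQ hv0' hvD htop hg
  have hdim := dt.dims.2.1
  rw [Module.finrank_fintype_fun_eq_card, Fintype.card_fin] at hdim
  have hqf : Module.finrank ℂ (ES (Matrix.toLin' V.D) 1) = q := by omega
  obtain ⟨z, hzL, hz⟩ := dt.exists_z
  obtain ⟨hz0, hzc⟩ := dt.z_prop hzL hz
  by_cases hs : ∃ s : ℂ, z = s • Matrix.toLin' V.D
  · obtain ⟨s, hs⟩ := hs
    apply hq
    have h2 := dt.list (s := s) fun Y hY => by
      rw [← hz Y hY, hs, smul_mul_assoc, map_smul, smul_eq_mul]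
    rwa [hqf] at h2
  · push Not at hs
    obtain ⟨K1, R1, Km, Rm, hsp⟩ := dt.exists_split hz0 hzc hs
    obtain ⟨x0, y0, r0, hsl⟩ := dt.exists_sl hsp
    have h3 : Module.finrank ℂ (ES (Matrix.toLin' V.D) 1) ≠ 3 := by
      rw [hqf]
      rintro rfl
      exact hq (by decide)
    obtain ⟨a, b, I, J, ha, hb, hI, hJ, hIJ, hspan⟩ := exists_quat dt hsl h3
    apply hT
    refine ⟨a, b, I, J, ha, hb, hI, hJ, ?_, ?_⟩
    · rw [hIJ, neg_neg]
    obtain ⟨T, hTd⟩ : ∃ T, T = Submodule.span ℂ {cm I, cm J, cm (I * J)} := ⟨_, rfl⟩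
    have hTm : ∀ M, M ∈ T ↔ Matrix.toLin' M ∈ idl x0 y0 := by
      intro M
      rw [← hspan, hTd]
      have e1 : ({Matrix.toLin' (cK ℂ I), Matrix.toLin' (cK ℂ J),
          Matrix.toLin' (cK ℂ (I * J))} : Set (Module.End ℂ (Fin (2 * q + 2) → ℂ))) =
          (Matrix.toLin' : Matrix _ _ ℂ ≃ₗ[ℂ] _).toLinearMap '' {cm I, cm J, cm (I * J)} := by
        rw [Set.image_insert_eq, Set.image_insert_eq, Set.image_singleton]
        rfl
      rw [e1, ← Submodule.map_span]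
      constructor
      · intro h
        exact ⟨M, h, rfl⟩
      · rintro ⟨M', h, hM'⟩
        rwa [← Matrix.toLin'.injective hM']
    rw [← hTd]
    obtain ⟨x', hx'⟩ := toLin_surj x0
    obtain ⟨y', hy'⟩ := toLin_surj y0
    have hgr : ∀ {a : ℤ} {X : Matrix (Fin (2 * q + 2)) (Fin (2 * q + 2)) ℂ},
        G (LE V.D) (Matrix.toLin' V.D) a (Matrix.toLin' X) →
        V.D * X - X * V.D = (a : ℂ) • X := by
      intro a X hX
      have e1 := hX.2
      rw [br_toLin, ← map_smul] at e1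
      exact Matrix.toLin'.injective e1
    have hx1 : x' ∈ shiftEnd V 1 := by
      apply mem_shift
      have e1 := hsl.gx
      rw [hx'] at e1
      exact hgr e1
    have hy1 : y' ∈ shiftEnd V (-1) := by
      apply mem_shift
      have e1 := hsl.gy
      rw [hy'] at e1
      exact hgr e1
    have hh1 : x' * y' - y' * x' ∈ shiftEnd V 0 := by
      apply mem_shift
      have e1 := hsl.gh dt
      rw [hx', hy', br_toLin] at e1
      exact hgr e1
    have hxT : x' ∈ T := by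
      rw [hTm, ← hx']
      exact x_mem_idl
    have hyT : y' ∈ T := by
      rw [hTm, ← hy']
      exact y_mem_idl
    have hhT : x' * y' - y' * x' ∈ T := by
      rw [hTm, ← br_toLin, ← hx', ← hy']
      exact h_mem_idl
    intro M hM
    rw [hTm, mem_idl] at hM
    obtain ⟨k, l, m, hM⟩ := hM
    have hM' : M = k • x' + l • y' + m • (x' * y' - y' * x') := by
      apply Matrix.toLin'.injective
      rw [hM, map_add, map_add, map_smul, map_smul, map_smul, ← br_toLin, ← hx', ← hy']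
    rw [hM']
    refine Submodule.add_mem _ (Submodule.add_mem _ ?_ ?_) ?_
    · exact Submodule.smul_mem _ _ (Submodule.mem_iSup_of_mem 1 ⟨hxT, hx1⟩)
    · exact Submodule.smul_mem _ _ (Submodule.mem_iSup_of_mem (-1) ⟨hyT, hy1⟩)
    · exact Submodule.smul_mem _ _ (Submodule.mem_iSup_of_mem 0 ⟨hhT, hh1⟩)

/-- The Hodge structure is simple and has a good vector. -/
theorem gd_of (h1 : Module.finrank ℂ (V.H (Fin.last 3)) = 1) (hE : ScalarEnd V)
    (hT : ¬TensorType V) (hq : q ∉ ({1, 3, 6, 9, 15, 27} : Finset ℕ)) : Gd V := by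
  have d := V.pol (by decide) (K := 3) (by norm_num)
  refine ⟨?_, ?_⟩
  · intro U hU
    refine simpleD_of_endQ d (endQ_of_scalar V hE) U ?_
    intro x hx
    have h2 := hU hx
    clear hx
    induction h2 using Submodule.iSup_induction' with
    | mem p x hx =>
      rw [V.D_vec hx.2]
      exact Submodule.smul_mem _ _ hx.1
    | zero =>
      rw [mulVec_zero]
      exact Submodule.zero_mem _
    | add x y _ _ h3 h4 =>
      rw [mulVec_add]
      exact Submodule.add_mem _ h3 h4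
  · obtain ⟨v, hv0, hv⟩ := finrank_eq_one_iff'.1 h1
    have hv0' : (v : Fin (2 * q + 2) → ℂ) ≠ 0 := fun h => hv0 (Subtype.ext h)
    have hlast : (2 * ((Fin.last 3 : Fin (3 + 1)) : ℕ) : ℤ) - (3 : ℕ) = 3 := by
      rw [Fin.val_last]
      norm_num
    have hvD : V.D *ᵥ (v : Fin (2 * q + 2) → ℂ) = ((3 : ℤ) : ℂ) • (v : Fin (2 * q + 2) → ℂ) := by
      have h2 := V.D_vec v.2
      rwa [hlast] at h2
    refine ⟨v, v.2, full_of V h1 hE hT hq _ _, cj v, full_of V h1 hE hT hq _ _, ?_⟩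
    intro h
    have h2 := d.pos 3 v hvD hv0'
    rw [h, mul_zero] at h2
    exact lt_irrefl _ h2

end Run7.h853.Cy
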