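import Mathlib
import Pool.Agent.Run7.h853.Cy.Rm3

/-!
# The abstract data on the part which contains the top vector
-/

set_option linter.unusedSectionVars false

namespace Run7.h853.Cy

open Matrix ComplexOrder Pool.Agent.W437.HC Pool.Agent.W437.HD Pool.Agent.W437.HP
  Pool.Agent.W437.HR Pool.Agent.W437.CY

variable {B : Type} [Fintype B] [DecidableEq B] {D : Matrix B B ℂ} {Om : Matrix B B ℚ}
  {S : Finset ℤ} {P : ℤ → Matrix B B ℂ}

/-- The restriction of a matrix to a subspace. -/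
noncomputable def rW (W : Submodule ℂ (B → ℂ)) (X : Matrix B B ℂ) (h : ∀ x ∈ W, X *ᵥ x ∈ W) :
    Module.End ℂ W := (Matrix.toLin' X).restrict h

theorem rW_coe {W : Submodule ℂ (B → ℂ)} {X : Matrix B B ℂ} {h : ∀ x ∈ W, X *ᵥ x ∈ W} (x : W) :
    ((rW W X h x : W) : B → ℂ) = X *ᵥ (x : B → ℂ) := rfl

/-- The restrictions of the elements of the Lie algebra. -/
def LR (D : Matrix B B ℂ) (W : Submodule ℂ (B → ℂ)) : Submodule ℂ (Module.End ℂ W) where
  carrier := {f | ∃ X ∈ lieM D ℂ, ∀ x : W, ((f x : W) : B → ℂ) = X *ᵥ (x : B → ℂ)}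
  zero_mem' := ⟨0, Submodule.zero_mem _, fun x => by
    rw [zero_mulVec]
    rfl⟩
  add_mem' := by
    rintro f g ⟨X, hX, hf⟩ ⟨Y, hY, hg⟩
    refine ⟨X + Y, Submodule.add_mem _ hX hY, fun x => ?_⟩
    rw [LinearMap.add_apply, Submodule.coe_add, hf, hg, add_mulVec]
  smul_mem' := by
    rintro c f ⟨X, hX, hf⟩
    refine ⟨c • X, Submodule.smul_mem _ _ hX, fun x => ?_⟩
    rw [LinearMap.smul_apply, Submodule.coe_smul, hf, smul_mulVec]

theorem mem_LR {W : Submodule ℂ (B → ℂ)} {f : Module.End ℂ W} : f ∈ LR D W ↔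
    ∃ X ∈ lieM D ℂ, ∀ x : W, ((f x : W) : B → ℂ) = X *ᵥ (x : B → ℂ) := Iff.rfl

theorem rW_mem {W : Submodule ℂ (B → ℂ)} {X : Matrix B B ℂ} (hX : X ∈ lieM D ℂ)
    (h : ∀ x ∈ W, X *ᵥ x ∈ W) : rW W X h ∈ LR D W := ⟨X, hX, fun _ => rfl⟩

/-- The trace of a product of restrictions. -/
theorem trace_rW {W : Submodule ℂ (B → ℂ)} {p X : Matrix B B ℂ} (hp1 : ∀ x ∈ W, p *ᵥ x = x)
    (hp2 : ∀ x, p *ᵥ x ∈ W) {f : Module.End ℂ W}
    (hf : ∀ x : W, ((f x : W) : B → ℂ) = X *ᵥ (x : B → ℂ)) :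
    LinearMap.trace ℂ W f = trace (p * X) := by
  have h1 : ∀ x, Matrix.toLin' (p * X) x ∈ W := fun x => by
    rw [Matrix.toLin'_apply, ← mulVec_mulVec]
    exact hp2 _
  have h2 : f = (Matrix.toLin' (p * X)).restrict (fun x _ => h1 x) := by
    refine LinearMap.ext fun x => Subtype.ext ?_
    rw [LinearMap.coe_restrict_apply, Matrix.toLin'_apply, ← mulVec_mulVec, ← hf, hp1 _ (f x).2]
  rw [h2, LinearMap.trace_restrict_eq_of_forall_mem _ _ h1,
    LinearMap.trace_eq_matrix_trace ℂ (Pi.basisFun ℂ B)]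
  congr 1
  exact LinearMap.toMatrix'_toLin' _

theorem rat_map (Om : Matrix B B ℚ) (σ : ℂ →+* ℂ) : (cK ℂ Om).map σ = cK ℂ Om := by
  ext i j
  simp [cK]

/-- A Hodge structure of weight three of Calabi-Yau type with totally real multiplication whose Lie
algebra has no elements of degree three gives the abstract data. -/
theorem Rm.dt {v : B → ℂ} (r : Rm D Om (Finset.Icc (-3) 3) P 3 v)
    (hg : ∀ Y ∈ lieM D ℂ, ww (cK ℂ Om) v (Y *ᵥ v) = 0) :
    Dt (LR D (MP D v)) (rW (MP D v) D (fun _ hx => r.stable (D_mem D) hx))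
      (fun a => rW (MP D v) (P a) (fun _ hx =>
        r.pol.prj.stable (fun _ hy => r.stable (D_mem D) hy) a hx))
      ((wwL (cK ℂ Om)).compl₁₂ (MP D v).subtype (MP D v).subtype)
      ⟨v, r.self_mem⟩ ⟨cj v, r.cj_mem r.self_mem⟩ where
  br := by
    rintro f ⟨X, hX, hf⟩ g ⟨Y, hY, hg⟩
    refine ⟨X * Y - Y * X, lieM_bracket D hX hY, fun x => ?_⟩
    rw [LinearMap.sub_apply, Submodule.coe_sub, Module.End.mul_apply, Module.End.mul_apply, hf,
      hg, hg, hf, sub_mulVec, mulVec_mulVec, mulVec_mulVec]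
  DL := rW_mem (D_mem D) _
  gr := by
    rintro f ⟨X, hX, hf⟩
    refine ⟨fun a => rW (MP D v) (cmp (Finset.Icc (-3) 3) P X a)
      (fun x hx => r.stable (cmp_mem r.pol.prj hX a) hx), fun a => ⟨rW_mem
        (cmp_mem r.pol.prj hX a) _, ?_⟩, ?_⟩
    · refine LinearMap.ext fun x => Subtype.ext ?_
      have h1 := congrArg (fun Z : Matrix B B ℂ => Z *ᵥ (x : B → ℂ)) (cmp_br r.pol.prj X a)
      simp only [sub_mulVec, ← mulVec_mulVec, smul_mulVec] at h1
      exact h1
    · refine LinearMap.ext fun x => Subtype.ext ?_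
      rw [hf, LinearMap.sum_apply, Submodule.coe_sum]
      conv_lhs => rw [cmp_sum r.pol.prj X, sum_mulVec]
      rfl
  anti := fun x y => ww_anti r.pol.skewC (x : B → ℂ) y
  nd := fun x hx => by
    apply Subtype.ext
    exact disj_of_stable r.pol (fun y hy => r.stable (D_mem D) hy) (fun y hy => r.cj_mem hy)
      x.2 fun z hz => hx ⟨z, hz⟩
  sp := by
    rintro f ⟨X, hX, hf⟩ x y
    rw [LinearMap.compl₁₂_apply, LinearMap.compl₁₂_apply, wwL_apply, wwL_apply,
      Submodule.subtype_apply, Submodule.subtype_apply, Submodule.subtype_apply,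
      Submodule.subtype_apply, hf, hf]
    exact ww_sp (spC r.pol hX) x y
  tot := by
    have h1 := r.pol.prj.tot
    have h2 : (Finset.Icc (-3 : ℤ) 3) = {3, 2, 1, 0, -1, -2, -3} := by decide
    rw [h2] at h1
    rw [Finset.sum_insert (by decide), Finset.sum_insert (by decide),
      Finset.sum_insert (by decide), Finset.sum_insert (by decide),
      Finset.sum_insert (by decide), Finset.sum_insert (by decide), Finset.sum_singleton,
      r.pol.P_zero_of_not_odd (a := 2) (by decide), r.pol.P_zero_of_not_odd (a := 0) (by decide),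
      r.pol.P_zero_of_not_odd (a := -2) (by decide), zero_add, zero_add, zero_add] at h1
    refine LinearMap.ext fun x => Subtype.ext ?_
    have h3 := congrArg (fun Z : Matrix B B ℂ => Z *ᵥ (x : B → ℂ)) h1
    simp only [add_mulVec, one_mulVec] at h3
    change P 3 *ᵥ (x : B → ℂ) + P 1 *ᵥ (x : B → ℂ) + P (-1) *ᵥ (x : B → ℂ) +
      P (-3) *ᵥ (x : B → ℂ) = x
    conv_rhs => rw [← h3]
    abel
  Pl := fun a => by
    refine LinearMap.ext fun x => Subtype.ext ?_
    have h1 := congrArg (fun Z : Matrix B B ℂ => Z *ᵥ (x : B → ℂ)) (r.pol.prj.left a)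
    simp only [← mulVec_mulVec, smul_mulVec] at h1
    exact h1
  Pr := fun a => by
    refine LinearMap.ext fun x => Subtype.ext ?_
    have h1 := congrArg (fun Z : Matrix B B ℂ => Z *ᵥ (x : B → ℂ)) (r.pol.prj.right a)
    simp only [← mulVec_mulVec, smul_mulVec] at h1
    exact h1
  ep := Subtype.ext r.ev
  em := Subtype.ext (r.pol.cj_eig r.ev)
  tp := fun x hx => by
    obtain ⟨c, hc⟩ := r.top (x : B → ℂ) (congrArg Subtype.val hx)
    exact ⟨c, Subtype.ext hc⟩
  tm := fun x hx => by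
    have hx' : D *ᵥ (x : B → ℂ) = ((-3 : ℤ) : ℂ) • (x : B → ℂ) := congrArg Subtype.val hx
    obtain ⟨c, hc⟩ := r.top (cj (x : B → ℂ)) (by
      have h1 := r.pol.cj_eig hx'
      simpa using h1)
    refine ⟨starRingEnd ℂ c, Subtype.ext ?_⟩
    change (x : B → ℂ) = starRingEnd ℂ c • cj v
    rw [← cj_smul, ← hc, cj_cj]
  nz := r.nz
  irr := fun U hU => by
    by_cases hU0 : U = ⊥
    · exact Or.inl hU0
    · right
      have h1 := r.irr (U.map (MP D v).subtype) (fun X hX x hx => by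
        obtain ⟨u, hu, rfl⟩ := hx
        exact ⟨_, hU _ (rW_mem hX (fun _ hx => r.stable hX hx)) u hu, rfl⟩)
        (Submodule.map_subtype_le _ _) (by
          intro h
          apply hU0
          rw [Submodule.eq_bot_iff]
          intro x hx
          have h2 : (x : B → ℂ) ∈ U.map (MP D v).subtype := ⟨x, hx, rfl⟩
          rw [h, Submodule.mem_bot] at h2
          exact Subtype.ext h2)
      rw [eq_top_iff]
      intro x _
      obtain ⟨u, hu, hux⟩ := h1 x.2
      have h2 : u = x := Subtype.ext hux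
      rwa [← h2]
  tr := by
    rintro f ⟨X, hX, hf⟩ h
    obtain ⟨p, hp1, hp2, hp3, hp4, hp5⟩ := r.exists_p
    have hpp : p * p = p := mat_ext fun x => by
      rw [← mulVec_mulVec, hp2 _ (hp3 x)]
    have h1 := tr_zero_of r.pol hp1 hpp hp4 hp5 hX fun Y hY => by
      rw [mul_assoc, ← trace_rW (f := f * rW (MP D v) Y (fun _ hx => r.stable hY hx)) hp2 hp3
        fun x => by
          rw [Module.End.mul_apply, hf, rW_coe, mulVec_mulVec]]
      exact h _ (rW_mem hY _)
    refine LinearMap.ext fun x => Subtype.ext ?_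
    rw [hf]
    have h2 : X *ᵥ (x : B → ℂ) = (p * X) *ᵥ (x : B → ℂ) := by
      rw [← mulVec_mulVec, hp2 _ (r.stable hX x.2)]
    rw [h2, h1, zero_mulVec]
    rfl
  trz := by
    rintro f ⟨X, hX, hf⟩
    obtain ⟨p, hp1, hp2, hp3, hp4, hp5⟩ := r.exists_p
    rw [trace_rW hp2 hp3 hf]
    refine tr_zero (unitC r.pol) ?_
    have h1 := spC r.pol hX
    rw [← hp1 X hX, transpose_mul, mul_assoc, eq_neg_of_add_eq_zero_left h1, mul_neg,
      ← mul_assoc, hp4, mul_assoc, ← hp1 X hX]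
    exact neg_add_cancel _
  g3 := by
    rintro f ⟨X, hX, hf⟩
    rw [LinearMap.compl₁₂_apply, wwL_apply, Submodule.subtype_apply, Submodule.subtype_apply, hf]
    change ww (cK ℂ Om) (X *ᵥ cj v) (cj v) = 0
    have h1 := hg _ (conj_mem hX)
    have h2 := congrArg (starRingEnd ℂ) h1
    rw [ww_map (rat_map Om _), map_zero] at h2
    have h3 : (fun i => starRingEnd ℂ ((X.map (starRingEnd ℂ) *ᵥ v) i)) = X *ᵥ cj v := by
      have h4 := cj_mulVec (X.map (starRingEnd ℂ)) v
      have h5 : (X.map (starRingEnd ℂ)).map (starRingEnd ℂ) = X := by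
        ext i j
        simp
      rw [h5] at h4
      exact h4
    rw [h3] at h2
    rw [ww_anti r.pol.skewC]
    have h4 : ww (cK ℂ Om) (cj v) (X *ᵥ cj v) = 0 := h2
    rw [h4, neg_zero]
  g3' := by
    rintro f ⟨X, hX, hf⟩
    rw [LinearMap.compl₁₂_apply, wwL_apply, Submodule.subtype_apply, Submodule.subtype_apply, hf]
    change ww (cK ℂ Om) (X *ᵥ v) v = 0
    rw [ww_anti r.pol.skewC, hg X hX, neg_zero]

end Run7.h853.Cy
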