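import Mathlib
import Pool.Agent.Run7.h853.Cy.Rm2

/-!
# The dimension of the part which contains the top vector
-/

set_option linter.unusedSectionVars false

namespace Run7.h853.Cy

open Matrix ComplexOrder Pool.Agent.W437.HC Pool.Agent.W437.HD Pool.Agent.W437.HP
  Pool.Agent.W437.HR Pool.Agent.W437.CY

variable {B : Type} [Fintype B] [DecidableEq B]

/-- The dimension of the eigenspace of a field of endomorphisms. -/
theorem finrank_eig {F : Type} [Field F] [CharZero F] (f : F →+* Matrix B B ℚ) (χ : F →+* ℂ)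
    (W : Submodule ℂ (B → ℂ)) (hW : ∀ x, x ∈ W ↔ ∀ a : F, cK ℂ (f a) *ᵥ x = χ a • x) :
    Module.finrank ℂ W * Module.finrank ℚ F = Fintype.card B := by
  classical
  let g : F →+* Module.End ℚ (B → ℚ) :=
    { toFun := fun a => Matrix.toLin' (f a)ᵀ
      map_one' := by
        rw [map_one, transpose_one, Matrix.toLin'_one]
        rfl
      map_mul' := fun a b => by
        rw [mul_comm a b, map_mul, transpose_mul, Matrix.toLin'_mul]
        rfl
      map_zero' := by rw [map_zero, transpose_zero, map_zero]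
      map_add' := fun a b => by rw [map_add, transpose_add, map_add] }
  have hg : ∀ a x, g a x = (f a)ᵀ *ᵥ x := fun a x => rfl
  let iM : Module F (B → ℚ) := Module.compHom (B → ℚ) g
  have hsm : ∀ (a : F) (x : B → ℚ), a • x = (f a)ᵀ *ᵥ x := fun a x => rfl
  have : IsScalarTower ℚ F (B → ℚ) := ⟨fun q a x => by
    rw [hsm, hsm, ← hg, map_rat_smul, LinearMap.smul_apply, hg]⟩
  let iC : Module F ℂ := Module.compHom ℂ χ
  have hsc : ∀ (a : F) (z : ℂ), a • z = χ a * z := fun a z => rfl
  have : SMulCommClass F ℂ ℂ := ⟨fun a z w => by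
    rw [hsc, hsc, smul_eq_mul, smul_eq_mul]
    ring⟩
  have : Module.Finite F (B → ℚ) := Module.Finite.of_restrictScalars_finite ℚ F (B → ℚ)
  have key : ∀ (M : Matrix B B ℚ) (x : B → ℂ) (y : B → ℚ),
      ∑ i, (((Mᵀ *ᵥ y) i : ℚ) : ℂ) * x i = ∑ i, (y i : ℂ) * (cK ℂ M *ᵥ x) i := by
    intro M x y
    have h1 : ∀ i, (((Mᵀ *ᵥ y) i : ℚ) : ℂ) = ∑ j, (M j i : ℂ) * (y j : ℂ) := by
      intro i
      simp [mulVec, dotProduct]
    rw [Finset.sum_congr rfl fun i _ => by rw [h1]]
    simp only [mulVec, dotProduct, cK, Matrix.map_apply, Finset.sum_mul, Finset.mul_sum]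
    rw [Finset.sum_comm]
    refine Finset.sum_congr rfl fun j _ => Finset.sum_congr rfl fun i _ => ?_
    ring
  let e : W ≃ₗ[ℂ] ((B → ℚ) →ₗ[F] ℂ) :=
    { toFun := fun x =>
        { toFun := fun y => ∑ i, (y i : ℂ) * x.1 i
          map_add' := fun y z => by
            rw [← Finset.sum_add_distrib]
            refine Finset.sum_congr rfl fun i _ => ?_
            rw [Pi.add_apply, Rat.cast_add, add_mul]
          map_smul' := fun a y => by
            rw [RingHom.id_apply, hsc, hsm, key, (hW _).1 x.2 a, Finset.mul_sum]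
            refine Finset.sum_congr rfl fun i _ => ?_
            rw [Pi.smul_apply, smul_eq_mul]
            ring }
      map_add' := fun x y => by
        refine LinearMap.ext fun z => ?_
        change ∑ i, (z i : ℂ) * (x.1 i + y.1 i) = ∑ i, (z i : ℂ) * x.1 i + ∑ i, (z i : ℂ) * y.1 i
        rw [← Finset.sum_add_distrib]
        exact Finset.sum_congr rfl fun i _ => mul_add _ _ _
      map_smul' := fun c x => by
        refine LinearMap.ext fun z => ?_
        change ∑ i, (z i : ℂ) * (c * x.1 i) = c * ∑ i, (z i : ℂ) * x.1 i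
        rw [Finset.mul_sum]
        exact Finset.sum_congr rfl fun i _ => by ring
      invFun := fun φ => ⟨fun i => φ (Pi.single i 1), by
        rw [hW]
        intro a
        funext i
        have h1 : a • (Pi.single i 1 : B → ℚ) = ∑ j, (f a i j) • (Pi.single j 1 : B → ℚ) := by
          rw [hsm]
          funext k
          rw [mulVec_single_one, Finset.sum_apply, Finset.sum_eq_single k]
          · simp
          · intro b _ hb
            simp [Pi.single_eq_of_ne (Ne.symm hb)]
          · intro h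
            exact absurd (Finset.mem_univ _) h
        have h2 := φ.map_smul a (Pi.single i 1)
        rw [h1, map_sum, hsc] at h2
        simp only [map_rat_smul] at h2
        rw [Pi.smul_apply, smul_eq_mul, ← h2]
        simp only [mulVec, dotProduct, cK, Matrix.map_apply]
        refine Finset.sum_congr rfl fun j _ => ?_
        rw [Rat.smul_def]⟩
      left_inv := fun x => by
        apply Subtype.ext
        funext i
        change ∑ j, (((Pi.single i 1 : B → ℚ) j : ℚ) : ℂ) * x.1 j = x.1 i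
        rw [Finset.sum_eq_single i]
        · simp
        · intro b _ hb
          simp [Pi.single_eq_of_ne hb]
        · intro h
          exact absurd (Finset.mem_univ _) h
      right_inv := fun φ => by
        refine LinearMap.ext fun y => ?_
        change ∑ i, (y i : ℂ) * φ (Pi.single i 1) = φ y
        have h1 : y = ∑ i, y i • (Pi.single i 1 : B → ℚ) := by
          funext k
          rw [Finset.sum_apply, Finset.sum_eq_single k]
          · simp
          · intro b _ hb
            simp [Pi.single_eq_of_ne (Ne.symm hb)]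
          · intro h
            exact absurd (Finset.mem_univ _) h
        conv_rhs => rw [h1, map_sum]
        refine Finset.sum_congr rfl fun i _ => ?_
        rw [map_rat_smul, Rat.smul_def] }
  have h1 : Module.finrank ℂ W = Module.finrank F (B → ℚ) := by
    rw [e.finrank_eq, Module.finrank_linearMap_self]
  have h2 := Module.finrank_mul_finrank ℚ F (B → ℚ)
  rw [h1, mul_comm, h2, Module.finrank_fintype_fun_eq_card]

variable {D : Matrix B B ℂ} {Om : Matrix B B ℚ}
  {S : Finset ℤ} {P : ℤ → Matrix B B ℂ} {k : ℤ} {v : B → ℂ}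

/-- The nonzero endomorphisms of a simple Hodge structure are injective. -/
theorem inj_of_ne (hs : SimpleD D) {M : Matrix B B ℚ} (hM : M ∈ EA D) (h0 : M ≠ 0) {x : B → ℂ}
    (hx : cK ℂ M *ᵥ x = 0) : x = 0 := by
  obtain ⟨U, hU⟩ : ∃ U : Submodule ℂ (B → ℂ), ∀ y, y ∈ U ↔ cK ℂ M *ᵥ y = 0 :=
    ⟨LinearMap.ker (Matrix.toLin' (cK ℂ M)), fun y => Iff.rfl⟩
  by_contra hx0
  have h1 := eq_top_of_stable hs U (fun σ y hy => by
    rw [hU] at hy ⊢
    have h2 : cK ℂ M *ᵥ (fun i => σ (y i)) = fun i => σ ((cK ℂ M *ᵥ y) i) := by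
      funext i
      simp [mulVec, dotProduct, cK, map_sum]
    rw [h2, hy]
    funext i
    exact map_zero σ) (fun y hy => by
    rw [hU] at hy ⊢
    rw [mulVec_mulVec, mem_EA.1 hM, ← mulVec_mulVec, hy, mulVec_zero]) (fun h => by
    apply hx0
    rw [← Submodule.mem_bot ℂ, ← h, hU]
    exact hx)
  apply h0
  apply cK_inj
  rw [cK_zero]
  refine mat_ext fun y => ?_
  rw [zero_mulVec, ← hU, h1]
  trivial

theorem exists_inv (hs : SimpleD D) {M : Matrix B B ℚ} (hM : M ∈ EA D) (h0 : M ≠ 0) :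
    ∃ N ∈ EA D, M * N = 1 ∧ N * M = 1 := by
  have h1 : Function.Injective (cK ℂ M).mulVec := by
    intro x y hxy
    rw [← sub_eq_zero]
    refine inj_of_ne hs hM h0 ?_
    rw [mulVec_sub, sub_eq_zero]
    exact hxy
  have h2 : IsUnit (cK ℂ M) := Matrix.mulVec_injective_iff_isUnit.1 h1
  have h3 : IsUnit M.det := by
    rw [Matrix.isUnit_iff_isUnit_det] at h2
    have h4 : (cK ℂ M).det = ((M.det : ℚ) : ℂ) := (RingHom.map_det (Rat.castHom ℂ) M).symm
    rw [h4, isUnit_iff_ne_zero] at h2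
    rw [isUnit_iff_ne_zero]
    intro h
    apply h2
    rw [h, Rat.cast_zero]
  have h4 := Matrix.mul_nonsing_inv M h3
  have h5 := Matrix.nonsing_inv_mul M h3
  refine ⟨M⁻¹, ?_, h4, h5⟩
  rw [mem_EA]
  have e1 : cK ℂ M⁻¹ * cK ℂ M = 1 := by rw [← cK_mul, h5, cK_one]
  have e2 : cK ℂ M * cK ℂ M⁻¹ = 1 := by rw [← cK_mul, h4, cK_one]
  calc cK ℂ M⁻¹ * D = cK ℂ M⁻¹ * D * (cK ℂ M * cK ℂ M⁻¹) := by rw [e2, mul_one]
    _ = cK ℂ M⁻¹ * (D * cK ℂ M) * cK ℂ M⁻¹ := by noncomm_ring
    _ = (cK ℂ M⁻¹ * cK ℂ M) * D * cK ℂ M⁻¹ := by rw [← mem_EA.1 hM]; noncomm_ring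
    _ = D * cK ℂ M⁻¹ := by rw [e1, one_mul]

variable (r : Rm D Om S P k v)

include r

theorem Rm.comm {M N : Matrix B B ℚ} (hM : M ∈ EA D) (hN : N ∈ EA D) : M * N = N * M := by
  by_contra h
  have h1 : M * N - N * M ∈ EA D := (EA D).sub_mem ((EA D).mul_mem hM hN) ((EA D).mul_mem hN hM)
  apply r.v0
  refine inj_of_ne r.simple h1 (sub_ne_zero.2 h) ?_
  obtain ⟨s, hs⟩ := r.exists_chi hM
  obtain ⟨t, ht⟩ := r.exists_chi hN
  have h2 : cK ℂ (M * N - N * M) = cK ℂ M * cK ℂ N - cK ℂ N * cK ℂ M := by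
    rw [← cK_mul, ← cK_mul]
    ext i j
    simp [cK]
  rw [h2, sub_mulVec, ← mulVec_mulVec, ← mulVec_mulVec, ht, hs, mulVec_smul, mulVec_smul, hs,
    ht, smul_comm, sub_self]

/-- The dimension of the part. -/
theorem Rm.finrank_MP : Module.finrank ℂ (MP D v) * Module.finrank ℚ (EA D) =
    Fintype.card B := by
  have hnt : Nontrivial (EA D) := by
    refine ⟨⟨1, 0, fun h => ?_⟩⟩
    have h1 : (1 : Matrix B B ℚ) = 0 := congrArg Subtype.val h
    apply r.v0
    have h2 : cK ℂ (1 : Matrix B B ℚ) *ᵥ v = cK ℂ (0 : Matrix B B ℚ) *ᵥ v := by rw [h1]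
    rwa [cK_one, one_mulVec, cK_zero, zero_mulVec] at h2
  have hB : Nonempty B := by
    by_contra hB
    rw [not_nonempty_iff] at hB
    exact r.v0 (Subsingleton.elim _ _)
  have hF : IsField (EA D) :=
    { exists_pair_ne := hnt.1
      mul_comm := fun a b => Subtype.ext (r.comm a.2 b.2)
      mul_inv_cancel := fun {a} ha => by
        obtain ⟨N, hN, h1, _⟩ := exists_inv r.simple a.2 (fun h => ha (Subtype.ext h))
        exact ⟨⟨N, hN⟩, Subtype.ext h1⟩ }
  obtain ⟨F, iF, f, hf, hr⟩ : ∃ (F : Type) (_ : Field F) (f : F →+* Matrix B B ℚ),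
      Function.Injective f ∧ ∀ M, M ∈ EA D ↔ ∃ a, f a = M := by
    refine ⟨EA D, hF.toField, ⟨⟨⟨Subtype.val, rfl⟩, fun _ _ => rfl⟩, rfl, fun _ _ => rfl⟩,
      Subtype.val_injective, fun M => ⟨fun h => ⟨⟨M, h⟩, rfl⟩, fun ⟨a, ha⟩ => ?_⟩⟩
    rw [← ha]
    exact a.2
  have : CharZero F := ⟨fun m n h => by
    obtain ⟨b⟩ := hB
    have h1 := congrArg f h
    rw [map_natCast, map_natCast] at h1
    have h2 := congrFun (congrFun h1 b) b
    rw [Matrix.natCast_apply, Matrix.natCast_apply] at h2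
    simpa using h2⟩
  have hchi : ∀ a : F, ∃ t : ℂ, cK ℂ (f a) *ᵥ v = t • v := fun a =>
    r.exists_chi ((hr _).2 ⟨a, rfl⟩)
  have hinj : ∀ {s t : ℂ}, s • v = t • v → s = t := by
    intro s t h
    have h1 : (s - t) • v = 0 := by rw [sub_smul, h, sub_self]
    exact sub_eq_zero.1 ((smul_eq_zero.1 h1).resolve_right r.v0)
  choose χ0 hχ0 using hchi
  let χ : F →+* ℂ :=
    { toFun := χ0
      map_one' := hinj (by rw [← hχ0, map_one, cK_one, one_mulVec, one_smul])
      map_mul' := fun a b => hinj (by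
        rw [← hχ0, map_mul, cK_mul, ← mulVec_mulVec, hχ0, mulVec_smul, hχ0, smul_smul, mul_comm])
      map_zero' := hinj (by rw [← hχ0, map_zero, cK_zero, zero_mulVec, zero_smul])
      map_add' := fun a b => hinj (by
        rw [← hχ0, map_add, cK_add', add_mulVec, hχ0, hχ0, add_smul]) }
  have h1 := finrank_eig f χ (MP D v) fun x => by
    constructor
    · intro hx a
      exact hx _ ((hr _).2 ⟨a, rfl⟩) _ (hχ0 a)
    · intro hx M hM t ht
      obtain ⟨a, rfl⟩ := (hr M).1 hM
      rw [hx a]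
      congr 1
      exact hinj (by rw [← ht]; exact (hχ0 a).symm)
  have h2 : Module.finrank ℚ F = Module.finrank ℚ (EA D) := by
    refine LinearEquiv.finrank_eq (LinearEquiv.ofBijective
      { toFun := fun a => (⟨f a, (hr _).2 ⟨a, rfl⟩⟩ : EA D)
        map_add' := fun a b => Subtype.ext (map_add f a b)
        map_smul' := fun q a => Subtype.ext (map_rat_smul f q a) } ⟨?_, ?_⟩)
    · intro a b hab
      exact hf (congrArg Subtype.val hab)
    · rintro ⟨M, hM⟩
      obtain ⟨a, ha⟩ := (hr M).1 hM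
      exact ⟨a, Subtype.ext ha⟩
  rw [← h2]
  exact h1

end Run7.h853.Cy
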