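import Mathlib
import Pool.Agent.Run7.h853.Cy.Rm4
import Pool.Agent.Run7.h853.Cy.Rm5

/-!
# The automorphisms of the complex numbers and the three-dimensional ideal
-/

set_option linter.unusedSectionVars false

namespace Run7.h853.Cy

open Matrix ComplexOrder Pool.Agent.W437.HC Pool.Agent.W437.HD Pool.Agent.W437.HP
  Pool.Agent.W437.HR Pool.Agent.W437.CY

variable {B : Type} [Fintype B] [DecidableEq B] {D : Matrix B B ℂ} {Om : Matrix B B ℚ}
  {S : Finset ℤ} {P : ℤ → Matrix B B ℂ}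

/-- The action of an automorphism on vectors. -/
def sv (σ : ℂ ≃+* ℂ) (z : B → ℂ) : B → ℂ := fun i => σ (z i)

theorem sv_add (σ : ℂ ≃+* ℂ) (x y : B → ℂ) : sv σ (x + y) = sv σ x + sv σ y := by
  funext i
  exact map_add σ _ _

theorem sv_smul (σ : ℂ ≃+* ℂ) (c : ℂ) (x : B → ℂ) : sv σ (c • x) = σ c • sv σ x := by
  funext i
  exact map_mul σ _ _

theorem sv_zero (σ : ℂ ≃+* ℂ) : sv σ (0 : B → ℂ) = 0 := by
  funext i
  exact map_zero σ

theorem sv_symm (σ : ℂ ≃+* ℂ) (x : B → ℂ) : sv σ (sv σ.symm x) = x := by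
  funext i
  exact σ.apply_symm_apply _

theorem sv_symm' (σ : ℂ ≃+* ℂ) (x : B → ℂ) : sv σ.symm (sv σ x) = x := by
  funext i
  exact σ.symm_apply_apply _

theorem sv_mul (σ : ℂ ≃+* ℂ) (X : Matrix B B ℂ) (x : B → ℂ) :
    sv σ (X *ᵥ x) = X.map σ *ᵥ sv σ x := by
  funext i
  simp [sv, mulVec, dotProduct, map_sum]

theorem map_symm (σ : ℂ ≃+* ℂ) (X : Matrix B B ℂ) : (X.map σ.symm).map σ = X := by
  ext i j
  simp

theorem map_symm' (σ : ℂ ≃+* ℂ) (X : Matrix B B ℂ) : (X.map σ).map σ.symm = X := by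
  ext i j
  simp

theorem cK_map (σ : ℂ ≃+* ℂ) (M : Matrix B B ℚ) : (cK ℂ M).map σ = cK ℂ M := by
  ext i j
  simp [cK]

theorem sv_cK (σ : ℂ ≃+* ℂ) (M : Matrix B B ℚ) (x : B → ℂ) :
    sv σ (cK ℂ M *ᵥ x) = cK ℂ M *ᵥ sv σ x := by
  rw [sv_mul, cK_map]

theorem lie_map {X : Matrix B B ℂ} (hX : X ∈ lieM D ℂ) (σ : ℂ ≃+* ℂ) : X.map σ ∈ lieM D ℂ :=
  map_mem_aut hX (σ : ℂ →+* ℂ)

theorem sv_sv {σ τ : ℂ ≃+* ℂ} (h : ∀ c, σ (τ c) = c) (x : B → ℂ) : sv σ (sv τ x) = x := by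
  funext i
  exact h _

/-- The action of an automorphism on the endomorphisms of a stable subspace. -/
noncomputable def mW (W : Submodule ℂ (B → ℂ)) (σ τ : ℂ ≃+* ℂ) (h : ∀ c, σ (τ c) = c)
    (h1 : ∀ z ∈ W, sv σ z ∈ W) (h2 : ∀ z ∈ W, sv τ z ∈ W) (f : Module.End ℂ W) :
    Module.End ℂ W where
  toFun z := ⟨sv σ (f ⟨sv τ z.1, h2 _ z.2⟩ : W), h1 _ (f _).2⟩
  map_add' x y := by
    apply Subtype.ext
    change sv σ _ = sv σ _ + sv σ _
    rw [← sv_add, ← Submodule.coe_add, ← map_add]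
    congr 3
    apply Subtype.ext
    exact sv_add _ _ _
  map_smul' c x := by
    apply Subtype.ext
    change sv σ _ = c • sv σ _
    have h3 : (⟨sv τ (c • x : W).1, h2 _ (c • x : W).2⟩ : W) =
        τ c • ⟨sv τ x.1, h2 _ x.2⟩ := Subtype.ext (sv_smul _ _ _)
    rw [h3, map_smul, Submodule.coe_smul, sv_smul, h]

section mW

variable {W : Submodule ℂ (B → ℂ)} {σ τ : ℂ ≃+* ℂ} {h : ∀ c, σ (τ c) = c}
  {h' : ∀ c, τ (σ c) = c} {h1 : ∀ z ∈ W, sv σ z ∈ W} {h2 : ∀ z ∈ W, sv τ z ∈ W}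

theorem mW_coe (f : Module.End ℂ W) (z : W) : ((mW W σ τ h h1 h2 f z : W) : B → ℂ) =
    sv σ (f ⟨sv τ z.1, h2 _ z.2⟩ : W) := rfl

theorem mW_add (f g : Module.End ℂ W) :
    mW W σ τ h h1 h2 (f + g) = mW W σ τ h h1 h2 f + mW W σ τ h h1 h2 g :=
  LinearMap.ext fun _ => Subtype.ext (sv_add _ _ _)

theorem mW_smul (c : ℂ) (f : Module.End ℂ W) :
    mW W σ τ h h1 h2 (c • f) = σ c • mW W σ τ h h1 h2 f :=
  LinearMap.ext fun _ => Subtype.ext (sv_smul _ _ _)

theorem mW_zero : mW W σ τ h h1 h2 (0 : Module.End ℂ W) = 0 :=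
  LinearMap.ext fun _ => Subtype.ext (sv_zero _)

theorem mW_one : mW W σ τ h h1 h2 (1 : Module.End ℂ W) = 1 :=
  LinearMap.ext fun _ => Subtype.ext (sv_sv h _)

include h' in
theorem mW_mul (f g : Module.End ℂ W) :
    mW W σ τ h h1 h2 (f * g) = mW W σ τ h h1 h2 f * mW W σ τ h h1 h2 g := by
  refine LinearMap.ext fun z => Subtype.ext ?_
  rw [Module.End.mul_apply, mW_coe, mW_coe, Module.End.mul_apply]
  congr 3
  exact Subtype.ext (sv_sv h' _).symm

theorem mW_sub (f g : Module.End ℂ W) :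
    mW W σ τ h h1 h2 (f - g) = mW W σ τ h h1 h2 f - mW W σ τ h h1 h2 g := by
  have h3 : f - g = f + (-1 : ℂ) • g := by module
  rw [h3, mW_add, mW_smul, map_neg, map_one]
  module

theorem mW_inv (f : Module.End ℂ W) : mW W τ σ h' h2 h1 (mW W σ τ h h1 h2 f) = f := by
  refine LinearMap.ext fun z => Subtype.ext ?_
  rw [mW_coe, mW_coe, sv_sv h']
  congr 2
  exact Subtype.ext (sv_sv h' _)

theorem mW_mem {f : Module.End ℂ W} (hf : f ∈ LR D W) : mW W σ τ h h1 h2 f ∈ LR D W := by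
  obtain ⟨X, hX, hf⟩ := hf
  refine ⟨X.map σ, lie_map hX σ, fun z => ?_⟩
  rw [mW_coe, hf, sv_mul, sv_sv h]

end mW

variable {v : B → ℂ}

/-- The three-dimensional ideal is stable under the automorphisms which preserve the part. -/
theorem idl_conj {W : Submodule ℂ (B → ℂ)} {D' : Module.End ℂ W} {P' : ℤ → Module.End ℂ W}
    {w' : W →ₗ[ℂ] W →ₗ[ℂ] ℂ} {vp vm : W} (d : Dt (LR D W) D' P' w' vp vm)
    {x y : Module.End ℂ W} {r0 : ℂ} (h : Sl (LR D W) D' vm x y r0)
    (hq : Module.finrank ℂ (ES D' 1) ≠ 3) {σ τ : ℂ ≃+* ℂ} (hs : ∀ c, σ (τ c) = c)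
    (hs' : ∀ c, τ (σ c) = c) (h1 : ∀ z ∈ W, sv σ z ∈ W)
    (h2 : ∀ z ∈ W, sv τ z ∈ W) {a : Module.End ℂ W} (ha : a ∈ idl x y) :
    mW W σ τ hs h1 h2 a ∈ idl x y := by
  let T : Submodule ℂ (Module.End ℂ W) :=
    { carrier := {X | mW W σ τ hs h1 h2 X ∈ idl x y}
      zero_mem' := by
        change mW W σ τ hs h1 h2 0 ∈ idl x y
        rw [mW_zero]
        exact Submodule.zero_mem _
      add_mem' := by
        intro X Y hX hY
        change mW W σ τ hs h1 h2 (X + Y) ∈ idl x y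
        rw [mW_add]
        exact Submodule.add_mem _ hX hY
      smul_mem' := by
        intro c X hX
        change mW W σ τ hs h1 h2 (c • X) ∈ idl x y
        rw [mW_smul]
        exact Submodule.smul_mem _ _ hX }
  have hT : ∀ X, X ∈ T ↔ mW W σ τ hs h1 h2 X ∈ idl x y := fun X => Iff.rfl
  have hrank : Module.finrank ℂ T = 3 := by
    rw [← h.finrank_idl d]
    have h3 : Module.rank ℂ T = Module.rank ℂ (idl x y) := by
      refine rank_eq_of_equiv_equiv (σ : ℂ → ℂ)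
        { toFun := fun X => (⟨mW W σ τ hs h1 h2 X.1, X.2⟩ : idl x y)
          invFun := fun X => (⟨mW W τ σ hs' h2 h1 X.1, by
            rw [hT, mW_inv]
            exact X.2⟩ : T)
          left_inv := fun X => by
            apply Subtype.ext
            exact mW_inv (h := hs) (h' := hs') (h1 := h1) (h2 := h2) X.1
          right_inv := fun X => by
            apply Subtype.ext
            exact mW_inv (h := hs') (h' := hs) (h1 := h2) (h2 := h1) X.1
          map_add' := fun X Y => by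
            apply Subtype.ext
            exact mW_add (h := hs) (h1 := h1) (h2 := h2) X.1 Y.1 } σ.bijective (fun c X => ?_)
      apply Subtype.ext
      exact mW_smul (h := hs) (h1 := h1) (h2 := h2) c X.1
    unfold Module.finrank
    rw [h3]
  have hle : T ≤ LR D W := by
    intro X hX
    have h3 := mW_mem (h := hs') (h1 := h2) (h2 := h1) (h.le d hX)
    rwa [mW_inv] at h3
  have hid : ∀ X ∈ LR D W, ∀ b ∈ T, X * b - b * X ∈ T := by
    intro X hX b hb
    rw [hT, mW_sub, mW_mul (h' := hs'), mW_mul (h' := hs')]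
    exact h.ideal d _ (mW_mem hX) _ hb
  have hsq : ∀ b ∈ T, ∃ c : ℂ, b * b = c • (1 : Module.End ℂ W) := by
    intro b hb
    obtain ⟨c, hc⟩ := h.sq hb
    refine ⟨τ c, ?_⟩
    rw [← mW_mul (h' := hs')] at hc
    have h3 := congrArg (mW W τ σ hs' h2 h1) hc
    rwa [mW_inv, mW_smul, mW_one] at h3
  have hu := d.uniq h (S := T) hle hid hrank hsq
  rcases hu with h3 | h3
  · exact h3 ha
  · exact absurd h3 hq

variable {k : ℤ} (r : Rm D Om S P k v)

include r

/-- A subspace which contains the part and is stable under the automorphisms of the complex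
numbers is everything. -/
theorem Rm.top_of (U : Submodule ℂ (B → ℂ)) (hσ : ∀ (σ : ℂ ≃+* ℂ), ∀ y ∈ U, sv σ y ∈ U)
    (hW : MP D v ≤ U) : U = ⊤ := by
  obtain ⟨U', hU'⟩ : ∃ U' : Submodule ℂ (B → ℂ),
      U' = Submodule.span ℂ {y | ∃ σ : ℂ ≃+* ℂ, ∃ z ∈ MP D v, y = sv σ z} := ⟨_, rfl⟩
  have h1 : U' ≤ U := by
    rw [hU', Submodule.span_le]
    rintro _ ⟨σ, z, hz, rfl⟩
    exact hσ σ _ (hW hz)
  have h2 : U' = ⊤ := by
    refine eq_top_of_stable r.simple U' (fun τ y hy => ?_) (fun y hy => ?_) fun h => ?_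
    · change sv τ y ∈ U'
      rw [hU'] at hy ⊢
      induction hy using Submodule.span_induction with
      | mem y hy =>
        obtain ⟨σ, z, hz, rfl⟩ := hy
        exact Submodule.subset_span ⟨σ.trans τ, z, hz, rfl⟩
      | zero =>
        rw [sv_zero]
        exact Submodule.zero_mem _
      | add x y _ _ h1 h2 =>
        rw [sv_add]
        exact Submodule.add_mem _ h1 h2
      | smul a x _ h1 =>
        rw [sv_smul]
        exact Submodule.smul_mem _ _ h1
    · rw [hU'] at hy ⊢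
      induction hy using Submodule.span_induction with
      | mem y hy =>
        obtain ⟨σ, z, hz, rfl⟩ := hy
        refine Submodule.subset_span ⟨σ, D.map σ.symm *ᵥ z, r.stable (lie_map (D_mem D) _) hz, ?_⟩
        rw [sv_mul, map_symm]
      | zero =>
        rw [mulVec_zero]
        exact Submodule.zero_mem _
      | add x y _ _ h1 h2 =>
        rw [mulVec_add]
        exact Submodule.add_mem _ h1 h2
      | smul a x _ h1 =>
        rw [mulVec_smul]
        exact Submodule.smul_mem _ _ h1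
    · apply r.v0
      rw [← Submodule.mem_bot ℂ, ← h, hU']
      refine Submodule.subset_span ⟨RingEquiv.refl ℂ, v, r.self_mem, ?_⟩
      rfl
  rw [eq_top_iff, ← h2]
  exact h1

/-- The automorphisms which preserve the character preserve the part. -/
theorem Rm.sv_mem {σ : ℂ ≃+* ℂ} (h : ∀ M ∈ EA D, ∀ t : ℂ, cK ℂ M *ᵥ v = t • v → σ t = t)
    {z : B → ℂ} (hz : z ∈ MP D v) : sv σ z ∈ MP D v := by
  intro M hM t ht
  rw [← sv_cK, hz M hM t ht, sv_smul, h M hM t ht]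

theorem Rm.sv_mem' {σ : ℂ ≃+* ℂ} (h : ∀ M ∈ EA D, ∀ t : ℂ, cK ℂ M *ᵥ v = t • v → σ t = t)
    {z : B → ℂ} (hz : z ∈ MP D v) : sv σ.symm z ∈ MP D v := by
  refine r.sv_mem (σ := σ.symm) (fun M hM t ht => ?_) hz
  rw [RingEquiv.symm_apply_eq]
  exact (h M hM t ht).symm

/-- The matrices which commute with the Lie algebra commute with the matrices which commute with
the endomorphisms. -/
theorem Rm.p_comm {p : Matrix B B ℂ} (hp : ∀ X ∈ lieM D ℂ, X * p = p * X) {A : Matrix B B ℂ}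
    (hA : ∀ M ∈ EA D, A * cK ℂ M = cK ℂ M * A) : A * p = p * A := by
  have h1 := comm_span hp
  clear hp
  induction h1 using Submodule.span_induction with
  | mem M hM =>
    obtain ⟨M0, hM0, rfl⟩ := hM
    exact hA M0 hM0
  | zero => rw [mul_zero, zero_mul]
  | add M N _ _ h1 h2 => rw [mul_add, add_mul, h1, h2]
  | smul a M _ h1 => rw [mul_smul_comm, smul_mul_assoc, h1]

/-- An automorphism which does not preserve the character moves the part to the kernel of the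
projection. -/
theorem Rm.p_zero {p : Matrix B B ℂ} (hp : ∀ X ∈ lieM D ℂ, X * p = p * X)
    (hp3 : ∀ x, p *ᵥ x ∈ MP D v) {σ : ℂ ≃+* ℂ}
    (h : ¬∀ M ∈ EA D, ∀ t : ℂ, cK ℂ M *ᵥ v = t • v → σ t = t) {z : B → ℂ} (hz : z ∈ MP D v) :
    p *ᵥ sv σ.symm z = 0 := by
  push Not at h
  obtain ⟨M, hM, t, ht, hne⟩ := h
  have h1 : cK ℂ M *ᵥ sv σ.symm z = σ.symm t • sv σ.symm z := by
    rw [← sv_cK, hz M hM t ht, sv_smul]
  have hcomm : cK ℂ M * p = p * cK ℂ M := r.p_comm hp fun N hN => by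
    rw [← cK_mul, ← cK_mul, r.comm hM hN]
  have h2 : cK ℂ M *ᵥ (p *ᵥ sv σ.symm z) = t • (p *ᵥ sv σ.symm z) := hp3 _ M hM t ht
  rw [mulVec_mulVec, hcomm, ← mulVec_mulVec, h1, mulVec_smul] at h2
  have h3 : (σ.symm t - t) • (p *ᵥ sv σ.symm z) = 0 := by rw [sub_smul, h2, sub_self]
  refine (smul_eq_zero.1 h3).resolve_left fun h4 => hne ?_
  have h5 : σ.symm t = t := sub_eq_zero.1 h4
  rw [RingEquiv.symm_apply_eq] at h5
  exact h5.symm

end Run7.h853.Cy
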