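import Mathlib
import Pool.Agent.Run7.h853.Cy.Rm6

/-!
# The space of matrices attached to the three-dimensional ideal
-/

set_option linter.unusedSectionVars false

namespace Run7.h853.Cy

open Matrix ComplexOrder Pool.Agent.W437.HC Pool.Agent.W437.HD Pool.Agent.W437.HP
  Pool.Agent.W437.HR Pool.Agent.W437.CY

variable {B : Type} [Fintype B] [DecidableEq B] {D : Matrix B B ℂ} {Om : Matrix B B ℚ}
  {S : Finset ℤ} {P : ℤ → Matrix B B ℂ} {v : B → ℂ}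

theorem map_add_m (σ : ℂ ≃+* ℂ) (X Y : Matrix B B ℂ) : (X + Y).map σ = X.map σ + Y.map σ := by
  ext i j
  simp

theorem map_sub_m (σ : ℂ ≃+* ℂ) (X Y : Matrix B B ℂ) : (X - Y).map σ = X.map σ - Y.map σ := by
  ext i j
  simp

theorem map_smul_m (σ : ℂ ≃+* ℂ) (c : ℂ) (X : Matrix B B ℂ) :
    (c • X).map σ = σ c • X.map σ := by
  ext i j
  simp

theorem map_mul_m (σ : ℂ ≃+* ℂ) (X Y : Matrix B B ℂ) : (X * Y).map σ = X.map σ * Y.map σ :=
  Matrix.map_mul (f := (σ : ℂ →+* ℂ))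

theorem map_zero_m (σ : ℂ ≃+* ℂ) : (0 : Matrix B B ℂ).map σ = 0 := by
  ext i j
  simp

/-- The matrices whose conjugates act on the part through the ideal. -/
def TS (D : Matrix B B ℂ) (v : B → ℂ) (x y : Module.End ℂ (MP D v)) :
    Submodule ℂ (Matrix B B ℂ) where
  carrier := {A | (∀ M ∈ EA D, A * cK ℂ M = cK ℂ M * A) ∧ ∀ σ : ℂ ≃+* ℂ, ∃ a ∈ idl x y,
    ∀ z : MP D v, (A.map σ) *ᵥ (z : B → ℂ) = (a z : MP D v)}
  zero_mem' := ⟨fun M _ => by rw [zero_mul, mul_zero], fun σ => ⟨0, Submodule.zero_mem _,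
    fun z => by
      rw [map_zero_m, zero_mulVec]
      rfl⟩⟩
  add_mem' := by
    rintro A A' ⟨h1, h2⟩ ⟨h1', h2'⟩
    refine ⟨fun M hM => by rw [add_mul, mul_add, h1 M hM, h1' M hM], fun σ => ?_⟩
    obtain ⟨a, ha, haz⟩ := h2 σ
    obtain ⟨a', ha', haz'⟩ := h2' σ
    refine ⟨a + a', Submodule.add_mem _ ha ha', fun z => ?_⟩
    rw [map_add_m, add_mulVec, haz, haz', LinearMap.add_apply, Submodule.coe_add]
  smul_mem' := by
    rintro c A ⟨h1, h2⟩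
    refine ⟨fun M hM => by rw [smul_mul_assoc, mul_smul_comm, h1 M hM], fun σ => ?_⟩
    obtain ⟨a, ha, haz⟩ := h2 σ
    refine ⟨σ c • a, Submodule.smul_mem _ _ ha, fun z => ?_⟩
    rw [map_smul_m, smul_mulVec, haz, LinearMap.smul_apply, Submodule.coe_smul]

section basic

variable {x y : Module.End ℂ (MP D v)}

theorem mem_TS {A : Matrix B B ℂ} : A ∈ TS D v x y ↔ (∀ M ∈ EA D, A * cK ℂ M = cK ℂ M * A) ∧
    ∀ σ : ℂ ≃+* ℂ, ∃ a ∈ idl x y, ∀ z : MP D v, (A.map σ) *ᵥ (z : B → ℂ) = (a z : MP D v) :=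
  Iff.rfl

theorem TS_map {A : Matrix B B ℂ} (hA : A ∈ TS D v x y) (τ : ℂ ≃+* ℂ) :
    A.map τ ∈ TS D v x y := by
  refine ⟨fun M hM => ?_, fun σ => hA.2 (τ.trans σ)⟩
  have h1 := congrArg (fun Z : Matrix B B ℂ => Z.map τ) (hA.1 M hM)
  simp only [map_mul_m, cK_map] at h1
  exact h1

theorem TS_self {A : Matrix B B ℂ} (hA : A ∈ TS D v x y) : ∃ a ∈ idl x y,
    ∀ z : MP D v, A *ᵥ (z : B → ℂ) = (a z : MP D v) := by
  obtain ⟨a, ha, h⟩ := hA.2 (RingEquiv.refl ℂ)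
  refine ⟨a, ha, fun z => ?_⟩
  rw [← h z]
  congr 1

/-- A bilinear identity for the rational matrices of a rational space holds for the space. -/
theorem bil_span (T : Submodule ℂ (Matrix B B ℂ))
    (hT : ∀ (σ : ℂ ≃+* ℂ), ∀ M ∈ T, M.map σ ∈ T)
    (F : Matrix B B ℂ →ₗ[ℂ] Matrix B B ℂ →ₗ[ℂ] Matrix B B ℂ)
    (h0 : ∀ M N : Matrix B B ℚ, cK ℂ M ∈ T → cK ℂ N ∈ T → F (cK ℂ M) (cK ℂ N) = 0) :
    ∀ A ∈ T, ∀ A' ∈ T, F A A' = 0 := by
  intro A hA
  have hA2 := span_cK T hT hA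
  clear hA
  induction hA2 using Submodule.span_induction with
  | mem A hA =>
    obtain ⟨hA, M0, rfl⟩ := hA
    intro A' hA'
    have hA2' := span_cK T hT hA'
    clear hA'
    induction hA2' using Submodule.span_induction with
    | mem A' hA' =>
      obtain ⟨hA', N0, rfl⟩ := hA'
      exact h0 M0 N0 hA hA'
    | zero => exact map_zero _
    | add X Y _ _ h1 h2 => rw [map_add, h1, h2, add_zero]
    | smul c X _ h1 => rw [map_smul, h1, smul_zero]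
  | zero => intro A' _; rw [map_zero, LinearMap.zero_apply]
  | add X Y _ _ h1 h2 =>
    intro A' hA'
    rw [map_add, LinearMap.add_apply, h1 A' hA', h2 A' hA', add_zero]
  | smul c X _ h1 =>
    intro A' hA'
    rw [map_smul, LinearMap.smul_apply, h1 A' hA', smul_zero]

end basic

section main

variable {k : ℤ} (r : Rm D Om S P k v) {D' : Module.End ℂ (MP D v)}
  {P' : ℤ → Module.End ℂ (MP D v)} {w' : MP D v →ₗ[ℂ] MP D v →ₗ[ℂ] ℂ} {vp vm : MP D v}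
  (d : Dt (LR D (MP D v)) D' P' w' vp vm)
  {x y : Module.End ℂ (MP D v)} {r0 : ℂ} (h : Sl (LR D (MP D v)) D' vm x y r0)

include r in
theorem TS_mulE {A : Matrix B B ℂ} (hA : A ∈ TS D v x y) {M : Matrix B B ℚ} (hM : M ∈ EA D) :
    cK ℂ M * A ∈ TS D v x y := by
  refine ⟨fun N hN => ?_, fun σ => ?_⟩
  · rw [mul_assoc, hA.1 N hN, ← mul_assoc, ← mul_assoc, ← cK_mul, ← cK_mul, r.comm hM hN]
  · obtain ⟨a, ha, haz⟩ := hA.2 σ
    obtain ⟨t, ht⟩ := r.exists_chi hM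
    refine ⟨t • a, Submodule.smul_mem _ _ ha, fun z => ?_⟩
    rw [map_mul_m, cK_map, ← mulVec_mulVec, haz, (a z).2 M hM t ht, LinearMap.smul_apply,
      Submodule.coe_smul]

include d h in
theorem TS_br {A A' : Matrix B B ℂ} (hA : A ∈ TS D v x y) (hA' : A' ∈ TS D v x y) :
    A * A' - A' * A ∈ TS D v x y := by
  refine ⟨fun N hN => ?_, fun σ => ?_⟩
  · have h1 := hA.1 N hN
    have h2 := hA'.1 N hN
    have h3 : (A * A' - A' * A) * cK ℂ N = A * (A' * cK ℂ N) - A' * (A * cK ℂ N) := by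
      noncomm_ring
    have h4 : A * (cK ℂ N * A') - A' * (cK ℂ N * A) =
        (A * cK ℂ N) * A' - (A' * cK ℂ N) * A := by noncomm_ring
    rw [h3, h1, h2, h4, h1, h2]
    noncomm_ring
  · obtain ⟨a, ha, haz⟩ := hA.2 σ
    obtain ⟨a', ha', haz'⟩ := hA'.2 σ
    refine ⟨a * a' - a' * a, h.ideal d a (h.le d ha) a' ha', fun z => ?_⟩
    rw [map_sub_m, map_mul_m, map_mul_m, sub_mulVec, ← mulVec_mulVec, ← mulVec_mulVec, haz, haz',
      haz, haz']
    rfl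

include r h d in
/-- Every element of the ideal is the restriction of an element of the space. -/
theorem exists_lift (hq : Module.finrank ℂ (ES D' 1) ≠ 3) {a : Module.End ℂ (MP D v)}
    (ha : a ∈ idl x y) :
    ∃ A ∈ TS D v x y, ∀ z : MP D v, A *ᵥ (z : B → ℂ) = (a z : MP D v) := by
  obtain ⟨p, hp1, hp2, hp3, hp4, hp5⟩ := r.exists_p
  obtain ⟨A, hA⟩ : ∃ A : Matrix B B ℂ, ∀ u, A *ᵥ u = (a ⟨p *ᵥ u, hp3 u⟩ : MP D v) := by
    refine ⟨LinearMap.toMatrix' ((MP D v).subtype ∘ₗ a ∘ₗ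
      (LinearMap.codRestrict (MP D v) (Matrix.toLin' p) hp3)), fun u => ?_⟩
    rw [LinearMap.toMatrix'_mulVec]
    rfl
  refine ⟨A, ⟨fun M hM => mat_ext fun u => ?_, fun σ => ?_⟩, fun z => ?_⟩
  · obtain ⟨t, ht⟩ := r.exists_chi hM
    have hcomm : cK ℂ M * p = p * cK ℂ M := r.p_comm hp1 fun N hN => by
      rw [← cK_mul, ← cK_mul, r.comm hM hN]
    rw [← mulVec_mulVec, ← mulVec_mulVec, hA, hA, (a ⟨p *ᵥ u, hp3 u⟩).2 M hM t ht]
    have h1 : (⟨p *ᵥ (cK ℂ M *ᵥ u), hp3 _⟩ : MP D v) = t • ⟨p *ᵥ u, hp3 u⟩ := by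
      apply Subtype.ext
      change p *ᵥ (cK ℂ M *ᵥ u) = t • (p *ᵥ u)
      rw [mulVec_mulVec, ← hcomm, ← mulVec_mulVec]
      exact hp3 u M hM t ht
    rw [h1, map_smul, Submodule.coe_smul]
  · have hAσ : ∀ z : B → ℂ, (A.map σ) *ᵥ z = sv σ (A *ᵥ sv σ.symm z) := by
      intro z
      rw [sv_mul, sv_symm]
    by_cases hσ : ∀ M ∈ EA D, ∀ t : ℂ, cK ℂ M *ᵥ v = t • v → σ t = t
    · refine ⟨mW (MP D v) σ σ.symm σ.apply_symm_apply (fun z hz => r.sv_mem hσ hz)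
        (fun z hz => r.sv_mem' hσ hz) a,
        idl_conj d h hq σ.apply_symm_apply σ.symm_apply_apply _ _ ha, fun z => ?_⟩
      rw [hAσ, hA, mW_coe]
      congr 3
      apply Subtype.ext
      exact hp2 _ (r.sv_mem' hσ z.2)
    · refine ⟨0, Submodule.zero_mem _, fun z => ?_⟩
      rw [hAσ, hA]
      have h1 : (⟨p *ᵥ sv σ.symm (z : B → ℂ), hp3 _⟩ : MP D v) = 0 :=
        Subtype.ext (r.p_zero hp1 hp3 hσ z.2)
      rw [h1, map_zero]
      exact sv_zero _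
  · rw [hA]
    congr 2
    apply Subtype.ext
    exact hp2 _ z.2

include r h in
/-- The squares of the rational elements of the space are endomorphisms. -/
theorem TS_sq {M : Matrix B B ℚ} (hM : cK ℂ M ∈ TS D v x y) : M * M ∈ EA D := by
  obtain ⟨a, ha, haz⟩ := TS_self hM
  obtain ⟨c, hc⟩ := h.sq ha
  have hsq : ∀ z ∈ MP D v, cK ℂ (M * M) *ᵥ z = c • z := by
    intro z hz
    have h1 := haz ⟨z, hz⟩
    have h2 := haz (a ⟨z, hz⟩)
    rw [cK_mul, ← mulVec_mulVec]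
    rw [h1, h2]
    have h3 := LinearMap.congr_fun hc ⟨z, hz⟩
    have h4 := congrArg (Subtype.val : MP D v → B → ℂ) h3
    exact h4
  obtain ⟨U, hU⟩ : ∃ U : Submodule ℂ (B → ℂ), ∀ y, y ∈ U ↔
      ∀ X ∈ lieM D ℂ, cK ℂ (M * M) *ᵥ (X *ᵥ y) = X *ᵥ (cK ℂ (M * M) *ᵥ y) :=
    ⟨{ carrier := {y | ∀ X ∈ lieM D ℂ, cK ℂ (M * M) *ᵥ (X *ᵥ y) = X *ᵥ (cK ℂ (M * M) *ᵥ y)}
       zero_mem' := fun X _ => by simp
       add_mem' := fun {a b} ha hb X hX => by simp only [mulVec_add, ha X hX, hb X hX]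
       smul_mem' := fun c a ha X hX => by simp only [mulVec_smul, ha X hX] }, fun y => Iff.rfl⟩
  have htop := r.top_of U (fun σ y hy => by
    rw [hU] at hy ⊢
    intro X hX
    have h1 := congrArg (sv σ) (hy _ (lie_map hX σ.symm))
    rw [sv_cK, sv_mul, sv_mul, sv_cK, map_symm] at h1
    exact h1) (fun z hz => by
    rw [hU]
    intro X hX
    rw [hsq z hz, hsq _ (r.stable hX hz), mulVec_smul])
  rw [mem_EA]
  refine mat_ext fun z => ?_
  rw [← mulVec_mulVec, ← mulVec_mulVec]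
  have h1 : z ∈ U := by
    rw [htop]
    trivial
  exact (hU z).1 h1 D (D_mem D)

end main

end Run7.h853.Cy
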