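import Mathlib
import Pool.Agent.Run7.h853.Cy.Rm7

/-!
# Generators of the quaternion algebra over the field of endomorphisms
-/

set_option linter.unusedSectionVars false

namespace Run7.h853.Cy

open Matrix ComplexOrder Pool.Agent.W437.HC Pool.Agent.W437.HD Pool.Agent.W437.HP
  Pool.Agent.W437.HR Pool.Agent.W437.CY

variable {B : Type} [Fintype B] [DecidableEq B] {D : Matrix B B ℂ} {Om : Matrix B B ℚ}
  {S : Finset ℤ} {P : ℤ → Matrix B B ℂ} {v : B → ℂ}

variable {k : ℤ} (r : Rm D Om S P k v) {D' : Module.End ℂ (MP D v)}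
  {P' : ℤ → Module.End ℂ (MP D v)} {w' : MP D v →ₗ[ℂ] MP D v →ₗ[ℂ] ℂ} {vp vm : MP D v}
  (d : Dt (LR D (MP D v)) D' P' w' vp vm)
  {x y : Module.End ℂ (MP D v)} {r0 : ℂ} (h : Sl (LR D (MP D v)) D' vm x y r0)
  (hq : Module.finrank ℂ (ES D' 1) ≠ 3)

theorem TS_add_cK {x y : Module.End ℂ (MP D v)} {M N : Matrix B B ℚ}
    (hM : cK ℂ M ∈ TS D v x y) (hN : cK ℂ N ∈ TS D v x y) : cK ℂ (M + N) ∈ TS D v x y := by
  rw [cK_add']
  exact Submodule.add_mem _ hM hN

include r h in
theorem TS_anti {M N : Matrix B B ℚ} (hM : cK ℂ M ∈ TS D v x y) (hN : cK ℂ N ∈ TS D v x y) :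
    M * N + N * M ∈ EA D := by
  have h1 := TS_sq r h (TS_add_cK hM hN)
  have h4 : M * N + N * M = (M + N) * (M + N) - M * M - N * N := by noncomm_ring
  rw [h4]
  exact (EA D).sub_mem ((EA D).sub_mem h1 (TS_sq r h hM)) (TS_sq r h hN)

/-- The anticommutator. -/
noncomputable def acL : Matrix B B ℂ →ₗ[ℂ] Matrix B B ℂ →ₗ[ℂ] Matrix B B ℂ :=
  LinearMap.mk₂ ℂ (fun A A' => A * A' + A' * A)
    (fun A A' A'' => by noncomm_ring)
    (fun c A A' => by rw [smul_mul_assoc, mul_smul_comm, smul_add])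
    (fun A A' A'' => by noncomm_ring)
    (fun c A A' => by rw [smul_mul_assoc, mul_smul_comm, smul_add])

/-- The second identity. -/
noncomputable def adL (I : Matrix B B ℂ) :
    Matrix B B ℂ →ₗ[ℂ] Matrix B B ℂ →ₗ[ℂ] Matrix B B ℂ :=
  LinearMap.mk₂ ℂ (fun A A' => (2 : ℂ) • (I * I * (A * A' + A' * A)) -
      (I * A + A * I) * (I * A' + A' * I))
    (fun A A' A'' => by
      simp only [mul_add, add_mul, smul_add]
      abel)
    (fun c A A' => by
      simp only [smul_mul_assoc, mul_smul_comm, smul_sub, smul_add, mul_add, add_mul]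
      module)
    (fun A A' A'' => by
      simp only [mul_add, add_mul, smul_add]
      abel)
    (fun c A A' => by
      simp only [smul_mul_assoc, mul_smul_comm, smul_sub, smul_add, mul_add, add_mul]
      module)

include r d h hq

/-- The first generator. -/
theorem exists_I : ∃ I : Matrix B B ℚ, cK ℂ I ∈ TS D v x y ∧ I * I ≠ 0 := by
  by_contra hcon
  push Not at hcon
  have h1 : ∀ M N : Matrix B B ℚ, cK ℂ M ∈ TS D v x y → cK ℂ N ∈ TS D v x y →
      M * N + N * M = 0 := by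
    intro M N hM hN
    have h4 : M * N + N * M = (M + N) * (M + N) - M * M - N * N := by noncomm_ring
    rw [h4, hcon _ (TS_add_cK hM hN), hcon _ hM, hcon _ hN]
    simp
  have h2 := bil_span (TS D v x y) (fun σ M hM => TS_map hM σ) acL fun M N hM hN => by
    change cK ℂ M * cK ℂ N + cK ℂ N * cK ℂ M = 0
    rw [← cK_mul, ← cK_mul, ← cK_add', h1 M N hM hN, cK_zero]
  obtain ⟨X, hX, hXz⟩ := exists_lift r d h hq (a := x) x_mem_idl
  obtain ⟨Y, hY, hYz⟩ := exists_lift r d h hq (a := y) y_mem_idl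
  have h3 : X * Y + Y * X = 0 := h2 X hX Y hY
  have h4 := congrArg (fun Z : Matrix B B ℂ => Z *ᵥ (vp : B → ℂ)) h3
  simp only [add_mulVec, ← mulVec_mulVec, zero_mulVec] at h4
  rw [hYz, hXz, hXz, hYz] at h4
  have h5 : (x * y + y * x) vp = 0 := Subtype.ext h4
  rw [h.xy] at h5
  exact h.ne ((smul_eq_zero.1 h5).resolve_right d.vp0)

/-- The second generator. -/
theorem exists_J {I : Matrix B B ℚ} (hI : cK ℂ I ∈ TS D v x y) (hI0 : I * I ≠ 0) :
    ∃ J : Matrix B B ℚ, cK ℂ J ∈ TS D v x y ∧ J * J ≠ 0 ∧ I * J + J * I = 0 := by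
  by_contra hcon
  push Not at hcon
  have hII : I * I ∈ EA D := TS_sq r h hI
  obtain ⟨a', ha', haa, haa'⟩ := exists_inv r.simple hII hI0
  have hcI : ∀ M ∈ EA D, M * I = I * M := by
    intro M hM
    apply cK_inj
    rw [cK_mul, cK_mul]
    exact (hI.1 M hM).symm
  have h0 : ∀ M : Matrix B B ℚ, cK ℂ M ∈ TS D v x y → I * M + M * I = 0 → M * M = 0 := by
    intro M hM hIM
    by_contra hne
    exact hcon M hM hne hIM
  have h1 : ∀ M N : Matrix B B ℚ, cK ℂ M ∈ TS D v x y → cK ℂ N ∈ TS D v x y →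
      I * M + M * I = 0 → I * N + N * I = 0 → M * N + N * M = 0 := by
    intro M N hM hN hIM hIN
    have hIMN : I * (M + N) + (M + N) * I = 0 := by
      have h3 : I * (M + N) + (M + N) * I = (I * M + M * I) + (I * N + N * I) := by
        noncomm_ring
      rw [h3, hIM, hIN, add_zero]
    have h4 : M * N + N * M = (M + N) * (M + N) - M * M - N * N := by noncomm_ring
    rw [h4, h0 _ (TS_add_cK hM hN) hIMN, h0 _ hM hIM, h0 _ hN hIN]
    simp
  have hsub : ∀ (M c : Matrix B B ℚ), cK ℂ M ∈ TS D v x y → c ∈ EA D →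
      cK ℂ (M - c * I) ∈ TS D v x y := by
    intro M c hM hc
    have h3 : cK ℂ (M - c * I) = cK ℂ M - cK ℂ c * cK ℂ I := by
      rw [← cK_mul, sub_eq_add_neg, cK_add', cK_neg', ← sub_eq_add_neg]
    rw [h3]
    exact Submodule.sub_mem _ hM (TS_mulE r hI hc)
  -- the component
  have hcomp : ∀ M : Matrix B B ℚ, cK ℂ M ∈ TS D v x y → ∃ c ∈ EA D,
      (2 : ℚ) • (I * I * c) = I * M + M * I ∧ cK ℂ (M - c * I) ∈ TS D v x y ∧
        I * (M - c * I) + (M - c * I) * I = 0 := by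
    intro M hM
    have hb := TS_anti r h hI hM
    obtain ⟨b, hbd⟩ : ∃ b, b = I * M + M * I := ⟨_, rfl⟩
    have hbE : b ∈ EA D := by
      rw [hbd]
      exact hb
    have hc : (2 : ℚ)⁻¹ • (a' * b) ∈ EA D :=
      (EA D).smul_mem ((EA D).mul_mem ha' hbE) _
    have h2 : (2 : ℚ) • (I * I * ((2 : ℚ)⁻¹ • (a' * b))) = b := by
      rw [mul_smul_comm, smul_smul, ← mul_assoc, haa, one_mul]
      norm_num
    refine ⟨(2 : ℚ)⁻¹ • (a' * b), hc, by rw [h2, hbd], hsub M _ hM hc, ?_⟩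
    have h3 : I * (M - (2 : ℚ)⁻¹ • (a' * b) * I) + (M - (2 : ℚ)⁻¹ • (a' * b) * I) * I =
        (I * M + M * I) - (I * ((2 : ℚ)⁻¹ • (a' * b)) * I + (2 : ℚ)⁻¹ • (a' * b) * I * I) := by
      noncomm_ring
    rw [h3, ← hcI _ hc, mul_assoc, ← two_smul ℚ, ← r.comm hII hc, h2, hbd, sub_self]
  have h2 : ∀ M N : Matrix B B ℚ, cK ℂ M ∈ TS D v x y → cK ℂ N ∈ TS D v x y →
      (2 : ℚ) • (I * I * (M * N + N * M)) - (I * M + M * I) * (I * N + N * I) = 0 := by
    intro M N hM hN
    obtain ⟨m, hm, hm1, hm2, hm3⟩ := hcomp M hM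
    obtain ⟨n, hn, hn1, hn2, hn3⟩ := hcomp N hN
    have h3 := h1 _ _ hm2 hn2 hm3 hn3
    have h4 : M * N + N * M = n * (I * M + M * I) + m * (I * N + N * I) -
        (2 : ℚ) • (m * n * (I * I)) := by
      have e1 : (M - m * I) * (N - n * I) + (N - n * I) * (M - m * I) =
          M * N + N * M - (M * n * I + n * I * M) - (m * I * N + N * m * I) +
            (m * I * n * I + n * I * m * I) := by noncomm_ring
      have hMn : M * n = n * M := by
        apply cK_inj
        rw [cK_mul, cK_mul]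
        exact hM.1 n hn
      have hNm : N * m = m * N := by
        apply cK_inj
        rw [cK_mul, cK_mul]
        exact hN.1 m hm
      have e2 : M * n * I + n * I * M = n * (I * M + M * I) := by
        rw [hMn]
        noncomm_ring
      have e3 : m * I * N + N * m * I = m * (I * N + N * I) := by
        rw [hNm]
        noncomm_ring
      have e4 : m * I * n * I + n * I * m * I = (2 : ℚ) • (m * n * (I * I)) := by
        have e5 : m * I * n * I = m * n * (I * I) := by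
          rw [mul_assoc m I n, ← hcI n hn]
          noncomm_ring
        have e6 : n * I * m * I = m * n * (I * I) := by
          rw [mul_assoc n I m, ← hcI m hm, r.comm hm hn]
          noncomm_ring
        rw [e5, e6, two_smul]
      rw [e1, e2, e3, e4] at h3
      have e5 : M * N + N * M = (M * N + N * M - n * (I * M + M * I) - m * (I * N + N * I) +
          (2 : ℚ) • (m * n * (I * I))) + (n * (I * M + M * I) + m * (I * N + N * I) -
          (2 : ℚ) • (m * n * (I * I))) := by abel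
      rw [e5, h3, zero_add]
    rw [h4, ← hm1, ← hn1]
    have c1 := r.comm hII hm
    have c2 := r.comm hII hn
    have c3 := r.comm hm hn
    obtain ⟨q, hqd⟩ : ∃ q, q = I * I := ⟨_, rfl⟩
    rw [← hqd] at c1 c2 ⊢
    have e1 : n * ((2 : ℚ) • (q * m)) + m * ((2 : ℚ) • (q * n)) - (2 : ℚ) • (m * n * q) =
        (2 : ℚ) • (q * (m * n)) := by
      have f1 : n * (q * m) = q * (m * n) := by rw [← mul_assoc, ← c2, mul_assoc, ← c3]
      have f2 : m * (q * n) = q * (m * n) := by rw [← mul_assoc, ← c1, mul_assoc]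
      have f3 : m * n * q = q * (m * n) := by rw [mul_assoc, ← c2, f2]
      rw [mul_smul_comm, mul_smul_comm, f1, f2, f3]
      abel
    have e2 : (2 : ℚ) • (q * m) * ((2 : ℚ) • (q * n)) = (2 : ℚ) • (q * ((2 : ℚ) • (q * (m * n)))) := by
      rw [smul_mul_assoc, mul_smul_comm, mul_smul_comm]
      congr 2
      rw [mul_assoc q m, ← mul_assoc m q n, ← c1]
      noncomm_ring
    rw [e1, e2, sub_self]
  have h3 := bil_span (TS D v x y) (fun σ M hM => TS_map hM σ) (adL (cK ℂ I))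
    fun M N hM hN => by
      change (2 : ℂ) • (cK ℂ I * cK ℂ I * (cK ℂ M * cK ℂ N + cK ℂ N * cK ℂ M)) -
        (cK ℂ I * cK ℂ M + cK ℂ M * cK ℂ I) * (cK ℂ I * cK ℂ N + cK ℂ N * cK ℂ I) = 0
      have e1 := congrArg (cK ℂ) (h2 M N hM hN)
      rw [sub_eq_add_neg, cK_add', cK_neg', cK_smul', cK_zero] at e1
      simp only [cK_mul, cK_add'] at e1
      rw [← sub_eq_add_neg] at e1
      have e2 : ((2 : ℚ) : ℂ) = 2 := by norm_num
      rw [e2] at e1
      exact e1
  have h3' : ∀ A ∈ TS D v x y, ∀ A' ∈ TS D v x y,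
      (2 : ℂ) • (cK ℂ I * cK ℂ I * (A * A' + A' * A)) =
        (cK ℂ I * A + A * cK ℂ I) * (cK ℂ I * A' + A' * cK ℂ I) :=
    fun A hA A' hA' => sub_eq_zero.1 (h3 A hA A' hA')
  obtain ⟨X, hX, hXz⟩ := exists_lift r d h hq (a := x) x_mem_idl
  obtain ⟨Y, hY, hYz⟩ := exists_lift r d h hq (a := y) y_mem_idl
  obtain ⟨i, hi, hiz⟩ := TS_self hI
  have hsqs : ∀ a b, a ∈ idl x y → b ∈ idl x y → ∃ c : ℂ, a * b + b * a = c • 1 := by
    intro a b ha hb
    obtain ⟨c1, e1⟩ := h.sq ha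
    obtain ⟨c2, e2⟩ := h.sq hb
    obtain ⟨c3, e3⟩ := h.sq (Submodule.add_mem _ ha hb)
    refine ⟨c3 - c1 - c2, ?_⟩
    have e4 : a * b + b * a = (a + b) * (a + b) - a * a - b * b := by noncomm_ring
    rw [e4, e1, e2, e3]
    module
  -- the identity on the part
  have h4 : ∀ A ∈ TS D v x y, ∀ A' ∈ TS D v x y, ∀ a a' : Module.End ℂ (MP D v),
      (∀ z : MP D v, A *ᵥ (z : B → ℂ) = (a z : MP D v)) →
      (∀ z : MP D v, A' *ᵥ (z : B → ℂ) = (a' z : MP D v)) →
      (2 : ℂ) • (i * i * (a * a' + a' * a)) = (i * a + a * i) * (i * a' + a' * i) := by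
    intro A hA A' hA' a a' ha ha'
    refine LinearMap.ext fun z => Subtype.ext ?_
    have e1 := congrArg (fun Z : Matrix B B ℂ => Z *ᵥ (z : B → ℂ)) (h3' A hA A' hA')
    simp only [smul_mulVec, add_mulVec, ← mulVec_mulVec, hiz, ha, ha',
      mulVec_add] at e1
    simp only [LinearMap.smul_apply, LinearMap.add_apply,
      Module.End.mul_apply, map_add, Submodule.coe_smul, Submodule.coe_add]
    exact e1
  have h5 := h4 X hX X hX x x hXz hXz
  have h6 := h4 X hX Y hY x y hXz hYz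
  obtain ⟨s, hs⟩ := hsqs i x hi x_mem_idl
  rw [hs, h.xx, add_zero, mul_zero, smul_zero, smul_mul_smul_comm, one_mul] at h5
  have hone : (1 : Module.End ℂ (MP D v)) ≠ 0 := by
    intro h0
    have h1 := LinearMap.congr_fun h0 vp
    exact d.vp0 h1
  have hs0 : s = 0 := mul_self_eq_zero.1 ((smul_eq_zero.1 h5.symm).resolve_right hone)
  rw [hs, hs0, zero_smul, zero_mul, h.xy] at h6
  obtain ⟨c, hc⟩ := h.sq hi
  rw [hc, smul_mul_smul_comm, one_mul, smul_smul] at h6
  have h7 := (smul_eq_zero.1 h6).resolve_right hone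
  have hc0 : c = 0 := by
    rcases mul_eq_zero.1 h7 with h8 | h8
    · exact absurd h8 two_ne_zero
    · exact (mul_eq_zero.1 h8).resolve_right h.ne
  have h8 : cK ℂ (I * I) *ᵥ (vp : B → ℂ) = 0 := by
    rw [cK_mul, ← mulVec_mulVec, hiz, hiz]
    have e1 := LinearMap.congr_fun hc vp
    rw [hc0, zero_smul] at e1
    exact congrArg Subtype.val e1
  have h9 := inj_of_ne r.simple hII hI0 h8
  exact d.vp0 (Subtype.ext h9)

end Run7.h853.Cy
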