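import Mathlib
import Pool.Agent.Run7.h853.Cy.Rm8

/-!
# The quaternion algebra over the field of endomorphisms
-/

set_option linter.unusedSectionVars false

namespace Run7.h853.Cy

open Matrix ComplexOrder Pool.Agent.W437.HC Pool.Agent.W437.HD Pool.Agent.W437.HP
  Pool.Agent.W437.HR Pool.Agent.W437.CY

variable {B : Type} [Fintype B] [DecidableEq B] {D : Matrix B B ℂ} {Om : Matrix B B ℚ}
  {S : Finset ℤ} {P : ℤ → Matrix B B ℂ} {v : B → ℂ}

variable {k : ℤ} (r : Rm D Om S P k v) {D' : Module.End ℂ (MP D v)}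
  {P' : ℤ → Module.End ℂ (MP D v)} {w' : MP D v →ₗ[ℂ] MP D v →ₗ[ℂ] ℂ} {vp vm : MP D v}
  (d : Dt (LR D (MP D v)) D' P' w' vp vm)
  {x y : Module.End ℂ (MP D v)} {r0 : ℂ} (h : Sl (LR D (MP D v)) D' vm x y r0)

include r h in
/-- The component along a generator. -/
theorem exists_comp {G M : Matrix B B ℚ} (hG : cK ℂ G ∈ TS D v x y) (hG0 : G * G ≠ 0)
    (hM : cK ℂ M ∈ TS D v x y) :
    ∃ c ∈ EA D, (2 : ℚ) • (c * (G * G)) = G * M + M * G := by
  have hGG : G * G ∈ EA D := TS_sq r h hG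
  obtain ⟨g, hg, hg1, hg2⟩ := exists_inv r.simple hGG hG0
  have hb := TS_anti r h hG hM
  refine ⟨(2 : ℚ)⁻¹ • (g * (G * M + M * G)), (EA D).smul_mem ((EA D).mul_mem hg hb) _, ?_⟩
  obtain ⟨b, hbd⟩ : ∃ b, b = G * M + M * G := ⟨_, rfl⟩
  rw [← hbd] at hb ⊢
  rw [smul_mul_assoc, smul_smul, r.comm hg hb, mul_assoc, hg2, mul_one]
  norm_num

include r d h in
/-- The rational elements of the space. -/
theorem mem_IJ {I J : Matrix B B ℚ} (hI : cK ℂ I ∈ TS D v x y) (hI0 : I * I ≠ 0)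
    (hJ : cK ℂ J ∈ TS D v x y) (hJ0 : J * J ≠ 0) (hIJ : I * J + J * I = 0)
    {M : Matrix B B ℚ} (hM : cK ℂ M ∈ TS D v x y) :
    ∃ a ∈ EA D, ∃ b ∈ EA D, ∃ c ∈ EA D, M = a * I + b * J + c * (I * J) := by
  have hJI : J * I = -(I * J) := eq_neg_of_add_eq_zero_right hIJ
  have hK : cK ℂ (I * J) ∈ TS D v x y := by
    have h1 := TS_br d h hI hJ
    have h2 : cK ℂ (I * J) = (2 : ℂ)⁻¹ • (cK ℂ I * cK ℂ J - cK ℂ J * cK ℂ I) := by
      rw [← cK_mul, ← cK_mul, hJI, cK_neg', sub_neg_eq_add, ← two_smul ℂ, smul_smul]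
      norm_num
    rw [h2]
    exact Submodule.smul_mem _ _ h1
  have hII : I * I ∈ EA D := TS_sq r h hI
  have hJJ : J * J ∈ EA D := TS_sq r h hJ
  have hKK : (I * J) * (I * J) = -((I * I) * (J * J)) := by
    have e1 : (I * J) * (I * J) = I * (J * I) * J := by noncomm_ring
    rw [e1, hJI]
    noncomm_ring
  obtain ⟨i', hi', hi1, hi2⟩ := exists_inv r.simple hII hI0
  obtain ⟨j', hj', hj1, hj2⟩ := exists_inv r.simple hJJ hJ0
  have hinv : ∃ k' : Matrix B B ℚ, k' * ((I * J) * (I * J)) = 1 := by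
    refine ⟨-(j' * i'), ?_⟩
    rw [hKK]
    have e1 : -(j' * i') * -(I * I * (J * J)) = j' * (i' * (I * I)) * (J * J) := by noncomm_ring
    rw [e1, hi2, mul_one, hj2]
  obtain ⟨k', hk'⟩ := hinv
  have hone : (1 : Matrix B B ℚ) ≠ 0 := by
    intro h0
    apply hI0
    rw [← mul_one (I * I), h0, mul_zero]
  have hK0 : (I * J) * (I * J) ≠ 0 := by
    intro h0
    rw [h0, mul_zero] at hk'
    exact hone hk'.symm
  obtain ⟨a, ha, ha2⟩ := exists_comp r h hI hI0 hM
  obtain ⟨b, hb, hb2⟩ := exists_comp r h hJ hJ0 hM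
  obtain ⟨c, hc, hc2⟩ := exists_comp r h hK hK0 hM
  refine ⟨a, ha, b, hb, c, hc, ?_⟩
  have hcom : ∀ {G e : Matrix B B ℚ}, cK ℂ G ∈ TS D v x y → e ∈ EA D → G * e = e * G := by
    intro G e hG he
    apply cK_inj
    rw [cK_mul, cK_mul]
    exact hG.1 e he
  obtain ⟨K, hKd⟩ : ∃ K, K = I * J := ⟨_, rfl⟩
  rw [← hKd] at hK hKK hk' hK0 hc2 ⊢
  have hIK : I * K + K * I = 0 := by
    rw [hKd, mul_assoc, hJI]
    noncomm_ring
  have hJK : J * K + K * J = 0 := by
    rw [hKd, ← mul_assoc, hJI]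
    noncomm_ring
  obtain ⟨R, hR⟩ : ∃ R, R = M - (a * I + b * J + c * K) := ⟨_, rfl⟩
  -- the anticommutators
  have key : ∀ G : Matrix B B ℚ, cK ℂ G ∈ TS D v x y →
      G * R + R * G = (G * M + M * G) - a * (G * I + I * G) - b * (G * J + J * G) -
        c * (G * K + K * G) := by
    intro G hG
    have e1 := hcom hG ha
    have e2 := hcom hG hb
    have e3 := hcom hG hc
    have e4 : G * R + R * G = (G * M + M * G) - ((G * a) * I + a * (I * G)) -
        ((G * b) * J + b * (J * G)) - ((G * c) * K + c * (K * G)) := by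
      rw [hR]
      noncomm_ring
    rw [e4, e1, e2, e3]
    noncomm_ring
  have hRI : I * R + R * I = 0 := by
    rw [key I hI, hIJ, hIK, mul_zero, mul_zero, sub_zero, sub_zero, ← ha2, two_smul, mul_add,
      sub_self]
  have hRJ : J * R + R * J = 0 := by
    rw [key J hJ, add_comm (J * I), hIJ, hJK, mul_zero, mul_zero, sub_zero, sub_zero, ← hb2,
      two_smul, mul_add, sub_self]
  have hRK : K * R + R * K = 0 := by
    rw [key K hK, add_comm (K * I), hIK, add_comm (K * J), hJK, mul_zero, mul_zero, sub_zero,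
      sub_zero, ← hc2, two_smul, mul_add, sub_self]
  have hRK' : R * K = K * R := by
    have e1 : R * I = -(I * R) := eq_neg_of_add_eq_zero_right hRI
    have e2 : R * J = -(J * R) := eq_neg_of_add_eq_zero_right hRJ
    rw [hKd, ← mul_assoc, e1, neg_mul, mul_assoc, e2, mul_neg, neg_neg, mul_assoc]
  have hKR : K * R = 0 := by
    rw [hRK', ← two_smul ℚ] at hRK
    exact (smul_eq_zero.1 hRK).resolve_left two_ne_zero
  have hR0 : R = 0 := by
    have e1 : k' * (K * K) * R = R := by rw [hk', one_mul]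
    rw [← e1, mul_assoc, mul_assoc, hKR, mul_zero, mul_zero]
  rw [hR0] at hR
  exact (sub_eq_zero.1 hR.symm)

include d h in
/-- The space is stable under the bracket with the elements of the Lie algebra. -/
theorem TS_ad (r : Rm D Om S P k v) {A : Matrix B B ℂ} (hA : A ∈ TS D v x y) {X : Matrix B B ℂ}
    (hX : X ∈ lieM D ℂ) : X * A - A * X ∈ TS D v x y := by
  refine ⟨fun N hN => ?_, fun σ => ?_⟩
  · have h1 := hA.1 N hN
    have h2 := comm_lie r.pol hN hX
    have h3 : (X * A - A * X) * cK ℂ N = X * (A * cK ℂ N) - A * (X * cK ℂ N) := by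
      noncomm_ring
    have h4 : X * (cK ℂ N * A) - A * (cK ℂ N * X) =
        (X * cK ℂ N) * A - (A * cK ℂ N) * X := by noncomm_ring
    rw [h3, h1, h2, h4, h1, h2]
    noncomm_ring
  · obtain ⟨a, ha, haz⟩ := hA.2 σ
    have hXσ := lie_map hX σ
    have hmem : rW (MP D v) (X.map σ) (fun _ hz => r.stable hXσ hz) ∈ LR D (MP D v) :=
      rW_mem hXσ _
    refine ⟨_, h.ideal d _ hmem a ha, fun z => ?_⟩
    rw [map_sub_m, map_mul_m, map_mul_m, sub_mulVec, ← mulVec_mulVec, ← mulVec_mulVec, haz]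
    have h1 : A.map σ *ᵥ (X.map σ *ᵥ (z : B → ℂ)) =
        (a (rW (MP D v) (X.map σ) (fun _ hz => r.stable hXσ hz) z) : MP D v) := by
      rw [← haz]
      rfl
    rw [h1]
    rfl

/-- The components of an element of a space of matrices which is stable under the bracket. -/
theorem cmp_mem' {T : Submodule ℂ (Matrix B B ℂ)} (hp : Proj D S P)
    (hT : ∀ A ∈ T, D * A - A * D ∈ T) {X : Matrix B B ℂ} (hX : X ∈ T) (a : ℤ) :
    cmp S P X a ∈ T := by
  classical
  have hpow : ∀ n : ℕ, ∀ X ∈ T,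
      ∑ a ∈ S, ∑ b ∈ S, (((a - b : ℤ) : ℂ) ^ n) • (P a * X * P b) ∈ T := by
    intro n
    induction n with
    | zero =>
      intro X hX
      have h1 : ∑ a ∈ S, ∑ b ∈ S, (((a - b : ℤ) : ℂ) ^ 0) • (P a * X * P b) = X := by
        simp only [pow_zero, one_smul]
        rw [← Finset.sum_mul_sum, ← Finset.sum_mul, hp.tot, one_mul, mul_one]
      rw [h1]
      exact hX
    | succ n ih =>
      intro X hX
      have h1 := hT _ (ih X hX)
      have h2 : D * (∑ a ∈ S, ∑ b ∈ S, (((a - b : ℤ) : ℂ) ^ n) • (P a * X * P b)) -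
          (∑ a ∈ S, ∑ b ∈ S, (((a - b : ℤ) : ℂ) ^ n) • (P a * X * P b)) * D =
          ∑ a ∈ S, ∑ b ∈ S, (((a - b : ℤ) : ℂ) ^ (n + 1)) • (P a * X * P b) := by
        rw [Finset.mul_sum, Finset.sum_mul, ← Finset.sum_sub_distrib]
        refine Finset.sum_congr rfl fun a _ => ?_
        rw [Finset.mul_sum, Finset.sum_mul, ← Finset.sum_sub_distrib]
        refine Finset.sum_congr rfl fun b _ => ?_
        rw [mul_smul_comm, smul_mul_assoc, ← mul_assoc, ← mul_assoc, hp.left,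
          mul_assoc (P a * X), hp.right, smul_mul_assoc, smul_mul_assoc, mul_smul_comm, smul_smul,
          smul_smul, ← sub_smul]
        congr 1
        push_cast
        ring
      rw [← h2]
      exact h1
  have hpoly : ∀ q : Polynomial ℂ, ∀ X ∈ T,
      ∑ a ∈ S, ∑ b ∈ S, q.eval ((a - b : ℤ) : ℂ) • (P a * X * P b) ∈ T := by
    intro q
    induction q using Polynomial.induction_on' with
    | add p q hp hq =>
      intro X hX
      simp only [Polynomial.eval_add, add_smul, Finset.sum_add_distrib]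
      exact Submodule.add_mem _ (hp X hX) (hq X hX)
    | monomial n c =>
      intro X hX
      have h1 := Submodule.smul_mem _ c (hpow n X hX)
      rw [Finset.smul_sum] at h1
      simp only [Polynomial.eval_monomial]
      convert h1 using 2 with a _
      rw [Finset.smul_sum]
      refine Finset.sum_congr rfl fun b _ => ?_
      rw [smul_smul]
  obtain ⟨φ, hφ⟩ : ∃ φ : ℤ → ℂ, φ = fun c => if c = a then 1 else 0 := ⟨_, rfl⟩
  have h1 := hpoly (Lagrange.interpolate ((S ×ˢ S).image (fun p => p.1 - p.2))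
    (fun a : ℤ => (a : ℂ)) φ) X hX
  have h2 : ∀ a ∈ S, ∀ b ∈ S,
      (Lagrange.interpolate ((S ×ˢ S).image (fun p => p.1 - p.2))
        (fun a : ℤ => (a : ℂ)) φ).eval ((a - b : ℤ) : ℂ) = φ (a - b) := by
    intro a ha b hb
    refine Lagrange.eval_interpolate_at_node φ (fun x _ y _ hxy => by exact_mod_cast hxy) ?_
    exact Finset.mem_image.2 ⟨(a, b), Finset.mem_product.2 ⟨ha, hb⟩, rfl⟩
  have h3 : cmp S P X a = ∑ a ∈ S, ∑ b ∈ S,
      (Lagrange.interpolate ((S ×ˢ S).image (fun p => p.1 - p.2))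
        (fun a : ℤ => (a : ℂ)) φ).eval ((a - b : ℤ) : ℂ) • (P a * X * P b) := by
    unfold cmp
    refine Finset.sum_congr rfl fun p hp => Finset.sum_congr rfl fun q hq => ?_
    rw [h2 p hp q hq, hφ]
  rw [h3]
  exact h1

end Run7.h853.Cy
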