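import Mathlib
import Pool.Agent.Run7.h853.Cy.Rm9
import Pool.Agent.Run7.h853.Cy.Full
import Pool.Agent.Run7.h853.Cy.Defs2

/-!
# Hodge structures of Calabi-Yau type of weight three with totally real multiplication
-/

set_option linter.unusedSectionVars false

namespace Run7.h853.Cy

open Matrix ComplexOrder Pool.Agent.W437.HC Pool.Agent.W437.HD Pool.Agent.W437.HP
  Pool.Agent.W437.HR Pool.Agent.W437.CY

section general

variable {k N : ℕ} (V : PolHS k N)

theorem mem_endHS {A : Matrix (Fin N) (Fin N) ℚ} : A ∈ endHS V ↔ A ∈ EA V.D := by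
  rw [mem_EA]
  constructor
  · intro hA
    refine V.ext_mat fun p x hx => ?_
    have h1 : cK ℂ A *ᵥ x ∈ V.H p := hA p x hx
    rw [← mulVec_mulVec, ← mulVec_mulVec, V.D_vec hx, V.D_vec h1, mulVec_smul]
  · intro hM p x hx
    apply V.mem_of_eig
    have h1 : V.D *ᵥ (cK ℂ A *ᵥ x) = cK ℂ A *ᵥ (V.D *ᵥ x) := by
      rw [mulVec_mulVec, mulVec_mulVec, hM]
    have h2 : V.D *ᵥ (cm A *ᵥ x) = V.D *ᵥ (cK ℂ A *ᵥ x) := rfl
    rw [h2, h1, V.D_vec hx, mulVec_smul]
    rfl

theorem finrank_endHS : Module.finrank ℚ (endHS V) = Module.finrank ℚ (EA V.D) := by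
  refine LinearEquiv.finrank_eq
    { toFun := fun A => (⟨A.1, (mem_endHS V).1 A.2⟩ : EA V.D)
      invFun := fun A => (⟨A.1, (mem_endHS V).2 A.2⟩ : endHS V)
      left_inv := fun _ => rfl
      right_inv := fun _ => rfl
      map_add' := fun _ _ => rfl
      map_smul' := fun _ _ => rfl }

/-- The data of a simple Hodge structure of Calabi-Yau type with totally real multiplication. -/
theorem rm_of (hk : Odd k) (hs : V.IsSimple)
    (h1 : Module.finrank ℂ (V.H (Fin.last k)) = 1) (hR : RealMult V) :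
    ∃ v ∈ V.H (Fin.last k), Rm V.D V.Q (Finset.Icc (-(k : ℤ)) k) V.P k v := by
  have d := V.pol hk (K := k) le_rfl
  obtain ⟨v, hv0, hv⟩ := finrank_eq_one_iff'.1 h1
  have hv0' : (v : Fin N → ℂ) ≠ 0 := fun h => hv0 (Subtype.ext h)
  have hlast : (2 * ((Fin.last k : Fin (k + 1)) : ℕ) : ℤ) - k = k := by
    rw [Fin.val_last]
    ring
  have hvD : V.D *ᵥ (v : Fin N → ℂ) = ((k : ℤ) : ℂ) • (v : Fin N → ℂ) := by
    have h2 := V.D_vec v.2
    rwa [hlast] at h2
  have htop : ∀ x, V.D *ᵥ x = ((k : ℤ) : ℂ) • x → ∃ c : ℂ, x = c • (v : Fin N → ℂ) := by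
    intro x hx
    have h2 : x ∈ V.H (Fin.last k) := by
      apply V.mem_of_eig
      rw [hlast]
      exact hx
    obtain ⟨c, hc⟩ := hv ⟨x, h2⟩
    exact ⟨c, (congrArg Subtype.val hc).symm⟩
  exact ⟨v, v.2, ⟨d, V.simpleD hs, fun M hM => hR M ((mem_endHS V).2 hM), hv0', hvD, htop⟩⟩

end general

variable {N : ℕ} (V : PolHS 3 N)

/-- If the Lie algebra has no elements of degree three then the Hodge structure is of tensor type
or its dimension is one of the exceptional values. -/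
theorem alt_of {v : Fin N → ℂ} (r : Rm V.D V.Q (Finset.Icc (-3) 3) V.P 3 v)
    (hg : ∀ Y ∈ lieM V.D ℂ, ww (cK ℂ V.Q) v (Y *ᵥ v) = 0) :
    (∃ m ∈ ({4, 8, 14, 20, 32, 56} : Finset ℕ), N = m * Module.finrank ℚ (endHS V)) ∨
      TensorE V := by
  by_contra hcon
  push Not at hcon
  obtain ⟨hm, hT⟩ := hcon
  have dt := r.dt hg
  have hdim := dt.dims.2.1
  have hMP := r.finrank_MP
  rw [← finrank_endHS, Fintype.card_fin] at hMP
  obtain ⟨D', hD'⟩ : ∃ D', D' = rW (MP V.D v) V.D (fun _ hx => r.stable (D_mem V.D) hx) :=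
    ⟨_, rfl⟩
  rw [← hD'] at dt hdim
  obtain ⟨q, hqf⟩ : ∃ q, Module.finrank ℂ (ES D' 1) = q := ⟨_, rfl⟩
  have hq : q ∉ ({1, 3, 6, 9, 15, 27} : Finset ℕ) := by
    intro hq
    have hN : N = Module.finrank ℂ (MP V.D v) * Module.finrank ℚ (endHS V) := hMP.symm
    have hm2 : Module.finrank ℂ (MP V.D v) = 2 * q + 2 := by omega
    refine hm (2 * q + 2) ?_ (by rw [← hm2]; exact hN)
    simp only [Finset.mem_insert, Finset.mem_singleton] at hq ⊢
    omega
  obtain ⟨z, hzL, hz⟩ := dt.exists_z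
  obtain ⟨hz0, hzc⟩ := dt.z_prop hzL hz
  by_cases hs : ∃ s : ℂ, z = s • D'
  · obtain ⟨s, hs⟩ := hs
    apply hq
    have h2 := dt.list (s := s) fun Y hY => by
      rw [← hz Y hY, hs, smul_mul_assoc, map_smul, smul_eq_mul]
    rwa [hqf] at h2
  · push Not at hs
    obtain ⟨K1, R1, Km, Rm', hsp⟩ := dt.exists_split hz0 hzc hs
    obtain ⟨x0, y0, r0, hsl⟩ := dt.exists_sl hsp
    have h3 : Module.finrank ℂ (ES D' 1) ≠ 3 := by
      rw [hqf]
      rintro rfl
      exact hq (by decide)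
    obtain ⟨I, hI, hI0⟩ := exists_I r dt hsl h3
    obtain ⟨J, hJ, hJ0, hIJ⟩ := exists_J r dt hsl h3 hI hI0
    apply hT
    have hcom : ∀ {G e : Matrix (Fin N) (Fin N) ℚ}, cK ℂ G ∈ TS V.D v x0 y0 → e ∈ endHS V →
        e * G = G * e := by
      intro G e hG he
      apply cK_inj
      rw [cK_mul, cK_mul]
      exact (hG.1 e ((mem_endHS V).1 he)).symm
    refine ⟨I, J, fun A hA => ⟨hcom hI hA, hcom hJ hA⟩, (mem_endHS V).2 (TS_sq r hsl hI),
      (mem_endHS V).2 (TS_sq r hsl hJ), hI0, hJ0, eq_neg_of_add_eq_zero_right hIJ, ?_⟩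
    have hK : cK ℂ (I * J) ∈ TS V.D v x0 y0 := by
      have h1 := TS_br dt hsl hI hJ
      have h2 : cK ℂ (I * J) = (2 : ℂ)⁻¹ • (cK ℂ I * cK ℂ J - cK ℂ J * cK ℂ I) := by
        rw [← cK_mul, ← cK_mul, eq_neg_of_add_eq_zero_right hIJ, cK_neg', sub_neg_eq_add,
          ← two_smul ℂ, smul_smul]
        norm_num
      rw [h2]
      exact Submodule.smul_mem _ _ h1
    have hTS : quatSpan V I J = TS V.D v x0 y0 := by
      apply le_antisymm
      · unfold quatSpan
        rw [Submodule.span_le]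
        rintro _ ⟨A, hA, rfl | rfl | rfl⟩
        · change cK ℂ (A * I) ∈ _
          rw [cK_mul]
          exact TS_mulE r hI ((mem_endHS V).1 hA)
        · change cK ℂ (A * J) ∈ _
          rw [cK_mul]
          exact TS_mulE r hJ ((mem_endHS V).1 hA)
        · change cK ℂ (A * (I * J)) ∈ _
          rw [cK_mul]
          exact TS_mulE r hK ((mem_endHS V).1 hA)
      · intro A hA
        refine Submodule.span_le.2 ?_ (span_cK _ (fun σ M hM => TS_map hM σ) hA)
        rintro _ ⟨hM, M, rfl⟩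
        obtain ⟨a, ha, b, hb, c, hc, hM'⟩ := mem_IJ r dt hsl hI hI0 hJ hJ0 hIJ hM
        rw [hM', cK_add', cK_add']
        refine Submodule.add_mem _ (Submodule.add_mem _ ?_ ?_) ?_
        · exact Submodule.subset_span ⟨a, (mem_endHS V).2 ha, Or.inl rfl⟩
        · exact Submodule.subset_span ⟨b, (mem_endHS V).2 hb, Or.inr (Or.inl rfl)⟩
        · exact Submodule.subset_span ⟨c, (mem_endHS V).2 hc, Or.inr (Or.inr rfl)⟩
    rw [hTS]
    intro A hA
    rw [cmp_sum r.pol.prj A]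
    refine Submodule.sum_mem _ fun a _ => ?_
    have h5 := cmp_mem' r.pol.prj (fun A hA => TS_ad dt hsl r hA (D_mem V.D)) hA a
    by_cases ha : Even a
    · obtain ⟨s, hs⟩ := ha
      refine Submodule.mem_iSup_of_mem s ⟨h5, ?_⟩
      apply mem_shift
      rw [cmp_br r.pol.prj]
      congr 2
      omega
    · have h6 : cmp (Finset.Icc (-3) 3) V.P A a = 0 := by
        unfold cmp
        refine Finset.sum_eq_zero fun p _ => Finset.sum_eq_zero fun q _ => ?_
        by_cases hpq : p - q = a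
        · by_cases hp : Odd p
          · have hq' : ¬Odd q := by
              intro hq'
              apply ha
              rw [← hpq]
              exact hp.sub_odd hq'
            rw [r.pol.P_zero_of_not_odd hq', mul_zero, smul_zero]
          · rw [r.pol.P_zero_of_not_odd hp, zero_mul, zero_mul, smul_zero]
        · rw [if_neg hpq, zero_smul]
      rw [h6]
      exact Submodule.zero_mem _

/-- The Hodge structure is simple and has a good vector. -/
theorem gd_rm (hs : V.IsSimple) (h1 : Module.finrank ℂ (V.H (Fin.last 3)) = 1)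
    (hR : RealMult V) (hT : ¬TensorE V)
    (hm : ∀ m ∈ ({4, 8, 14, 20, 32, 56} : Finset ℕ), N ≠ m * Module.finrank ℚ (endHS V)) :
    Gd V := by
  obtain ⟨v, hvm, r⟩ := rm_of V (by decide) hs h1 hR
  have r' : Rm V.D V.Q (Finset.Icc (-3) 3) V.P 3 v := r
  refine ⟨hs, v, hvm, ?_⟩
  by_cases hg : ∀ Y ∈ lieM V.D ℂ, ww (cK ℂ V.Q) v (Y *ᵥ v) = 0
  · rcases alt_of V r' hg with ⟨m, hm1, hm2⟩ | h
    · exact absurd hm2 (hm m hm1)
    · exact absurd h hT
  · push Not at hg
    obtain ⟨Y, hY, hne⟩ := hg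
    have hS : ∀ a, V.P a ≠ 0 → -(3 : ℤ) ≤ a ∧ a ≤ 3 := by
      intro a ha
      by_contra h
      apply ha
      refine r'.pol.prj.zero ?_
      rw [Finset.mem_Icc]
      exact h
    obtain ⟨S', d'⟩ := r'.pol.dat (k := 3) (by norm_num) hS r'.v0 r'.ev r'.top
    exact d'.good_of_ne hY hne

end Run7.h853.Cy
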