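import Mathlib
import Pool.Agent.Run7.h853.Cy.Rm3

/-!
# Blocks of the Lie algebra
-/

set_option linter.unusedSectionVars false

namespace Run7.h853.Cy

open Matrix ComplexOrder Pool.Agent.W437.HC Pool.Agent.W437.HD Pool.Agent.W437.HP
  Pool.Agent.W437.HR Pool.Agent.W437.CY

section blocks

variable {B R K : Type} [Fintype B] [DecidableEq B] [Fintype R] [DecidableEq R] [Field K]
  [CharZero K] {D : Matrix B B ℂ} {D' : Matrix R R ℂ}

/-- A nondegenerate form killed by the operator. -/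
structure Frm (D : Matrix B B ℂ) (T : Matrix B B ℚ) : Prop where
  unit : IsUnit T
  sp : Dᵀ * cK ℂ T + cK ℂ T * D = 0

theorem unitK {T : Matrix B B ℚ} (h : IsUnit T) (K : Type) [Field K] [CharZero K] :
    IsUnit (cK K T) := by
  obtain ⟨u, hu⟩ := h
  refine ⟨⟨cK K T, cK K ((u⁻¹ : (Matrix _ _ ℚ)ˣ) : Matrix _ _ ℚ), ?_, ?_⟩, rfl⟩
  · rw [← cK_mul, ← hu, Units.mul_inv, cK_one]
  · rw [← cK_mul, ← hu, Units.inv_mul, cK_one]

theorem eq_of_unit {T X : Matrix B B K} (h : IsUnit T) (h0 : T * X = 0) : X = 0 := by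
  obtain ⟨u, rfl⟩ := h
  have h6 : ((u⁻¹ : (Matrix B B K)ˣ) : Matrix B B K) * ((u : Matrix B B K) * X) = X := by
    rw [← mul_assoc, Units.inv_mul, one_mul]
  rw [← h6, h0, mul_zero]

/-- The elements of the Lie algebra preserve the form. -/
theorem frm_sp {T : Matrix B B ℚ} (h : Dᵀ * cK ℂ T + cK ℂ T * D = 0) {X : Matrix B B K}
    (hX : X ∈ lieM D K) : Xᵀ * cK K T + cK K T * X = 0 := lieM_bil _ (isH_bilc _ h) hX

/-- A rational matrix which commutes with the operator commutes with the Lie algebra. -/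
theorem Frm.comm {T : Matrix B B ℚ} (h : Frm D T) {E : Matrix B B ℚ}
    (hE : cK ℂ E * D = D * cK ℂ E) {X : Matrix B B K} (hX : X ∈ lieM D K) :
    X * cK K E = cK K E * X := by
  have h1 : Dᵀ * cK ℂ (T * E) + cK ℂ (T * E) * D = 0 := by
    rw [cK_mul, mul_assoc (cK ℂ T), hE, ← mul_assoc, ← mul_assoc, ← add_mul, h.sp, zero_mul]
  have h2 := frm_sp h1 hX
  have h3 := frm_sp h.sp hX
  rw [cK_mul] at h2
  have h4 : cK K T * (cK K E * X - X * cK K E) = 0 := by
    have h5 : cK K T * (cK K E * X - X * cK K E) =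
        (Xᵀ * (cK K T * cK K E) + cK K T * cK K E * X) -
          (Xᵀ * cK K T + cK K T * X) * cK K E := by noncomm_ring
    rw [h5, h3, zero_mul, sub_zero]
    exact h2
  exact (sub_eq_zero.1 (eq_of_unit (unitK h.unit K) h4)).symm

/-- A block. -/
structure Bk (D : Matrix B B ℂ) (D' : Matrix R R ℂ) (p : Matrix R B ℚ) (i : Matrix B R ℚ) :
    Prop where
  pi : p * i = 1
  pD : cK ℂ p * D = D' * cK ℂ p
  Di : D * cK ℂ i = cK ℂ i * D'

/-- The block of a matrix. -/
def bb (K : Type) [Field K] (p : Matrix R B ℚ) (i : Matrix B R ℚ) :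
    Matrix B B K →ₗ[K] Matrix R R K where
  toFun X := cK K p * X * cK K i
  map_add' X Y := by rw [Matrix.mul_add, Matrix.add_mul]
  map_smul' a X := by rw [Matrix.mul_smul, Matrix.smul_mul, RingHom.id_apply]

theorem bb_apply (p : Matrix R B ℚ) (i : Matrix B R ℚ) (X : Matrix B B K) :
    bb K p i X = cK K p * X * cK K i := rfl

variable {p : Matrix R B ℚ} {i : Matrix B R ℚ} (b : Bk D D' p i) {T : Matrix B B ℚ}
  (hT : Frm D T)

include b

theorem Bk.piK (K : Type) [Field K] [CharZero K] : cK K p * cK K i = 1 := by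
  rw [← cK_mul, b.pi, cK_one]

include hT

theorem Bk.comm {X : Matrix B B K} (hX : X ∈ lieM D K) :
    X * (cK K i * cK K p) = cK K i * cK K p * X := by
  have h1 := hT.comm (E := i * p) (by
    rw [cK_mul, Matrix.mul_assoc, b.pD, ← Matrix.mul_assoc, ← b.Di, Matrix.mul_assoc]) hX
  rwa [cK_mul] at h1

theorem Bk.mul_inc {X : Matrix B B K} (hX : X ∈ lieM D K) :
    X * cK K i = cK K i * bb K p i X := by
  have h1 := b.comm hT hX
  have h2 : X * cK K i = X * (cK K i * cK K p) * cK K i := by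
    rw [Matrix.mul_assoc, Matrix.mul_assoc (cK K i), b.piK K, Matrix.mul_one]
  rw [h2, h1, bb_apply]
  simp only [Matrix.mul_assoc]

theorem Bk.prj_mul {X : Matrix B B K} (hX : X ∈ lieM D K) :
    cK K p * X = bb K p i X * cK K p := by
  have h1 := b.comm hT hX
  have h2 : cK K p * X = cK K p * (cK K i * cK K p * X) := by
    rw [← Matrix.mul_assoc, ← Matrix.mul_assoc, b.piK K, Matrix.one_mul]
  rw [h2, ← h1, bb_apply]
  simp only [Matrix.mul_assoc]

theorem Bk.mem {X : Matrix B B K} (hX : X ∈ lieM D K) : bb K p i X ∈ lieM D' K :=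
  lieM_blk (Q := i) b.pD b.pi hX (b.mul_inc hT hX)

theorem Bk.mul (X : Matrix B B K) {Y : Matrix B B K} (hY : Y ∈ lieM D K) :
    bb K p i (X * Y) = bb K p i X * bb K p i Y := by
  rw [bb_apply, ← Matrix.mul_assoc, Matrix.mul_assoc (cK K p * X), b.mul_inc hT hY,
    ← Matrix.mul_assoc, bb_apply p i X]

theorem Bk.bracket {X Y : Matrix B B K} (hX : X ∈ lieM D K) (hY : Y ∈ lieM D K) :
    bb K p i (X * Y - Y * X) = bb K p i X * bb K p i Y - bb K p i Y * bb K p i X := by
  rw [map_sub, b.mul hT X hY, b.mul hT Y hX]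

omit hT in
theorem Bk.bD : bb ℂ p i D = D' := by
  rw [bb_apply, b.pD, Matrix.mul_assoc, b.piK ℂ, Matrix.mul_one]

omit b hT in
theorem bb_map (lam : K →ₗ[ℚ] ℚ) (X : Matrix B B K) :
    bb ℚ p i (X.map lam) = (bb K p i X).map lam := by
  ext x y
  rw [bb_apply, bb_apply, Matrix.map_apply]
  simp only [Matrix.mul_apply, Matrix.map_apply, cK, map_sum, Finset.sum_mul]
  refine Finset.sum_congr rfl fun j _ => Finset.sum_congr rfl fun k _ => ?_
  have h1 : ((p x k : ℚ) : K) * X k j * ((i j y : ℚ) : K) = (p x k * i j y) • X k j := by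
    rw [Rat.smul_def, Rat.cast_mul]
    ring
  rw [h1, map_smul, smul_eq_mul]
  simp only [Rat.cast_id]
  ring

omit b hT in
theorem bb_cast (X : Matrix B B ℚ) : bb K p i (cK K X) = cK K (bb ℚ p i X) := by
  rw [bb_apply, bb_apply, cK_mul, cK_mul, cK_rat, cK_rat]

end blocks

section inter

variable {B R : Type} [Fintype B] [DecidableEq B] [Fintype R] [DecidableEq R]
  {D : Matrix B B ℂ} {D' : Matrix R R ℂ} {S : Finset ℤ} {P : ℤ → Matrix B B ℂ}
  {P' : ℤ → Matrix R R ℂ} (h : Proj D S P) (h' : Proj D' S P')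

include h h'

/-- Morphisms commute with the projections. -/
theorem inter {A : Matrix R B ℂ} (hA : A * D = D' * A) (a : ℤ) : A * P a = P' a * A := by
  have h1 : ∀ b c, b ≠ c → P' b * A * P c = 0 := by
    intro b c hbc
    have h2 : (b : ℂ) • (P' b * A * P c) = (c : ℂ) • (P' b * A * P c) := by
      rw [← Matrix.smul_mul, ← Matrix.smul_mul, ← h'.right, Matrix.mul_assoc (P' b), ← hA,
        ← Matrix.mul_assoc, Matrix.mul_assoc _ D, h.left, Matrix.mul_smul]
    have h3 : ((b : ℂ) - c) • (P' b * A * P c) = 0 := by rw [sub_smul, h2, sub_self]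
    exact (smul_eq_zero.1 h3).resolve_left (sub_ne_zero.2 (by exact_mod_cast hbc))
  by_cases ha : a ∈ S
  · have h2 : A * P a = P' a * A * P a := by
      conv_lhs => rw [← Matrix.one_mul (A * P a), ← h'.tot, Matrix.sum_mul]
      rw [Finset.sum_eq_single a (fun b _ hb => by rw [← Matrix.mul_assoc]; exact h1 b a hb)
        (fun h => absurd ha h), ← Matrix.mul_assoc]
    have h3 : P' a * A = P' a * A * P a := by
      conv_lhs => rw [← Matrix.mul_one (P' a * A), ← h.tot, Matrix.mul_sum]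
      exact Finset.sum_eq_single a (fun b _ hb => h1 a b (Ne.symm hb)) (fun h => absurd ha h)
    rw [h2, ← h3]
  · rw [h.zero ha, h'.zero ha, Matrix.mul_zero, Matrix.zero_mul]

/-- The block of the components. -/
theorem Bk.fn {p : Matrix R B ℚ} {i : Matrix B R ℚ} (b : Bk D D' p i) (φ : ℤ → ℂ)
    (X : Matrix B B ℂ) : bb ℂ p i (∑ a ∈ S, ∑ c ∈ S, φ (a - c) • (P a * X * P c)) =
      ∑ a ∈ S, ∑ c ∈ S, φ (a - c) • (P' a * bb ℂ p i X * P' c) := by
  rw [map_sum]
  refine Finset.sum_congr rfl fun a _ => ?_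
  rw [map_sum]
  refine Finset.sum_congr rfl fun c _ => ?_
  rw [map_smul, bb_apply, bb_apply]
  congr 1
  have h1 := inter h h' b.pD a
  have h2 := inter h' h b.Di.symm c
  have h3 : cK ℂ p * (P a * X * P c) * cK ℂ i = (cK ℂ p * P a) * X * (P c * cK ℂ i) := by
    simp only [Matrix.mul_assoc]
  rw [h3, h1, ← h2]
  simp only [Matrix.mul_assoc]

end inter

section sub

open Polynomial

variable {B : Type} [Fintype B] [DecidableEq B] {D : Matrix B B ℂ} {S : Finset ℤ}
  {P : ℤ → Matrix B B ℂ} (h : Proj D S P)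

include h

/-- The components of the elements of a subspace which is stable under the operator. -/
theorem sub_fun_mem {U : Submodule ℂ (Matrix B B ℂ)} (hU : ∀ X ∈ U, D * X - X * D ∈ U)
    (φ : ℤ → ℂ) {X : Matrix B B ℂ} (hX : X ∈ U) :
    ∑ a ∈ S, ∑ b ∈ S, φ (a - b) • (P a * X * P b) ∈ U := by
  classical
  have hpow : ∀ n : ℕ, ∀ X ∈ U,
      ∑ a ∈ S, ∑ b ∈ S, (((a - b : ℤ) : ℂ) ^ n) • (P a * X * P b) ∈ U := by
    intro n
    induction n with
    | zero =>
      intro X hX
      have h1 : ∑ a ∈ S, ∑ b ∈ S, (((a - b : ℤ) : ℂ) ^ 0) • (P a * X * P b) = X := by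
        simp only [pow_zero, one_smul]
        rw [← Finset.sum_mul_sum, ← Finset.sum_mul, h.tot, one_mul, mul_one]
      rw [h1]
      exact hX
    | succ n ih =>
      intro X hX
      have h1 := hU _ (ih X hX)
      have h2 : D * (∑ a ∈ S, ∑ b ∈ S, (((a - b : ℤ) : ℂ) ^ n) • (P a * X * P b)) -
          (∑ a ∈ S, ∑ b ∈ S, (((a - b : ℤ) : ℂ) ^ n) • (P a * X * P b)) * D =
          ∑ a ∈ S, ∑ b ∈ S, (((a - b : ℤ) : ℂ) ^ (n + 1)) • (P a * X * P b) := by
        rw [Finset.mul_sum, Finset.sum_mul, ← Finset.sum_sub_distrib]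
        refine Finset.sum_congr rfl fun a _ => ?_
        rw [Finset.mul_sum, Finset.sum_mul, ← Finset.sum_sub_distrib]
        refine Finset.sum_congr rfl fun b _ => ?_
        rw [mul_smul_comm, smul_mul_assoc, ← mul_assoc, ← mul_assoc, h.left, mul_assoc (P a * X),
          h.right, smul_mul_assoc, smul_mul_assoc, mul_smul_comm, smul_smul, smul_smul,
          ← sub_smul]
        congr 1
        push_cast
        ring
      rw [← h2]
      exact h1
  have hpoly : ∀ q : ℂ[X], ∀ X ∈ U,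
      ∑ a ∈ S, ∑ b ∈ S, q.eval ((a - b : ℤ) : ℂ) • (P a * X * P b) ∈ U := by
    intro q
    induction q using Polynomial.induction_on' with
    | add p q hp hq =>
      intro X hX
      simp only [eval_add, add_smul, Finset.sum_add_distrib]
      exact Submodule.add_mem _ (hp X hX) (hq X hX)
    | monomial n c =>
      intro X hX
      have h1 := Submodule.smul_mem _ c (hpow n X hX)
      rw [Finset.smul_sum] at h1
      simp only [eval_monomial]
      convert h1 using 2 with a _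
      rw [Finset.smul_sum]
      refine Finset.sum_congr rfl fun b _ => ?_
      rw [smul_smul]
  let T : Finset ℤ := (S ×ˢ S).image (fun p => p.1 - p.2)
  have h1 := hpoly (Lagrange.interpolate T (fun a : ℤ => (a : ℂ)) φ) X hX
  have h2 : ∀ a ∈ S, ∀ b ∈ S,
      (Lagrange.interpolate T (fun a : ℤ => (a : ℂ)) φ).eval ((a - b : ℤ) : ℂ) = φ (a - b) := by
    intro a ha b hb
    refine Lagrange.eval_interpolate_at_node φ (fun x _ y _ hxy => by exact_mod_cast hxy) ?_
    exact Finset.mem_image.2 ⟨(a, b), Finset.mem_product.2 ⟨ha, hb⟩, rfl⟩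
  have h3 : ∑ a ∈ S, ∑ b ∈ S, φ (a - b) • (P a * X * P b) =
      ∑ a ∈ S, ∑ b ∈ S, (Lagrange.interpolate T (fun a : ℤ => (a : ℂ)) φ).eval
        ((a - b : ℤ) : ℂ) • (P a * X * P b) := by
    refine Finset.sum_congr rfl fun a ha => Finset.sum_congr rfl fun b hb => ?_
    rw [h2 a ha b hb]
  rw [h3]
  exact h1

end sub

end Run7.h853.Cy
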