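import Mathlib
import Pool.Agent.Run7.h853.Cy.Z1
import Pool.Agent.Run7.h853.Cy.Q4a
import Pool.Agent.W437.CY.RelE

/-!
# The trace form for polarized Hodge structures of any weight
-/

set_option linter.unusedSectionVars false

namespace Run7.h853.Cy

open Matrix ComplexOrder Pool.Agent.W437.HC Pool.Agent.W437.HD Pool.Agent.W437.HP
  Pool.Agent.W437.HR Pool.Agent.W437.CY

section pol

variable {w e : ℕ} (W : PolHS w e) {K : ℤ} (hK : (w : ℤ) ≤ K)

theorem W_eig (a : ℤ) (x : Fin e → ℂ) : W.D *ᵥ (W.P a *ᵥ x) = (a : ℂ) • (W.P a *ᵥ x) := by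
  rw [mulVec_mulVec, (W.proj (K := w) le_rfl).left, smul_mulVec]

theorem W_par {a : ℤ} (ha : ¬∃ b : ℤ, a = 2 * b - w) : W.P a = 0 := by
  refine mat_ext fun x => ?_
  rw [zero_mulVec]
  rcases W.P_mem a x with ⟨p, hp, -⟩ | h
  · exact absurd ⟨p, hp.symm⟩ ha
  · exact h

theorem W_ww {a b : ℤ} {x y : Fin e → ℂ} (hx : W.D *ᵥ x = (a : ℂ) • x)
    (hy : W.D *ᵥ y = (b : ℂ) • y) (hab : a + b ≠ 0) : ww (cK ℂ W.Q) x y = 0 := by
  have h1 := ww_sp W.spD x y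
  rw [hx, hy, ww_smul_left, ww_smul_right] at h1
  have h2 : ((a : ℂ) + b) * ww (cK ℂ W.Q) x y = 0 := by linear_combination h1
  exact (mul_eq_zero.1 h2).resolve_left (by exact_mod_cast hab)

theorem W_cj {a : ℤ} {x : Fin e → ℂ} (hx : W.D *ᵥ x = (a : ℂ) • x) :
    W.D *ᵥ cj x = ((-a : ℤ) : ℂ) • cj x := by
  have h1 : W.D *ᵥ cj x = -cj (W.D *ᵥ x) := by
    rw [cj_mulVec, W.cjD, neg_mulVec, neg_neg]
  rw [h1, hx, cj_smul]
  simp

include hK

theorem W_adj (a : ℤ) : (W.P a)ᵀ * cK ℂ W.Q = cK ℂ W.Q * W.P (-a) := by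
  have hp := W.proj hK
  refine mat_ext' fun x y => ?_
  have h1 : x ⬝ᵥ (((W.P a)ᵀ * cK ℂ W.Q) *ᵥ y) = ww (cK ℂ W.Q) (W.P a *ᵥ x) y := by
    unfold ww
    rw [← mulVec_mulVec, dotProduct_mulVec x, vecMul_transpose]
  have h2 : x ⬝ᵥ ((cK ℂ W.Q * W.P (-a)) *ᵥ y) = ww (cK ℂ W.Q) x (W.P (-a) *ᵥ y) := by
    unfold ww
    rw [mulVec_mulVec]
  rw [h1, h2]
  have h3 : ww (cK ℂ W.Q) (W.P a *ᵥ x) y = ww (cK ℂ W.Q) (W.P a *ᵥ x) (W.P (-a) *ᵥ y) := by
    conv_lhs => rw [← hp.sum_vec y]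
    rw [ww_sum_right]
    by_cases hS : -a ∈ Finset.Icc (-K) K
    · rw [Finset.sum_eq_single (-a)]
      · intro b _ hb
        exact W_ww W (W_eig W a x) (W_eig W b y) (by intro h; apply hb; omega)
      · intro h
        exact absurd hS h
    · rw [hp.zero hS, zero_mulVec, ww_zero_right]
      refine Finset.sum_eq_zero fun b hb => W_ww W (W_eig W a x) (W_eig W b y) ?_
      intro h
      apply hS
      have : b = -a := by omega
      rwa [← this]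
  have h4 : ww (cK ℂ W.Q) x (W.P (-a) *ᵥ y) = ww (cK ℂ W.Q) (W.P a *ᵥ x) (W.P (-a) *ᵥ y) := by
    have h5 : ww (cK ℂ W.Q) x (W.P (-a) *ᵥ y) =
        ∑ b ∈ Finset.Icc (-K) K, ww (cK ℂ W.Q) (W.P b *ᵥ x) (W.P (-a) *ᵥ y) := by
      conv_lhs => rw [← hp.sum_vec x, ← wwL_apply, LinearMap.map_sum₂]
      rfl
    rw [h5]
    by_cases hS : a ∈ Finset.Icc (-K) K
    · rw [Finset.sum_eq_single a]
      · intro b _ hb
        exact W_ww W (W_eig W b x) (W_eig W (-a) y) (by intro h; apply hb; omega)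
      · intro h
        exact absurd hS h
    · rw [hp.zero hS, zero_mulVec, ww_zero_left]
      refine Finset.sum_eq_zero fun b hb => W_ww W (W_eig W b x) (W_eig W (-a) y) ?_
      intro h
      apply hS
      have : b = a := by omega
      rwa [← this]
  rw [h3, h4]

theorem W_cjP (a : ℤ) (x : Fin e → ℂ) : cj (W.P a *ᵥ x) = W.P (-a) *ᵥ cj x := by
  have hp := W.proj hK
  conv_rhs => rw [← hp.sum_vec x]
  have h1 : cj (∑ b ∈ Finset.Icc (-K) K, W.P b *ᵥ x) =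
      ∑ b ∈ Finset.Icc (-K) K, cj (W.P b *ᵥ x) := by
    funext i
    simp [cj, Finset.sum_apply, map_sum]
  rw [h1, mulVec_sum]
  have h2 : ∀ b, W.P (-a) *ᵥ cj (W.P b *ᵥ x) = if b = a then cj (W.P b *ᵥ x) else 0 := by
    intro b
    rw [hp.eig (W_cj W (W_eig W b x))]
    by_cases hb : b = a
    · rw [if_pos (by rw [hb]), if_pos hb]
    · rw [if_neg (by omega), if_neg hb]
  rw [Finset.sum_congr rfl (fun b _ => h2 b)]
  by_cases ha : a ∈ Finset.Icc (-K) K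
  · rw [Finset.sum_ite_eq' (Finset.Icc (-K) K) a, if_pos ha]
  · rw [Finset.sum_ite_eq' (Finset.Icc (-K) K) a, if_neg ha, hp.zero ha, zero_mulVec]
    funext i
    simp [cj]

theorem W_map (a : ℤ) : (W.P a).map (starRingEnd ℂ) = W.P (-a) := by
  refine mat_ext fun x => ?_
  have h8 := W_cjP W hK a (cj x)
  rw [cj_mulVec, cj_cj] at h8
  exact h8

omit hK in
theorem W_qt : (cK ℂ W.Q)ᵀ = (-1 : ℂ) ^ w • cK ℂ W.Q := by
  rw [← cK_transpose, W.sym]
  ext i j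
  simp [cK]

omit hK in
theorem W_sgn {a b : ℤ} (h : a = 2 * b - w) : Complex.I ^ (-a) = (-1 : ℂ) ^ w * Complex.I ^ a := by
  have h1 : Complex.I ^ a * Complex.I ^ a = (-1 : ℂ) ^ w := by
    rw [← mul_zpow, Complex.I_mul_I, h, zpow_sub₀ (by norm_num), _root_.zpow_mul]
    rcases Nat.even_or_odd w with hw | hw
    · rw [hw.neg_one_pow, zpow_natCast, hw.neg_one_pow]
      norm_num
    · rw [hw.neg_one_pow, zpow_natCast, hw.neg_one_pow]
      norm_num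
  have h2 : ((-1 : ℂ) ^ w) * ((-1 : ℂ) ^ w) = 1 := by
    rw [← mul_pow]
    norm_num
  have h0 : Complex.I ^ a ≠ 0 := zpow_ne_zero _ Complex.I_ne_zero
  have h3 : Complex.I ^ (-a) * Complex.I ^ a = 1 := by
    rw [← zpow_add₀ Complex.I_ne_zero, neg_add_cancel, zpow_zero]
  have h4 : ((-1 : ℂ) ^ w * Complex.I ^ a) * Complex.I ^ a = 1 := by
    rw [mul_assoc, h1, h2]
  exact mul_right_cancel₀ h0 (h3.trans h4.symm)

/-- The hermitian form of the polarization. -/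
theorem W_posDef : ((cK ℂ W.Q)ᵀ * Cw (Finset.Icc (-K) K) W.P).PosDef := by
  have hp := W.proj hK
  obtain ⟨S, hS⟩ : ∃ S, S = Finset.Icc (-K) K := ⟨_, rfl⟩
  rw [← hS] at hp ⊢
  have hCv : ∀ x, Cw S W.P *ᵥ x = ∑ a ∈ S, Complex.I ^ a • (W.P a *ᵥ x) := by
    intro x
    unfold Cw
    rw [Matrix.sum_mulVec]
    exact Finset.sum_congr rfl fun a _ => smul_mulVec _ _ _
  refine PosDef.of_dotProduct_mulVec_pos ?_ fun x hx => ?_
  · have h1 : ((cK ℂ W.Q)ᵀ)ᴴ = cK ℂ W.Q := by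
      ext i j
      simp [cK]
    have h3 : (Cw S W.P)ᴴ * cK ℂ W.Q = (cK ℂ W.Q)ᵀ * Cw S W.P := by
      have h4 : (Cw S W.P)ᴴ = ∑ a ∈ S, (starRingEnd ℂ (Complex.I ^ a)) • (W.P a)ᴴ := by
        unfold Cw
        rw [conjTranspose_sum]
        refine Finset.sum_congr rfl fun a _ => ?_
        rw [conjTranspose_smul]
        rfl
      have h5 : ∀ a, (W.P a)ᴴ * cK ℂ W.Q = cK ℂ W.Q * W.P a := by
        intro a
        have h6 : (W.P a)ᴴ = (W.P (-a))ᵀ := by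
          rw [← W_map W hK a]
          rfl
        rw [h6, W_adj W hK, neg_neg]
      rw [h4, Finset.sum_mul]
      have h9 : (cK ℂ W.Q)ᵀ * Cw S W.P =
          ∑ a ∈ S, ((-1 : ℂ) ^ w * Complex.I ^ a) • (cK ℂ W.Q * W.P a) := by
        unfold Cw
        rw [W_qt, Matrix.mul_sum]
        refine Finset.sum_congr rfl fun a _ => ?_
        rw [smul_mul_smul_comm]
      rw [h9]
      refine Finset.sum_congr rfl fun a _ => ?_
      rw [smul_mul_assoc, h5]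
      by_cases ha : ∃ b : ℤ, a = 2 * b - w
      · obtain ⟨b, hb⟩ := ha
        congr 1
        rw [← W_sgn hb, map_zpow₀, Complex.conj_I, _root_.zpow_neg, ← _root_.inv_zpow,
          Complex.inv_I]
      · rw [W_par W ha, mul_zero, smul_zero, smul_zero]
    rw [Matrix.IsHermitian, conjTranspose_mul, h1, h3]
  · have h1 : star x ⬝ᵥ (((cK ℂ W.Q)ᵀ * Cw S W.P) *ᵥ x) =
        ww (cK ℂ W.Q) (Cw S W.P *ᵥ x) (cj x) := by
      unfold ww
      rw [← mulVec_mulVec, mulVec_transpose, dotProduct_comm, ← dotProduct_mulVec]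
      rfl
    rw [h1]
    have h2 : cj x = ∑ b ∈ S, cj (W.P b *ᵥ x) := by
      conv_lhs => rw [← hp.sum_vec x]
      funext i
      simp [cj, Finset.sum_apply, map_sum]
    have h3 : ww (cK ℂ W.Q) (Cw S W.P *ᵥ x) (cj x) =
        ∑ a ∈ S, Complex.I ^ a * ww (cK ℂ W.Q) (W.P a *ᵥ x) (cj (W.P a *ᵥ x)) := by
      rw [hCv, ← wwL_apply, LinearMap.map_sum₂]
      refine Finset.sum_congr rfl fun a ha => ?_
      rw [wwL_apply, ww_smul_left, h2, ww_sum_right, Finset.sum_eq_single a]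
      · intro b _ hb
        exact W_ww W (W_eig W a x) (W_cj W (W_eig W b x)) (by intro h; apply hb; omega)
      · intro h
        exact absurd ha h
    rw [h3]
    have h4 : ∃ a ∈ S, W.P a *ᵥ x ≠ 0 := by
      by_contra h
      push Not at h
      apply hx
      rw [← hp.sum_vec x]
      exact Finset.sum_eq_zero h
    have hpos : ∀ a, W.P a *ᵥ x ≠ 0 →
        0 < Complex.I ^ a * ww (cK ℂ W.Q) (W.P a *ᵥ x) (cj (W.P a *ᵥ x)) := by
      intro a ha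
      obtain ⟨p, hpa, hm⟩ := (W.P_mem a x).resolve_right ha
      have h5 := W.pos p _ hm ha
      rw [hpa] at h5
      rw [ww_eq]
      exact h5
    obtain ⟨a, ha, hax⟩ := h4
    refine Finset.sum_pos' (fun b _ => ?_) ⟨a, ha, hpos a hax⟩
    by_cases hb : W.P b *ᵥ x = 0
    · rw [hb, ww_zero_left, mul_zero]
    · exact (hpos b hb).le

/-- A rational element of the Lie algebra of the form which is orthogonal to its transform by the
Weil operator is zero. -/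
theorem W_aniso {X : Matrix (Fin e) (Fin e) ℚ} (hX : Xᵀ * W.Q + W.Q * X = 0)
    (h0 : trace (cK ℂ X * ∑ a ∈ Finset.Icc (-K) K, ∑ b ∈ Finset.Icc (-K) K,
      (Complex.I ^ (-(a - b))) • (W.P a * cK ℂ X * W.P b)) = 0) : X = 0 := by
  have hp := W.proj hK
  have hpd := W_posDef W hK
  obtain ⟨S, hS⟩ : ∃ S, S = Finset.Icc (-K) K := ⟨_, rfl⟩
  rw [← hS] at hp h0 hpd
  obtain ⟨C, hC⟩ : ∃ C, C = Cw S W.P := ⟨_, rfl⟩
  obtain ⟨C', hC'⟩ : ∃ C', C' = ∑ a ∈ S, Complex.I ^ (-a) • W.P a := ⟨_, rfl⟩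
  have hCC : C * C' = 1 := by
    rw [hC, hC', Cw, Finset.sum_mul, ← hp.tot]
    refine Finset.sum_congr rfl fun a ha => ?_
    rw [Finset.mul_sum, Finset.sum_eq_single a]
    · rw [smul_mul_smul_comm, hp.idem, ← zpow_add₀ Complex.I_ne_zero, add_neg_cancel, zpow_zero,
        one_smul]
    · intro b _ hb
      rw [smul_mul_smul_comm, hp.off (Ne.symm hb), smul_zero]
    · intro h
      exact absurd ha h
  have h1 : ∑ a ∈ S, ∑ b ∈ S, (Complex.I ^ (-(a - b))) • (W.P a * cK ℂ X * W.P b) =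
      C' * cK ℂ X * C := by
    rw [hC', hC, Cw, Finset.sum_mul, Finset.sum_mul]
    refine Finset.sum_congr rfl fun a _ => ?_
    rw [Finset.mul_sum]
    refine Finset.sum_congr rfl fun b _ => ?_
    rw [smul_mul_assoc, smul_mul_smul_comm, ← zpow_add₀ Complex.I_ne_zero]
    congr 2
    ring
  rw [h1] at h0
  have hXC : (cK ℂ X)ᵀ * (cK ℂ W.Q)ᵀ = -((cK ℂ W.Q)ᵀ * cK ℂ X) := by
    have e1 : Xᵀ * W.Qᵀ + W.Qᵀ * X = 0 := by
      rw [W.sym, Matrix.mul_smul, Matrix.smul_mul, ← smul_add, hX, smul_zero]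
    have e2 := congrArg (cK ℂ) e1
    have e3 : cK ℂ (Xᵀ * W.Qᵀ + W.Qᵀ * X) = cK ℂ (Xᵀ * W.Qᵀ) + cK ℂ (W.Qᵀ * X) := cK_add' _ _
    rw [e3, cK_mul, cK_mul, cK_transpose, cK_transpose, cK_zero] at e2
    exact eq_neg_of_add_eq_zero_left e2
  have hH : (cK ℂ X)ᴴ = (cK ℂ X)ᵀ := by
    ext i j
    simp [cK]
  have h2 : cK ℂ X = 0 := by
    refine star_zero hpd (Zs := -(C' * cK ℂ X * C)) ?_ ?_
    · rw [← hC, hH]
      have e1 : (cK ℂ W.Q)ᵀ * C * -(C' * cK ℂ X * C) =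
          -((cK ℂ W.Q)ᵀ * (C * C') * cK ℂ X * C) := by noncomm_ring
      have e2 : (cK ℂ X)ᵀ * ((cK ℂ W.Q)ᵀ * C) = ((cK ℂ X)ᵀ * (cK ℂ W.Q)ᵀ) * C := by
        noncomm_ring
      rw [e1, e2, hCC, hXC]
      noncomm_ring
    · rw [mul_neg, trace_neg, h0, neg_zero]
  refine cK_inj (h2.trans ?_)
  rw [cK_zero]

end pol

end Run7.h853.Cy
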