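import Mathlib
import Pool.Agent.Run7.h853.Cy.Z2

/-!
# Ideals of the Lie algebra and their images in the blocks
-/

set_option linter.unusedSectionVars false

namespace Run7.h853.Cy

open Matrix ComplexOrder Pool.Agent.W437.HC Pool.Agent.W437.HD Pool.Agent.W437.HP
  Pool.Agent.W437.HR Pool.Agent.W437.CY

section orth

variable {B : Type} [Fintype B] [DecidableEq B]

/-- The orthogonal projection to a subspace on which the trace form is nondegenerate. -/
theorem exists_orth' (L : Submodule ℚ (Matrix B B ℚ))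
    (hnd : ∀ X ∈ L, (∀ Y ∈ L, trace (X * Y) = 0) → X = 0) :
    ∃ p : Matrix B B ℚ →ₗ[ℚ] Matrix B B ℚ, (∀ A, p A ∈ L) ∧ (∀ A ∈ L, p A = A) ∧
      (∀ A, ∀ X ∈ L, trace (p A * X) = trace (A * X)) ∧
      ∀ Z, (∀ X ∈ L, Z * X - X * Z ∈ L) → ∀ A, p (Z * A - A * Z) = Z * p A - p A * Z := by
  classical
  have hdisj : Disjoint L ((trF B).orthogonal L) := by
    rw [Submodule.disjoint_def]
    intro X hX hX'
    refine hnd X hX fun Y hY => ?_
    have h1 := hX' Y hY
    change trF B Y X = 0 at h1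
    rw [trF_apply, trace_mul_comm] at h1
    exact h1
  have hc : IsCompl L ((trF B).orthogonal L) :=
    (LinearMap.BilinForm.isCompl_orthogonal_iff_disjoint trF_refl).2 hdisj
  obtain ⟨p, hp⟩ : ∃ p, p = L.projection _ hc := ⟨_, rfl⟩
  have hpm : ∀ A, p A ∈ L := fun A => by
    rw [hp]
    exact Submodule.projection_apply_mem hc A
  have hid : ∀ A ∈ L, p A = A := fun A hA => by
    rw [hp]
    exact Submodule.projection_apply_of_mem_left hc hA
  have h1 : ∀ A, A - p A ∈ (trF B).orthogonal L := by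
    intro A
    rw [← Submodule.projection_apply_eq_zero_iff hc, map_sub, ← hp, hid _ (hpm A), sub_self]
  refine ⟨p, hpm, hid, fun A X hX => ?_, fun Z hZ A => ?_⟩
  · have h3 := h1 A X hX
    change trF B _ _ = 0 at h3
    rw [trF_apply, Matrix.mul_sub, trace_sub, sub_eq_zero] at h3
    rw [trace_mul_comm, ← h3, trace_mul_comm]
  · have h2 : Z * (A - p A) - (A - p A) * Z ∈ (trF B).orthogonal L := by
      intro Y hY
      change trF B Y _ = 0
      rw [trF_apply]
      have h3 := h1 A _ (hZ Y hY)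
      change trF B _ _ = 0 at h3
      rw [trF_apply] at h3
      have h4 : trace (Y * (Z * (A - p A) - (A - p A) * Z)) =
          -trace ((Z * Y - Y * Z) * (A - p A)) := by
        generalize A - p A = C
        rw [mul_sub, sub_mul, trace_sub, trace_sub, mul_assoc Z Y C, trace_mul_comm Z (Y * C),
          mul_assoc Y Z C, mul_assoc Y C Z]
        ring
      rw [h4, h3, neg_zero]
    have h4 : Z * A - A * Z = (Z * p A - p A * Z) + (Z * (A - p A) - (A - p A) * Z) := by
      noncomm_ring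
    have h5 : p (Z * (A - p A) - (A - p A) * Z) = 0 := by
      rw [hp] at h2 ⊢
      exact (Submodule.projection_apply_eq_zero_iff hc).2 h2
    rw [h4, map_add, h5, add_zero]
    exact hid _ (hZ _ (hpm A))

end orth

section ideal

variable {B : Type} [Fintype B] [DecidableEq B] {D : Matrix B B ℂ} {K : ℤ}
  {P : ℤ → Matrix B B ℂ} (h : Proj D (Finset.Icc (-K) K) P) {T : Matrix B B ℚ} (hT : Frm D T)

/-- An ideal of the rational Lie algebra. -/
structure Idl (D : Matrix B B ℂ) (U : Submodule ℚ (Matrix B B ℚ)) : Prop where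
  le : U ≤ lieM D ℚ
  br : ∀ X ∈ lieM D ℚ, ∀ Y ∈ U, X * Y - Y * X ∈ U

/-- The complexification of an ideal is stable under the Lie algebra. -/
theorem Idl.brC {U : Submodule ℚ (Matrix B B ℚ)} (hU : Idl D U) {X Y : Matrix B B ℂ}
    (hX : X ∈ lieM D ℂ) (hY : Y ∈ Submodule.span ℂ (cK ℂ '' (U : Set (Matrix B B ℚ)))) :
    X * Y - Y * X ∈ Submodule.span ℂ (cK ℂ '' (U : Set (Matrix B B ℚ))) := by
  have hX' := mem_span_rat hX
  clear hX
  induction hX' using Submodule.span_induction with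
  | mem X hX =>
    obtain ⟨X, hX, rfl⟩ := hX
    induction hY using Submodule.span_induction with
    | mem Y hY =>
      obtain ⟨Y, hY, rfl⟩ := hY
      refine Submodule.subset_span ⟨X * Y - Y * X, hU.br X hX Y hY, ?_⟩
      rw [← cK_mul, ← cK_mul]
      ext i j
      simp [cK]
    | zero =>
      rw [Matrix.mul_zero, Matrix.zero_mul, sub_zero]
      exact Submodule.zero_mem _
    | add Y Y' _ _ h1 h2 =>
      have h3 : cK ℂ X * (Y + Y') - (Y + Y') * cK ℂ X =
        (cK ℂ X * Y - Y * cK ℂ X) + (cK ℂ X * Y' - Y' * cK ℂ X) := by noncomm_ring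
      rw [h3]
      exact Submodule.add_mem _ h1 h2
    | smul a Y _ h1 =>
      rw [Matrix.mul_smul, Matrix.smul_mul, ← smul_sub]
      exact Submodule.smul_mem _ _ h1
  | zero =>
    rw [Matrix.mul_zero, Matrix.zero_mul, sub_zero]
    exact Submodule.zero_mem _
  | add X X' _ _ h1 h2 =>
    have h3 : (X + X') * Y - Y * (X + X') = (X * Y - Y * X) + (X' * Y - Y * X') := by
      noncomm_ring
    rw [h3]
    exact Submodule.add_mem _ h1 h2
  | smul a X _ h1 =>
    rw [Matrix.mul_smul, Matrix.smul_mul, ← smul_sub]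
    exact Submodule.smul_mem _ _ h1

include h hT in
/-- The trace form on the image of an ideal in a block is nondegenerate. -/
theorem nd_ideal {w e : ℕ} (W : PolHS w e) (hK : (w : ℤ) ≤ K) {p : Matrix (Fin e) B ℚ}
    {i : Matrix B (Fin e) ℚ} (b : Bk D W.D p i) {U : Submodule ℚ (Matrix B B ℚ)}
    (hU : Idl D U) : ∀ X ∈ U.map (bb ℚ p i),
      (∀ Y ∈ U.map (bb ℚ p i), trace (X * Y) = 0) → X = 0 := by
  rintro X ⟨X0, hX0, rfl⟩ h0
  have hsp := frm_sp W.spD (b.mem hT (hU.le hX0))
  rw [cK_rat] at hsp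
  refine W_aniso W hK hsp ?_
  have hY := sub_fun_mem h (U := Submodule.span ℂ (cK ℂ '' (U : Set (Matrix B B ℚ))))
    (fun X hX => hU.brC (D_mem D) hX) (fun c => Complex.I ^ (-c)) (X := cK ℂ X0)
    (Submodule.subset_span ⟨X0, hX0, rfl⟩)
  have h1 := b.fn h (W.proj hK) (fun c => Complex.I ^ (-c)) (cK ℂ X0)
  rw [bb_cast] at h1
  rw [← h1]
  generalize ∑ a ∈ Finset.Icc (-K) K, ∑ c ∈ Finset.Icc (-K) K, (Complex.I ^ (-(a - c))) •
    (P a * cK ℂ X0 * P c) = Y at hY
  clear h1
  induction hY using Submodule.span_induction with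
  | mem Y hY =>
    obtain ⟨Y0, hY0, rfl⟩ := hY
    rw [bb_cast, ← cK_mul]
    have h3 := h0 (bb ℚ p i Y0) ⟨Y0, hY0, rfl⟩
    have h4 : ∀ M : Matrix (Fin e) (Fin e) ℚ, trace (cK ℂ M) = ((trace M : ℚ) : ℂ) := by
      intro M
      simp [trace, cK]
    rw [h4, h3, Rat.cast_zero]
  | zero => rw [map_zero, Matrix.mul_zero, trace_zero]
  | add x y _ _ h1 h2 => rw [map_add, Matrix.mul_add, trace_add, h1, h2, add_zero]
  | smul a x _ h1 => rw [map_smul, Matrix.mul_smul, trace_smul, h1, smul_zero]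

end ideal

end Run7.h853.Cy
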