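import Mathlib
import Pool.Agent.Run7.h853.Cy.Z3
import Pool.Agent.Run7.h853.Cy.Defs3

/-!
# Equivariant maps and mixed Hodge classes
-/

set_option linter.unusedSectionVars false

namespace Run7.h853.Cy

open Matrix ComplexOrder Pool.Agent.W437.HC Pool.Agent.W437.HD Pool.Agent.W437.HP
  Pool.Agent.W437.HR Pool.Agent.W437.CY

section ext

variable {R Q : Type} [Fintype R] [DecidableEq R] [Fintype Q] [DecidableEq Q]

/-- The complexification of a linear map between spaces of matrices. -/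
noncomputable def extC (ψ : Matrix R R ℚ →ₗ[ℚ] Matrix Q Q ℚ) : Matrix R R ℂ →ₗ[ℂ] Matrix Q Q ℂ where
  toFun Y := ∑ s, ∑ t, Y s t • cK ℂ (ψ (single s t 1))
  map_add' X Y := by
    simp only [Matrix.add_apply, add_smul, Finset.sum_add_distrib]
  map_smul' a X := by
    simp only [Matrix.smul_apply, smul_eq_mul, RingHom.id_apply, Finset.smul_sum, smul_smul]

theorem extC_apply (ψ : Matrix R R ℚ →ₗ[ℚ] Matrix Q Q ℚ) (Y : Matrix R R ℂ) :
    extC ψ Y = ∑ s, ∑ t, Y s t • cK ℂ (ψ (single s t 1)) := rfl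

theorem cK_sub' {m n : Type} (M N : Matrix m n ℚ) : cK ℂ (M - N) = cK ℂ M - cK ℂ N := by
  ext i j
  simp [cK]

theorem extC_cast (ψ : Matrix R R ℚ →ₗ[ℚ] Matrix Q Q ℚ) (Y : Matrix R R ℚ) :
    extC ψ (cK ℂ Y) = cK ℂ (ψ Y) := by
  have h1 : ψ Y = ∑ s, ∑ t, Y s t • ψ (single s t 1) := by
    conv_lhs => rw [matrix_eq_sum_single Y, map_sum]
    refine Finset.sum_congr rfl fun s _ => ?_
    rw [map_sum]
    refine Finset.sum_congr rfl fun t _ => ?_
    rw [← map_smul, smul_single, smul_eq_mul, mul_one]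
  rw [h1, extC_apply]
  ext a b
  simp only [Matrix.sum_apply, Matrix.smul_apply, cK, Matrix.map_apply, smul_eq_mul,
    Rat.cast_sum, Rat.cast_mul]

theorem cK_single (s t : R) : cK ℂ (single s t (1 : ℚ)) = single s t (1 : ℂ) := by
  ext a b
  simp only [cK, Matrix.map_apply, single_apply]
  by_cases h : s = a ∧ t = b
  · rw [if_pos h, if_pos h, Rat.cast_one]
  · rw [if_neg h, if_neg h, Rat.cast_zero]

/-- The complex matrices are spanned by the rational ones. -/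
theorem mem_span_cK (Y : Matrix R R ℂ) :
    Y ∈ Submodule.span ℂ (Set.range (cK ℂ : Matrix R R ℚ → Matrix R R ℂ)) := by
  rw [matrix_eq_sum_single Y]
  refine Submodule.sum_mem _ fun s _ => Submodule.sum_mem _ fun t _ => ?_
  have h1 : single s t (Y s t) = Y s t • cK ℂ (single s t (1 : ℚ)) := by
    rw [cK_single, smul_single, smul_eq_mul, mul_one]
  rw [h1]
  exact Submodule.smul_mem _ _ (Submodule.subset_span ⟨_, rfl⟩)

/-- Equivariance of the complexification. -/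
theorem extC_equiv {B : Type} [Fintype B] [DecidableEq B] {D : Matrix B B ℂ}
    {ψ : Matrix R R ℚ →ₗ[ℚ] Matrix Q Q ℚ} {p : Matrix Q B ℚ} {i : Matrix B Q ℚ}
    {p' : Matrix R B ℚ} {i' : Matrix B R ℚ}
    (h : ∀ Z ∈ lieM D ℚ, ∀ Y, ψ (bb ℚ p' i' Z * Y - Y * bb ℚ p' i' Z) =
      bb ℚ p i Z * ψ Y - ψ Y * bb ℚ p i Z) {Z : Matrix B B ℂ} (hZ : Z ∈ lieM D ℂ)
    (Y : Matrix R R ℂ) : extC ψ (bb ℂ p' i' Z * Y - Y * bb ℂ p' i' Z) =
      bb ℂ p i Z * extC ψ Y - extC ψ Y * bb ℂ p i Z := by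
  have hZ' := mem_span_rat hZ
  clear hZ
  induction hZ' using Submodule.span_induction with
  | mem Z hZ =>
    obtain ⟨Z, hZ, rfl⟩ := hZ
    have hY := mem_span_cK Y
    induction hY using Submodule.span_induction with
    | mem Y hY =>
      obtain ⟨Y, rfl⟩ := hY
      rw [bb_cast, bb_cast, ← cK_mul, ← cK_mul, ← cK_sub', extC_cast, extC_cast, h Z hZ Y,
        cK_sub', cK_mul, cK_mul]
    | zero =>
      rw [Matrix.mul_zero, Matrix.zero_mul, sub_zero, map_zero, Matrix.mul_zero, Matrix.zero_mul,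
        sub_zero]
    | add Y Y' _ _ h1 h2 =>
      have h3 : ∀ A : Matrix R R ℂ, A * (Y + Y') - (Y + Y') * A =
        (A * Y - Y * A) + (A * Y' - Y' * A) := by
        intro A
        noncomm_ring
      rw [h3, map_add, h1, h2, map_add]
      noncomm_ring
    | smul a Y _ h1 =>
      rw [Matrix.mul_smul, Matrix.smul_mul, ← smul_sub, map_smul, h1, map_smul, Matrix.mul_smul,
        Matrix.smul_mul, ← smul_sub]
  | zero =>
    rw [map_zero, map_zero, Matrix.mul_zero, Matrix.zero_mul, sub_zero, map_zero,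
      Matrix.mul_zero, Matrix.zero_mul, sub_zero]
  | add Z Z' _ _ h1 h2 =>
    have h3 : (bb ℂ p' i' (Z + Z')) * Y - Y * (bb ℂ p' i' (Z + Z')) =
        (bb ℂ p' i' Z * Y - Y * bb ℂ p' i' Z) + (bb ℂ p' i' Z' * Y - Y * bb ℂ p' i' Z') := by
      rw [map_add]
      noncomm_ring
    rw [h3, map_add, h1, h2, map_add]
    noncomm_ring
  | smul a Z _ h1 =>
    rw [map_smul, Matrix.mul_smul, Matrix.smul_mul, ← smul_sub, map_smul, h1, map_smul,
      Matrix.mul_smul, Matrix.smul_mul, ← smul_sub]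

end ext

section mixed

variable {k N w e : ℕ} (V : PolHS k N) (W : PolHS w e)

theorem qinv (V : PolHS k N) : V.Q * V.Q⁻¹ = 1 ∧ V.Q⁻¹ * V.Q = 1 := by
  have hu : IsUnit V.Q.det := (Matrix.isUnit_iff_isUnit_det _).1 V.unit
  exact ⟨Matrix.mul_nonsing_inv _ hu, Matrix.nonsing_inv_mul _ hu⟩

theorem qinv_P {K : ℤ} (hK : (k : ℤ) ≤ K) (a : ℤ) :
    cK ℂ V.Q⁻¹ * (V.P a)ᵀ = V.P (-a) * cK ℂ V.Q⁻¹ := by
  have h1 := W_adj V hK a
  have h2 : cK ℂ V.Q⁻¹ * cK ℂ V.Q = 1 := by rw [← cK_mul, (qinv V).2, cK_one]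
  have h3 : cK ℂ V.Q * cK ℂ V.Q⁻¹ = 1 := mul_eq_one_comm.1 h2
  have h4 : cK ℂ V.Q⁻¹ * ((V.P a)ᵀ * cK ℂ V.Q) * cK ℂ V.Q⁻¹ =
      cK ℂ V.Q⁻¹ * (cK ℂ V.Q * V.P (-a)) * cK ℂ V.Q⁻¹ := by rw [h1]
  have h5 : cK ℂ V.Q⁻¹ * ((V.P a)ᵀ * cK ℂ V.Q) * cK ℂ V.Q⁻¹ =
      cK ℂ V.Q⁻¹ * (V.P a)ᵀ * (cK ℂ V.Q * cK ℂ V.Q⁻¹) := by simp only [Matrix.mul_assoc]
  have h6 : cK ℂ V.Q⁻¹ * (cK ℂ V.Q * V.P (-a)) * cK ℂ V.Q⁻¹ =
      (cK ℂ V.Q⁻¹ * cK ℂ V.Q) * V.P (-a) * cK ℂ V.Q⁻¹ := by simp only [Matrix.mul_assoc]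
  rw [h5, h6, h2, h3, Matrix.mul_one, Matrix.one_mul] at h4
  exact h4

/-- The product of four projections. -/
theorem sum_four {S S' : Finset ℤ} {P : ℤ → Matrix (Fin N) (Fin N) ℂ}
    {P' : ℤ → Matrix (Fin e) (Fin e) ℂ} (h : ∑ a ∈ S, P a = 1) (h' : ∑ a ∈ S', P' a = 1)
    (M : Fin N → Fin N → Fin e → Fin e → ℂ) :
    M = ∑ q ∈ S ×ˢ S ×ˢ S' ×ˢ S', ∑ x : Fin N × Fin N × Fin e × Fin e,
      M x.1 x.2.1 x.2.2.1 x.2.2.2 • fun a b s t =>
        P q.1 a x.1 * P q.2.1 b x.2.1 * P' q.2.2.1 s x.2.2.1 * P' q.2.2.2 t x.2.2.2 := by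
  funext a b s t
  have h1 : ∀ a a', ∑ α ∈ S, P α a a' = if a = a' then 1 else 0 := by
    intro a a'
    have h2 := congrFun (congrFun h a) a'
    rwa [Matrix.sum_apply, Matrix.one_apply] at h2
  have h2 : ∀ a a', ∑ α ∈ S', P' α a a' = if a = a' then 1 else 0 := by
    intro a a'
    have h2 := congrFun (congrFun h' a) a'
    rwa [Matrix.sum_apply, Matrix.one_apply] at h2
  rw [Finset.sum_comm]
  simp only [Finset.sum_apply, Pi.smul_apply, smul_eq_mul]
  have e1 : ∀ x : Fin N × Fin N × Fin e × Fin e, ∑ q ∈ S ×ˢ S ×ˢ S' ×ˢ S',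
      M x.1 x.2.1 x.2.2.1 x.2.2.2 * (P q.1 a x.1 * P q.2.1 b x.2.1 * P' q.2.2.1 s x.2.2.1 *
        P' q.2.2.2 t x.2.2.2) = M x.1 x.2.1 x.2.2.1 x.2.2.2 * ((∑ α ∈ S, P α a x.1) *
          (∑ β ∈ S, P β b x.2.1) * (∑ γ ∈ S', P' γ s x.2.2.1) *
            (∑ δ ∈ S', P' δ t x.2.2.2)) := by
    intro x
    rw [← Finset.mul_sum]
    congr 1
    simp only [Finset.sum_product, ← Finset.mul_sum, ← Finset.sum_mul]
  rw [Finset.sum_congr rfl fun x _ => e1 x, Finset.sum_eq_single (a, b, s, t)]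
  · rw [h1, h1, h2, h2, if_pos rfl, if_pos rfl, if_pos rfl, if_pos rfl]
    ring
  · rintro ⟨a', b', s', t'⟩ - hx
    rw [h1, h1, h2, h2]
    by_cases ha : a = a'
    · by_cases hb : b = b'
      · by_cases hs : s = s'
        · by_cases ht : t = t'
          · exact absurd (by rw [ha, hb, hs, ht]) hx
          · rw [if_neg ht, mul_zero, mul_zero]
        · rw [if_neg hs, mul_zero, zero_mul, mul_zero]
      · rw [if_neg hb, mul_zero, zero_mul, zero_mul, mul_zero]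
    · rw [if_neg ha, zero_mul, zero_mul, zero_mul, mul_zero]
  · intro h
    exact absurd (Finset.mem_univ _) h

variable (hk : Odd k) {ψ : Matrix (Fin e) (Fin e) ℚ →ₗ[ℚ] Matrix (Fin N) (Fin N) ℚ}

/-- The tensor of an equivariant map is of type zero. -/
theorem mixed_mem (heq : ∀ Y, extC ψ (W.D * Y - Y * W.D) = V.D * extC ψ Y - extC ψ Y * V.D) :
    (fun a b s t => (((ψ (W.Q⁻¹ * single s t 1) * V.Q⁻¹) a b : ℚ) : ℂ)) ∈
      Submodule.span ℂ {F | ∃ (p q : Fin (k + 1))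
        (r s : Fin (w + 1)) (x y : Fin N → ℂ) (z u : Fin e → ℂ), x ∈ V.H p ∧ y ∈ V.H q ∧
        z ∈ W.H r ∧ u ∈ W.H s ∧ (p : ℕ) + q + r + s = k + w ∧
        F = fun a b c d => x a * y b * z c * u d} := by
  obtain ⟨K, hKd⟩ : ∃ K : ℤ, K = k + w := ⟨_, rfl⟩
  have hKk : (k : ℤ) ≤ K := by omega
  have hKw : (w : ℤ) ≤ K := by omega
  have hp := V.proj hKk
  have hp' := W.proj hKw
  obtain ⟨M, hM⟩ : ∃ M : Fin N → Fin N → Fin e → Fin e → ℂ, M = fun a b s t =>
      (((ψ (W.Q⁻¹ * single s t 1) * V.Q⁻¹) a b : ℚ) : ℂ) := ⟨_, rfl⟩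
  have hM' : ∀ a b s t, M a b s t = (extC ψ (cK ℂ W.Q⁻¹ * single s t 1) * cK ℂ V.Q⁻¹) a b := by
    intro a b s t
    rw [hM, ← cK_single, ← cK_mul, extC_cast, ← cK_mul]
    rfl
  rw [← hM, sum_four hp.tot hp'.tot M]
  refine Submodule.sum_mem _ fun q _ => ?_
  obtain ⟨α, β, γ, δ⟩ := q
  by_cases hq : α + β + γ + δ = 0
  · refine Submodule.sum_mem _ fun x _ => Submodule.smul_mem _ _ ?_
    obtain ⟨a', b', s', t'⟩ := x
    have hcol : ∀ {n m : ℕ} (U : PolHS n m) (a : ℤ) (j : Fin m),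
        (∃ p : Fin (n + 1), 2 * (p : ℤ) - n = a ∧ (fun i => U.P a i j) ∈ U.H p) ∨
          (fun i => U.P a i j) = 0 := by
      intro n m U a j
      have h1 : (fun i => U.P a i j) = U.P a *ᵥ Pi.single j 1 := by
        rw [mulVec_single_one]
        rfl
      rw [h1]
      exact U.P_mem a _
    change (fun a b s t => V.P α a a' * V.P β b b' * W.P γ s s' * W.P δ t t') ∈ _
    rcases hcol V α a' with ⟨p1, hp1, hm1⟩ | h0
    swap
    · have : (fun a b s t => V.P α a a' * V.P β b b' * W.P γ s s' * W.P δ t t') = 0 := by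
        funext a b s t
        rw [congrFun h0 a]
        simp
      rw [this]
      exact Submodule.zero_mem _
    rcases hcol V β b' with ⟨p2, hp2, hm2⟩ | h0
    swap
    · have : (fun a b s t => V.P α a a' * V.P β b b' * W.P γ s s' * W.P δ t t') = 0 := by
        funext a b s t
        rw [congrFun h0 b]
        simp
      rw [this]
      exact Submodule.zero_mem _
    rcases hcol W γ s' with ⟨p3, hp3, hm3⟩ | h0
    swap
    · have : (fun a b s t => V.P α a a' * V.P β b b' * W.P γ s s' * W.P δ t t') = 0 := by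
        funext a b s t
        rw [congrFun h0 s]
        simp
      rw [this]
      exact Submodule.zero_mem _
    rcases hcol W δ t' with ⟨p4, hp4, hm4⟩ | h0
    swap
    · have : (fun a b s t => V.P α a a' * V.P β b b' * W.P γ s s' * W.P δ t t') = 0 := by
        funext a b s t
        rw [congrFun h0 t]
        simp
      rw [this]
      exact Submodule.zero_mem _
    refine Submodule.subset_span ⟨p1, p2, p3, p4, _, _, _, _, hm1, hm2, hm3, hm4, ?_, rfl⟩
    omega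
  · have h0 : ∑ x : Fin N × Fin N × Fin e × Fin e,
        M x.1 x.2.1 x.2.2.1 x.2.2.2 • (fun a b s t =>
        V.P α a x.1 * V.P β b x.2.1 * W.P γ s x.2.2.1 * W.P δ t x.2.2.2) = 0 := by
      funext a b s t
      simp only [Finset.sum_apply, Pi.smul_apply, smul_eq_mul, Pi.zero_apply]
      obtain ⟨Y, hY⟩ : ∃ Y, Y = W.P (-γ) * (cK ℂ W.Q⁻¹ * single s t 1) * W.P δ := ⟨_, rfl⟩
      have e1 : ∑ s', ∑ t', (W.P γ s s' * W.P δ t t') • (cK ℂ W.Q⁻¹ * single s' t' (1 : ℂ)) =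
          Y := by
        have e2 : (W.P γ)ᵀ * single s t 1 * W.P δ =
            ∑ s', ∑ t', (W.P γ s s' * W.P δ t t') • single s' t' (1 : ℂ) := by
          conv_lhs => rw [matrix_eq_sum_single ((W.P γ)ᵀ * single s t 1 * W.P δ)]
          refine Finset.sum_congr rfl fun s' _ => Finset.sum_congr rfl fun t' _ => ?_
          rw [smul_single, smul_eq_mul, mul_one]
          congr 1
          rw [Matrix.mul_apply, Finset.sum_eq_single t]
          · simp
          · intro x _ hx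
            have h1 : ((W.P γ)ᵀ * single s t (1 : ℂ)) s' x = 0 := by
              rw [Matrix.mul_apply]
              refine Finset.sum_eq_zero fun j _ => ?_
              rw [single_apply, if_neg (fun h => hx h.2.symm), mul_zero]
            rw [h1, zero_mul]
          · intro h
            exact absurd (Finset.mem_univ _) h
        rw [hY, ← Matrix.mul_assoc (W.P (-γ)), ← qinv_P W hKw, Matrix.mul_assoc, Matrix.mul_assoc,
          ← Matrix.mul_assoc (W.P γ)ᵀ, e2, Matrix.mul_sum]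
        refine Finset.sum_congr rfl fun s' _ => ?_
        rw [Matrix.mul_sum]
        refine Finset.sum_congr rfl fun t' _ => ?_
        rw [Matrix.mul_smul]
      have hYD : W.D * Y - Y * W.D = ((-γ - δ : ℤ) : ℂ) • Y := by
        rw [hY, ← Matrix.mul_assoc, ← Matrix.mul_assoc, hp'.left, Matrix.mul_assoc _ (W.P δ),
          hp'.right, Matrix.smul_mul, Matrix.smul_mul, Matrix.mul_smul, ← sub_smul]
        congr 1
        push_cast
        ring
      have hZD := heq Y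
      rw [hYD, map_smul] at hZD
      obtain ⟨Z, hZ⟩ : ∃ Z, Z = extC ψ Y := ⟨_, rfl⟩
      rw [← hZ] at hZD
      have hPZ : V.P α * Z * V.P (-β) = 0 := by
        have e2 : V.P α * (V.D * Z - Z * V.D) * V.P (-β) =
            ((α + β : ℤ) : ℂ) • (V.P α * Z * V.P (-β)) := by
          have e3 : V.P α * (V.D * Z - Z * V.D) * V.P (-β) =
              (V.P α * V.D) * Z * V.P (-β) - V.P α * Z * (V.D * V.P (-β)) := by noncomm_ring
          rw [e3, hp.right, hp.left, Matrix.smul_mul, Matrix.smul_mul, Matrix.mul_smul,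
            ← sub_smul]
          congr 1
          push_cast
          ring
        rw [← hZD, Matrix.mul_smul, Matrix.smul_mul] at e2
        have e4 : (((α + β : ℤ) : ℂ) - ((-γ - δ : ℤ) : ℂ)) • (V.P α * Z * V.P (-β)) = 0 := by
          rw [sub_smul, e2, sub_self]
        refine (smul_eq_zero.1 e4).resolve_left ?_
        intro h5
        apply hq
        have h6 : ((α + β - (-γ - δ) : ℤ) : ℂ) = 0 := by
          push_cast at h5 ⊢
          linear_combination h5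
        have h7 : α + β - (-γ - δ) = 0 := by exact_mod_cast h6
        omega
      have e5 : ∀ a' b', ∑ s', ∑ t', (W.P γ s s' * W.P δ t t') * M a' b' s' t' =
          (Z * cK ℂ V.Q⁻¹) a' b' := by
        intro a' b'
        rw [hZ, ← e1, map_sum, Matrix.sum_mul, Matrix.sum_apply]
        refine Finset.sum_congr rfl fun s' _ => ?_
        rw [map_sum, Matrix.sum_mul, Matrix.sum_apply]
        refine Finset.sum_congr rfl fun t' _ => ?_
        rw [map_smul, Matrix.smul_mul, Matrix.smul_apply, smul_eq_mul, hM']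
      have e6 : ∑ x : Fin N × Fin N × Fin e × Fin e, M x.1 x.2.1 x.2.2.1 x.2.2.2 *
          (V.P α a x.1 * V.P β b x.2.1 * W.P γ s x.2.2.1 * W.P δ t x.2.2.2) =
          (V.P α * (Z * cK ℂ V.Q⁻¹) * (V.P β)ᵀ) a b := by
        simp only [Fintype.sum_prod_type]
        rw [Matrix.mul_apply]
        simp only [Matrix.mul_apply (M := V.P α), Finset.sum_mul]
        rw [Finset.sum_comm]
        refine Finset.sum_congr rfl fun b' _ => Finset.sum_congr rfl fun a' _ => ?_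
        rw [← e5, Matrix.transpose_apply, Finset.mul_sum, Finset.sum_mul]
        refine Finset.sum_congr rfl fun s' _ => ?_
        rw [Finset.mul_sum, Finset.sum_mul]
        refine Finset.sum_congr rfl fun t' _ => ?_
        ring
      rw [e6]
      have e7 : V.P α * (Z * cK ℂ V.Q⁻¹) * (V.P β)ᵀ =
          (V.P α * Z * V.P (-β)) * cK ℂ V.Q⁻¹ := by
        have e8 := qinv_P V hKk β
        have e9 : V.P α * (Z * cK ℂ V.Q⁻¹) * (V.P β)ᵀ =
            V.P α * Z * (cK ℂ V.Q⁻¹ * (V.P β)ᵀ) := by simp only [Matrix.mul_assoc]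
        rw [e9, e8]
        simp only [Matrix.mul_assoc]
      rw [e7, hPZ, Matrix.zero_mul]
      rfl
    change ∑ x : Fin N × Fin N × Fin e × Fin e,
        M x.1 x.2.1 x.2.2.1 x.2.2.2 • (fun a b s t =>
        V.P α a x.1 * V.P β b x.2.1 * W.P γ s x.2.2.1 * W.P δ t x.2.2.2) ∈ _
    rw [h0]
    exact Submodule.zero_mem _

include hk in
/-- Without mixed Hodge classes the equivariant maps vanish. -/
theorem mixed_zero (hno : NoMixed V W)
    (hsp : ∀ Y, (ψ Y)ᵀ * V.Q + V.Q * ψ Y = 0)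
    (heq : ∀ Y, extC ψ (W.D * Y - Y * W.D) = V.D * extC ψ Y - extC ψ Y * V.D) :
    ψ = 0 := by
  have hsk : V.Qᵀ = -V.Q := by
    rw [V.sym, hk.neg_one_pow, neg_one_smul]
  have hc := hno (fun a b s t => (ψ (W.Q⁻¹ * single s t 1) * V.Q⁻¹) a b) (by
    intro a b s t
    obtain ⟨Z, hZ⟩ : ∃ Z, Z = ψ (W.Q⁻¹ * single s t 1) := ⟨_, rfl⟩
    have h1 := hsp (W.Q⁻¹ * single s t 1)
    rw [← hZ] at h1
    simp only [← hZ]
    have h2 : (Z * V.Q⁻¹)ᵀ = Z * V.Q⁻¹ := by
      have e1 : (V.Q⁻¹)ᵀ = -V.Q⁻¹ := by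
        rw [Matrix.transpose_nonsing_inv, hsk]
        refine Matrix.inv_eq_left_inv ?_
        rw [neg_mul_neg]
        exact (qinv V).2
      have e2 : V.Q⁻¹ * (Zᵀ * V.Q + V.Q * Z) * V.Q⁻¹ = 0 := by
        rw [h1, Matrix.mul_zero, Matrix.zero_mul]
      have e3 : V.Q⁻¹ * (Zᵀ * V.Q + V.Q * Z) * V.Q⁻¹ =
          V.Q⁻¹ * Zᵀ * (V.Q * V.Q⁻¹) + (V.Q⁻¹ * V.Q) * Z * V.Q⁻¹ := by noncomm_ring
      rw [e3, (qinv V).1, (qinv V).2, Matrix.mul_one, Matrix.one_mul] at e2
      rw [transpose_mul, e1, neg_mul]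
      exact neg_eq_of_add_eq_zero_right e2
    exact congrFun (congrFun h2 b) a) (mixed_mem V W heq)
  have h1 : ∀ s t, ψ (W.Q⁻¹ * single s t 1) = 0 := by
    intro s t
    have h2 : ψ (W.Q⁻¹ * single s t 1) * V.Q⁻¹ = 0 := by
      ext a b
      exact congrFun (congrFun (congrFun (congrFun hc a) b) s) t
    have h3 : ψ (W.Q⁻¹ * single s t 1) * V.Q⁻¹ * V.Q = 0 := by rw [h2, Matrix.zero_mul]
    rwa [Matrix.mul_assoc, (qinv V).2, Matrix.mul_one] at h3
  refine LinearMap.ext fun Y => ?_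
  have h2 : Y = ∑ s, ∑ t, (W.Q * Y) s t • (W.Q⁻¹ * single s t 1) := by
    have e1 : W.Q⁻¹ * (W.Q * Y) = Y := by
      rw [← Matrix.mul_assoc, (qinv W).2, Matrix.one_mul]
    conv_lhs => rw [← e1, matrix_eq_sum_single (W.Q * Y), Matrix.mul_sum]
    refine Finset.sum_congr rfl fun s _ => ?_
    rw [Matrix.mul_sum]
    refine Finset.sum_congr rfl fun t _ => ?_
    rw [← Matrix.mul_smul, smul_single, smul_eq_mul, mul_one]
  rw [h2, map_sum]
  refine Finset.sum_eq_zero fun s _ => ?_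
  rw [map_sum]
  refine Finset.sum_eq_zero fun t _ => ?_
  rw [map_smul, h1, smul_zero]

end mixed

end Run7.h853.Cy
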