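import Mathlib
import Pool.Agent.Run7.h853.Cy.Z4

/-!
# Ideals and the absence of mixed Hodge classes
-/

set_option linter.unusedSectionVars false

namespace Run7.h853.Cy

open Matrix ComplexOrder Pool.Agent.W437.HC Pool.Agent.W437.HD Pool.Agent.W437.HP
  Pool.Agent.W437.HR Pool.Agent.W437.CY

variable {B : Type} [Fintype B] [DecidableEq B] {D : Matrix B B ℂ} {K : ℤ}
  {P : ℤ → Matrix B B ℂ} (h : Proj D (Finset.Icc (-K) K) P) {T : Matrix B B ℚ} (hT : Frm D T)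
  {k N w e : ℕ} (V : PolHS k N) (W : PolHS w e) (hk : Odd k) (hKk : (k : ℤ) ≤ K)
  (hKw : (w : ℤ) ≤ K) {p : Matrix (Fin N) B ℚ} {i : Matrix B (Fin N) ℚ} (b : Bk D V.D p i)
  {p' : Matrix (Fin e) B ℚ} {i' : Matrix B (Fin e) ℚ} (b' : Bk D W.D p' i')
  {U : Submodule ℚ (Matrix B B ℚ)} (hU : Idl D U)

include hT b' hU in
/-- The elements of an ideal with a vanishing block form an ideal. -/
theorem Idl.ker : Idl D (U ⊓ LinearMap.ker (bb ℚ p' i')) where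
  le := fun _ hX => hU.le hX.1
  br := fun X hX Y hY => ⟨hU.br X hX Y hY.1, by
    have h1 : bb ℚ p' i' Y = 0 := hY.2
    change bb ℚ p' i' (X * Y - Y * X) = 0
    rw [b'.bracket hT hX (hU.le hY.1), h1, Matrix.mul_zero, Matrix.zero_mul, sub_zero]⟩

include h hT hk hKk hKw b b' hU in
/-- Without mixed Hodge classes the image of an ideal in a block does not change when we pass to
the elements with a vanishing second block. -/
theorem step_mixed (hno : NoMixed V W) {X : Matrix B B ℚ} (hX : X ∈ U) :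
    ∃ X' ∈ U ⊓ LinearMap.ker (bb ℚ p' i'), bb ℚ p i X' = bb ℚ p i X := by
  classical
  obtain ⟨U1, hU1⟩ : ∃ U1, U1 = U ⊓ LinearMap.ker (bb ℚ p' i') := ⟨_, rfl⟩
  have hI1 : Idl D U1 := by
    rw [hU1]
    exact Idl.ker hT W b' hU
  have nd1 := nd_ideal h hT V hKk b hI1
  obtain ⟨p1, hp1m, hp1id, hp1tr, -⟩ := exists_orth' _ nd1
  obtain ⟨U2, hU2⟩ : ∃ U2 : Submodule ℚ (Matrix B B ℚ), ∀ X, X ∈ U2 ↔ X ∈ U ∧
      ∀ Y ∈ U1, trace (bb ℚ p i X * bb ℚ p i Y) = 0 :=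
    ⟨{ carrier := {X | X ∈ U ∧ ∀ Y ∈ U1, trace (bb ℚ p i X * bb ℚ p i Y) = 0}
       zero_mem' := ⟨U.zero_mem, fun Y _ => by
        rw [map_zero, Matrix.zero_mul, trace_zero]⟩
       add_mem' := fun {X X'} hX hX' => ⟨U.add_mem hX.1 hX'.1, fun Y hY => by
        rw [map_add, Matrix.add_mul, trace_add, hX.2 Y hY, hX'.2 Y hY, add_zero]⟩
       smul_mem' := fun a X hX => ⟨U.smul_mem a hX.1, fun Y hY => by
        rw [map_smul, Matrix.smul_mul, trace_smul, hX.2 Y hY, smul_zero]⟩ }, fun X => Iff.rfl⟩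
  have hI2 : Idl D U2 := by
    refine ⟨fun X hX => hU.le ((hU2 X).1 hX).1, fun Z hZ X hX => ?_⟩
    obtain ⟨hX1, hX2⟩ := (hU2 X).1 hX
    refine (hU2 _).2 ⟨hU.br Z hZ X hX1, fun Y hY => ?_⟩
    have h1 := hX2 _ (hI1.br Z hZ Y hY)
    rw [b.bracket hT hZ (hI1.le hY)] at h1
    rw [b.bracket hT hZ (hU.le hX1)]
    generalize bb ℚ p i Z = z at h1 ⊢
    generalize bb ℚ p i X = x at h1 ⊢
    generalize bb ℚ p i Y = y at h1 ⊢
    have h2 : trace ((z * x - x * z) * y) = -trace (x * (z * y - y * z)) := by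
      rw [sub_mul, mul_sub, trace_sub, trace_sub, mul_assoc z x y, trace_mul_comm z (x * y),
        mul_assoc x z y, mul_assoc x y z]
      ring
    rw [h2, h1, neg_zero]
  -- an element of the second ideal with a vanishing second block
  have hker : ∀ X ∈ U2, bb ℚ p' i' X = 0 → bb ℚ p i X = 0 := by
    intro X hX hX0
    obtain ⟨hX1, hX2⟩ := (hU2 X).1 hX
    have hXU1 : X ∈ U1 := by
      rw [hU1]
      exact ⟨hX1, hX0⟩
    refine nd1 _ ⟨X, hXU1, rfl⟩ ?_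
    rintro _ ⟨Y, hY, rfl⟩
    exact hX2 Y hY
  have nd2 := nd_ideal h hT W hKw b' hI2
  obtain ⟨q, hqm, hqid, -, hqeq⟩ := exists_orth' _ nd2
  -- the section
  obtain ⟨g, hg1, hg2⟩ : ∃ g : Matrix (Fin e) (Fin e) ℚ →ₗ[ℚ] Matrix B B ℚ,
      (∀ Y, g Y ∈ U2) ∧ ∀ Y, bb ℚ p' i' (g Y) = q Y := by
    let f0 : U2 →ₗ[ℚ] Matrix (Fin e) (Fin e) ℚ := (bb ℚ p' i').domRestrict U2
    obtain ⟨s, hs⟩ := f0.rangeRestrict.exists_rightInverse_of_surjective
      (LinearMap.range_rangeRestrict f0)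
    have hq' : ∀ Y, q Y ∈ LinearMap.range f0 := by
      intro Y
      obtain ⟨X, hX, hXY⟩ := hqm Y
      exact ⟨⟨X, hX⟩, hXY⟩
    refine ⟨U2.subtype ∘ₗ s ∘ₗ q.codRestrict (LinearMap.range f0) hq', fun Y => ?_, fun Y => ?_⟩
    · exact Submodule.coe_mem _
    · have h1 := LinearMap.congr_fun hs (q.codRestrict (LinearMap.range f0) hq' Y)
      have h2 := congrArg Subtype.val h1
      exact h2
  have hgu : ∀ Y, ∀ X ∈ U2, bb ℚ p' i' X = q Y → bb ℚ p i (g Y) = bb ℚ p i X := by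
    intro Y X hX hXY
    have h1 := hker (g Y - X) (U2.sub_mem (hg1 Y) hX) (by rw [map_sub, hg2, hXY, sub_self])
    rwa [map_sub, sub_eq_zero] at h1
  have hψ : bb ℚ p i ∘ₗ g = 0 := by
    refine mixed_zero V W hk hno (fun Y => ?_) (fun Y => ?_)
    · have h1 := frm_sp V.spD (b.mem hT (hI2.le (hg1 Y)))
      rw [cK_rat] at h1
      exact h1
    · have h1 := extC_equiv (D := D) (ψ := bb ℚ p i ∘ₗ g) (p := p) (i := i) (p' := p') (i' := i')
        (fun Z hZ Y => ?_) (D_mem D) Y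
      · rwa [b.bD, b'.bD] at h1
      · rw [LinearMap.comp_apply, LinearMap.comp_apply, ← b.bracket hT hZ (hI2.le (hg1 Y))]
        refine hgu _ _ (hI2.br Z hZ _ (hg1 Y)) ?_
        rw [b'.bracket hT hZ (hI2.le (hg1 Y)), hg2]
        refine (hqeq (bb ℚ p' i' Z) ?_ Y).symm
        rintro _ ⟨X, hX, rfl⟩
        exact ⟨Z * X - X * Z, hI2.br Z hZ X hX, b'.bracket hT hZ (hI2.le hX)⟩
  -- the end
  obtain ⟨X1, hX1, hX1e⟩ := hp1m (bb ℚ p i X)
  have hXX : X - X1 ∈ U2 := by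
    have hX1U : X1 ∈ U := by
      rw [hU1] at hX1
      exact hX1.1
    refine (hU2 _).2 ⟨U.sub_mem hX hX1U, fun Y hY => ?_⟩
    rw [map_sub, Matrix.sub_mul, trace_sub, hX1e, hp1tr _ _ ⟨Y, hY, rfl⟩, sub_self]
  have h1 := hgu (bb ℚ p' i' (X - X1)) (X - X1) hXX (hqid _ ⟨_, hXX, rfl⟩).symm
  have h2 := LinearMap.congr_fun hψ (bb ℚ p' i' (X - X1))
  rw [LinearMap.comp_apply, h1, LinearMap.zero_apply, map_sub, sub_eq_zero] at h2
  rw [hU1] at hX1
  exact ⟨X1, hX1, h2.symm⟩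

end Run7.h853.Cy
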