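import Mathlib
import Pool.Agent.Run7.h853.Cy.Z5
import Pool.Agent.Run7.h853.Cy.Rel1

/-!
# Elements of the ideals with vanishing blocks: small level and small dimension
-/

set_option linter.unusedSectionVars false

namespace Run7.h853.Cy

open Matrix ComplexOrder Pool.Agent.W437.HC Pool.Agent.W437.HD Pool.Agent.W437.HP
  Pool.Agent.W437.HR Pool.Agent.W437.CY

section cpl

variable {B : Type} [Fintype B] [DecidableEq B]

/-- The complexification of a rational space of matrices. -/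
def UC (U : Submodule ℚ (Matrix B B ℚ)) : Submodule ℂ (Matrix B B ℂ) :=
  Submodule.span ℂ (cK ℂ '' (U : Set (Matrix B B ℚ)))

theorem mem_UC {U : Submodule ℚ (Matrix B B ℚ)} {X : Matrix B B ℂ} :
    X ∈ UC U ↔ ∀ lam : ℂ →ₗ[ℚ] ℚ, X.map lam ∈ U := by
  constructor
  · intro hX
    unfold UC at hX
    induction hX using Submodule.span_induction with
    | mem X hX =>
      obtain ⟨Y, hY, rfl⟩ := hX
      intro lam
      have h1 : (cK ℂ Y).map lam = lam 1 • Y := by
        ext i j
        simp only [cK, Matrix.map_apply, Matrix.smul_apply, smul_eq_mul]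
        have h2 : ((Y i j : ℚ) : ℂ) = Y i j • (1 : ℂ) := by
          rw [Rat.smul_def, mul_one]
        rw [h2, map_smul, smul_eq_mul, mul_comm]
      rw [h1]
      exact U.smul_mem _ hY
    | zero =>
      intro lam
      have h1 : (0 : Matrix B B ℂ).map lam = 0 := by
        ext i j
        simp
      rw [h1]
      exact U.zero_mem
    | add X Y _ _ h1 h2 =>
      intro lam
      have h3 : (X + Y).map lam = X.map lam + Y.map lam := by
        ext i j
        simp
      rw [h3]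
      exact U.add_mem (h1 lam) (h2 lam)
    | smul a X _ h1 =>
      intro lam
      have h3 : (a • X).map lam = X.map (lam ∘ₗ LinearMap.mulLeft ℚ a) := by
        ext i j
        simp
      rw [h3]
      exact h1 _
  · intro hX
    have h := mem_span_lam (fun p : B × B => X p.1 p.2)
    let e : (B × B → ℂ) →ₗ[ℂ] Matrix B B ℂ :=
      { toFun := fun f => Matrix.of fun i j => f (i, j)
        map_add' := fun _ _ => rfl
        map_smul' := fun _ _ => rfl }
    have h1 := Submodule.mem_map_of_mem (f := e) h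
    rw [Submodule.map_span] at h1
    refine Submodule.span_mono ?_ h1
    rintro _ ⟨_, ⟨lam, rfl⟩, rfl⟩
    exact ⟨X.map lam, hX lam, rfl⟩

theorem cast_UC {U : Submodule ℚ (Matrix B B ℚ)} {X : Matrix B B ℚ} (hX : X ∈ U) :
    cK ℂ X ∈ UC U := Submodule.subset_span ⟨X, hX, rfl⟩

theorem UC_lieM {D : Matrix B B ℂ} {X : Matrix B B ℂ} : X ∈ UC (lieM D ℚ) ↔ X ∈ lieM D ℂ := by
  rw [mem_UC]
  exact ⟨fun h => mem_of_map D h, fun h lam => map_mem D h lam⟩

theorem UC_ker {R : Type} [Fintype R] [DecidableEq R] {U : Submodule ℚ (Matrix B B ℚ)}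
    {p : Matrix R B ℚ} {i : Matrix B R ℚ} {X : Matrix B B ℂ} (hX : X ∈ UC U)
    (h0 : bb ℂ p i X = 0) : X ∈ UC (U ⊓ LinearMap.ker (bb ℚ p i)) := by
  rw [mem_UC] at hX ⊢
  intro lam
  refine ⟨hX lam, ?_⟩
  change bb ℚ p i (X.map lam) = 0
  rw [bb_map, h0]
  ext a b
  simp

end cpl

variable {B : Type} [Fintype B] [DecidableEq B] {D : Matrix B B ℂ} {K : ℤ}
  {P : ℤ → Matrix B B ℂ} (h : Proj D (Finset.Icc (-K) K) P) {T : Matrix B B ℚ} (hT : Frm D T)
  {k N w e : ℕ} (V : PolHS k N) (W : PolHS w e) (hk : Odd k) (hKk : (k : ℤ) ≤ K)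
  (hKw : (w : ℤ) ≤ K) {p : Matrix (Fin N) B ℚ} {i : Matrix B (Fin N) ℚ} (b : Bk D V.D p i)
  {p' : Matrix (Fin e) B ℚ} {i' : Matrix B (Fin e) ℚ} (b' : Bk D W.D p' i')
  {U : Submodule ℚ (Matrix B B ℚ)} (hU : Idl D U)

include h hT hk hKk hKw b b' hU in
/-- No mixed Hodge classes. -/
theorem stepC_mixed (hno : NoMixed V W) {X : Matrix B B ℂ} (hX : X ∈ UC U) :
    ∃ X' ∈ UC (U ⊓ LinearMap.ker (bb ℚ p' i')), bb ℂ p i X' = bb ℂ p i X := by
  unfold UC at hX
  induction hX using Submodule.span_induction with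
  | mem X hX =>
    obtain ⟨X, hX, rfl⟩ := hX
    obtain ⟨X', hX', h1⟩ := step_mixed h hT V W hk hKk hKw b b' hU hno hX
    exact ⟨cK ℂ X', cast_UC hX', by rw [bb_cast, bb_cast, h1]⟩
  | zero => exact ⟨0, Submodule.zero_mem _, rfl⟩
  | add X Y _ _ h1 h2 =>
    obtain ⟨X', hX', h1⟩ := h1
    obtain ⟨Y', hY', h2⟩ := h2
    exact ⟨X' + Y', Submodule.add_mem _ hX' hY', by rw [map_add, map_add, h1, h2]⟩
  | smul a X _ h1 =>
    obtain ⟨X', hX', h1⟩ := h1
    exact ⟨a • X', Submodule.smul_mem _ _ hX', by rw [map_smul, map_smul, h1]⟩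

include h hKk hKw b b' hU in
/-- Small level. -/
theorem stepC_low (hlow : LevelLt W k) {v : Fin N → ℂ}
    (hvm : v ∈ V.H (Fin.last k)) {X : Matrix B B ℂ} (hX : X ∈ UC U)
    (hXv : bb ℂ p i X = SS (cK ℂ V.Q) v v) :
    ∃ X' ∈ UC (U ⊓ LinearMap.ker (bb ℚ p' i')), bb ℂ p i X' = SS (cK ℂ V.Q) v v := by
  have hlast : (2 * ((Fin.last k : Fin (k + 1)) : ℕ) : ℤ) - k = k := by
    rw [Fin.val_last]
    ring
  have hvD : V.D *ᵥ v = ((k : ℤ) : ℂ) • v := by
    have h1 := V.D_vec hvm
    rwa [hlast] at h1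
  have hw : V.D * SS (cK ℂ V.Q) v v - SS (cK ℂ V.Q) v v * V.D =
      ((2 * (k : ℤ) : ℤ) : ℂ) • SS (cK ℂ V.Q) v v := by
    rw [SS_bracket V.spD, hvD, SS_smul_left, SS_smul_right, ← add_smul]
    congr 1
    push_cast
    ring
  have hP0 : ∀ a : ℤ, (k : ℤ) ≤ |a| → W.P a = 0 := by
    intro a ha
    refine mat_ext fun x => ?_
    rw [zero_mulVec]
    rcases W.P_mem a x with ⟨p, hp, hm⟩ | h
    · rw [hlow p (by rw [hp]; exact ha)] at hm
      exact (Submodule.mem_bot ℂ).1 hm
    · exact h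
  have hX1 := sub_fun_mem h (U := UC U) (fun X hX => hU.brC (D_mem D) hX)
    (fun c => if c = 2 * (k : ℤ) then 1 else 0) hX
  refine ⟨_, UC_ker hX1 ?_, ?_⟩
  · rw [b'.fn h (W.proj hKw) (fun c => if c = 2 * (k : ℤ) then 1 else 0)]
    refine Finset.sum_eq_zero fun a _ => Finset.sum_eq_zero fun c _ => ?_
    by_cases hac : a - c = 2 * (k : ℤ)
    · by_cases ha : (k : ℤ) ≤ |a|
      · rw [hP0 a ha, Matrix.zero_mul, Matrix.zero_mul, smul_zero]
      · have hc : (k : ℤ) ≤ |c| := by
          rw [not_le, abs_lt] at ha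
          rw [le_abs]
          omega
        rw [hP0 c hc, Matrix.mul_zero, smul_zero]
    · rw [if_neg hac, zero_smul]
  · rw [b.fn h (V.proj hKk) (fun c => if c = 2 * (k : ℤ) then 1 else 0), hXv]
    have h1 := fun_weight (V.proj hKk) hw (fun c => if c = 2 * (k : ℤ) then 1 else 0)
    rw [if_pos rfl, one_smul] at h1
    exact h1

section small

/-- The pairs of indices `a ≤ b`. -/
abbrev Tri (m : ℕ) : Type := {q : Fin m × Fin m // q.1 ≤ q.2}

theorem card_tri {m n : ℕ} (hmn : m < n) : Fintype.card (Tri m) < Fintype.card (Tri n) := by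
  refine Fintype.card_lt_of_injective_not_surjective
    (fun q : Tri m => (⟨(Fin.castLE hmn.le q.1.1, Fin.castLE hmn.le q.1.2), by
      have := q.2
      exact this⟩ : Tri n)) ?_ ?_
  · intro q q' h
    have h1 := congrArg Subtype.val h
    have h2 := congrArg Prod.fst h1
    have h3 := congrArg Prod.snd h1
    apply Subtype.ext
    apply Prod.ext
    · exact Fin.castLE_injective hmn.le h2
    · exact Fin.castLE_injective hmn.le h3
  · intro hs
    obtain ⟨q, hq⟩ := hs ⟨(⟨m, hmn⟩, ⟨m, hmn⟩), le_rfl⟩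
    have h1 := congrArg (fun x : Tri n => (x.1.1 : ℕ)) hq
    have h2 := q.1.1.2
    simp only [Fin.val_castLE] at h1
    omega

/-- Dual vectors. -/
theorem exists_dual {Om : Matrix (Fin N) (Fin N) ℂ} (hu : IsUnit Om) {m : ℕ}
    {c : Fin m → Fin N → ℂ} (hc : LinearIndependent ℂ c) :
    ∃ u : Fin m → Fin N → ℂ, ∀ a b, ww Om (c b) (u a) = if b = a then 1 else 0 := by
  have h1 : LinearMap.ker (Fintype.linearCombination ℂ c) = ⊥ := by
    rw [LinearMap.ker_eq_bot']
    intro g hg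
    rw [Fintype.linearCombination_apply] at hg
    exact funext (Fintype.linearIndependent_iff.1 hc g hg)
  obtain ⟨g, hg⟩ := LinearMap.exists_leftInverse_of_injective _ h1
  obtain ⟨U, hU⟩ := hu
  refine ⟨fun a => ((U⁻¹ : (Matrix (Fin N) (Fin N) ℂ)ˣ) : Matrix (Fin N) (Fin N) ℂ) *ᵥ
    fun j => g (Pi.single j 1) a, fun a b => ?_⟩
  unfold ww
  rw [mulVec_mulVec, ← hU, Units.mul_inv, one_mulVec]
  have h2 := LinearMap.congr_fun hg (Pi.single b 1)
  rw [LinearMap.comp_apply, Fintype.linearCombination_apply_single, one_smul] at h2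
  have h3 := congrFun h2 a
  have h4 : g (c b) = ∑ j, c b j • g (Pi.single j 1) := by
    conv_lhs => rw [LinearMap.pi_apply_eq_sum_univ g (c b)]
    refine Finset.sum_congr rfl fun j _ => ?_
    congr 2
    funext l
    by_cases hl : j = l
    · subst hl
      simp
    · rw [if_neg hl, Pi.single_eq_of_ne (Ne.symm hl)]
  rw [h4, Finset.sum_apply] at h3
  simp only [dotProduct]
  have h5 : ∑ j, c b j * g (Pi.single j 1) a = (Pi.single b (1 : ℂ) : Fin m → ℂ) a := h3
  rw [h5]
  by_cases hb : b = a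
  · subst hb
    simp
  · rw [if_neg hb, Pi.single_eq_of_ne (Ne.symm hb)]

/-- The products of the vectors of a subspace. -/
def sS (Om : Matrix (Fin N) (Fin N) ℂ) (Y : Submodule ℂ (Fin N → ℂ)) :
    Submodule ℂ (Matrix (Fin N) (Fin N) ℂ) :=
  Submodule.span ℂ {X | ∃ x ∈ Y, ∃ y ∈ Y, X = SS Om x y}

/-- The dimension of the space of the products. -/
theorem card_le_sS {Om : Matrix (Fin N) (Fin N) ℂ} (hu : IsUnit Om)
    (Y : Submodule ℂ (Fin N → ℂ)) :
    Fintype.card (Tri (Module.finrank ℂ Y)) ≤ Module.finrank ℂ (sS Om Y) := by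
  classical
  obtain ⟨m, hm⟩ : ∃ m, m = Module.finrank ℂ Y := ⟨_, rfl⟩
  have bs : Module.Basis (Fin m) ℂ Y := Module.finBasisOfFinrankEq ℂ Y hm.symm
  rw [← hm]
  obtain ⟨c, hc⟩ : ∃ c : Fin m → Fin N → ℂ, c = fun a => (bs a : Fin N → ℂ) := ⟨_, rfl⟩
  have hcY : ∀ a, c a ∈ Y := fun a => by
    rw [hc]
    exact Submodule.coe_mem _
  have hci : LinearIndependent ℂ c := by
    rw [hc]
    exact bs.linearIndependent.map' Y.subtype (Submodule.ker_subtype Y)
  obtain ⟨f, hf⟩ : ∃ f : Tri m → sS Om Y, f = fun q =>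
      ⟨SS Om (c q.1.1) (c q.1.2), Submodule.subset_span ⟨_, hcY _, _, hcY _, rfl⟩⟩ := ⟨_, rfl⟩
  have hfi : LinearIndependent ℂ f := by
    rw [Fintype.linearIndependent_iff]
    intro g hg
    have h1 : ∑ q : Tri m, g q • SS Om (c q.1.1) (c q.1.2) = 0 := by
      have h2 := congrArg Subtype.val hg
      rw [Submodule.coe_sum] at h2
      rw [hf] at h2
      exact h2
    obtain ⟨u, hu⟩ := exists_dual hu hci
    rintro ⟨⟨a, b⟩, hab⟩
    have h2 := congrArg (fun M => ww Om (M *ᵥ u a) (u b)) h1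
    simp only [Matrix.sum_mulVec, smul_mulVec, SS_vec, zero_mulVec, ww_zero_left] at h2
    have h3 : ww Om (∑ q : Tri m, g q • (ww Om (c q.1.2) (u a) • c q.1.1 +
        ww Om (c q.1.1) (u a) • c q.1.2)) (u b) = ∑ q : Tri m, g q *
          ((if q.1.2 = a then 1 else 0) * (if q.1.1 = b then 1 else 0) +
            (if q.1.1 = a then 1 else 0) * (if q.1.2 = b then 1 else 0)) := by
      rw [← wwL_apply, LinearMap.map_sum₂]
      refine Finset.sum_congr rfl fun q _ => ?_
      rw [wwL_apply, ww_smul_left, ww_add_left, ww_smul_left, ww_smul_left, hu, hu, hu, hu]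
    rw [h3, Finset.sum_eq_single ⟨(a, b), hab⟩] at h2
    · simp only [if_true] at h2
      by_cases hba : b = a
      · subst hba
        simp only [if_true] at h2
        have h4 : g ⟨(b, b), hab⟩ * 2 = 0 := by
          rw [← h2]
          ring
        exact (mul_eq_zero.1 h4).resolve_right two_ne_zero
      · rw [if_neg hba, zero_mul, zero_add, one_mul, mul_one] at h2
        exact h2
    · rintro ⟨⟨x, y⟩, hxy⟩ - hne
      have e1 : ¬(y = a ∧ x = b) := by
        rintro ⟨rfl, rfl⟩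
        apply hne
        have h5 : x = y := le_antisymm hxy hab
        subst h5
        rfl
      have e2 : ¬(x = a ∧ y = b) := by
        rintro ⟨rfl, rfl⟩
        exact hne rfl
      have e3 : ((if y = a then (1 : ℂ) else 0) * (if x = b then 1 else 0)) = 0 := by
        by_cases h5 : y = a
        · rw [if_neg (fun h6 => e1 ⟨h5, h6⟩), mul_zero]
        · rw [if_neg h5, zero_mul]
      have e4 : ((if x = a then (1 : ℂ) else 0) * (if y = b then 1 else 0)) = 0 := by
        by_cases h5 : x = a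
        · rw [if_neg (fun h6 => e2 ⟨h5, h6⟩), mul_zero]
        · rw [if_neg h5, zero_mul]
      change g ⟨(x, y), hxy⟩ * ((if y = a then (1 : ℂ) else 0) * (if x = b then 1 else 0) +
        (if x = a then (1 : ℂ) else 0) * (if y = b then 1 else 0)) = 0
      rw [e3, e4, add_zero, mul_zero]
    · intro h5
      exact absurd (Finset.mem_univ _) h5
  have h1 := hfi.fintype_card_le_finrank
  exact h1

end small

end Run7.h853.Cy
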