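import Mathlib
import Pool.Agent.Run7.h853.Cy.Z6

/-!
# Elements of the ideals with vanishing blocks: small dimension
-/

set_option linter.unusedSectionVars false

namespace Run7.h853.Cy

open Matrix ComplexOrder Pool.Agent.W437.HC Pool.Agent.W437.HD Pool.Agent.W437.HP
  Pool.Agent.W437.HR Pool.Agent.W437.CY

variable {B : Type} [Fintype B] [DecidableEq B] {D : Matrix B B ℂ} {K : ℤ}
  {P : ℤ → Matrix B B ℂ} (h : Proj D (Finset.Icc (-K) K) P) {T : Matrix B B ℚ} (hT : Frm D T)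
  {k N w e : ℕ} (V : PolHS k N) (W : PolHS w e) (hk : Odd k) (hKk : (k : ℤ) ≤ K)
  (hKw : (w : ℤ) ≤ K) {p : Matrix (Fin N) B ℚ} {i : Matrix B (Fin N) ℚ} (b : Bk D V.D p i)
  {p' : Matrix (Fin e) B ℚ} {i' : Matrix B (Fin e) ℚ} (b' : Bk D W.D p' i')
  {U : Submodule ℚ (Matrix B B ℚ)} (hU : Idl D U)

/-- The elements of the Lie algebra of the form are determined by the entries above the
diagonal. -/
theorem sp_tri {Y : Matrix (Fin e) (Fin e) ℂ} (hY : Yᵀ * cK ℂ W.Q + cK ℂ W.Q * Y = 0)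
    (h0 : ∀ a b, a ≤ b → (cK ℂ W.Q * Y) a b = 0) : Y = 0 := by
  refine eq_of_unit (unitK W.unit ℂ) ?_
  have h1 : (cK ℂ W.Q * Y)ᵀ = -((-1 : ℂ) ^ w • (cK ℂ W.Q * Y)) := by
    rw [transpose_mul, W_qt, Matrix.mul_smul, eq_neg_of_add_eq_zero_left hY, smul_neg]
  ext a b
  rcases le_total a b with hab | hab
  · exact h0 a b hab
  · have h2 := congrFun (congrFun h1 b) a
    rw [transpose_apply] at h2
    rw [h2, Matrix.neg_apply, Matrix.smul_apply, h0 b a hab, smul_zero, neg_zero]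
    rfl

include hk in
/-- The form is nondegenerate on the space of a good vector. -/
theorem VV_nondeg (hs : V.IsSimple) {v : Fin N → ℂ} (hv : Good V.D (cK ℂ V.Q) v)
    {z : Fin N → ℂ} (hz : z ∈ VV V.D (cK ℂ V.Q) v)
    (h0 : ∀ y ∈ VV V.D (cK ℂ V.Q) v, ww (cK ℂ V.Q) z y = 0) : z = 0 := by
  have hsk := skQ V hk
  have hsp : ∀ X ∈ lieM V.D ℂ, Xᵀ * cK ℂ V.Q + cK ℂ V.Q * X = 0 := fun _ hX => spV V hk hX
  have h1 : ∀ y, ww (cK ℂ V.Q) z y = 0 := by
    intro y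
    have hy : y ∈ ⨆ σ : ℂ ≃+* ℂ, VV V.D (cK ℂ V.Q) (fun j => σ (v j)) := by
      rw [top_conj hsk hsp (ratQ V) (V.simpleD hs) hv]
      trivial
    induction hy using Submodule.iSup_induction' with
    | mem σ y hy =>
      have hgu : Good V.D (cK ℂ V.Q) (fun j => σ (v j)) :=
        Good.map (σ := (σ : ℂ →+* ℂ)) (ratQ V _) hv
      by_cases he : VV V.D (cK ℂ V.Q) v = VV V.D (cK ℂ V.Q) (fun j => σ (v j))
      · exact h0 y (by rw [he]; exact hy)
      · exact VV_orth hsk hsp hv hgu he hz hy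
    | zero => exact ww_zero_right _
    | add x y _ _ hx hy => rw [ww_add_right, hx, hy, add_zero]
  obtain ⟨u, hu⟩ := unitQ V
  have h2 : cK ℂ V.Q *ᵥ z = 0 := by
    funext j
    have h3 := h1 (Pi.single j 1)
    rw [ww_anti hsk, neg_eq_zero] at h3
    unfold ww at h3
    rwa [single_one_dotProduct] at h3
  have h3 : ((u⁻¹ : (Matrix (Fin N) (Fin N) ℂ)ˣ) : Matrix (Fin N) (Fin N) ℂ) *ᵥ
      (cK ℂ V.Q *ᵥ z) = z := by
    rw [← hu, mulVec_mulVec, Units.inv_mul, one_mulVec]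
  rw [← h3, h2, mulVec_zero]

include hk in
/-- A nonzero space of products which is stable contains the square of a vector. -/
theorem exists_sq (hs : V.IsSimple) {v : Fin N → ℂ} (hv : Good V.D (cK ℂ V.Q) v)
    {I : Submodule ℂ (Matrix (Fin N) (Fin N) ℂ)}
    (hI : ∀ x ∈ VV V.D (cK ℂ V.Q) v, ∀ y ∈ VV V.D (cK ℂ V.Q) v, ∀ Z ∈ I,
      SS (cK ℂ V.Q) x y * Z - Z * SS (cK ℂ V.Q) x y ∈ I)
    {Z : Matrix (Fin N) (Fin N) ℂ} (hZ : Z ∈ I) (hZs : Z ∈ sS (cK ℂ V.Q) (VV V.D (cK ℂ V.Q) v))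
    (hZ0 : Z ≠ 0) : SS (cK ℂ V.Q) v v ∈ I := by
  have hsk := skQ V hk
  have hsp : ∀ X ∈ lieM V.D ℂ, Xᵀ * cK ℂ V.Q + cK ℂ V.Q * X = 0 := fun _ hX => spV V hk hX
  obtain ⟨Om, hOm⟩ : ∃ Om, Om = cK ℂ V.Q := ⟨_, rfl⟩
  rw [← hOm] at hv hI hZs hsk hsp ⊢
  -- properties of the products
  have hZV : ∀ x, Z *ᵥ x ∈ VV V.D Om v := by
    intro x
    clear hZ hZ0
    unfold sS at hZs
    induction hZs using Submodule.span_induction with
    | mem Z hZ =>
      obtain ⟨a, ha, c, hc, rfl⟩ := hZ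
      rw [SS_vec]
      exact Submodule.add_mem _ (Submodule.smul_mem _ _ ha) (Submodule.smul_mem _ _ hc)
    | zero =>
      rw [zero_mulVec]
      exact Submodule.zero_mem _
    | add X Y _ _ h1 h2 =>
      rw [add_mulVec]
      exact Submodule.add_mem _ h1 h2
    | smul a X _ h1 =>
      rw [smul_mulVec]
      exact Submodule.smul_mem _ _ h1
  have hZsp : Zᵀ * Om + Om * Z = 0 := by
    clear hZ hZ0 hZV
    unfold sS at hZs
    induction hZs using Submodule.span_induction with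
    | mem Z hZ =>
      obtain ⟨a, ha, c, hc, rfl⟩ := hZ
      exact hsp _ (VV_pair hsk hsp hv ha hc)
    | zero => simp
    | add X Y _ _ h1 h2 =>
      rw [transpose_add, Matrix.add_mul, Matrix.mul_add]
      have h3 : Xᵀ * Om + Yᵀ * Om + (Om * X + Om * Y) =
          (Xᵀ * Om + Om * X) + (Yᵀ * Om + Om * Y) := by abel
      rw [h3, h1, h2, add_zero]
    | smul a X _ h1 =>
      rw [transpose_smul, Matrix.smul_mul, Matrix.mul_smul, ← smul_add, h1, smul_zero]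
  have hmul : ∀ a b, ww Om (Z *ᵥ a) b = -ww Om a (Z *ᵥ b) := fun a b => ww_sp hZsp a b
  obtain ⟨x, hx, hxZ⟩ : ∃ x ∈ VV V.D Om v, ww Om x (Z *ᵥ x) ≠ 0 := by
    by_contra hcon
    push Not at hcon
    apply hZ0
    have h1 : ∀ x ∈ VV V.D Om v, ∀ y ∈ VV V.D Om v, ww Om x (Z *ᵥ y) = 0 := by
      intro x hx y hy
      have h2 := hcon (x + y) (Submodule.add_mem _ hx hy)
      rw [mulVec_add, ww_add_left, ww_add_right, ww_add_right, hcon x hx, hcon y hy, zero_add,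
        add_zero] at h2
      have h3 : ww Om y (Z *ᵥ x) = ww Om x (Z *ᵥ y) := by
        rw [ww_anti hsk y, hmul, neg_neg]
      rw [h3] at h2
      have h4 : (2 : ℂ) * ww Om x (Z *ᵥ y) = 0 := by linear_combination h2
      exact (mul_eq_zero.1 h4).resolve_left two_ne_zero
    have h2 : ∀ y ∈ VV V.D Om v, Z *ᵥ y = 0 := by
      intro y hy
      have h5 := hZV y
      subst hOm
      refine VV_nondeg V hk hs hv h5 fun x hx => ?_
      rw [ww_anti hsk, h1 x hx y hy, neg_zero]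
    -- `Z` vanishes everywhere
    refine mat_ext fun x => ?_
    rw [zero_mulVec]
    have h5 := hZV x
    subst hOm
    refine VV_nondeg V hk hs hv h5 fun y hy => ?_
    rw [hmul, h2 y hy, ww_zero_right, neg_zero]
  -- the double bracket
  have hd : SS Om x x * (SS Om x x * Z - Z * SS Om x x) -
      (SS Om x x * Z - Z * SS Om x x) * SS Om x x = (-4 * ww Om x (Z *ᵥ x)) • SS Om x x := by
    refine mat_ext fun u => ?_
    have hxx : ww Om x x = 0 := ww_self hsk x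
    have e1 : ∀ u, SS Om x x *ᵥ u = (2 * ww Om x u) • x := by
      intro u
      rw [SS_vec]
      module
    have e2 : SS Om x x * (SS Om x x * Z - Z * SS Om x x) -
        (SS Om x x * Z - Z * SS Om x x) * SS Om x x =
        SS Om x x * SS Om x x * Z - SS Om x x * (Z * SS Om x x) - SS Om x x * (Z * SS Om x x) +
          Z * (SS Om x x * SS Om x x) := by noncomm_ring
    have e3 : SS Om x x * SS Om x x = 0 := by
      refine mat_ext fun u => ?_
      rw [← mulVec_mulVec, e1 (SS Om x x *ᵥ u), e1 u, ww_smul_right, hxx, mul_zero, mul_zero,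
        zero_smul, zero_mulVec]
    rw [e2, e3, Matrix.zero_mul, Matrix.mul_zero, add_zero, zero_sub, sub_mulVec, neg_mulVec,
      ← mulVec_mulVec, ← mulVec_mulVec, smul_mulVec, e1 u, mulVec_smul, mulVec_smul, e1]
    module
  have hsq : SS Om x x ∈ I := by
    have h1 := hI x hx x hx _ (hI x hx x hx Z hZ)
    rw [hd] at h1
    exact mem_of_smul (mul_ne_zero (by norm_num) hxZ) h1
  -- the vector `x` is good
  have hxg : Good V.D Om x := by
    refine ⟨VV_pair hsk hsp hv hx hx, ?_⟩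
    by_contra hcon
    push Not at hcon
    have hx0 : x = 0 := by
      have hx' := hx
      subst hOm
      refine VV_nondeg V hk hs hv hx' fun y hy => ?_
      exact hcon y (VV_pair hsk hsp hv hy hy)
    apply hxZ
    rw [hx0]
    exact ww_zero_left _
  have hVe := VV_eq hsk hsp hv hx hxg
  refine ideal_pairs hsk hsp hxg I ?_ hsq ?_ ?_
  · intro a ha c hc
    rw [hVe] at ha hc
    exact hI a ha c hc
  · rw [hVe]
    exact self_mem_VV hv
  · rw [hVe]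
    exact self_mem_VV hv

include hT hk b b' hU in
/-- Small dimension. -/
theorem stepC_small (hs : V.IsSimple) {v : Fin N → ℂ} (hv : Good V.D (cK ℂ V.Q) v)
    (hsm : e < Module.finrank ℂ (VV V.D (cK ℂ V.Q) v))
    (hid : ∀ x ∈ VV V.D (cK ℂ V.Q) v, ∀ y ∈ VV V.D (cK ℂ V.Q) v, ∃ Y ∈ lieM D ℂ,
      bb ℂ p i Y = SS (cK ℂ V.Q) x y)
    {X : Matrix B B ℂ} (hX : X ∈ UC U) (hXv : bb ℂ p i X = SS (cK ℂ V.Q) v v) :
    ∃ X' ∈ UC (U ⊓ LinearMap.ker (bb ℚ p' i')), bb ℂ p i X' = SS (cK ℂ V.Q) v v := by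
  classical
  have hsk := skQ V hk
  have hsp : ∀ X ∈ lieM V.D ℂ, Xᵀ * cK ℂ V.Q + cK ℂ V.Q * X = 0 := fun _ hX => spV V hk hX
  have hUle : ∀ {U : Submodule ℚ (Matrix B B ℚ)}, Idl D U → ∀ X ∈ UC U, X ∈ lieM D ℂ := by
    intro U hU X hX
    rw [← UC_lieM, mem_UC] at *
    exact fun lam => hU.le (hX lam)
  have hst : ∀ {U : Submodule ℚ (Matrix B B ℚ)}, Idl D U →
      ∀ x ∈ VV V.D (cK ℂ V.Q) v, ∀ y ∈ VV V.D (cK ℂ V.Q) v,
      ∀ Z ∈ (UC U).map (bb ℂ p i), SS (cK ℂ V.Q) x y * Z - Z * SS (cK ℂ V.Q) x y ∈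
        (UC U).map (bb ℂ p i) := by
    rintro U hU x hx y hy _ ⟨Z, hZ, rfl⟩
    obtain ⟨Y, hY, hYe⟩ := hid x hx y hy
    refine ⟨Y * Z - Z * Y, hU.brC hY hZ, ?_⟩
    rw [b.bracket hT hY (hUle hU Z hZ), hYe]
  have hI0 : ∀ x ∈ VV V.D (cK ℂ V.Q) v, ∀ y ∈ VV V.D (cK ℂ V.Q) v,
      SS (cK ℂ V.Q) x y ∈ (UC U).map (bb ℂ p i) := fun x hx y hy =>
    ideal_pairs hsk hsp hv _ (hst hU) ⟨X, hX, hXv⟩ hx hy
  obtain ⟨K', hK'⟩ : ∃ K', K' = UC U ⊓
      (sS (cK ℂ V.Q) (VV V.D (cK ℂ V.Q) v)).comap (bb ℂ p i) := ⟨_, rfl⟩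
  let f : K' →ₗ[ℂ] (Tri e → ℂ) :=
    { toFun := fun X q => (cK ℂ W.Q * bb ℂ p' i' (X : Matrix B B ℂ)) q.1.1 q.1.2
      map_add' := fun X Y => by
        funext q
        rw [Submodule.coe_add, map_add, Matrix.mul_add]
        rfl
      map_smul' := fun a X => by
        funext q
        rw [Submodule.coe_smul, map_smul, Matrix.mul_smul]
        rfl }
  let g : K' →ₗ[ℂ] Matrix (Fin N) (Fin N) ℂ := (bb ℂ p i).domRestrict K'
  have hrg : sS (cK ℂ V.Q) (VV V.D (cK ℂ V.Q) v) ≤ LinearMap.range g := by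
    unfold sS
    rw [Submodule.span_le]
    rintro _ ⟨x, hx, y, hy, rfl⟩
    obtain ⟨Y, hY, hYe⟩ := hI0 x hx y hy
    refine ⟨⟨Y, ?_⟩, hYe⟩
    rw [hK']
    refine ⟨hY, ?_⟩
    change bb ℂ p i Y ∈ sS (cK ℂ V.Q) (VV V.D (cK ℂ V.Q) v)
    rw [hYe]
    exact Submodule.subset_span ⟨x, hx, y, hy, rfl⟩
  have hdim : ¬LinearMap.ker f ≤ LinearMap.ker g := by
    intro hle
    have h1 := f.finrank_range_add_finrank_ker
    have h2 := g.finrank_range_add_finrank_ker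
    have h3 := Submodule.finrank_mono hle
    have h4 : Module.finrank ℂ (LinearMap.range f) ≤ Fintype.card (Tri e) := by
      have h5 := Submodule.finrank_le (LinearMap.range f)
      rwa [Module.finrank_fintype_fun_eq_card] at h5
    have h5 := card_le_sS (unitQ V) (VV V.D (cK ℂ V.Q) v)
    have h6 := Submodule.finrank_mono hrg
    have h7 := card_tri hsm
    omega
  obtain ⟨X0, hX0f, hX0g⟩ := SetLike.not_le_iff_exists.1 hdim
  have hX0K : (X0 : Matrix B B ℂ) ∈ UC U ⊓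
      (sS (cK ℂ V.Q) (VV V.D (cK ℂ V.Q) v)).comap (bb ℂ p i) := by
    rw [← hK']
    exact X0.2
  have hX0l : (X0 : Matrix B B ℂ) ∈ lieM D ℂ := hUle hU _ hX0K.1
  have hX0b : bb ℂ p' i' (X0 : Matrix B B ℂ) = 0 := by
    refine sp_tri W (frm_sp W.spD (b'.mem hT hX0l)) fun a c hac => ?_
    have h1 : f X0 = 0 := hX0f
    exact congrFun h1 ⟨(a, c), hac⟩
  have hX0n : bb ℂ p i (X0 : Matrix B B ℂ) ≠ 0 := fun h1 => hX0g h1
  have hX0m := UC_ker hX0K.1 hX0b
  have h1 := exists_sq V hk hs hv (hst (Idl.ker hT W b' hU)) ⟨_, hX0m, rfl⟩ hX0K.2 hX0n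
  exact h1

end Run7.h853.Cy
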