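import Mathlib
import Pool.Agent.Run7.h853.Cy.Z7
import Pool.Agent.Run7.h853.Cy.Rm10

/-!
# The dimension of the space of a good vector
-/

set_option linter.unusedSectionVars false

namespace Run7.h853.Cy

open Matrix ComplexOrder Pool.Agent.W437.HC Pool.Agent.W437.HD Pool.Agent.W437.HP
  Pool.Agent.W437.HR Pool.Agent.W437.CY

variable {k N : ℕ} (V : PolHS k N) (hk : Odd k)

include hk

/-- The endomorphisms act on a good vector by scalars. -/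
theorem good_chi {v : Fin N → ℂ} (hv : Good V.D (cK ℂ V.Q) v) {M : Matrix (Fin N) (Fin N) ℚ}
    (hM : M ∈ EA V.D) : ∃ t : ℂ, cK ℂ M *ᵥ v = t • v ∧
      ∀ u, ww (cK ℂ V.Q) v (cK ℂ M *ᵥ u) = t * ww (cK ℂ V.Q) v u := by
  have d := V.pol hk (K := k) le_rfl
  obtain ⟨hv1, w, -, hvw⟩ := hv
  have h1 := comm_lie d hM hv1
  have h2 : ∀ u, (2 * ww (cK ℂ V.Q) v (cK ℂ M *ᵥ u)) • v =
      (2 * ww (cK ℂ V.Q) v u) • (cK ℂ M *ᵥ v) := by
    intro u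
    have h3 := congrArg (fun A => A *ᵥ u) h1
    simp only [← mulVec_mulVec, SS_vec, mulVec_add, mulVec_smul] at h3
    have e1 : ∀ (a : ℂ) (x : Fin N → ℂ), a • x + a • x = (2 * a) • x := by
      intro a x
      module
    rwa [e1, e1] at h3
  obtain ⟨t, ht⟩ : ∃ t, t = (2 * ww (cK ℂ V.Q) v w)⁻¹ * (2 * ww (cK ℂ V.Q) v (cK ℂ M *ᵥ w)) :=
    ⟨_, rfl⟩
  have hMv : cK ℂ M *ᵥ v = t • v := by
    have h3 := h2 w
    have h4 : (2 * ww (cK ℂ V.Q) v w)⁻¹ • ((2 * ww (cK ℂ V.Q) v w) • (cK ℂ M *ᵥ v)) =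
        cK ℂ M *ᵥ v := by
      rw [smul_smul, inv_mul_cancel₀ (mul_ne_zero two_ne_zero hvw), one_smul]
    rw [← h4, ← h3, smul_smul, ht]
  refine ⟨t, hMv, fun u => ?_⟩
  have hv0 : v ≠ 0 := by
    rintro rfl
    exact hvw (ww_zero_left w)
  have h3 := h2 u
  rw [hMv, smul_smul] at h3
  have h4 : (2 * ww (cK ℂ V.Q) v (cK ℂ M *ᵥ u) - 2 * ww (cK ℂ V.Q) v u * t) • v = 0 := by
    rw [sub_smul, h3, sub_self]
  have h5 := (smul_eq_zero.1 h4).resolve_right hv0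
  have h6 : (2 : ℂ) * (ww (cK ℂ V.Q) v (cK ℂ M *ᵥ u) - t * ww (cK ℂ V.Q) v u) = 0 := by
    linear_combination h5
  exact sub_eq_zero.1 ((mul_eq_zero.1 h6).resolve_left two_ne_zero)

/-- The endomorphisms are self-adjoint. -/
theorem good_sa (hs : V.IsSimple) {v : Fin N → ℂ} (hv : Good V.D (cK ℂ V.Q) v)
    {M : Matrix (Fin N) (Fin N) ℚ} (hM : M ∈ EA V.D) : Mᵀ * V.Q = V.Q * M := by
  have d := V.pol hk (K := k) le_rfl
  obtain ⟨t, ht1, ht2⟩ := good_chi V hk hv hM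
  obtain ⟨A, hA⟩ : ∃ A, A = Mᵀ * V.Q - V.Q * M := ⟨_, rfl⟩
  have hv0 : v ≠ 0 := by
    rintro rfl
    obtain ⟨-, w, -, hvw⟩ := hv
    exact hvw (ww_zero_left w)
  have hAv : cK ℂ A *ᵥ v = 0 := by
    funext j
    have h1 : ∀ u, u ⬝ᵥ (cK ℂ A *ᵥ v) = 0 := by
      intro u
      have h2 : cK ℂ A = (cK ℂ M)ᵀ * cK ℂ V.Q - cK ℂ V.Q * cK ℂ M := by
        rw [hA, cK_sub', cK_mul, cK_mul, cK_transpose]
      have h3 : u ⬝ᵥ (((cK ℂ M)ᵀ * cK ℂ V.Q) *ᵥ v) = ww (cK ℂ V.Q) (cK ℂ M *ᵥ u) v := by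
        unfold ww
        rw [← mulVec_mulVec, dotProduct_mulVec u, vecMul_transpose]
      have h4 : u ⬝ᵥ ((cK ℂ V.Q * cK ℂ M) *ᵥ v) = ww (cK ℂ V.Q) u (cK ℂ M *ᵥ v) := by
        unfold ww
        rw [mulVec_mulVec]
      rw [h2, sub_mulVec, dotProduct_sub, h3, h4, ww_anti d.skewC, ht2, ht1, ww_smul_right,
        ww_anti d.skewC u v]
      ring
    have h2 := h1 (Pi.single j 1)
    rwa [single_one_dotProduct] at h2
  have hQ := qinv V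
  have hE : V.Q⁻¹ * A ∈ EA V.D := by
    rw [mem_EA]
    have h3 : cK ℂ V.Q⁻¹ * cK ℂ V.Q = 1 := by rw [← cK_mul, hQ.2, cK_one]
    have h3' : cK ℂ V.Q * cK ℂ V.Q⁻¹ = 1 := mul_eq_one_comm.1 h3
    have hMD := mem_EA.1 hM
    have hAD : cK ℂ A * V.D = -(V.D)ᵀ * cK ℂ A := by
      have h2 : cK ℂ A = (cK ℂ M)ᵀ * cK ℂ V.Q - cK ℂ V.Q * cK ℂ M := by
        rw [hA, cK_sub', cK_mul, cK_mul, cK_transpose]
      have h4 : cK ℂ V.Q * V.D = -(V.D)ᵀ * cK ℂ V.Q := by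
        rw [neg_mul]
        exact eq_neg_of_add_eq_zero_right V.spD
      have h5 : (cK ℂ M)ᵀ * (V.D)ᵀ = (V.D)ᵀ * (cK ℂ M)ᵀ := by
        rw [← transpose_mul, ← transpose_mul, hMD]
      rw [h2, sub_mul, mul_assoc, h4, mul_assoc (cK ℂ V.Q), hMD, ← mul_assoc (cK ℂ V.Q), h4,
        mul_sub, ← mul_assoc, mul_neg, h5]
      noncomm_ring
    have hQD : cK ℂ V.Q⁻¹ * (V.D)ᵀ = -(V.D * cK ℂ V.Q⁻¹) := by
      have h2 := V.spD
      have h5 : cK ℂ V.Q⁻¹ * ((V.D)ᵀ * cK ℂ V.Q + cK ℂ V.Q * V.D) * cK ℂ V.Q⁻¹ = 0 := by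
        rw [h2, Matrix.mul_zero, Matrix.zero_mul]
      have h6 : cK ℂ V.Q⁻¹ * ((V.D)ᵀ * cK ℂ V.Q + cK ℂ V.Q * V.D) * cK ℂ V.Q⁻¹ =
          cK ℂ V.Q⁻¹ * (V.D)ᵀ * (cK ℂ V.Q * cK ℂ V.Q⁻¹) +
            (cK ℂ V.Q⁻¹ * cK ℂ V.Q) * V.D * cK ℂ V.Q⁻¹ := by
        noncomm_ring
      rw [h6, h3, h3', Matrix.mul_one, Matrix.one_mul] at h5
      exact eq_neg_of_add_eq_zero_left h5
    rw [cK_mul, mul_assoc, hAD, neg_mul, mul_neg, ← mul_assoc, hQD, neg_mul, neg_neg, mul_assoc]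
  have h0 : V.Q⁻¹ * A = 0 := by
    by_contra hne
    apply hv0
    refine inj_of_ne (V.simpleD hs) hE hne ?_
    rw [cK_mul, ← mulVec_mulVec, hAv, mulVec_zero]
  have hA0 : A = 0 := by
    have h1 : V.Q * (V.Q⁻¹ * A) = A := by rw [← mul_assoc, hQ.1, one_mul]
    rw [← h1, h0, mul_zero]
  rw [hA] at hA0
  exact sub_eq_zero.1 hA0

/-- The dimension of the space of a good vector. -/
theorem finrank_VV (hs : V.IsSimple) (h1 : Module.finrank ℂ (V.H (Fin.last k)) = 1)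
    {v : Fin N → ℂ} (hvm : v ∈ V.H (Fin.last k)) (hv : Good V.D (cK ℂ V.Q) v) :
    Module.finrank ℂ (VV V.D (cK ℂ V.Q) v) * Module.finrank ℚ (endHS V) = N := by
  have d := V.pol hk (K := k) le_rfl
  have hsk := skQ V hk
  have hsp : ∀ X ∈ lieM V.D ℂ, Xᵀ * cK ℂ V.Q + cK ℂ V.Q * X = 0 := fun _ hX => spV V hk hX
  have hv0 : v ≠ 0 := by
    rintro rfl
    obtain ⟨-, w, -, hvw⟩ := hv
    exact hvw (ww_zero_left w)
  obtain ⟨v', hv0', hv'⟩ := finrank_eq_one_iff'.1 h1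
  have hlast : (2 * ((Fin.last k : Fin (k + 1)) : ℕ) : ℤ) - k = k := by
    rw [Fin.val_last]
    ring
  have hvD : V.D *ᵥ v = ((k : ℤ) : ℂ) • v := by
    have h2 := V.D_vec hvm
    rwa [hlast] at h2
  have htop : ∀ x, V.D *ᵥ x = ((k : ℤ) : ℂ) • x → ∃ c : ℂ, x = c • v := by
    intro x hx
    have h2 : x ∈ V.H (Fin.last k) := by
      apply V.mem_of_eig
      rw [hlast]
      exact hx
    obtain ⟨c, hc⟩ := hv' ⟨x, h2⟩
    obtain ⟨c', hc'⟩ := hv' ⟨v, hvm⟩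
    have hc1 : c • (v' : Fin N → ℂ) = x := congrArg Subtype.val hc
    have hc2 : c' • (v' : Fin N → ℂ) = v := congrArg Subtype.val hc'
    have hc'0 : c' ≠ 0 := by
      rintro rfl
      rw [zero_smul] at hc2
      exact hv0 hc2.symm
    refine ⟨c * c'⁻¹, ?_⟩
    rw [← hc1, ← hc2, smul_smul, mul_assoc, inv_mul_cancel₀ hc'0, mul_one]
  have r : Rm V.D V.Q (Finset.Icc (-(k : ℤ)) k) V.P k v :=
    ⟨d, V.simpleD hs, fun M hM => good_sa V hk hs hv hM, hv0, hvD, htop⟩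
  have hle : VV V.D (cK ℂ V.Q) v ≤ MP V.D v := by
    intro x hx
    rw [mem_MP]
    intro M hM t ht
    obtain ⟨-, w, hw1, hvw⟩ := id hv
    have key : ∀ x ∈ VV V.D (cK ℂ V.Q) v, ∃ c : ℂ, cK ℂ M *ᵥ x - t • x = c • v := by
      intro x hx
      have hx1 : SS (cK ℂ V.Q) x v ∈ lieM V.D ℂ := hx
      have h2 := comm_lie d hM hx1
      have h4 := congrArg (fun A => A *ᵥ w) h2
      simp only [← mulVec_mulVec, SS_vec, mulVec_add, mulVec_smul] at h4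
      rw [ht, r.sa_ww hM v w |>.symm, ht, ww_smul_left] at h4
      refine ⟨(ww (cK ℂ V.Q) v w)⁻¹ * (ww (cK ℂ V.Q) x (cK ℂ M *ᵥ w) -
        t * ww (cK ℂ V.Q) x w), ?_⟩
      have h5 : ww (cK ℂ V.Q) v w • (cK ℂ M *ᵥ x - t • x) =
          (ww (cK ℂ V.Q) x (cK ℂ M *ᵥ w) - t * ww (cK ℂ V.Q) x w) • v := by
        have h6 : ww (cK ℂ V.Q) v w • (cK ℂ M *ᵥ x) = (t * ww (cK ℂ V.Q) v w) • x +
            ww (cK ℂ V.Q) x (cK ℂ M *ᵥ w) • v - ww (cK ℂ V.Q) x w • t • v := by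
          rw [eq_sub_iff_add_eq]
          exact h4.symm
        rw [smul_sub, h6]
        module
      rw [mul_smul, ← h5, smul_smul, inv_mul_cancel₀ hvw, one_smul]
    obtain ⟨c, hc⟩ := key x hx
    have hy : SS (cK ℂ V.Q) w w *ᵥ x ∈ VV V.D (cK ℂ V.Q) v := VV_stable hsk hsp hv hw1 hx
    obtain ⟨c', hc'⟩ := key _ hy
    have h6 := congrArg (fun A => A *ᵥ x) (comm_lie d hM hw1)
    simp only [← mulVec_mulVec] at h6
    have h7 : SS (cK ℂ V.Q) w w *ᵥ (cK ℂ M *ᵥ x - t • x) = c' • v := by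
      rw [mulVec_sub, h6, mulVec_smul, hc']
    rw [hc, mulVec_smul, SS_vec] at h7
    have h8 := congrArg (fun y => ww (cK ℂ V.Q) v y) h7
    simp only [ww_smul_right, ww_add_right, ww_self hsk v, mul_zero] at h8
    have h9 : (2 * (ww (cK ℂ V.Q) w v * ww (cK ℂ V.Q) v w)) * c = 0 := by
      linear_combination h8
    have hwv : ww (cK ℂ V.Q) w v ≠ 0 := by
      rw [ww_anti hsk, neg_ne_zero]
      exact hvw
    have hc0 := (mul_eq_zero.1 h9).resolve_left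
      (mul_ne_zero two_ne_zero (mul_ne_zero hwv hvw))
    rw [hc0, zero_smul] at hc
    exact sub_eq_zero.1 hc
  have heq : VV V.D (cK ℂ V.Q) v = MP V.D v := by
    refine le_antisymm hle (r.irr (VV V.D (cK ℂ V.Q) v)
      (fun X hX x hx => VV_stable hsk hsp hv hX hx) hle ?_)
    intro h
    have h2 := self_mem_VV hv
    rw [h, Submodule.mem_bot] at h2
    exact hv0 h2
  have h2 := r.finrank_MP
  rw [heq, finrank_endHS, h2, Fintype.card_fin]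

end Run7.h853.Cy
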