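import Mathlib
import Pool.Agent.Run7.h853.Cy.Z8
import Pool.Agent.Run7.h853.Cy.Rel2
import Pool.Agent.W437.CY.RelG

/-!
# Elements of the Lie algebra which vanish on an independent part
-/

set_option linter.unusedSectionVars false

namespace Run7.h853.Cy

open Matrix ComplexOrder Pool.Agent.W437.HC Pool.Agent.W437.HD Pool.Agent.W437.HP
  Pool.Agent.W437.HR Pool.Agent.W437.CY

section all

variable {B : Type} [Fintype B] [DecidableEq B] {D : Matrix B B ℂ} {K : ℤ}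
  {P : ℤ → Matrix B B ℂ} (h : Proj D (Finset.Icc (-K) K) P) {T : Matrix B B ℚ} (hT : Frm D T)
  {k N : ℕ} (V : PolHS k N) (hk : Odd k) (hKk : (k : ℤ) ≤ K)
  {p : Matrix (Fin N) B ℚ} {i : Matrix B (Fin N) ℚ} (b : Bk D V.D p i)
  {J : Type} [Fintype J] [DecidableEq J] {w e : J → ℕ} (W : ∀ j, PolHS (w j) (e j))
  (hKw : ∀ j, (w j : ℤ) ≤ K) {p' : ∀ j, Matrix (Fin (e j)) B ℚ} {i' : ∀ j, Matrix B (Fin (e j)) ℚ}
  (b' : ∀ j, Bk D (W j).D (p' j) (i' j))

include h hT hk hKk b hKw b' in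
/-- All the blocks. -/
theorem exists_all (hs : V.IsSimple) (h1 : Module.finrank ℂ (V.H (Fin.last k)) = 1)
    {v : Fin N → ℂ} (hv : Good V.D (cK ℂ V.Q) v) (hvm : v ∈ V.H (Fin.last k))
    (hind : ∀ j, Indep V (W j))
    (hid : ∀ x ∈ VV V.D (cK ℂ V.Q) v, ∀ y ∈ VV V.D (cK ℂ V.Q) v, ∃ Y ∈ lieM D ℂ,
      bb ℂ p i Y = SS (cK ℂ V.Q) x y) :
    ∃ X ∈ lieM D ℂ, (∀ j, bb ℂ (p' j) (i' j) X = 0) ∧ bb ℂ p i X = SS (cK ℂ V.Q) v v := by
  have key : ∀ s : Finset J, ∃ U : Submodule ℚ (Matrix B B ℚ), Idl D U ∧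
      (∀ X ∈ U, ∀ j ∈ s, bb ℚ (p' j) (i' j) X = 0) ∧
      ∃ X ∈ UC U, bb ℂ p i X = SS (cK ℂ V.Q) v v := by
    intro s
    induction s using Finset.induction_on with
    | empty =>
      obtain ⟨X, hX, hXv⟩ := hid v (self_mem_VV hv) v (self_mem_VV hv)
      exact ⟨lieM D ℚ, ⟨le_rfl, fun X hX Y hY => lieM_bracket D hX hY⟩,
        fun _ _ j hj => absurd hj (Finset.notMem_empty j), X, UC_lieM.2 hX, hXv⟩
    | insert j s _ ih =>
      obtain ⟨U, hU, hU0, X, hX, hXv⟩ := ih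
      refine ⟨U ⊓ LinearMap.ker (bb ℚ (p' j) (i' j)), Idl.ker hT (W j) (b' j) hU, ?_, ?_⟩
      · intro X hX j' hj'
        rcases Finset.mem_insert.1 hj' with rfl | hj'
        · exact hX.2
        · exact hU0 X hX.1 j' hj'
      · rcases hind j with hl | hsm | hno
        · exact stepC_low h V (W j) hKk (hKw j) b (b' j) hU hl hvm hX hXv
        · refine stepC_small hT V (W j) hk b (b' j) hU hs hv ?_ hid hX hXv
          have h2 := finrank_VV V hk hs h1 hvm hv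
          exact Nat.lt_of_mul_lt_mul_right (hsm.trans_eq h2.symm)
        · obtain ⟨X', hX', h2⟩ := stepC_mixed h hT V (W j) hk hKk (hKw j) b (b' j) hU hno hX
          exact ⟨X', hX', h2.trans hXv⟩
  obtain ⟨U, hU, hU0, X, hX, hXv⟩ := key Finset.univ
  refine ⟨X, ?_, fun j => ?_, hXv⟩
  · rw [← UC_lieM]
    rw [mem_UC] at hX ⊢
    exact fun lam => hU.le (hX lam)
  · rw [mem_UC] at hX
    ext a c
    refine eq_zero_of_lam fun lam => ?_
    have h2 := hU0 _ (hX lam) j (Finset.mem_univ j)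
    rw [bb_map] at h2
    exact congrFun (congrFun h2 a) c

end all

section sum

variable {d l : ℕ} (M : LowHS d l) {J : Type} [Fintype J] [DecidableEq J] {w e : J → ℕ}
  (W : ∀ j, PolHS (w j) (e j))

/-- The inverse of the isomorphism. -/
theorem exists_inc {p : ∀ j, Matrix (Fin (e j)) (Fin l) ℚ}
    (hinj : ∀ x : Fin l → ℚ, (∀ j, p j *ᵥ x = 0) → x = 0) (hl : ∑ j, e j = l) :
    ∃ i : ∀ j, Matrix (Fin l) (Fin (e j)) ℚ, (∀ j, p j * i j = 1) ∧
      (∀ j j', j ≠ j' → p j * i j' = 0) ∧ ∑ j, i j * p j = 1 := by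
  obtain ⟨e0⟩ : Nonempty (Fin l ≃ Σ j, Fin (e j)) := by
    refine ⟨Fintype.equivOfCardEq ?_⟩
    rw [Fintype.card_sigma, Fintype.card_fin, ← hl]
    exact Finset.sum_congr rfl fun j _ => (Fintype.card_fin _).symm
  obtain ⟨A, hA⟩ : ∃ A : Matrix (Fin l) (Fin l) ℚ, A = Matrix.of fun u s =>
      p (e0 u).1 (e0 u).2 s := ⟨_, rfl⟩
  have hA' : ∀ j t s, A (e0.symm ⟨j, t⟩) s = p j t s := by
    intro j t s
    rw [hA]
    exact congrArg (fun q : Σ j, Fin (e j) => p q.1 q.2 s) (e0.apply_symm_apply ⟨j, t⟩)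
  have hu : IsUnit A := by
    refine Matrix.mulVec_injective_iff_isUnit.1 fun x y hxy => ?_
    rw [← sub_eq_zero]
    refine hinj _ fun j => ?_
    have h0 : A *ᵥ (x - y) = 0 := by
      rw [mulVec_sub, sub_eq_zero]
      exact hxy
    funext t
    have h2 := congrFun h0 (e0.symm ⟨j, t⟩)
    simp only [mulVec, dotProduct, hA'] at h2
    exact h2
  obtain ⟨u, hu'⟩ := hu
  obtain ⟨R, hR⟩ : ∃ R, R = ((u⁻¹ : (Matrix (Fin l) (Fin l) ℚ)ˣ) : Matrix (Fin l) (Fin l) ℚ) :=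
    ⟨_, rfl⟩
  have hAR : A * R = 1 := by rw [hR, ← hu', Units.mul_inv]
  have hRA : R * A = 1 := by rw [hR, ← hu', Units.inv_mul]
  have hpr : ∀ j j' (t : Fin (e j)) (t' : Fin (e j')),
      (p j * (Matrix.of fun s (t : Fin (e j')) => R s (e0.symm ⟨j', t⟩))) t t' =
        if (⟨j, t⟩ : Σ j, Fin (e j)) = ⟨j', t'⟩ then 1 else 0 := by
    intro j j' t t'
    have h2 := congrFun (congrFun hAR (e0.symm ⟨j, t⟩)) (e0.symm ⟨j', t'⟩)
    rw [Matrix.mul_apply, Matrix.one_apply] at h2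
    rw [Matrix.mul_apply]
    simp only [hA', Matrix.of_apply] at h2 ⊢
    rw [h2]
    by_cases ht : (⟨j, t⟩ : Σ j, Fin (e j)) = ⟨j', t'⟩
    · rw [if_pos ht, if_pos (by rw [ht])]
    · rw [if_neg ht, if_neg (fun h3 => ht (e0.symm.injective h3))]
  refine ⟨fun j => Matrix.of fun s t => R s (e0.symm ⟨j, t⟩), fun j => ?_, fun j j' hj => ?_, ?_⟩
  · ext t t'
    rw [hpr, Matrix.one_apply]
    by_cases ht : t = t'
    · rw [if_pos ht, if_pos (by rw [ht])]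
    · rw [if_neg ht, if_neg]
      intro h3
      apply ht
      have h4 := (Sigma.mk.inj_iff.1 h3).2
      exact eq_of_heq h4
  · ext t t'
    rw [hpr, if_neg, Matrix.zero_apply]
    intro h3
    exact hj (congrArg Sigma.fst h3)
  · ext s s'
    have h2 := congrFun (congrFun hRA s) s'
    rw [Matrix.mul_apply] at h2
    rw [Matrix.sum_apply, ← h2, ← Equiv.sum_comp e0.symm, Fintype.sum_sigma]
    refine Finset.sum_congr rfl fun j _ => ?_
    rw [Matrix.mul_apply]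
    refine Finset.sum_congr rfl fun t _ => ?_
    rw [hA']
    rfl

/-- The maps of the decomposition commute with the operators. -/
theorem sum_comm_D {p : ∀ j, Matrix (Fin (e j)) (Fin l) ℚ}
    (hm : ∀ j (a : Fin (2 * d + 1)), ∀ x ∈ M.H a, ((p j).map fun t : ℚ => (t : ℂ)) *ᵥ x ∈
      ⨆ (b : Fin (w j + 1)) (_ : 2 * (b : ℤ) - w j = a - d), (W j).H b) (j : J) :
    cK ℂ (p j) * M.D = (W j).D * cK ℂ (p j) := by
  have h1 : ∀ x, (cK ℂ (p j) * M.D) *ᵥ x = ((W j).D * cK ℂ (p j)) *ᵥ x := by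
    intro x
    rw [← M.pl_sum x, mulVec_sum, mulVec_sum]
    refine Finset.sum_congr rfl fun a _ => ?_
    have hx := M.pl_mem a x
    obtain ⟨y, hy⟩ : ∃ y, y = M.pl a x := ⟨_, rfl⟩
    rw [← hy] at hx ⊢
    rw [← mulVec_mulVec, ← mulVec_mulVec, M.D_vec hx, mulVec_smul]
    have h2 := hm j a y hx
    obtain ⟨z, hz⟩ : ∃ z, z = cK ℂ (p j) *ᵥ y := ⟨_, rfl⟩
    change cK ℂ (p j) *ᵥ y ∈ _ at h2
    rw [← hz] at h2 ⊢
    clear hz
    induction h2 using Submodule.iSup_induction' with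
    | mem b z hz =>
      by_cases hb : 2 * (b : ℤ) - w j = a - d
      · rw [iSup_pos hb] at hz
        rw [(W j).D_vec hz, hb]
      · rw [iSup_neg hb, Submodule.mem_bot] at hz
        rw [hz, smul_zero, mulVec_zero]
    | zero => rw [smul_zero, mulVec_zero]
    | add x y _ _ h3 h4 => rw [smul_add, h3, h4, mulVec_add]
  ext s t
  have h2 := congrFun (h1 (Pi.single t 1)) s
  rwa [mulVec_single_one, mulVec_single_one] at h2

end sum

section kx

variable {ι : Type} [Fintype ι] [DecidableEq ι] {k N : ι → ℕ} {l d : ℕ}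
  (M : LowHS d l) (V : ∀ i, PolHS (k i) (N i)) (hk : ∀ i, Odd (k i))
  {J : Type} [Fintype J] [DecidableEq J] {w e : J → ℕ} (W : ∀ j, PolHS (w j) (e j))

include hk in
/-- The form on the whole space. -/
theorem frm_all : ∃ T, Frm (DM M V) T := by
  obtain ⟨S, P, hpol, -, -⟩ := pol_glue (d := d) V hk
  obtain ⟨u, hu⟩ := M.unit
  obtain ⟨w, hw⟩ := hpol.unit
  refine ⟨Matrix.fromBlocks M.S 0 0 (glue ℚ fun i => (V i).Q), ?_, ?_⟩
  · rw [← hu, ← hw]
    refine ⟨⟨Matrix.fromBlocks (u : Matrix _ _ ℚ) 0 0 (w : Matrix _ _ ℚ),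
      Matrix.fromBlocks ((u⁻¹ : (Matrix _ _ ℚ)ˣ) : Matrix _ _ ℚ) 0 0
      ((w⁻¹ : (Matrix _ _ ℚ)ˣ) : Matrix _ _ ℚ), ?_, ?_⟩, rfl⟩
    · rw [fromBlocks_multiply, Units.mul_inv, Units.mul_inv]
      simp
    · rw [fromBlocks_multiply, Units.inv_mul, Units.inv_mul]
      simp
  · have hTC : cK ℂ (Matrix.fromBlocks M.S 0 0 (glue ℚ fun i => (V i).Q)) =
        Matrix.fromBlocks (cK ℂ M.S) 0 0 (cK ℂ (glue ℚ fun i => (V i).Q)) := by
      rw [cK_blocks]
    rw [hTC, DM, skew_blocks M.spD hpol.spD, neg_mul, add_neg_cancel]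

include hk in
/-- The direct sum of independent Hodge structures. -/
theorem kx_of_sum (hM : IsSum M W) (hind : ∀ i j, Indep (V i) (W j))
    (hs : ∀ i, (V i).IsSimple) (h1 : ∀ i, Module.finrank ℂ ((V i).H (Fin.last (k i))) = 1) :
    Kx M V := by
  intro i v hv hvm
  obtain ⟨p, hinj, hl, hm⟩ := hM
  obtain ⟨inc, hinc1, hinc2, hinc3⟩ := exists_inc hinj hl
  have hpD := sum_comm_D M W hm
  have hiD : ∀ j, M.D * cK ℂ (inc j) = cK ℂ (inc j) * (W j).D := by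
    intro j
    have e1 : M.D * cK ℂ (inc j) = ∑ j', cK ℂ (inc j') * (cK ℂ (p j') * M.D) * cK ℂ (inc j) := by
      have e2 : (1 : Matrix (Fin l) (Fin l) ℂ) = ∑ j', cK ℂ (inc j') * cK ℂ (p j') := by
        rw [← cK_one, ← hinc3, cK_sum]
        exact Finset.sum_congr rfl fun j _ => by rw [cK_mul]
      conv_lhs => rw [← Matrix.one_mul (M.D * cK ℂ (inc j)), e2, Matrix.sum_mul]
      refine Finset.sum_congr rfl fun j' _ => ?_
      simp only [Matrix.mul_assoc]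
    rw [e1, Finset.sum_eq_single j]
    · rw [hpD, Matrix.mul_assoc, Matrix.mul_assoc, ← cK_mul, hinc1, cK_one, Matrix.mul_one]
    · intro j' _ hj'
      rw [hpD, Matrix.mul_assoc, Matrix.mul_assoc, ← cK_mul, hinc2 j' j hj', cK_zero,
        Matrix.mul_zero, Matrix.mul_zero]
    · intro h
      exact absurd (Finset.mem_univ _) h
  obtain ⟨T, hT⟩ := frm_all M V hk
  obtain ⟨K, hKd⟩ : ∃ K : ℤ, K = ∑ j, (k j : ℤ) + ∑ j, (w j : ℤ) + d := ⟨_, rfl⟩
  have hk0 : 0 ≤ ∑ j, (k j : ℤ) := Finset.sum_nonneg fun j _ => by positivity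
  have hw0 : 0 ≤ ∑ j, (w j : ℤ) := Finset.sum_nonneg fun j _ => by positivity
  have hKk : ∀ i, (k i : ℤ) ≤ K := fun i => by
    have h2 : (k i : ℤ) ≤ ∑ j, (k j : ℤ) :=
      Finset.single_le_sum (f := fun j => (k j : ℤ)) (fun j _ => by positivity)
        (Finset.mem_univ i)
    omega
  have hKw : ∀ j, (w j : ℤ) ≤ K := fun j => by
    have h2 : (w j : ℤ) ≤ ∑ j, (w j : ℤ) :=
      Finset.single_le_sum (f := fun j => (w j : ℤ)) (fun j _ => by positivity)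
        (Finset.mem_univ j)
    omega
  have hKM : (d : ℤ) ≤ K := by omega
  have hproj := gP_proj (blO M V) (projO M V hk hKk hKM)
  have hb : Bk (DM M V) (V i).D (pm N i * RR l N) (pm N i * RR l N)ᵀ := by
    refine ⟨(blO M V).same (some i), (blO M V).com (some i), ?_⟩
    have h2 := (blO M V).mul_inc (D_mem (DM M V)) (some i)
    rw [(blO M V).bl_D] at h2
    exact h2
  have hMi : DM M V * cK ℂ (PL l N)ᵀ = cK ℂ (PL l N)ᵀ * M.D := by
    have h2 := (blO M V).mul_inc (D_mem (DM M V)) none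
    rw [(blO M V).bl_D] at h2
    exact h2
  have hb' : ∀ j, Bk (DM M V) (W j).D (p j * PL l N) ((PL l N)ᵀ * inc j) := by
    intro j
    refine ⟨?_, ?_, ?_⟩
    · rw [Matrix.mul_assoc, ← Matrix.mul_assoc (PL l N), PL_same, Matrix.one_mul, hinc1]
    · rw [cK_mul, Matrix.mul_assoc, PL_DM, ← Matrix.mul_assoc, hpD, Matrix.mul_assoc]
    · rw [cK_mul, ← Matrix.mul_assoc, hMi, Matrix.mul_assoc, hiD, ← Matrix.mul_assoc]
  obtain ⟨X, hX, hX0, hXv⟩ := exists_all hproj hT (V i) (hk i) (hKk i) hb W hKw hb' (hs i) (h1 i)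
    hv hvm (hind i) (fun x hx y hy => im_pairs M V hk i hv hvm x hx y hy)
  refine ⟨X, hX, ?_, hXv⟩
  change cK ℂ (PL l N) * X * (cK ℂ (PL l N))ᵀ = 0
  have e2 : (1 : Matrix (Fin l) (Fin l) ℂ) = ∑ j', cK ℂ (inc j') * cK ℂ (p j') := by
    rw [← cK_one, ← hinc3, cK_sum]
    exact Finset.sum_congr rfl fun j _ => by rw [cK_mul]
  rw [← Matrix.mul_one (cK ℂ (PL l N) * X * (cK ℂ (PL l N))ᵀ), e2, Matrix.mul_sum]
  refine Finset.sum_eq_zero fun j _ => ?_
  have h2 := (hb' j).mul_inc hT hX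
  rw [hX0 j, Matrix.mul_zero, cK_mul] at h2
  have h3 : cK ℂ (PL l N) * X * (cK ℂ (PL l N))ᵀ * (cK ℂ (inc j) * cK ℂ (p j)) =
      cK ℂ (PL l N) * (X * (cK ℂ (PL l N)ᵀ * cK ℂ (inc j))) * cK ℂ (p j) := by
    rw [cK_transpose]
    simp only [Matrix.mul_assoc]
  rw [h3, h2, Matrix.mul_zero, Matrix.zero_mul]

end kx

end Run7.h853.Cy
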