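import Mathlib
import Pool.Agent.Run7.h853.Cy.Defs4
import Pool.Agent.Run7.h853.Cy.Rm10
import Pool.Agent.Run7.h853.Cy.Q4b
import Pool.Agent.Run7.h853.Cy.Z9
import Pool.Agent.Run7.h853.Cy.Rel4

/-!
# The final theorem
-/

set_option linter.unusedSectionVars false

namespace Run7.h853.Cy

open Matrix Pool.Agent.W437.CY

theorem gd_gen {k N : ℕ} (hk : Odd k) (V : PolHS k N) (hV : CYGen V) : Gd V := by
  obtain ⟨hs, h1, hq | ⟨rfl, hR, hT, hm⟩⟩ := hV
  · exact gd_quartic V hk hs h1 hq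
  · exact gd_rm V hs h1 hR hT hm

theorem final {ι : Type} [Fintype ι] [DecidableEq ι] {k N : ι → ℕ} (hk : ∀ i, Odd (k i))
    (V : ∀ i, PolHS (k i) (N i)) (hV : ∀ i, CYGen (V i))
    {d l : ℕ} (M : LowHS d l) {J : Type} [Fintype J] {w e : J → ℕ} (W : ∀ j, PolHS (w j) (e j))
    (hM : IsSum M W) (hi : ∀ i j, Indep (V i) (W j)) {n : ℕ}
    {A : ∀ κ : Type, Submodule ℚ ((κ → Bas l N) → ℚ)}
    (hA : IsSys M V n A) {κ : Type} [Fintype κ] (c : (κ → Bas l N) → ℚ)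
    (hc : IsHodgeClass M V c)
    (hn : ∀ I, c I ≠ 0 → (Finset.univ.filter fun j => (I j).isLeft = true).card ≤ n) :
    c ∈ A κ := by
  classical
  exact main' M V hk (kx_of_sum M V hk W hM hi (fun i => (hV i).1) fun i => (hV i).2.1)
    (fun i => gd_gen (hk i) (V i) (hV i)) hA c hc hn

end Run7.h853.Cy
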